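import Mathlib

/-!
Translations, carriers and separation in `L_p(ℝ; E)`.
-/

open MeasureTheory Filter Topology Complex
open scoped ENNReal

namespace Pool.Agent.Lib.MP89175a

variable {E : Type*} [NormedAddCommGroup E] [NormedSpace ℝ E] {P : ℝ≥0∞} [hP : Fact (1 ≤ P)]

/-- translation on `L_P(ℝ;E)` -/
noncomputable def tr (s : ℝ) : Lp E P (volume : Measure ℝ) →ₗᵢ[ℝ] Lp E P (volume : Measure ℝ) :=
  Lp.compMeasurePreservingₗᵢ ℝ (fun y : ℝ => y - s) (measurePreserving_sub_right volume s)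

theorem tr_coeFn (s : ℝ) (F : Lp E P (volume : Measure ℝ)) :
    tr s F =ᵐ[volume] fun y => F (y - s) :=
  Lp.coeFn_compMeasurePreserving F (measurePreserving_sub_right volume s)

omit [NormedAddCommGroup E] [NormedSpace ℝ E] in
theorem tr_congr (s : ℝ) {f g : ℝ → E} (h : f =ᵐ[volume] g) :
    (fun y => f (y - s)) =ᵐ[volume] fun y => g (y - s) :=
  (measurePreserving_sub_right volume s).quasiMeasurePreserving.ae_eq_comp h

theorem tr_add (s t : ℝ) (F : Lp E P (volume : Measure ℝ)) : tr (s + t) F = tr s (tr t F) := by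
  apply Lp.ext
  refine (tr_coeFn _ _).trans (EventuallyEq.symm ((tr_coeFn _ _).trans ?_))
  refine (tr_congr s (tr_coeFn t F)).trans ?_
  filter_upwards with y
  congr 1
  ring

theorem tr_zero (F : Lp E P (volume : Measure ℝ)) : tr 0 F = F := by
  apply Lp.ext
  refine (tr_coeFn _ _).trans ?_
  simp

theorem norm_tr (s : ℝ) (F : Lp E P (volume : Measure ℝ)) : ‖tr s F‖ = ‖F‖ := (tr s).norm_map F

theorem tr_csmul (s : ℝ) (c : ℂ) (F : Lp ℂ P (volume : Measure ℝ)) :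
    tr s (c • F) = c • tr s F := by
  apply Lp.ext
  refine (tr_coeFn _ _).trans (EventuallyEq.symm ?_)
  have h1 := tr_congr s (Lp.coeFn_smul c F)
  have h2 := Lp.coeFn_smul c (tr s F)
  have h3 := tr_coeFn s F
  filter_upwards [h1, h2, h3] with y h1 h2 h3
  rw [h2, Pi.smul_apply, h3, h1, Pi.smul_apply]

theorem tendsto_tr (hP' : P ≠ ∞) (F : Lp E P (volume : Measure ℝ)) :
    Tendsto (fun s => tr s F) (𝓝 0) (𝓝 F) := by
  have key := Filter.Tendsto.compMeasurePreservingLp (μ := (volume : Measure ℝ)) (ν := volume) (p := P)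
    (E := E) (l := 𝓝 (0 : ℝ))
    (f := fun _ : ℝ => F) (f₀ := F)
    (g := fun s : ℝ => (⟨fun y => y - s, by fun_prop⟩ : C(ℝ, ℝ)))
    (g₀ := (⟨fun y => y - 0, by fun_prop⟩ : C(ℝ, ℝ))) tendsto_const_nhds ?_
    (fun s => measurePreserving_sub_right volume s) (measurePreserving_sub_right volume 0) hP'
  · have h0 : Lp.compMeasurePreserving (fun y : ℝ => y - 0) (measurePreserving_sub_right volume 0) F = F :=
      tr_zero F
    have key2 : Tendsto (fun s => tr s F) (𝓝 0)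
      (𝓝 (Lp.compMeasurePreserving (fun y : ℝ => y - 0) (measurePreserving_sub_right volume 0) F)) := key
    rwa [h0] at key2
  · apply Continuous.tendsto'
    · apply ContinuousMap.continuous_of_continuous_uncurry
      show Continuous fun z : ℝ × ℝ => z.2 - z.1
      fun_prop
    · rfl

theorem eventually_tr (hP' : P ≠ ∞) (F : Lp E P (volume : Measure ℝ)) {ε : ℝ} (hε : 0 < ε) :
    ∀ᶠ s in 𝓝 (0 : ℝ), ‖tr s F - F‖ < ε := by
  have := (tendsto_iff_norm_sub_tendsto_zero.1 (tendsto_tr hP' F))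
  exact this.eventually (gt_mem_nhds hε)

/-- the character `e^{2π i K y}` -/
noncomputable def ee (K : ℝ) (y : ℝ) : ℂ := exp (2 * Real.pi * I * (K * y))

theorem norm_ee (K y : ℝ) : ‖ee K y‖ = 1 := by
  unfold ee
  rw [show (2 * Real.pi * I * (K * y) : ℂ) = ((2 * Real.pi * (K * y) : ℝ) : ℂ) * I by push_cast; ring]
  exact norm_exp_ofReal_mul_I _

theorem continuous_ee (K : ℝ) : Continuous (ee K) := by
  unfold ee
  fun_prop

omit hP in
theorem memLp_ee (K : ℝ) (w : Lp ℂ P (volume : Measure ℝ)) :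
    MemLp (fun y => ee K y * w y) P volume :=
  (Lp.memLp w).congr_norm ((continuous_ee K).aestronglyMeasurable.mul (Lp.aestronglyMeasurable w))
      (by filter_upwards with y; rw [norm_mul, norm_ee, one_mul])

/-- multiplication by the character -/
noncomputable def mulE (K : ℝ) : Lp ℂ P (volume : Measure ℝ) →ₗᵢ[ℂ] Lp ℂ P (volume : Measure ℝ) where
  toFun w := MemLp.toLp (fun y => ee K y * w y) (memLp_ee K w)
  map_add' w v := by
    apply Lp.ext
    refine (MemLp.coeFn_toLp _).trans (EventuallyEq.symm ((Lp.coeFn_add _ _).trans ?_))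
    filter_upwards [Lp.coeFn_add w v, MemLp.coeFn_toLp (memLp_ee K w),
      MemLp.coeFn_toLp (memLp_ee K v)] with y h1 h2 h3
    rw [h1, Pi.add_apply, Pi.add_apply, h2, h3, mul_add]
  map_smul' c w := by
    apply Lp.ext
    refine (MemLp.coeFn_toLp _).trans (EventuallyEq.symm ((Lp.coeFn_smul _ _).trans ?_))
    filter_upwards [Lp.coeFn_smul c w, MemLp.coeFn_toLp (memLp_ee K w)] with y h1 h2
    rw [h1, RingHom.id_apply, Pi.smul_apply, Pi.smul_apply, h2, smul_eq_mul, smul_eq_mul]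
    ring
  norm_map' w := by
    show ‖MemLp.toLp (fun y => ee K y * w y) (memLp_ee K w)‖ = _
    rw [Lp.norm_toLp, Lp.norm_def]
    congr 1
    apply eLpNorm_congr_norm_ae
    filter_upwards with y
    rw [norm_mul, norm_ee, one_mul]

theorem mulE_coeFn (K : ℝ) (w : Lp ℂ P (volume : Measure ℝ)) :
    mulE K w =ᵐ[volume] fun y => ee K y * w y :=
  MemLp.coeFn_toLp (memLp_ee K w)

theorem ee_add (K x y : ℝ) : ee K (x + y) = ee K x * ee K y := by
  unfold ee
  rw [← Complex.exp_add]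
  congr 1
  push_cast
  ring

theorem ee_sub (K x y : ℝ) : ee K (x - y) = ee K (-y) * ee K x := by
  rw [← ee_add]
  congr 1
  ring

theorem tr_mulE (s K : ℝ) (w : Lp ℂ P (volume : Measure ℝ)) :
    tr s (mulE K w) = ee K (-s) • mulE K (tr s w) := by
  apply Lp.ext
  filter_upwards [tr_coeFn s (mulE K w), tr_congr s (mulE_coeFn K w),
    Lp.coeFn_smul (ee K (-s)) (mulE K (tr s w)), mulE_coeFn K (tr s w), tr_coeFn s w] with y h1 h2 h3 h4 h5
  rw [h1, h2, h3, Pi.smul_apply, h4, h5, ee_sub, smul_eq_mul, mul_assoc]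

theorem tr_compLp {F : Type*} [NormedAddCommGroup F] [NormedSpace ℝ F] (L : E →L[ℝ] F) (s : ℝ)
    (w : Lp E P (volume : Measure ℝ)) : tr s (L.compLp w) = L.compLp (tr s w) := by
  apply Lp.ext
  filter_upwards [tr_coeFn s (L.compLp w), tr_congr s (L.coeFn_compLp w), L.coeFn_compLp (tr s w),
    tr_coeFn s w] with y h1 h2 h3 h4
  rw [h1, h2, h3, h4]

/-- the carrier operator `w ↦ L(e_K w)` -/
noncomputable def carr (L : ℂ →L[ℝ] E) (K : ℝ) (w : Lp ℂ P (volume : Measure ℝ)) :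
    Lp E P (volume : Measure ℝ) := L.compLp (mulE K w)

theorem carr_coeFn (L : ℂ →L[ℝ] E) (K : ℝ) (w : Lp ℂ P (volume : Measure ℝ)) :
    carr L K w =ᵐ[volume] fun y => L (ee K y * w y) := by
  filter_upwards [L.coeFn_compLp (mulE K w), mulE_coeFn K w] with y h1 h2
  rw [carr, h1, h2]

theorem carr_add (L : ℂ →L[ℝ] E) (K : ℝ) (w v : Lp ℂ P (volume : Measure ℝ)) :
    carr L K (w + v) = carr L K w + carr L K v := by
  unfold carr
  rw [map_add]
  exact (L.compLpₗ P volume).map_add _ _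

theorem carr_smul (L : ℂ →L[ℝ] E) (K : ℝ) (c : ℝ) (w : Lp ℂ P (volume : Measure ℝ)) :
    carr L K (c • w) = c • carr L K w := by
  unfold carr
  rw [show mulE K (c • w) = c • mulE K w from
    ((mulE K).toLinearMap.restrictScalars ℝ).map_smul c w]
  exact (L.compLpₗ P volume).map_smul _ _

/-- the carrier operator as a linear map -/
noncomputable def carrₗ (L : ℂ →L[ℝ] E) (K : ℝ) :
    Lp ℂ P (volume : Measure ℝ) →ₗ[ℝ] Lp E P (volume : Measure ℝ) where
  toFun := carr L K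
  map_add' := carr_add L K
  map_smul' c w := carr_smul L K c w

theorem carrₗ_apply (L : ℂ →L[ℝ] E) (K : ℝ) (w : Lp ℂ P (volume : Measure ℝ)) :
    carrₗ L K w = carr L K w := rfl

theorem norm_carr_le (L : ℂ →L[ℝ] E) (hL : ‖L‖ ≤ 1) (K : ℝ) (w : Lp ℂ P (volume : Measure ℝ)) :
    ‖carr L K w‖ ≤ ‖w‖ := by
  unfold carr
  calc ‖L.compLp (mulE K w)‖ ≤ ‖L‖ * ‖mulE K w‖ := L.norm_compLp_le _
    _ ≤ 1 * ‖mulE K w‖ := by gcongr
    _ = ‖w‖ := by rw [one_mul, LinearIsometry.norm_map]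

theorem tr_carr (L : ℂ →L[ℝ] E) (s K : ℝ) (w : Lp ℂ P (volume : Measure ℝ)) :
    tr s (carr L K w) = carr L K (ee K (-s) • tr s w) := by
  unfold carr
  rw [tr_compLp, tr_mulE, map_smul]

/-- phase lemma -/
theorem phase (L : ℂ →L[ℝ] E) (hL : ‖L‖ ≤ 1) (s K : ℝ) (V : Lp E P (volume : Measure ℝ))
    (w : Lp ℂ P (volume : Measure ℝ)) :
    |‖V + carr L K w‖ - ‖V + carr L K (ee K (-s) • w)‖| ≤ ‖tr s V - V‖ + ‖tr s w - w‖ := by
  have h1 : ‖V + carr L K w‖ = ‖tr s V + carr L K (ee K (-s) • tr s w)‖ := by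
    rw [← norm_tr s, map_add, tr_carr]
  rw [h1]
  refine (abs_norm_sub_norm_le _ _).trans ?_
  have h2 : tr s V + carr L K (ee K (-s) • tr s w) - (V + carr L K (ee K (-s) • w)) =
      (tr s V - V) + carr L K (ee K (-s) • (tr s w - w)) := by
    have : carr L K (ee K (-s) • tr s w) = carr L K (ee K (-s) • w) + carr L K (ee K (-s) • (tr s w - w)) := by
      rw [← carr_add]
      congr 1
      rw [← smul_add]
      congr 1
      abel
    rw [this]
    abel
  rw [h2]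
  refine (norm_add_le _ _).trans ?_
  gcongr
  refine (norm_carr_le L hL _ _).trans ?_
  rw [norm_smul, norm_ee, one_mul]

theorem norm_tr_comb_sub_le {ι : Type*} (S : Finset ι) (s : ℝ) (u : ι → Lp E P (volume : Measure ℝ))
    (a : ι → ℝ) {ε : ℝ} (h : ∀ i ∈ S, ‖tr s (u i) - u i‖ ≤ ε) :
    ‖tr s (∑ i ∈ S, a i • u i) - ∑ i ∈ S, a i • u i‖ ≤ ε * ∑ i ∈ S, |a i| := by
  rw [map_sum, ← Finset.sum_sub_distrib, Finset.mul_sum]
  refine (norm_sum_le _ _).trans (Finset.sum_le_sum fun i hi => ?_)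
  rw [map_smul, ← smul_sub, norm_smul, Real.norm_eq_abs, mul_comm]
  exact mul_le_mul_of_nonneg_right (h i hi) (abs_nonneg _)

theorem ee_phase {K : ℝ} (hK : 0 < K) (r : ℝ) : ee K (- -(r / K)) = ee 1 r := by
  unfold ee
  rw [neg_neg]
  congr 2
  rw [← Complex.ofReal_mul, ← Complex.ofReal_mul, mul_div_cancel₀ _ hK.ne', one_mul]

theorem small_tr_family {ι : Type*} (hP' : P ≠ ∞) (S : Finset ι)
    (u : ι → Lp E P (volume : Measure ℝ)) {ε : ℝ} (hε : 0 < ε) :
    ∃ δ : ℝ, 0 < δ ∧ ∀ s : ℝ, |s| < δ → ∀ i ∈ S, ‖tr s (u i) - u i‖ ≤ ε := by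
  have h : ∀ᶠ s in 𝓝 (0 : ℝ), ∀ i ∈ S, ‖tr s (u i) - u i‖ < ε :=
    (Filter.eventually_all_finset S).2 fun i _ => eventually_tr hP' (u i) hε
  obtain ⟨δ, hδ, h⟩ := Metric.eventually_nhds_iff.1 h
  refine ⟨δ, hδ, fun s hs i hi => (h ?_ i hi).le⟩
  rwa [Real.dist_eq, sub_zero]

theorem phase_family {ι κ : Type*} (hP' : P ≠ ∞) (L : ℂ →L[ℝ] E) (hL : ‖L‖ ≤ 1) (S : Finset ι)
    (u : ι → Lp E P (volume : Measure ℝ)) (T : Finset κ)
    (w : κ → Lp ℂ P (volume : Measure ℝ)) {ε : ℝ} (hε : 0 < ε) :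
    ∃ K₀ : ℝ, 0 < K₀ ∧ ∀ K : ℝ, K₀ ≤ K → ∀ r : ℝ, 0 ≤ r → r ≤ 1 → ∀ (a : ι → ℝ) (b : κ → ℝ),
      |‖∑ i ∈ S, a i • u i + carr L K (∑ j ∈ T, b j • w j)‖ -
        ‖∑ i ∈ S, a i • u i + carr L K (ee 1 r • ∑ j ∈ T, b j • w j)‖| ≤
          ε * (∑ i ∈ S, |a i| + ∑ j ∈ T, |b j|) := by
  obtain ⟨δ₁, hδ₁, h₁⟩ := small_tr_family hP' S u hε
  obtain ⟨δ₂, hδ₂, h₂⟩ := small_tr_family hP' T w hε
  refine ⟨2 / min δ₁ δ₂, by positivity, fun K hK r hr0 hr1 a b => ?_⟩
  have hm : 0 < min δ₁ δ₂ := lt_min hδ₁ hδ₂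
  have hK0 : 0 < K := lt_of_lt_of_le (by positivity) hK
  have hs : |(-(r / K))| < min δ₁ δ₂ := by
    rw [abs_neg, abs_of_nonneg (by positivity), div_lt_iff₀ hK0]
    rw [div_le_iff₀ hm] at hK
    nlinarith
  have := phase L hL (-(r / K)) K (∑ i ∈ S, a i • u i) (∑ j ∈ T, b j • w j)
  rw [ee_phase hK0] at this
  refine this.trans ?_
  rw [mul_add]
  exact add_le_add (norm_tr_comb_sub_le S _ u a (h₁ _ (hs.trans_le (min_le_left _ _))))
    (norm_tr_comb_sub_le T _ w b (h₂ _ (hs.trans_le (min_le_right _ _))))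

theorem ee_one_half : ee 1 (1 / 2) = -1 := by
  unfold ee
  rw [← Complex.exp_pi_mul_I]
  congr 1
  push_cast
  ring

theorem ee_one_quarter : ee 1 (1 / 4) = I := by
  unfold ee
  have : (2 * Real.pi * I * ((1 : ℝ) * (1 / 4 : ℝ)) : ℂ) = (Real.pi / 2 : ℂ) * I := by
    push_cast
    ring
  rw [this, Complex.exp_pi_div_two_mul_I]

theorem carr_neg (L : ℂ →L[ℝ] E) (K : ℝ) (w : Lp ℂ P (volume : Measure ℝ)) :
    carr L K (-w) = - carr L K w := (carrₗ L K).map_neg w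

/-- the carrier to real functions -/
noncomputable abbrev MK (K : ℝ) (w : Lp ℂ P (volume : Measure ℝ)) : Lp ℝ P (volume : Measure ℝ) :=
  carr Complex.reCLM K w

theorem norm_reCLM_le : ‖Complex.reCLM‖ ≤ 1 := by
  rw [Complex.reCLM_norm]

theorem norm_le_MK_add (K : ℝ) (w : Lp ℂ P (volume : Measure ℝ)) :
    ‖w‖ ≤ ‖MK K w‖ + ‖MK K (I • w)‖ := by
  have h : mulE K w = Complex.ofRealCLM.compLp (MK K w) - I • Complex.ofRealCLM.compLp (MK K (I • w)) := by
    apply Lp.ext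
    filter_upwards [mulE_coeFn K w, Lp.coeFn_sub (Complex.ofRealCLM.compLp (MK K w))
      (I • Complex.ofRealCLM.compLp (MK K (I • w))), Complex.ofRealCLM.coeFn_compLp (MK K w),
      Complex.ofRealCLM.coeFn_compLp (MK K (I • w)), Lp.coeFn_smul I (Complex.ofRealCLM.compLp (MK K (I • w))),
      carr_coeFn Complex.reCLM K w, carr_coeFn Complex.reCLM K (I • w), Lp.coeFn_smul I w]
      with y h1 h2 h3 h4 h5 h6 h7 h8
    rw [h2, Pi.sub_apply, h3, h5, Pi.smul_apply, h4, h6, h7, h8, h1, Pi.smul_apply]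
    simp only [Complex.reCLM_apply, Complex.ofRealCLM_apply, smul_eq_mul]
    apply Complex.ext
    · simp
    · simp
      ring
  rw [← (mulE K).norm_map w, h]
  refine (norm_sub_le _ _).trans ?_
  rw [norm_smul, Complex.norm_I, one_mul]
  have h1 : ∀ v : Lp ℝ P (volume : Measure ℝ), ‖Complex.ofRealCLM.compLp v‖ ≤ ‖v‖ := by
    intro v
    calc _ ≤ ‖Complex.ofRealCLM‖ * ‖v‖ := ContinuousLinearMap.norm_compLp_le _ _
      _ = ‖v‖ := by rw [Complex.ofRealCLM_norm, one_mul]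
  exact add_le_add (h1 _) (h1 _)

theorem carrier_family {ι κ : Type*} (hP' : P ≠ ∞) (S : Finset ι)
    (u : ι → Lp ℝ P (volume : Measure ℝ)) (T : Finset κ)
    (w : κ → Lp ℂ P (volume : Measure ℝ)) {ε : ℝ} (hε : 0 < ε) :
    ∃ K₀ : ℝ, 0 < K₀ ∧ ∀ K : ℝ, K₀ ≤ K → ∀ (a : ι → ℝ) (b : κ → ℝ),
      ‖∑ i ∈ S, a i • u i‖ ≤ ‖∑ i ∈ S, a i • u i + MK K (∑ j ∈ T, b j • w j)‖ +
          ε * (∑ i ∈ S, |a i| + ∑ j ∈ T, |b j|) ∧
      ‖∑ j ∈ T, b j • w j‖ ≤ 2 * ‖MK K (∑ j ∈ T, b j • w j)‖ + ε * ∑ j ∈ T, |b j| := by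
  obtain ⟨K₀, hK₀, h⟩ := phase_family hP' Complex.reCLM norm_reCLM_le S u T w hε
  refine ⟨K₀, hK₀, fun K hK a b => ⟨?_, ?_⟩⟩
  · have h1 := h K hK (1 / 2) (by norm_num) (by norm_num) a b
    rw [ee_one_half, neg_one_smul, carr_neg] at h1
    set V := ∑ i ∈ S, a i • u i
    set W := MK K (∑ j ∈ T, b j • w j)
    have h2 : ‖V‖ ≤ 1 / 2 * (‖V + W‖ + ‖V + -W‖) := by
      have : V = (1 / 2 : ℝ) • ((V + W) + (V + -W)) := by
        rw [show (V + W) + (V + -W) = (2 : ℝ) • V by rw [two_smul]; abel, smul_smul]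
        norm_num
      calc ‖V‖ = ‖(1 / 2 : ℝ) • ((V + W) + (V + -W))‖ := by rw [← this]
        _ = 1 / 2 * ‖(V + W) + (V + -W)‖ := by rw [norm_smul]; norm_num
        _ ≤ _ := by gcongr; exact norm_add_le _ _
    have h3 := (abs_le.1 h1).1
    have h4 : 0 ≤ ε * (∑ i ∈ S, |a i| + ∑ j ∈ T, |b j|) := by positivity
    linarith
  · have h1 := h K hK (1 / 4) (by norm_num) (by norm_num) (fun _ => 0) b
    rw [ee_one_quarter] at h1
    simp only [zero_smul, Finset.sum_const_zero, zero_add, abs_zero] at h1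
    have h2 := norm_le_MK_add K (∑ j ∈ T, b j • w j)
    have h3 := (abs_le.1 h1).1
    linarith

omit [NormedSpace ℝ E] hP in
theorem memLp_restr (s : Set ℝ) (hs : MeasurableSet s) (F : Lp E P (volume : Measure ℝ)) :
    MemLp (s.indicator (F : ℝ → E)) P volume := (Lp.memLp F).indicator hs

/-- restriction to a measurable set -/
noncomputable def restrFun (s : Set ℝ) (hs : MeasurableSet s) (F : Lp E P (volume : Measure ℝ)) :
    Lp E P (volume : Measure ℝ) :=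
  MemLp.toLp (s.indicator (F : ℝ → E)) (memLp_restr s hs F)

omit [NormedSpace ℝ E] hP in
theorem restrFun_coeFn (s : Set ℝ) (hs : MeasurableSet s) (F : Lp E P (volume : Measure ℝ)) :
    (restrFun s hs F : ℝ → E) =ᵐ[volume] s.indicator (F : ℝ → E) :=
  MemLp.coeFn_toLp (memLp_restr s hs F)

/-- restriction to a measurable set -/
noncomputable def restr (s : Set ℝ) (hs : MeasurableSet s) :
    Lp E P (volume : Measure ℝ) →ₗ[ℝ] Lp E P (volume : Measure ℝ) where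
  toFun F := restrFun s hs F
  map_add' F G := by
    apply Lp.ext
    filter_upwards [Lp.coeFn_add F G, restrFun_coeFn s hs F, restrFun_coeFn s hs G,
      restrFun_coeFn s hs (F + G), Lp.coeFn_add (restrFun s hs F) (restrFun s hs G)] with y h1 h2 h3 h4 h5
    rw [h5, h4, Pi.add_apply, h2, h3]
    by_cases hy : y ∈ s
    · rw [Set.indicator_of_mem hy, Set.indicator_of_mem hy, Set.indicator_of_mem hy, h1, Pi.add_apply]
    · rw [Set.indicator_of_notMem hy, Set.indicator_of_notMem hy, Set.indicator_of_notMem hy, add_zero]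
  map_smul' c F := by
    apply Lp.ext
    filter_upwards [Lp.coeFn_smul c F, restrFun_coeFn s hs F,
      restrFun_coeFn s hs (c • F), Lp.coeFn_smul c (restrFun s hs F)] with y h1 h2 h4 h5
    rw [RingHom.id_apply, h5, h4, Pi.smul_apply, h2]
    by_cases hy : y ∈ s
    · rw [Set.indicator_of_mem hy, Set.indicator_of_mem hy, h1, Pi.smul_apply]
    · rw [Set.indicator_of_notMem hy, Set.indicator_of_notMem hy, smul_zero]

omit hP in
theorem restr_coeFn (s : Set ℝ) (hs : MeasurableSet s) (F : Lp E P (volume : Measure ℝ)) :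
    (restr s hs F : ℝ → E) =ᵐ[volume] s.indicator (F : ℝ → E) :=
  restrFun_coeFn s hs F

theorem norm_restr_le (s : Set ℝ) (hs : MeasurableSet s) (F : Lp E P (volume : Measure ℝ)) :
    ‖restr s hs F‖ ≤ ‖F‖ := by
  apply Lp.norm_le_norm_of_ae_le
  filter_upwards [restr_coeFn s hs F] with y hy
  rw [hy]
  exact norm_indicator_le_norm_self _ _

theorem restr_add_compl (s : Set ℝ) (hs : MeasurableSet s) (F : Lp E P (volume : Measure ℝ)) :
    restr s hs F + restr sᶜ hs.compl F = F := by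
  apply Lp.ext
  filter_upwards [Lp.coeFn_add (restr s hs F) (restr sᶜ hs.compl F), restr_coeFn s hs F,
    restr_coeFn sᶜ hs.compl F] with y h1 h2 h3
  rw [h1, Pi.add_apply, h2, h3, Set.indicator_self_add_compl_apply]

omit hP in
/-- every element is almost supported in a ball -/
theorem exists_ball (hP' : P ≠ ∞) (F : Lp E P (volume : Measure ℝ)) {ε : ℝ} (hε : 0 < ε) :
    ∃ R : ℝ, 0 < R ∧ ∃ G : Lp E P (volume : Measure ℝ), ‖F - G‖ ≤ ε ∧
      (∀ᵐ y, y ∉ Set.Icc (-R) R → G y = 0) := by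
  obtain ⟨g, hg, hle, hgc, hgL⟩ := (Lp.memLp F).exists_hasCompactSupport_eLpNorm_sub_le hP'
    (ε := ENNReal.ofReal ε) (by simpa using hε)
  obtain ⟨R, hR⟩ := hg.isCompact.isBounded.subset_closedBall (0 : ℝ)
  refine ⟨max R 1, by positivity, hgL.toLp g, ?_, ?_⟩
  · rw [Lp.norm_def]
    refine ENNReal.toReal_le_of_le_ofReal hε.le ?_
    refine le_trans (le_of_eq ?_) hle
    apply eLpNorm_congr_ae
    filter_upwards [Lp.coeFn_sub F (hgL.toLp g), MemLp.coeFn_toLp hgL] with y h1 h2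
    rw [h1, Pi.sub_apply, Pi.sub_apply, h2]
  · filter_upwards [MemLp.coeFn_toLp hgL] with y h1 h2
    rw [h1]
    by_contra h3
    apply h2
    have h4 := hR (subset_tsupport g h3)
    rw [Metric.mem_closedBall, Real.dist_eq, sub_zero] at h4
    exact abs_le.1 (h4.trans (le_max_left _ _))

/-- separation at one element -/
theorem restr_tr_small (hP' : P ≠ ∞) (F : Lp E P (volume : Measure ℝ)) {ε : ℝ} (hε : 0 < ε) :
    ∃ R : ℝ, 0 < R ∧ ∀ T : ℝ, R ≤ T →
      ‖restr (Set.Icc (-T) T)ᶜ measurableSet_Icc.compl F‖ ≤ ε ∧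
      ∀ S : ℝ, T + R < |S| → ‖restr (Set.Icc (-T) T) measurableSet_Icc (tr S F)‖ ≤ ε := by
  obtain ⟨R, hR, G, hG, hG0⟩ := exists_ball hP' F hε
  refine ⟨R, hR, fun T hT => ⟨?_, fun S hS => ?_⟩⟩
  · have h1 : restr (Set.Icc (-T) T)ᶜ measurableSet_Icc.compl G = 0 := by
      apply Lp.ext
      filter_upwards [restr_coeFn (Set.Icc (-T) T)ᶜ measurableSet_Icc.compl G, hG0,
        Lp.coeFn_zero (E := E) (p := P) (μ := (volume : Measure ℝ))] with y h1 h2 h3
      rw [h1, h3, Pi.zero_apply]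
      by_cases hy : y ∈ (Set.Icc (-T) T)ᶜ
      · rw [Set.indicator_of_mem hy]
        apply h2
        intro h4
        apply hy
        exact ⟨by linarith [h4.1], by linarith [h4.2]⟩
      · rw [Set.indicator_of_notMem hy]
    calc ‖restr (Set.Icc (-T) T)ᶜ measurableSet_Icc.compl F‖
        = ‖restr (Set.Icc (-T) T)ᶜ measurableSet_Icc.compl (F - G)‖ := by rw [map_sub, h1, sub_zero]
      _ ≤ ‖F - G‖ := norm_restr_le _ _ _
      _ ≤ ε := hG
  · have h1 : restr (Set.Icc (-T) T) measurableSet_Icc (tr S G) = 0 := by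
      apply Lp.ext
      have h0 : ∀ᵐ y, y - S ∉ Set.Icc (-R) R → G (y - S) = 0 :=
        (measurePreserving_sub_right volume S).quasiMeasurePreserving.ae hG0
      filter_upwards [restr_coeFn (Set.Icc (-T) T) measurableSet_Icc (tr S G), h0, tr_coeFn S G,
        Lp.coeFn_zero (E := E) (p := P) (μ := (volume : Measure ℝ))] with y h1 h2 h3 h4
      rw [h1, h4, Pi.zero_apply]
      by_cases hy : y ∈ (Set.Icc (-T) T)
      · rw [Set.indicator_of_mem hy, h3]
        apply h2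
        intro h5
        have h6 : |S| ≤ T + R := by
          rw [abs_le]
          exact ⟨by linarith [h5.1, h5.2, hy.1, hy.2], by linarith [h5.1, h5.2, hy.1, hy.2]⟩
        linarith
      · rw [Set.indicator_of_notMem hy]
    calc ‖restr (Set.Icc (-T) T) measurableSet_Icc (tr S F)‖
        = ‖restr (Set.Icc (-T) T) measurableSet_Icc (tr S (F - G))‖ := by
          rw [map_sub, map_sub, h1, sub_zero]
      _ ≤ ‖tr S (F - G)‖ := norm_restr_le _ _ _
      _ = ‖F - G‖ := norm_tr _ _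
      _ ≤ ε := hG

theorem norm_lin_comb_le {ι : Type*} (S : Finset ι) (A : Lp E P (volume : Measure ℝ) →ₗ[ℝ]
    Lp E P (volume : Measure ℝ)) (u : ι → Lp E P (volume : Measure ℝ))
    (a : ι → ℝ) {ε : ℝ} (h : ∀ i ∈ S, ‖A (u i)‖ ≤ ε) :
    ‖A (∑ i ∈ S, a i • u i)‖ ≤ ε * ∑ i ∈ S, |a i| := by
  rw [map_sum, Finset.mul_sum]
  refine (norm_sum_le _ _).trans (Finset.sum_le_sum fun i hi => ?_)
  rw [map_smul, norm_smul, Real.norm_eq_abs, mul_comm]
  exact mul_le_mul_of_nonneg_right (h i hi) (abs_nonneg _)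

/-- separation of two finite families -/
theorem separation {ι κ : Type*} (hP' : P ≠ ∞) (S : Finset ι)
    (u : ι → Lp E P (volume : Measure ℝ)) (T : Finset κ)
    (z : κ → Lp E P (volume : Measure ℝ)) {ε : ℝ} (hε : 0 < ε) :
    ∃ S₀ : ℝ, 0 < S₀ ∧ ∀ s : ℝ, S₀ < |s| → ∀ (a : ι → ℝ) (b : κ → ℝ),
      ‖∑ i ∈ S, a i • u i‖ ≤ ‖∑ i ∈ S, a i • u i + tr s (∑ j ∈ T, b j • z j)‖ +
          ε * (∑ i ∈ S, |a i| + ∑ j ∈ T, |b j|) ∧
      ‖∑ j ∈ T, b j • z j‖ ≤ ‖∑ i ∈ S, a i • u i + tr s (∑ j ∈ T, b j • z j)‖ +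
          ε * (∑ i ∈ S, |a i| + ∑ j ∈ T, |b j|) := by
  have h1 : ∀ i, ∃ R : ℝ, 0 < R ∧ ∀ T : ℝ, R ≤ T →
      ‖restr (Set.Icc (-T) T)ᶜ measurableSet_Icc.compl (u i)‖ ≤ ε ∧
      ∀ S : ℝ, T + R < |S| → ‖restr (Set.Icc (-T) T) measurableSet_Icc (tr S (u i))‖ ≤ ε :=
    fun i => restr_tr_small hP' (u i) hε
  have h2 : ∀ i, ∃ R : ℝ, 0 < R ∧ ∀ T : ℝ, R ≤ T →
      ‖restr (Set.Icc (-T) T)ᶜ measurableSet_Icc.compl (z i)‖ ≤ ε ∧
      ∀ S : ℝ, T + R < |S| → ‖restr (Set.Icc (-T) T) measurableSet_Icc (tr S (z i))‖ ≤ ε :=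
    fun i => restr_tr_small hP' (z i) hε
  choose R₁ hR₁ h1 using h1
  choose R₂ hR₂ h2 using h2
  set R := 1 + ∑ i ∈ S, R₁ i + ∑ j ∈ T, R₂ j with hRdef
  have hRS : ∀ i ∈ S, R₁ i ≤ R := by
    intro i hi
    have := Finset.single_le_sum (fun i _ => (hR₁ i).le) hi
    have h3 : 0 ≤ ∑ j ∈ T, R₂ j := Finset.sum_nonneg fun i _ => (hR₂ i).le
    linarith
  have hRT : ∀ i ∈ T, R₂ i ≤ R := by
    intro i hi
    have := Finset.single_le_sum (fun i _ => (hR₂ i).le) hi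
    have h3 : 0 ≤ ∑ j ∈ S, R₁ j := Finset.sum_nonneg fun i _ => (hR₁ i).le
    linarith
  have hR0 : 0 < R := by
    have h3 : 0 ≤ ∑ j ∈ T, R₂ j := Finset.sum_nonneg fun i _ => (hR₂ i).le
    have h3 : 0 ≤ ∑ j ∈ S, R₁ j := Finset.sum_nonneg fun i _ => (hR₁ i).le
    linarith
  refine ⟨2 * R, by positivity, fun s hs a b => ?_⟩
  set U := ∑ i ∈ S, a i • u i with hU
  set Z := ∑ j ∈ T, b j • z j with hZ
  set B := Set.Icc (-R) R with hB
  have hBm : MeasurableSet B := measurableSet_Icc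
  have e1 : ‖restr Bᶜ hBm.compl U‖ ≤ ε * ∑ i ∈ S, |a i| :=
    norm_lin_comb_le S _ u a fun i hi => (h1 i R (hRS i hi)).1
  have e2 : ‖restr B hBm (tr s Z)‖ ≤ ε * ∑ j ∈ T, |b j| := by
    have := norm_lin_comb_le T ((restr B hBm).comp (tr s).toLinearMap) z b (ε := ε) fun i hi =>
      (h2 i R (hRT i hi)).2 s (by linarith [hRT i hi])
    exact this
  constructor
  · have e3 : U = restr B hBm (U + tr s Z) - restr B hBm (tr s Z) + restr Bᶜ hBm.compl U := by
      rw [map_add, add_sub_cancel_right, restr_add_compl]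
    have e4 := norm_restr_le B hBm (U + tr s Z)
    calc ‖U‖ = ‖restr B hBm (U + tr s Z) - restr B hBm (tr s Z) + restr Bᶜ hBm.compl U‖ := by rw [← e3]
      _ ≤ ‖restr B hBm (U + tr s Z) - restr B hBm (tr s Z)‖ + ‖restr Bᶜ hBm.compl U‖ := norm_add_le _ _
      _ ≤ ‖restr B hBm (U + tr s Z)‖ + ‖restr B hBm (tr s Z)‖ + ‖restr Bᶜ hBm.compl U‖ := by
        gcongr; exact norm_sub_le _ _
      _ ≤ _ := by linarith
  · have e3 : tr s Z = restr Bᶜ hBm.compl (U + tr s Z) - restr Bᶜ hBm.compl U + restr B hBm (tr s Z) := by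
      rw [map_add, add_sub_cancel_left, add_comm, restr_add_compl]
    have e4 := norm_restr_le Bᶜ hBm.compl (U + tr s Z)
    calc ‖Z‖ = ‖restr Bᶜ hBm.compl (U + tr s Z) - restr Bᶜ hBm.compl U + restr B hBm (tr s Z)‖ := by
            rw [← e3, norm_tr]
      _ ≤ ‖restr Bᶜ hBm.compl (U + tr s Z) - restr Bᶜ hBm.compl U‖ + ‖restr B hBm (tr s Z)‖ := norm_add_le _ _
      _ ≤ ‖restr Bᶜ hBm.compl (U + tr s Z)‖ + ‖restr Bᶜ hBm.compl U‖ + ‖restr B hBm (tr s Z)‖ := by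
        gcongr; exact norm_sub_le _ _
      _ ≤ _ := by linarith

end Pool.Agent.Lib.MP89175a
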