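import Pool.Agent.Lib.MP_89175a_an.Spec

/-!
MODULE CHIRP: the truncated chirp filter is bounded on `ℓ_p`, `1 < p < 2`.
-/

set_option autoImplicit false

open Finset Complex MeasureTheory

namespace Pool.Agent.Lib.MP89175a

section Geom

/-- telescoping for geometric sums on an integer interval -/
theorem geom_int (q : ℂ) (hq : q ≠ 0) (u v : ℤ) (huv : u ≤ v) :
    (∑ n ∈ Ico u v, q ^ n) * (q - 1) = q ^ v - q ^ u := by
  obtain ⟨m, rfl⟩ := Int.le.dest huv
  induction m with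
  | zero => simp
  | succ m ih =>
    have h1 : Ico u (u + ((m + 1 : ℕ) : ℤ)) = insert (u + m) (Ico u (u + m)) := by
      ext z
      simp only [mem_Ico, mem_insert]
      push_cast
      omega
    have h2 : u + (m : ℤ) ∉ Ico u (u + m) := by simp
    rw [h1, sum_insert h2, add_mul, ih (by omega)]
    have : q ^ (u + ((m + 1 : ℕ) : ℤ)) = q ^ (u + m) * q := by
      push_cast
      rw [← add_assoc, zpow_add_one₀ hq]
    rw [this]
    ring

theorem norm_geom_int (q : ℂ) (hq : ‖q‖ = 1) (u v : ℤ) :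
    ‖∑ n ∈ Ico u v, q ^ n‖ * ‖q - 1‖ ≤ 2 := by
  rcases le_or_gt u v with huv | huv
  · have hq0 : q ≠ 0 := by
      intro h
      rw [h] at hq
      simp at hq
    rw [← norm_mul, geom_int q hq0 u v huv]
    refine (norm_sub_le _ _).trans ?_
    rw [norm_zpow, norm_zpow, hq]
    norm_num
  · rw [Ico_eq_empty (by omega)]
    simp

end Geom

/-- ratio of the geometric progression -/
noncomputable def rat (N : ℕ) (d : ℤ) : ℂ := exp (I * ((2 * Real.pi * d / (8 * N) : ℝ) : ℂ))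

theorem norm_rat (N : ℕ) (d : ℤ) : ‖rat N d‖ = 1 := by
  unfold rat
  rw [mul_comm]
  exact norm_exp_ofReal_mul_I _

theorem rat_lower (N : ℕ) (hN : 1 ≤ N) (d : ℤ) (hd : |d| ≤ 4 * N) :
    (|d| : ℝ) / (2 * N) ≤ ‖rat N d - 1‖ := by
  unfold rat
  rw [Complex.norm_exp_I_mul_ofReal_sub_one]
  have hN' : (0 : ℝ) < N := by exact_mod_cast hN
  have hd' : (|(d : ℝ)|) ≤ 4 * N := by exact_mod_cast hd
  have h1 : (2 * Real.pi * d / (8 * N) : ℝ) / 2 = Real.pi * d / (8 * N) := by ring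
  rw [h1, norm_mul, Real.norm_eq_abs, Real.norm_eq_abs, abs_two]
  have h2 : |Real.sin (Real.pi * d / (8 * N))| = |Real.sin (Real.pi * |(d : ℝ)| / (8 * N))| := by
    rcases abs_cases (d : ℝ) with ⟨h, _⟩ | ⟨h, _⟩
    · rw [h]
    · rw [h]
      have : Real.pi * -(d : ℝ) / (8 * N) = -(Real.pi * d / (8 * N)) := by ring
      rw [this, Real.sin_neg, abs_neg]
  rw [h2]
  have hx0 : 0 ≤ Real.pi * |(d : ℝ)| / (8 * N) := by positivity
  have hx1 : Real.pi * |(d : ℝ)| / (8 * N) ≤ Real.pi / 2 := by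
    rw [div_le_div_iff₀ (by positivity) (by norm_num)]
    nlinarith [Real.pi_pos]
  have h3 := Real.mul_le_sin hx0 hx1
  have h4 : 2 / Real.pi * (Real.pi * |(d : ℝ)| / (8 * N)) = |(d : ℝ)| / (4 * N) := by
    field_simp
    ring
  rw [h4] at h3
  have h5 : |(d : ℝ)| / (2 * N) = 2 * (|(d : ℝ)| / (4 * N)) := by
    field_simp
    ring
  rw [h5]
  have := le_abs_self (Real.sin (Real.pi * |(d : ℝ)| / (8 * N)))
  linarith

theorem norm_chirp (N : ℕ) (n : ℤ) : ‖chirp N n‖ = 1 := by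
  unfold chirp
  rw [norm_mul, norm_zpow, norm_neg, norm_one, one_zpow, one_mul]
  have : -(Real.pi * I * ((n : ℂ) ^ 2 / (8 * N))) =
      ((-(Real.pi * ((n : ℝ) ^ 2 / (8 * N))) : ℝ) : ℂ) * I := by
    push_cast
    ring
  rw [this, norm_exp_ofReal_mul_I]

/-- phase of the product of two shifted chirps -/
noncomputable def phs (N : ℕ) (j l : ℤ) : ℂ :=
  (-1) ^ (-j - l) * exp (((Real.pi * ((l : ℝ) ^ 2 - j ^ 2) / (8 * N) : ℝ) : ℂ) * I)

theorem norm_phs (N : ℕ) (j l : ℤ) : ‖phs N j l‖ = 1 := by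
  unfold phs
  rw [norm_mul, norm_zpow, norm_neg, norm_one, one_zpow, one_mul, norm_exp_ofReal_mul_I]

theorem chirp_mul (N : ℕ) (hN : 1 ≤ N) (j l n : ℤ) :
    chirp N (n - j) * (starRingEnd ℂ) (chirp N (n - l)) = phs N j l * rat N (j - l) ^ n := by
  have hN' : (N : ℂ) ≠ 0 := by
    have : N ≠ 0 := by omega
    exact_mod_cast this
  unfold chirp phs rat
  rw [map_mul, map_zpow₀, ← Complex.exp_conj]
  simp only [map_neg, map_mul, map_div₀, map_pow, map_one, Complex.conj_ofReal, Complex.conj_I,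
    map_intCast, map_natCast, map_ofNat]
  rw [← Complex.exp_int_mul]
  have e1 : ((-1 : ℂ)) ^ (n - j) * exp (-(Real.pi * I * ((((n - j : ℤ) : ℂ)) ^ 2 / (8 * N)))) *
      ((-1) ^ (n - l) * exp (-(Real.pi * -I * ((((n - l : ℤ) : ℂ)) ^ 2 / (8 * N))))) =
      ((-1) ^ (n - j) * (-1) ^ (n - l)) *
        (exp (-(Real.pi * I * ((((n - j : ℤ) : ℂ)) ^ 2 / (8 * N)))) *
          exp (-(Real.pi * -I * ((((n - l : ℤ) : ℂ)) ^ 2 / (8 * N))))) := by ring
  have e2 : ∀ z w v : ℂ, z * exp w * exp v = z * exp (w + v) := by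
    intro z w v
    rw [Complex.exp_add, mul_assoc]
  rw [e1, ← Complex.exp_add, e2]
  congr 1
  · rw [← zpow_add₀ (by norm_num : (-1 : ℂ) ≠ 0)]
    have : n - j + (n - l) = (-j - l) + 2 * n := by ring
    rw [this, zpow_add₀ (by norm_num : (-1 : ℂ) ≠ 0), zpow_mul]
    norm_num
  · congr 1
    push_cast
    field_simp
    ring

theorem ht_mul (N : ℕ) (hN : 1 ≤ N) (j l n : ℤ) :
    ht N (n - j) * (starRingEnd ℂ) (ht N (n - l)) =
      if max j l - 5 * N ≤ n ∧ n < min j l + 4 * N then phs N j l * rat N (j - l) ^ n else 0 := by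
  unfold ht
  by_cases h1 : -(5 * N : ℤ) ≤ n - j ∧ n - j < 4 * N
  · by_cases h2 : -(5 * N : ℤ) ≤ n - l ∧ n - l < 4 * N
    · have h3 : max j l - 5 * (N : ℤ) ≤ n ∧ n < min j l + 4 * N := by omega
      rw [if_pos h1, if_pos h2, if_pos h3, chirp_mul N hN]
    · have h3 : ¬ (max j l - 5 * (N : ℤ) ≤ n ∧ n < min j l + 4 * N) := by omega
      rw [if_neg h2, if_neg h3, map_zero, mul_zero]
  · have h3 : ¬ (max j l - 5 * (N : ℤ) ≤ n ∧ n < min j l + 4 * N) := by omega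
    rw [if_neg h1, if_neg h3, zero_mul]

/-- correlation of shifted filters -/
theorem corr_bound (N : ℕ) (hN : 1 ≤ N) (a j l : ℤ) (hj : a ≤ j ∧ j < a + N)
    (hl : a ≤ l ∧ l < a + N) (hjl : j ≠ l) :
    ‖∑ n ∈ Ico (a - 5 * N) (a + 5 * N), ht N (n - j) * (starRingEnd ℂ) (ht N (n - l))‖ ≤
      4 * N / |((j - l : ℤ) : ℝ)| := by
  have hN' : (0 : ℝ) < N := by exact_mod_cast hN
  simp only [ht_mul N hN]
  rw [← sum_filter]
  have h1 : (Ico (a - 5 * (N : ℤ)) (a + 5 * N)).filter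
      (fun n => max j l - 5 * N ≤ n ∧ n < min j l + 4 * N) =
      Ico (max j l - 5 * (N : ℤ)) (min j l + 4 * N) := by
    ext z
    simp only [mem_filter, mem_Ico]
    omega
  rw [h1, ← mul_sum, norm_mul, norm_phs, one_mul]
  have h2 := norm_geom_int (rat N (j - l)) (norm_rat _ _) (max j l - 5 * (N : ℤ))
    (min j l + 4 * N)
  have h3 := rat_lower N hN (j - l) (by
    rw [abs_le]
    omega)
  have hd : (0 : ℝ) < |((j - l : ℤ) : ℝ)| := by
    rw [abs_pos]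
    exact_mod_cast sub_ne_zero.mpr hjl
  rw [le_div_iff₀ hd]
  have h4 : ‖∑ n ∈ Ico (max j l - 5 * (N : ℤ)) (min j l + 4 * N), rat N (j - l) ^ n‖ *
      (|((j - l : ℤ) : ℝ)| / (2 * N)) ≤ 2 := by
    refine le_trans ?_ h2
    apply mul_le_mul_of_nonneg_left _ (norm_nonneg _)
    exact_mod_cast h3
  have h5 : ‖∑ n ∈ Ico (max j l - 5 * (N : ℤ)) (min j l + 4 * N), rat N (j - l) ^ n‖ *
      (|((j - l : ℤ) : ℝ)| / (2 * N)) =
      (‖∑ n ∈ Ico (max j l - 5 * (N : ℤ)) (min j l + 4 * N), rat N (j - l) ^ n‖ *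
      |((j - l : ℤ) : ℝ)|) / (2 * N) := by ring
  rw [h5, div_le_iff₀ (by positivity)] at h4
  linarith

theorem norm_ht_le (N : ℕ) (n : ℤ) : ‖ht N n‖ ≤ 1 := by
  unfold ht
  split_ifs
  · rw [norm_chirp]
  · simp

theorem corr_diag (N : ℕ) (a j : ℤ) :
    ‖∑ n ∈ Ico (a - 5 * N) (a + 5 * N), ht N (n - j) * (starRingEnd ℂ) (ht N (n - j))‖ ≤
      10 * N := by
  refine (norm_sum_le _ _).trans ?_
  have : ∀ n ∈ Ico (a - 5 * (N : ℤ)) (a + 5 * N),
      ‖ht N (n - j) * (starRingEnd ℂ) (ht N (n - j))‖ ≤ 1 := by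
    intro n _
    rw [norm_mul, RCLike.norm_conj]
    exact mul_le_one₀ (norm_ht_le _ _) (norm_nonneg _) (norm_ht_le _ _)
  refine (sum_le_sum this).trans ?_
  rw [sum_const, Int.card_Ico, nsmul_eq_mul, mul_one]
  have : (a + 5 * (N : ℤ) - (a - 5 * N)).toNat = 10 * N := by omega
  rw [this]
  push_cast
  exact le_refl _

/-- the sum of the reciprocals of the distances -/
theorem sum_recip (N : ℕ) (a j : ℤ) (hj : a ≤ j ∧ j < a + N) :
    ∑ l ∈ (Ico a (a + N)).erase j, 1 / |((j - l : ℤ) : ℝ)| ≤ 2 * (1 + Real.log N) := by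
  have hH : ∑ d ∈ range N, 1 / ((d : ℝ) + 1) ≤ 1 + Real.log N := by
    have := harmonic_le_one_add_log N
    refine le_trans (le_of_eq ?_) this
    simp [harmonic]
  have hsplit : (Ico a (a + (N : ℤ))).erase j = Ico a j ∪ Ico (j + 1) (a + N) := by
    ext z
    simp only [mem_erase, mem_Ico, mem_union]
    omega
  have hdisj : Disjoint (Ico a j) (Ico (j + 1) (a + (N : ℤ))) := by
    rw [Finset.disjoint_left]
    intro z
    simp only [mem_Ico]
    omega
  rw [hsplit, sum_union hdisj]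
  have key1 : ∑ l ∈ Ico a j, 1 / |((j - l : ℤ) : ℝ)| ≤ ∑ d ∈ range N, 1 / ((d : ℝ) + 1) := by
    have himg : Ico a j ⊆ (range N).image (fun d : ℕ => j - 1 - d) := by
      intro z hz
      simp only [mem_Ico] at hz
      simp only [mem_image, mem_range]
      exact ⟨(j - 1 - z).toNat, by omega, by omega⟩
    refine (sum_le_sum_of_subset_of_nonneg himg ?_).trans ?_
    · intro i _ _
      positivity
    · rw [sum_image (by intro x _ y _ h; simpa using h)]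
      apply sum_le_sum
      intro d _
      have : ((j - (j - 1 - (d : ℤ)) : ℤ) : ℝ) = (d : ℝ) + 1 := by
        push_cast
        ring
      rw [this, abs_of_nonneg (by positivity)]
  have key2 : ∑ l ∈ Ico (j + 1) (a + (N : ℤ)), 1 / |((j - l : ℤ) : ℝ)| ≤
      ∑ d ∈ range N, 1 / ((d : ℝ) + 1) := by
    have himg : Ico (j + 1) (a + (N : ℤ)) ⊆ (range N).image (fun d : ℕ => j + 1 + d) := by
      intro z hz
      simp only [mem_Ico] at hz
      simp only [mem_image, mem_range]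
      exact ⟨(z - j - 1).toNat, by omega, by omega⟩
    refine (sum_le_sum_of_subset_of_nonneg himg ?_).trans ?_
    · intro i _ _
      positivity
    · rw [sum_image (by intro x _ y _ h; simpa using h)]
      apply sum_le_sum
      intro d _
      have : ((j - (j + 1 + (d : ℤ)) : ℤ) : ℝ) = -((d : ℝ) + 1) := by
        push_cast
        ring
      rw [this, abs_neg, abs_of_nonneg (by positivity)]
  linarith

/-- the `ℓ₂` bound for sequences supported on an interval of length `N` -/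
theorem l2_bound (N : ℕ) (hN : 1 ≤ N) (a : ℤ) (s : Finset ℤ)
    (hs : ∀ j ∈ s, a ≤ j ∧ j < a + N) (x : ℤ → ℝ) :
    ∑ n ∈ Ico (a - 5 * N) (a + 5 * N), ‖∑ j ∈ s, (x j : ℂ) * ht N (n - j)‖ ^ 2 ≤
      18 * N * (1 + Real.log N) * ∑ j ∈ s, x j ^ 2 := by
  have hN' : (0 : ℝ) < N := by exact_mod_cast hN
  have hlog : 0 ≤ Real.log N := Real.log_nonneg (by exact_mod_cast hN)
  set S : ℤ → ℤ → ℂ := fun j l =>
    ∑ n ∈ Ico (a - 5 * (N : ℤ)) (a + 5 * N), ht N (n - j) * (starRingEnd ℂ) (ht N (n - l)) with hS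
  set B : ℤ → ℤ → ℝ := fun j l => if j = l then 10 * N else 4 * N * (1 / |((j - l : ℤ) : ℝ)|)
    with hB
  have hBS : ∀ j ∈ s, ∀ l ∈ s, ‖S j l‖ ≤ B j l := by
    intro j hj l hl
    simp only [hS, hB]
    split_ifs with h
    · subst h
      exact corr_diag N a j
    · have := corr_bound N hN a j l (hs j hj) (hs l hl) h
      refine this.trans (le_of_eq ?_)
      ring
  have hBsymm : ∀ j l, B j l = B l j := by
    intro j l
    simp only [hB]
    have h1 : |((j - l : ℤ) : ℝ)| = |((l - j : ℤ) : ℝ)| := by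
      push_cast
      exact abs_sub_comm _ _
    rw [h1]
    by_cases h : j = l
    · rw [if_pos h, if_pos h.symm]
    · rw [if_neg h, if_neg (fun h' => h h'.symm)]
  have hBnn : ∀ j l, 0 ≤ B j l := by
    intro j l
    simp only [hB]
    split_ifs
    · positivity
    · positivity
  have hBrow : ∀ j ∈ s, ∑ l ∈ s, B j l ≤ 18 * N * (1 + Real.log N) := by
    intro j hj
    have hsub : s ⊆ Ico a (a + (N : ℤ)) := fun l hl => mem_Ico.mpr (hs l hl)
    refine (sum_le_sum_of_subset_of_nonneg hsub (fun l _ _ => hBnn j l)).trans ?_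
    rw [← add_sum_erase _ _ (hsub hj)]
    have h1 : B j j = 10 * N := by simp [hB]
    have h2 : ∑ l ∈ (Ico a (a + (N : ℤ))).erase j, B j l =
        4 * N * ∑ l ∈ (Ico a (a + (N : ℤ))).erase j, 1 / |((j - l : ℤ) : ℝ)| := by
      rw [mul_sum]
      apply sum_congr rfl
      intro l hl
      simp only [hB]
      rw [if_neg (fun h => (mem_erase.mp hl).1 h.symm)]
    rw [h1, h2]
    have h3 := sum_recip N a j (hs j hj)
    nlinarith
  have hexp : ((∑ n ∈ Ico (a - 5 * (N : ℤ)) (a + 5 * N),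
      ‖∑ j ∈ s, (x j : ℂ) * ht N (n - j)‖ ^ 2 : ℝ) : ℂ) =
      ∑ j ∈ s, ∑ l ∈ s, (x j : ℂ) * (x l : ℂ) * S j l := by
    push_cast
    have : ∀ n : ℤ, ((‖∑ j ∈ s, (x j : ℂ) * ht N (n - j)‖ : ℝ) : ℂ) ^ 2 =
        ∑ j ∈ s, ∑ l ∈ s, (x j : ℂ) * (x l : ℂ) *
          (ht N (n - j) * (starRingEnd ℂ) (ht N (n - l))) := by
      intro n
      rw [← Complex.mul_conj', map_sum, sum_mul_sum]
      apply sum_congr rfl
      intro j _
      apply sum_congr rfl
      intro l _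
      rw [map_mul, Complex.conj_ofReal]
      ring
    simp only [this]
    rw [sum_comm]
    apply sum_congr rfl
    intro j _
    rw [sum_comm]
    apply sum_congr rfl
    intro l _
    simp only [hS]
    rw [mul_sum]
  have hle : ∑ n ∈ Ico (a - 5 * (N : ℤ)) (a + 5 * N),
      ‖∑ j ∈ s, (x j : ℂ) * ht N (n - j)‖ ^ 2 ≤
      ∑ j ∈ s, ∑ l ∈ s, (x j ^ 2 + x l ^ 2) / 2 * B j l := by
    have h0 : (0 : ℝ) ≤ ∑ n ∈ Ico (a - 5 * (N : ℤ)) (a + 5 * N),
      ‖∑ j ∈ s, (x j : ℂ) * ht N (n - j)‖ ^ 2 := sum_nonneg (fun _ _ => by positivity)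
    have h1 : ∑ n ∈ Ico (a - 5 * (N : ℤ)) (a + 5 * N),
      ‖∑ j ∈ s, (x j : ℂ) * ht N (n - j)‖ ^ 2 =
      ‖∑ j ∈ s, ∑ l ∈ s, (x j : ℂ) * (x l : ℂ) * S j l‖ := by
      rw [← hexp, Complex.norm_real, Real.norm_of_nonneg h0]
    rw [h1]
    refine (norm_sum_le _ _).trans (sum_le_sum fun j hj => ?_)
    refine (norm_sum_le _ _).trans (sum_le_sum fun l hl => ?_)
    rw [norm_mul, norm_mul, Complex.norm_real, Complex.norm_real]
    have h2 : ‖x j‖ * ‖x l‖ ≤ (x j ^ 2 + x l ^ 2) / 2 := by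
      rw [Real.norm_eq_abs, Real.norm_eq_abs]
      nlinarith [sq_nonneg (|x j| - |x l|), sq_abs (x j), sq_abs (x l)]
    exact mul_le_mul h2 (hBS j hj l hl) (norm_nonneg _) (by positivity)
  refine hle.trans ?_
  have hsum : ∑ j ∈ s, ∑ l ∈ s, (x j ^ 2 + x l ^ 2) / 2 * B j l =
      ∑ j ∈ s, x j ^ 2 * ∑ l ∈ s, B j l := by
    have e1 : ∑ j ∈ s, ∑ l ∈ s, (x j ^ 2 + x l ^ 2) / 2 * B j l =
        (∑ j ∈ s, ∑ l ∈ s, x j ^ 2 / 2 * B j l) + ∑ j ∈ s, ∑ l ∈ s, x l ^ 2 / 2 * B j l := by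
      rw [← sum_add_distrib]
      apply sum_congr rfl
      intro j _
      rw [← sum_add_distrib]
      apply sum_congr rfl
      intro l _
      ring
    have e2 : ∑ j ∈ s, ∑ l ∈ s, x l ^ 2 / 2 * B j l = ∑ j ∈ s, ∑ l ∈ s, x j ^ 2 / 2 * B j l := by
      rw [sum_comm]
      apply sum_congr rfl
      intro j _
      apply sum_congr rfl
      intro l _
      rw [hBsymm]
    rw [e1, e2, ← sum_add_distrib]
    apply sum_congr rfl
    intro j _
    rw [← sum_add_distrib, mul_sum]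
    apply sum_congr rfl
    intro l _
    ring
  rw [hsum, mul_sum]
  apply sum_le_sum
  intro j hj
  have := hBrow j hj
  nlinarith [sq_nonneg (x j)]


theorem sum_rpow_sub (s : Finset ℤ) (f : ℤ → ℝ) (hf : ∀ i, 0 ≤ f i) (r : ℝ) (hr : 0 ≤ r)
    (hr1 : r ≤ 1) (hr0 : r ≠ 0) : (∑ i ∈ s, f i) ^ r ≤ ∑ i ∈ s, f i ^ r := by
  classical
  induction s using Finset.induction_on with
  | empty => simp [Real.zero_rpow hr0]
  | insert a s ha ih =>
    rw [sum_insert ha, sum_insert ha]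
    have h1 : (f a + ∑ i ∈ s, f i) ^ r ≤ f a ^ r + (∑ i ∈ s, f i) ^ r :=
      Real.rpow_add_le_add_rpow (hf a) (sum_nonneg fun i _ => hf i) hr hr1
    linarith

/-- real `ℓ_p` bound for a block -/
theorem lp_block_real (p : ℝ) (hp1 : 1 < p) (hp2 : p < 2) (N : ℕ) (hN : 1 ≤ N) (a : ℤ)
    (s : Finset ℤ) (hs : ∀ j ∈ s, a ≤ j ∧ j < a + N) (x : ℤ → ℝ) :
    ∑ n ∈ Ico (a - 5 * N) (a + 5 * N), ‖∑ j ∈ s, (x j : ℂ) * ht N (n - j)‖ ^ p ≤
      18 * N * (1 + Real.log N) ^ (p / 2) * ∑ j ∈ s, |x j| ^ p := by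
  have hN' : (0 : ℝ) < N := by exact_mod_cast hN
  have hlog : 0 ≤ Real.log N := Real.log_nonneg (by exact_mod_cast hN)
  set I := Ico (a - 5 * (N : ℤ)) (a + 5 * N) with hI
  set y : ℤ → ℝ := fun n => ‖∑ j ∈ s, (x j : ℂ) * ht N (n - j)‖ with hy
  have hy0 : ∀ n, 0 ≤ y n := fun n => norm_nonneg _
  have hcard : (I.card : ℝ) = 10 * N := by
    rw [hI, Int.card_Ico]
    have : (a + 5 * (N : ℤ) - (a - 5 * N)).toNat = 10 * N := by omega
    rw [this]
    push_cast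
    ring
  have h2 := l2_bound N hN a s hs x
  have hpos : (0 : ℝ) < p / 2 := by linarith
  have h1 : (∑ n ∈ I, y n ^ p) ^ (2 / p) ≤ (10 * (N : ℝ)) ^ (2 / p - 1) * ∑ n ∈ I, y n ^ 2 := by
    have := Real.rpow_sum_le_const_mul_sum_rpow_of_nonneg (s := I) (f := fun n => y n ^ p)
      (p := 2 / p) (by rw [le_div_iff₀ (by linarith)]; linarith)
      (fun i _ => Real.rpow_nonneg (hy0 i) _)
    rw [hcard] at this
    refine this.trans (le_of_eq ?_)
    congr 1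
    apply sum_congr rfl
    intro n _
    rw [← Real.rpow_mul (hy0 n), mul_div_cancel₀ _ (by linarith : p ≠ 0)]
    norm_cast
  have hS0 : 0 ≤ ∑ n ∈ I, y n ^ p := sum_nonneg fun n _ => Real.rpow_nonneg (hy0 n) _
  have h3 : ∑ n ∈ I, y n ^ p ≤ ((10 * (N : ℝ)) ^ (2 / p - 1) * ∑ n ∈ I, y n ^ 2) ^ (p / 2) := by
    have := Real.rpow_le_rpow (by positivity) h1 hpos.le
    rw [← Real.rpow_mul hS0] at this
    have e : 2 / p * (p / 2) = 1 := by field_simp
    rwa [e, Real.rpow_one] at this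
  refine h3.trans ?_
  have hsq0 : 0 ≤ ∑ j ∈ s, x j ^ 2 := sum_nonneg fun _ _ => sq_nonneg _
  have h4 : (10 * (N : ℝ)) ^ (2 / p - 1) * ∑ n ∈ I, y n ^ 2 ≤
      (10 * (N : ℝ)) ^ (2 / p - 1) * (18 * N * (1 + Real.log N) * ∑ j ∈ s, x j ^ 2) :=
    mul_le_mul_of_nonneg_left h2 (by positivity)
  have h5 := Real.rpow_le_rpow (by positivity) h4 hpos.le
  refine h5.trans ?_
  have hexp0 : (0 : ℝ) ≤ 2 / p - 1 := by
    rw [sub_nonneg, le_div_iff₀ (by linarith)]
    linarith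
  have h6 : ((10 * (N : ℝ)) ^ (2 / p - 1) * (18 * N * (1 + Real.log N) * ∑ j ∈ s, x j ^ 2))
      ^ (p / 2) = ((10 * (N : ℝ)) ^ (2 / p - 1) * (18 * N)) ^ (p / 2) *
        (1 + Real.log N) ^ (p / 2) * (∑ j ∈ s, x j ^ 2) ^ (p / 2) := by
    rw [← Real.mul_rpow (by positivity) (by positivity),
      ← Real.mul_rpow (by positivity) hsq0]
    congr 1
    ring
  rw [h6]
  have h7 : ((10 * (N : ℝ)) ^ (2 / p - 1) * (18 * N)) ^ (p / 2) ≤ 18 * N := by
    have e1 : ((10 * (N : ℝ)) ^ (2 / p - 1) * (18 * N)) ≤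
        ((18 * (N : ℝ)) ^ (2 / p - 1) * (18 * N)) := by
      apply mul_le_mul_of_nonneg_right _ (by positivity)
      apply Real.rpow_le_rpow (by positivity) (by linarith) hexp0
    have e2 : ((18 * (N : ℝ)) ^ (2 / p - 1) * (18 * N)) = (18 * (N : ℝ)) ^ (2 / p) := by
      rw [← Real.rpow_add_one (by positivity)]
      congr 1
      ring
    rw [e2] at e1
    have e3 := Real.rpow_le_rpow (by positivity) e1 hpos.le
    rw [← Real.rpow_mul (by positivity)] at e3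
    have e : 2 / p * (p / 2) = 1 := by field_simp
    rwa [e, Real.rpow_one] at e3
  have h8 : (∑ j ∈ s, x j ^ 2) ^ (p / 2) ≤ ∑ j ∈ s, |x j| ^ p := by
    refine (sum_rpow_sub s (fun j => x j ^ 2) (fun _ => sq_nonneg _) (p / 2) hpos.le
      (by linarith) (by linarith)).trans (le_of_eq ?_)
    apply sum_congr rfl
    intro j _
    rw [← sq_abs, ← Real.rpow_natCast, ← Real.rpow_mul (abs_nonneg _)]
    congr 1
    push_cast
    ring
  have h9 : 0 ≤ (1 + Real.log N) ^ (p / 2) := by positivity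
  have h10 : 0 ≤ (∑ j ∈ s, x j ^ 2) ^ (p / 2) := by positivity
  calc ((10 * (N : ℝ)) ^ (2 / p - 1) * (18 * N)) ^ (p / 2) *
        (1 + Real.log N) ^ (p / 2) * (∑ j ∈ s, x j ^ 2) ^ (p / 2)
      ≤ 18 * N * (1 + Real.log N) ^ (p / 2) * (∑ j ∈ s, x j ^ 2) ^ (p / 2) := by
        apply mul_le_mul_of_nonneg_right _ h10
        exact mul_le_mul_of_nonneg_right h7 h9
    _ ≤ _ := by
        apply mul_le_mul_of_nonneg_left h8
        positivity

/-- extended `ℓ_p` bound for a block -/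
theorem lp_block (p : ℝ) (hp1 : 1 < p) (hp2 : p < 2) (N : ℕ) (hN : 1 ≤ N) (a : ℤ)
    (s : Finset ℤ) (hs : ∀ j ∈ s, a ≤ j ∧ j < a + N) (x : ℤ → ℝ) :
    ∑' n : ℤ, ‖∑ j ∈ s, (x j : ℂ) * ht N (n - j)‖ₑ ^ p ≤
      ENNReal.ofReal (18 * N * (1 + Real.log N) ^ (p / 2)) * ∑ j ∈ s, ‖x j‖ₑ ^ p := by
  have hN' : (0 : ℝ) < N := by exact_mod_cast hN
  have hlog : 0 ≤ Real.log N := Real.log_nonneg (by exact_mod_cast hN)
  have hp0 : 0 ≤ p := by linarith
  have h1 : ∑' n : ℤ, ‖∑ j ∈ s, (x j : ℂ) * ht N (n - j)‖ₑ ^ p =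
      ∑ n ∈ Ico (a - 5 * (N : ℤ)) (a + 5 * N), ‖∑ j ∈ s, (x j : ℂ) * ht N (n - j)‖ₑ ^ p := by
    apply tsum_eq_sum
    intro n hn
    have : ∑ j ∈ s, (x j : ℂ) * ht N (n - j) = 0 := by
      apply sum_eq_zero
      intro j hj
      have hj' := hs j hj
      simp only [mem_Ico] at hn
      have : ht N (n - j) = 0 := by
        unfold ht
        rw [if_neg]
        omega
      rw [this, mul_zero]
    rw [this, enorm_zero, ENNReal.zero_rpow_of_pos (by linarith)]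
  rw [h1]
  have h2 : ∀ n : ℤ, ‖∑ j ∈ s, (x j : ℂ) * ht N (n - j)‖ₑ ^ p =
      ENNReal.ofReal (‖∑ j ∈ s, (x j : ℂ) * ht N (n - j)‖ ^ p) := by
    intro n
    rw [← ofReal_norm, ENNReal.ofReal_rpow_of_nonneg (norm_nonneg _) hp0]
  have h3 : ∀ j : ℤ, ‖x j‖ₑ ^ p = ENNReal.ofReal (|x j| ^ p) := by
    intro j
    rw [← ofReal_norm, ENNReal.ofReal_rpow_of_nonneg (norm_nonneg _) hp0,
      Real.norm_eq_abs]
  simp only [h2, h3]
  rw [← ENNReal.ofReal_sum_of_nonneg (fun _ _ => by positivity),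
    ← ENNReal.ofReal_sum_of_nonneg (fun _ _ => by positivity),
    ← ENNReal.ofReal_mul (by positivity)]
  exact ENNReal.ofReal_le_ofReal (lp_block_real p hp1 hp2 N hN a s hs x)

/-- MODULE CHIRP -/
theorem chirp_mult (p : ℝ) (hp1 : 1 < p) (hp2 : p < 2) : ChirpMult p := by
  classical
  refine ⟨(10 : ℝ) ^ (p - 1) * 18, by positivity, ?_⟩
  intro N hN s x
  have hN' : (0 : ℝ) < N := by exact_mod_cast hN
  have hlog : 0 ≤ Real.log N := Real.log_nonneg (by exact_mod_cast hN)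
  have hNz : (0 : ℤ) < N := by exact_mod_cast hN
  set sk : ℤ → Finset ℤ := fun k => s.filter (fun j => j / (N : ℤ) = k) with hsk
  set y : ℤ → ℤ → ℂ := fun k n => ∑ j ∈ sk k, (x j : ℂ) * ht N (n - j) with hy
  -- decomposition
  have hdec : ∀ n : ℤ, ∑ j ∈ s, (x j : ℂ) * ht N (n - j) =
      ∑ k ∈ Icc (n / (N : ℤ) - 4) (n / (N : ℤ) + 5), y k n := by
    intro n
    simp only [hy, hsk]
    simp only [sum_filter]
    rw [sum_comm]
    apply sum_congr rfl
    intro j _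
    rw [sum_ite_eq]
    split_ifs with hk
    · rfl
    · have hz : ht N (n - j) = 0 := by
        unfold ht
        rw [if_neg]
        intro hc
        apply hk
        rw [mem_Icc]
        have e1 : n / (N : ℤ) - 4 = (n - 4 * N) / N := by
          rw [show n - 4 * (N : ℤ) = n + (-4) * N by ring, Int.add_mul_ediv_right _ _ hNz.ne']
          ring
        have e2 : n / (N : ℤ) + 5 = (n + 5 * N) / N := by
          rw [Int.add_mul_ediv_right _ _ hNz.ne']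
        rw [e1, e2]
        exact ⟨Int.ediv_le_ediv hNz (by omega), Int.ediv_le_ediv hNz (by omega)⟩
      rw [hz, mul_zero]
  have hpt : ∀ n : ℤ, ‖∑ j ∈ s, (x j : ℂ) * ht N (n - j)‖ₑ ^ p ≤
      (10 : ENNReal) ^ (p - 1) * ∑' k : ℤ, ‖y k n‖ₑ ^ p := by
    intro n
    rw [hdec n]
    have hc : (Icc (n / (N : ℤ) - 4) (n / (N : ℤ) + 5)).card = 10 := by
      rw [Int.card_Icc]
      omega
    calc ‖∑ k ∈ Icc (n / (N : ℤ) - 4) (n / (N : ℤ) + 5), y k n‖ₑ ^ p
        ≤ (∑ k ∈ Icc (n / (N : ℤ) - 4) (n / (N : ℤ) + 5), ‖y k n‖ₑ) ^ p :=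
          ENNReal.rpow_le_rpow (enorm_sum_le _ _) (by linarith)
      _ ≤ ((Icc (n / (N : ℤ) - 4) (n / (N : ℤ) + 5)).card : ENNReal) ^ (p - 1) *
          ∑ k ∈ Icc (n / (N : ℤ) - 4) (n / (N : ℤ) + 5), ‖y k n‖ₑ ^ p :=
          ENNReal.rpow_sum_le_const_mul_sum_rpow _ _ hp1.le
      _ ≤ (10 : ENNReal) ^ (p - 1) * ∑' k : ℤ, ‖y k n‖ₑ ^ p := by
          rw [hc]
          push_cast
          gcongr
          exact ENNReal.sum_le_tsum _
  have hblock : ∀ k : ℤ, ∑' n : ℤ, ‖y k n‖ₑ ^ p ≤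
      ENNReal.ofReal (18 * N * (1 + Real.log N) ^ (p / 2)) * ∑ j ∈ sk k, ‖x j‖ₑ ^ p := by
    intro k
    apply lp_block p hp1 hp2 N hN (k * N)
    intro j hj
    simp only [hsk, mem_filter] at hj
    have h1 := Int.ediv_mul_le j hNz.ne'
    have h2 := Int.lt_ediv_add_one_mul_self j hNz
    rw [hj.2] at h1 h2
    constructor
    · exact h1
    · linarith
  have hsumk : ∑' k : ℤ, ∑ j ∈ sk k, ‖x j‖ₑ ^ p = ∑ j ∈ s, ‖x j‖ₑ ^ p := by
    simp only [hsk, sum_filter]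
    rw [Summable.tsum_finsetSum (fun _ _ => ENNReal.summable)]
    apply sum_congr rfl
    intro j _
    rw [tsum_eq_single (j / (N : ℤ))]
    · rw [if_pos rfl]
    · intro k hk
      rw [if_neg (fun h => hk h.symm)]
  calc ∑' n : ℤ, ‖∑ j ∈ s, (x j : ℂ) * ht N (n - j)‖ₑ ^ p
      ≤ ∑' n : ℤ, (10 : ENNReal) ^ (p - 1) * ∑' k : ℤ, ‖y k n‖ₑ ^ p :=
        ENNReal.tsum_le_tsum hpt
    _ = (10 : ENNReal) ^ (p - 1) * ∑' k : ℤ, ∑' n : ℤ, ‖y k n‖ₑ ^ p := by
        rw [ENNReal.tsum_mul_left, ENNReal.tsum_comm]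
    _ ≤ (10 : ENNReal) ^ (p - 1) * ∑' k : ℤ,
          (ENNReal.ofReal (18 * N * (1 + Real.log N) ^ (p / 2)) * ∑ j ∈ sk k, ‖x j‖ₑ ^ p) := by
        gcongr with k
        exact hblock k
    _ = (10 : ENNReal) ^ (p - 1) * ENNReal.ofReal (18 * N * (1 + Real.log N) ^ (p / 2)) *
          ∑ j ∈ s, ‖x j‖ₑ ^ p := by
        rw [ENNReal.tsum_mul_left, hsumk, ← mul_assoc]
    _ = _ := by
        congr 1
        have : (10 : ENNReal) = ENNReal.ofReal 10 := by
          rw [ENNReal.ofReal_ofNat]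
        rw [this, ENNReal.ofReal_rpow_of_pos (by norm_num), ← ENNReal.ofReal_mul (by positivity)]
        congr 1
        ring

end Pool.Agent.Lib.MP89175a
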