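import Mathlib

/-!
The sequence space norm of the core function: discrete Hardy inequality.
-/

open Finset MeasureTheory
open scoped ENNReal NNReal

namespace Pool.Agent.Lib.MP89175a

/-- a convexity inequality -/
theorem exists_conv {p : ℝ} (hp : 1 < p) (A : ℝ≥0) (hA : 1 < A) :
    ∃ B : ℝ≥0, ∀ u v : ℝ≥0∞, (u + v) ^ p ≤ A * u ^ p + B * v ^ p := by
  have hA0 : 0 < A := zero_lt_one.trans hA
  set l : ℝ≥0 := A ^ (-(1 / (p - 1))) with hl
  have hl0 : 0 < l := NNReal.rpow_pos hA0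
  have hl1 : l < 1 := NNReal.rpow_lt_one_of_one_lt_of_neg hA (by
    have : 0 < 1 / (p - 1) := by apply one_div_pos.2; linarith
    linarith)
  have hm0 : 0 < 1 - l := tsub_pos_of_lt hl1
  have hlA : l * (l⁻¹) ^ p = A := by
    have : l * (l⁻¹) ^ p = l ^ (1 - p) := by
      rw [NNReal.inv_rpow, NNReal.rpow_sub hl0.ne', NNReal.rpow_one, div_eq_mul_inv]
    rw [this, hl, ← NNReal.rpow_mul]
    have : -(1 / (p - 1)) * (1 - p) = 1 := by
      have : p - 1 ≠ 0 := by linarith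
      field_simp
      ring
    rw [this, NNReal.rpow_one]
  refine ⟨(1 - l) * ((1 - l)⁻¹) ^ p, fun u v => ?_⟩
  have h1 := ENNReal.rpow_arith_mean_le_arith_mean2_rpow (l : ℝ≥0∞) ((1 - l : ℝ≥0) : ℝ≥0∞)
    ((l⁻¹ : ℝ≥0) * u) (((1 - l)⁻¹ : ℝ≥0) * v) (by
      rw [← ENNReal.coe_add, add_tsub_cancel_of_le hl1.le, ENNReal.coe_one]) hp.le
  have h2 : (l : ℝ≥0∞) * ((l⁻¹ : ℝ≥0) * u) = u := by
    rw [← mul_assoc, ← ENNReal.coe_mul, mul_inv_cancel₀ hl0.ne', ENNReal.coe_one, one_mul]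
  have h3 : ((1 - l : ℝ≥0) : ℝ≥0∞) * (((1 - l)⁻¹ : ℝ≥0) * v) = v := by
    rw [← mul_assoc, ← ENNReal.coe_mul, mul_inv_cancel₀ hm0.ne', ENNReal.coe_one, one_mul]
  rw [h2, h3, ENNReal.mul_rpow_of_nonneg _ _ (by linarith), ENNReal.mul_rpow_of_nonneg _ _ (by linarith),
    ← mul_assoc, ← mul_assoc, ← ENNReal.coe_rpow_of_nonneg _ (by linarith : (0 : ℝ) ≤ p),
    ← ENNReal.coe_rpow_of_nonneg _ (by linarith : (0 : ℝ) ≤ p), ← ENNReal.coe_mul, ← ENNReal.coe_mul, hlA] at h1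
  exact h1

/-- the difference sums -/
noncomputable def DD (p : ℝ) (a : ℤ → ℝ) (i : ℕ) : ℝ≥0∞ := ∑' n : ℤ, ‖a n - a (n - 2 ^ i)‖ₑ ^ p

/-- the block sums -/
noncomputable def XX (p : ℝ) (a : ℤ → ℝ) (x : ℤ) (i : ℕ) : ℝ≥0∞ :=
  ∑ r ∈ Ico (2 ^ i) (2 ^ (i + 1)), ‖a (x - (r : ℕ))‖ₑ ^ p

/-- the core norm (to the power `p`) -/
noncomputable def GN (p : ℝ) (q : ℝ≥0) (a : ℤ → ℝ) : ℝ≥0∞ := ∑' i : ℕ, (q : ℝ≥0∞) ^ i * DD p a i

theorem sum_inj_le {ι : Type*} (s : Finset ι) (φ : ι → ℤ) (hφ : Set.InjOn φ s) (f : ℤ → ℝ≥0∞) :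
    ∑ r ∈ s, f (φ r) ≤ ∑' n, f n := by
  classical
  rw [← Finset.sum_image hφ]
  exact ENNReal.sum_le_tsum _

theorem XX_step {p : ℝ} (hp : 1 < p) (A B : ℝ≥0)
    (hAB : ∀ u v : ℝ≥0∞, (u + v) ^ p ≤ A * u ^ p + B * v ^ p) (a : ℤ → ℝ) (x : ℤ) (i : ℕ) :
    2 * XX p a x i ≤ A * XX p a x (i + 1) + B * (DD p a i + DD p a (i + 1)) := by
  have key : ∀ (k : ℕ), XX p a x i ≤ A * ∑ r ∈ Ico (2 ^ i) (2 ^ (i + 1)), ‖a (x - (r : ℕ) - 2 ^ k)‖ₑ ^ p +
      B * DD p a k := by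
    intro k
    unfold XX
    calc ∑ r ∈ Ico (2 ^ i) (2 ^ (i + 1)), ‖a (x - (r : ℕ))‖ₑ ^ p
        ≤ ∑ r ∈ Ico (2 ^ i) (2 ^ (i + 1)), (A * ‖a (x - (r : ℕ) - 2 ^ k)‖ₑ ^ p +
          B * ‖a (x - (r : ℕ)) - a (x - (r : ℕ) - 2 ^ k)‖ₑ ^ p) := by
          apply Finset.sum_le_sum
          intro r _
          refine le_trans ?_ (hAB _ _)
          apply ENNReal.rpow_le_rpow _ (by linarith)
          have : a (x - (r : ℕ)) = a (x - (r : ℕ) - 2 ^ k) + (a (x - (r : ℕ)) - a (x - (r : ℕ) - 2 ^ k)) := by ring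
          conv_lhs => rw [this]
          exact enorm_add_le _ _
      _ = A * ∑ r ∈ Ico (2 ^ i) (2 ^ (i + 1)), ‖a (x - (r : ℕ) - 2 ^ k)‖ₑ ^ p +
          B * ∑ r ∈ Ico (2 ^ i) (2 ^ (i + 1)), ‖a (x - (r : ℕ)) - a (x - (r : ℕ) - 2 ^ k)‖ₑ ^ p := by
          rw [Finset.sum_add_distrib, Finset.mul_sum, Finset.mul_sum]
      _ ≤ _ := by
          gcongr
          exact sum_inj_le (Ico (2 ^ i) (2 ^ (i + 1))) (fun r : ℕ => x - (r : ℤ))
            (fun r _ s _ h => by simp at h; exact h) (fun n => ‖a n - a (n - 2 ^ k)‖ₑ ^ p)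
  have h1 := key i
  have h2 := key (i + 1)
  have e1 : ∑ r ∈ Ico (2 ^ i) (2 ^ (i + 1)), ‖a (x - (r : ℕ) - 2 ^ i)‖ₑ ^ p =
      ∑ r ∈ Ico (2 ^ (i + 1)) (2 ^ (i + 1) + 2 ^ i), ‖a (x - (r : ℕ))‖ₑ ^ p := by
    have := Finset.sum_Ico_add' (fun r : ℕ => ‖a (x - (r : ℕ))‖ₑ ^ p) (2 ^ i) (2 ^ (i + 1)) (2 ^ i)
    rw [show 2 ^ i + 2 ^ i = 2 ^ (i + 1) by ring] at this
    rw [← this]
    refine Finset.sum_congr rfl fun r _ => ?_
    congr 3
    push_cast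
    ring
  have e2 : ∑ r ∈ Ico (2 ^ i) (2 ^ (i + 1)), ‖a (x - (r : ℕ) - 2 ^ (i + 1))‖ₑ ^ p =
      ∑ r ∈ Ico (2 ^ (i + 1) + 2 ^ i) (2 ^ (i + 1 + 1)), ‖a (x - (r : ℕ))‖ₑ ^ p := by
    have := Finset.sum_Ico_add' (fun r : ℕ => ‖a (x - (r : ℕ))‖ₑ ^ p) (2 ^ i) (2 ^ (i + 1)) (2 ^ (i + 1))
    rw [show 2 ^ i + 2 ^ (i + 1) = 2 ^ (i + 1) + 2 ^ i by ring,
      show 2 ^ (i + 1) + 2 ^ (i + 1) = 2 ^ (i + 1 + 1) by ring] at this
    rw [← this]
    refine Finset.sum_congr rfl fun r _ => ?_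
    congr 3
    push_cast
    ring
  have e3 : XX p a x (i + 1) = ∑ r ∈ Ico (2 ^ (i + 1)) (2 ^ (i + 1) + 2 ^ i), ‖a (x - (r : ℕ))‖ₑ ^ p +
      ∑ r ∈ Ico (2 ^ (i + 1) + 2 ^ i) (2 ^ (i + 1 + 1)), ‖a (x - (r : ℕ))‖ₑ ^ p := by
    unfold XX
    rw [Finset.sum_Ico_consecutive]
    · exact Nat.le_add_right _ _
    · rw [show 2 ^ (i + 1 + 1) = 2 ^ (i + 1) + 2 ^ (i + 1) by ring]
      have : 2 ^ i ≤ 2 ^ (i + 1) := Nat.pow_le_pow_right (by norm_num) (by omega)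
      omega
  rw [e1] at h1
  rw [e2] at h2
  rw [two_mul, e3]
  refine (add_le_add h1 h2).trans (le_of_eq ?_)
  ring

/-- discrete Hardy inequality -/
theorem hardy {p : ℝ} (hp : 1 < p) (q : ℝ≥0) (hq : 1 / 2 < q) :
    ∃ C : ℝ≥0, ∀ (a : ℤ → ℝ), (∃ B : ℤ, ∀ n, B < |n| → a n = 0) → ∀ x : ℤ,
      ∑' i : ℕ, (q : ℝ≥0∞) ^ i * XX p a x i ≤ C * GN p q a := by
  have hq0 : 0 < q := lt_of_le_of_lt (by positivity) hq
  -- choose A with A / (2q) < 1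
  set A : ℝ≥0 := (1 + 2 * q) / 2 with hA
  have hA1 : 1 < A := by
    rw [hA, lt_div_iff₀ (by norm_num), one_mul]
    have : 1 < 2 * q := by
      rw [div_lt_iff₀ (by norm_num)] at hq
      rwa [mul_comm]
    calc (2 : ℝ≥0) = 1 + 1 := by norm_num
      _ < 1 + 2 * q := by gcongr
  have hA2 : A / (2 * q) < 1 := by
    rw [div_lt_one (by positivity), hA, div_lt_iff₀ (by norm_num)]
    have : 1 < 2 * q := by
      rw [div_lt_iff₀ (by norm_num)] at hq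
      rwa [mul_comm]
    calc 1 + 2 * q < 2 * q + 2 * q := by gcongr
      _ = 2 * q * 2 := by ring
  obtain ⟨B, hAB⟩ := exists_conv hp A hA1
  set θ : ℝ≥0 := A / (2 * q) with hθ
  refine ⟨(1 - θ)⁻¹ * (B / 2 * (1 + q⁻¹)), fun a ⟨b, hb⟩ x => ?_⟩
  set T := ∑' i : ℕ, (q : ℝ≥0∞) ^ i * XX p a x i with hT
  have h1 : T ≤ θ * T + (B / 2 * (1 + q⁻¹) : ℝ≥0) * GN p q a := by
    have hstep : ∀ i : ℕ, (q : ℝ≥0∞) ^ i * XX p a x i ≤ (θ : ℝ≥0∞) * ((q : ℝ≥0∞) ^ (i + 1) * XX p a x (i + 1)) +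
        ((B / 2 : ℝ≥0) : ℝ≥0∞) * ((q : ℝ≥0∞) ^ i * DD p a i) +
        ((B / 2 * q⁻¹ : ℝ≥0) : ℝ≥0∞) * ((q : ℝ≥0∞) ^ (i + 1) * DD p a (i + 1)) := by
      intro i
      have h2 := XX_step hp A B hAB a x i
      have h3 : XX p a x i ≤ ((1 / 2 : ℝ≥0) : ℝ≥0∞) * (A * XX p a x (i + 1) + B * (DD p a i + DD p a (i + 1))) := by
        calc XX p a x i = ((1 / 2 : ℝ≥0) : ℝ≥0∞) * (2 * XX p a x i) := by
              rw [← mul_assoc]
              have : ((1 / 2 : ℝ≥0) : ℝ≥0∞) * 2 = 1 := by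
                rw [← ENNReal.coe_ofNat, ← ENNReal.coe_mul, ← ENNReal.coe_one]
                congr 1
                norm_num
              rw [this, one_mul]
          _ ≤ _ := by gcongr
      calc (q : ℝ≥0∞) ^ i * XX p a x i ≤ (q : ℝ≥0∞) ^ i *
            (((1 / 2 : ℝ≥0) : ℝ≥0∞) * (A * XX p a x (i + 1) + B * (DD p a i + DD p a (i + 1)))) := by gcongr
        _ = ((q ^ i * (1 / 2) * A : ℝ≥0) : ℝ≥0∞) * XX p a x (i + 1) +
            ((q ^ i * (1 / 2) * B : ℝ≥0) : ℝ≥0∞) * DD p a i +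
            ((q ^ i * (1 / 2) * B : ℝ≥0) : ℝ≥0∞) * DD p a (i + 1) := by
            push_cast
            ring
        _ = _ := by
            have e1 : q ^ i * (1 / 2) * A = θ * q ^ (i + 1) := by
              rw [hθ]; field_simp
              ring
            have e2 : q ^ i * (1 / 2) * B = B / 2 * q ^ i := by ring
            have e3 : q ^ i * (1 / 2) * B = B / 2 * q⁻¹ * q ^ (i + 1) := by
              field_simp
              ring
            conv_lhs => rw [e1]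
            rw [show ((q ^ i * (1 / 2) * B : ℝ≥0) : ℝ≥0∞) * DD p a i = ((B / 2 * q ^ i : ℝ≥0) : ℝ≥0∞) * DD p a i by rw [e2],
              show ((q ^ i * (1 / 2) * B : ℝ≥0) : ℝ≥0∞) * DD p a (i + 1) =
                ((B / 2 * q⁻¹ * q ^ (i + 1) : ℝ≥0) : ℝ≥0∞) * DD p a (i + 1) by rw [e3]]
            push_cast
            ring
    have hshift : ∀ f : ℕ → ℝ≥0∞, ∑' i : ℕ, f (i + 1) ≤ ∑' i, f i := fun f =>
      ENNReal.tsum_comp_le_tsum_of_injective (add_left_injective 1) f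
    calc T ≤ ∑' i : ℕ, ((θ : ℝ≥0∞) * ((q : ℝ≥0∞) ^ (i + 1) * XX p a x (i + 1)) +
        ((B / 2 : ℝ≥0) : ℝ≥0∞) * ((q : ℝ≥0∞) ^ i * DD p a i) +
        ((B / 2 * q⁻¹ : ℝ≥0) : ℝ≥0∞) * ((q : ℝ≥0∞) ^ (i + 1) * DD p a (i + 1))) := ENNReal.tsum_le_tsum hstep
      _ = (θ : ℝ≥0∞) * ∑' i : ℕ, ((q : ℝ≥0∞) ^ (i + 1) * XX p a x (i + 1)) +
        ((B / 2 : ℝ≥0) : ℝ≥0∞) * ∑' i : ℕ, ((q : ℝ≥0∞) ^ i * DD p a i) +
        ((B / 2 * q⁻¹ : ℝ≥0) : ℝ≥0∞) * ∑' i : ℕ, ((q : ℝ≥0∞) ^ (i + 1) * DD p a (i + 1)) := by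
          rw [ENNReal.tsum_add, ENNReal.tsum_add, ENNReal.tsum_mul_left, ENNReal.tsum_mul_left,
            ENNReal.tsum_mul_left]
      _ ≤ (θ : ℝ≥0∞) * T + ((B / 2 : ℝ≥0) : ℝ≥0∞) * GN p q a + ((B / 2 * q⁻¹ : ℝ≥0) : ℝ≥0∞) * GN p q a := by
          gcongr
          · exact hshift fun i => (q : ℝ≥0∞) ^ i * XX p a x i
          · exact le_rfl
          · exact hshift fun i => (q : ℝ≥0∞) ^ i * DD p a i
      _ = _ := by
          push_cast
          ring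
  have hTfin : T ≠ ∞ := by
    -- only finitely many nonzero terms
    obtain ⟨k, hk⟩ : ∃ k : ℕ, |x| + |b| < 2 ^ k := by
      obtain ⟨k, hk⟩ := pow_unbounded_of_one_lt (|x| + |b|) (by norm_num : (1 : ℤ) < 2)
      exact ⟨k, hk⟩
    rw [hT, tsum_eq_sum (s := range k)]
    · apply ne_of_lt
      apply ENNReal.sum_lt_top.2
      intro i _
      apply ENNReal.mul_lt_top
      · exact ENNReal.pow_lt_top ENNReal.coe_lt_top
      · unfold XX
        apply ENNReal.sum_lt_top.2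
        intro r _
        apply ENNReal.rpow_lt_top_of_nonneg (by linarith)
        exact enorm_ne_top
    · intro i hi
      have hki : k ≤ i := by simpa using hi
      unfold XX
      rw [Finset.sum_eq_zero, mul_zero]
      intro r hr
      rw [Finset.mem_Ico] at hr
      have h2 : (2 : ℤ) ^ k ≤ (r : ℤ) := by
        have : 2 ^ k ≤ r := (Nat.pow_le_pow_right (by norm_num) hki).trans hr.1
        exact_mod_cast this
      rw [hb, enorm_zero, ENNReal.zero_rpow_of_pos (by linarith)]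
      have h3 : (r : ℤ) ≤ |x| + |x - r| := by
        have h4 := abs_sub_abs_le_abs_sub (r : ℤ) x
        rw [abs_sub_comm] at h4
        have h5 := le_abs_self (r : ℤ)
        linarith
      have h6 := le_abs_self b
      linarith
  have h2 : ((1 - θ : ℝ≥0) : ℝ≥0∞) * T ≤ (B / 2 * (1 + q⁻¹) : ℝ≥0) * GN p q a := by
    rw [ENNReal.coe_sub, ENNReal.sub_mul (fun _ _ => hTfin), ENNReal.coe_one, one_mul]
    exact tsub_le_iff_left.2 h1
  have h3 : (((1 - θ)⁻¹ : ℝ≥0) : ℝ≥0∞) * (((1 - θ : ℝ≥0) : ℝ≥0∞) * T) = T := by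
    rw [← mul_assoc, ← ENNReal.coe_mul, inv_mul_cancel₀ (tsub_pos_of_lt hA2).ne', ENNReal.coe_one, one_mul]
  calc T = (((1 - θ)⁻¹ : ℝ≥0) : ℝ≥0∞) * (((1 - θ : ℝ≥0) : ℝ≥0∞) * T) := h3.symm
    _ ≤ (((1 - θ)⁻¹ : ℝ≥0) : ℝ≥0∞) * ((B / 2 * (1 + q⁻¹) : ℝ≥0) * GN p q a) := by gcongr
    _ = _ := by
      push_cast
      ring

/-- truncation -/
noncomputable def trunc (x : ℤ) (a : ℤ → ℝ) : ℤ → ℝ := fun n => if n < x then a n else 0

/-- the block sums are controlled: `|a_{x-1}|` -/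
theorem GN_point {p : ℝ} (hp : 1 < p) (q : ℝ≥0) (hq : 1 / 2 < q) :
    ∃ C : ℝ≥0, ∀ (a : ℤ → ℝ), (∃ B : ℤ, ∀ n, B < |n| → a n = 0) → ∀ x : ℤ,
      ‖a x‖ₑ ^ p ≤ C * GN p q a := by
  obtain ⟨C, hC⟩ := hardy hp q hq
  refine ⟨C, fun a ha x => le_trans ?_ (hC a ha (x + 1))⟩
  refine le_trans (le_of_eq ?_) (ENNReal.le_tsum 0)
  simp [XX]

theorem sum_XX (p : ℝ) (a : ℤ → ℝ) (x : ℤ) (i : ℕ) :
    ∑ r ∈ Ico 1 (2 ^ (i + 1)), ‖a (x - (r : ℕ))‖ₑ ^ p = ∑ l ∈ range (i + 1), XX p a x l := by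
  induction i with
  | zero => simp [XX]
  | succ i ih =>
    rw [Finset.sum_range_succ, ← ih]
    unfold XX
    rw [Finset.sum_Ico_consecutive]
    · exact Nat.one_le_two_pow
    · exact Nat.pow_le_pow_right (by norm_num) (by omega)

theorem DD_trunc {p : ℝ} (hp : 1 < p) (a : ℤ → ℝ) (x : ℤ) (i : ℕ) :
    DD p (trunc x a) i ≤ DD p a i + ∑ l ∈ range (i + 1), XX p a x l := by
  have hp0 : 0 < p := by linarith
  have h1 : ∀ n : ℤ, ‖trunc x a n - trunc x a (n - 2 ^ i)‖ₑ ^ p ≤ ‖a n - a (n - 2 ^ i)‖ₑ ^ p +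
      (if x ≤ n ∧ n < x + 2 ^ i then ‖a (n - 2 ^ i)‖ₑ ^ p else 0) := by
    intro n
    have h2i : (0 : ℤ) < 2 ^ i := by positivity
    unfold trunc
    by_cases h1 : n < x
    · rw [if_pos h1, if_pos (by linarith : n - 2 ^ i < x)]
      exact le_self_add
    · push Not at h1
      rw [if_neg (not_lt.2 h1)]
      by_cases h2 : n - 2 ^ i < x
      · rw [if_pos h2, if_pos ⟨h1, by linarith⟩, zero_sub, enorm_neg]
        exact le_add_self
      · rw [if_neg h2, sub_zero, enorm_zero, ENNReal.zero_rpow_of_pos hp0]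
        exact zero_le
  unfold DD
  refine (ENNReal.tsum_le_tsum h1).trans ?_
  rw [ENNReal.tsum_add]
  gcongr
  rw [tsum_eq_sum (s := (Finset.Ico x (x + 2 ^ i)))]
  · have e1 : ∀ n ∈ Finset.Ico x (x + 2 ^ i), (if x ≤ n ∧ n < x + 2 ^ i then ‖a (n - 2 ^ i)‖ₑ ^ p else 0) =
        ‖a (n - 2 ^ i)‖ₑ ^ p := by
      intro n hn
      rw [Finset.mem_Ico] at hn
      rw [if_pos hn]
    rw [Finset.sum_congr rfl e1, ← sum_XX]
    have e2 : ∑ n ∈ Finset.Ico x (x + 2 ^ i), ‖a (n - 2 ^ i)‖ₑ ^ p ≤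
        ∑ r ∈ Ico 1 (2 ^ i + 1), ‖a (x - (r : ℕ))‖ₑ ^ p := by
      apply le_of_eq
      refine Finset.sum_bij' (fun n _ => (x + 2 ^ i - n).toNat) (fun r _ => x + 2 ^ i - (r : ℤ)) ?_ ?_ ?_ ?_ ?_
      · intro n hn
        rw [Finset.mem_Ico] at hn ⊢
        have h3 : ((x + 2 ^ i - n).toNat : ℤ) = x + 2 ^ i - n := Int.toNat_of_nonneg (by linarith)
        constructor
        · have : (1 : ℤ) ≤ ((x + 2 ^ i - n).toNat : ℤ) := by rw [h3]; linarith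
          exact_mod_cast this
        · have : ((x + 2 ^ i - n).toNat : ℤ) < 2 ^ i + 1 := by rw [h3]; linarith
          exact_mod_cast this
      · intro r hr
        rw [Finset.mem_Ico] at hr ⊢
        have h3 : (1 : ℤ) ≤ r := by exact_mod_cast hr.1
        have h4 : (r : ℤ) < 2 ^ i + 1 := by exact_mod_cast hr.2
        constructor <;> linarith
      · intro n hn
        rw [Finset.mem_Ico] at hn
        have h3 : ((x + 2 ^ i - n).toNat : ℤ) = x + 2 ^ i - n := Int.toNat_of_nonneg (by linarith)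
        simp only [h3]
        ring
      · intro r hr
        simp
      · intro n hn
        rw [Finset.mem_Ico] at hn
        have h3 : ((x + 2 ^ i - n).toNat : ℤ) = x + 2 ^ i - n := Int.toNat_of_nonneg (by linarith)
        rw [h3]
        congr 3
        ring
    refine e2.trans (Finset.sum_le_sum_of_subset ?_)
    apply Finset.Ico_subset_Ico le_rfl
    have : 1 ≤ 2 ^ i := Nat.one_le_two_pow
    rw [pow_succ]
    omega
  · intro n hn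
    rw [if_neg]
    rwa [Finset.mem_Ico] at hn

theorem GN_trunc {p : ℝ} (hp : 1 < p) (q : ℝ≥0) (hq : 1 / 2 < q) (hq1 : q < 1) :
    ∃ C : ℝ≥0, ∀ (a : ℤ → ℝ), (∃ B : ℤ, ∀ n, B < |n| → a n = 0) → ∀ x : ℤ,
      GN p q (trunc x a) ≤ C * GN p q a := by
  obtain ⟨C, hC⟩ := hardy hp q hq
  refine ⟨1 + (1 - q)⁻¹ * C, fun a ha x => ?_⟩
  have h1 : GN p q (trunc x a) ≤ GN p q a + ∑' i : ℕ, (q : ℝ≥0∞) ^ i * ∑ l ∈ range (i + 1), XX p a x l := by
    unfold GN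
    rw [← ENNReal.tsum_add]
    apply ENNReal.tsum_le_tsum
    intro i
    rw [← mul_add]
    gcongr
    exact DD_trunc hp a x i
  have h2 : ∑' i : ℕ, (q : ℝ≥0∞) ^ i * ∑ l ∈ range (i + 1), XX p a x l =
      ((1 - q)⁻¹ : ℝ≥0) * ∑' i : ℕ, (q : ℝ≥0∞) ^ i * XX p a x i := by
    have e1 : ∀ i : ℕ, (q : ℝ≥0∞) ^ i * ∑ l ∈ range (i + 1), XX p a x l =
        ∑ l ∈ range (i + 1), (q : ℝ≥0∞) ^ (i - l) * ((q : ℝ≥0∞) ^ l * XX p a x l) := by
      intro i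
      rw [Finset.mul_sum]
      refine Finset.sum_congr rfl fun l hl => ?_
      rw [← mul_assoc, ← pow_add, Nat.sub_add_cancel (by simp at hl; omega)]
    simp_rw [e1]
    have e2 : ∀ i : ℕ, ∑ l ∈ range (i + 1), (q : ℝ≥0∞) ^ (i - l) * ((q : ℝ≥0∞) ^ l * XX p a x l) =
        ∑' l : ℕ, (if l ≤ i then (q : ℝ≥0∞) ^ (i - l) else 0) * ((q : ℝ≥0∞) ^ l * XX p a x l) := by
      intro i
      rw [tsum_eq_sum (s := range (i + 1))]
      · refine Finset.sum_congr rfl fun l hl => ?_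
        rw [if_pos (by simp at hl; omega)]
      · intro l hl
        rw [if_neg (by simp at hl; omega), zero_mul]
    simp_rw [e2]
    rw [ENNReal.tsum_comm]
    have e4 : ∀ l : ℕ, ∑' i : ℕ, (if l ≤ i then (q : ℝ≥0∞) ^ (i - l) else 0) * ((q : ℝ≥0∞) ^ l * XX p a x l) =
        ((1 - q)⁻¹ : ℝ≥0) * ((q : ℝ≥0∞) ^ l * XX p a x l) := by
      intro l
      rw [ENNReal.tsum_mul_right]
      congr 1
      rw [ENNReal.coe_inv (tsub_pos_of_lt hq1).ne', ENNReal.coe_sub, ENNReal.coe_one, ← ENNReal.tsum_geometric,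
        ← (add_left_injective l).tsum_eq (f := fun i => if l ≤ i then (q : ℝ≥0∞) ^ (i - l) else 0)]
      · refine tsum_congr fun j => ?_
        rw [if_pos (by omega), Nat.add_sub_cancel]
      · intro i hi
        rw [Function.mem_support] at hi
        have : l ≤ i := by
          by_contra h
          apply hi
          rw [if_neg h]
        exact ⟨i - l, by simp; omega⟩
    simp_rw [e4]
    rw [ENNReal.tsum_mul_left]
  rw [h2] at h1
  refine h1.trans ?_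
  calc GN p q a + ((1 - q)⁻¹ : ℝ≥0) * ∑' i : ℕ, (q : ℝ≥0∞) ^ i * XX p a x i
      ≤ GN p q a + ((1 - q)⁻¹ : ℝ≥0) * (C * GN p q a) := by gcongr; exact hC a ha x
    _ = _ := by push_cast; ring

/-- indicator of `[0,N)` -/
noncomputable def onesZ (N : ℕ) : ℤ → ℝ := fun n => if 0 ≤ n ∧ n < N then 1 else 0

theorem DD_ones {p : ℝ} (hp : 1 < p) (N : ℕ) (i : ℕ) :
    DD p (onesZ N) i ≤ 2 * min (2 ^ i : ℝ≥0∞) N := by
  have hp0 : 0 < p := by linarith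
  have h2i : (0 : ℤ) < 2 ^ i := by positivity
  have hN0 : (0 : ℤ) ≤ N := by positivity
  have hval : ∀ n m : ℤ, ‖onesZ N n - onesZ N m‖ₑ ^ p ≤ 1 := by
    intro n m
    have : ‖onesZ N n - onesZ N m‖ₑ ≤ 1 := by
      rw [← ofReal_norm, ← ENNReal.ofReal_one]
      apply ENNReal.ofReal_le_ofReal
      unfold onesZ
      split_ifs <;> simp
    calc _ ≤ (1 : ℝ≥0∞) ^ p := ENNReal.rpow_le_rpow this hp0.le
      _ = 1 := ENNReal.one_rpow _
  have hbound : ∀ s : Finset ℤ, (∀ n, n ∉ s → onesZ N n = onesZ N (n - 2 ^ i)) → DD p (onesZ N) i ≤ (s.card : ℝ≥0∞) := by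
    intro s hs
    unfold DD
    rw [tsum_eq_sum (s := s)]
    · calc _ ≤ ∑ n ∈ s, (1 : ℝ≥0∞) := Finset.sum_le_sum fun n _ => hval _ _
        _ = _ := by simp
    · intro n hn
      rw [hs n hn, sub_self, enorm_zero, ENNReal.zero_rpow_of_pos hp0]
  rw [mul_min]
  apply le_min
  · refine (hbound (Finset.Ico 0 (2 ^ i) ∪ Finset.Ico (N : ℤ) (N + 2 ^ i)) ?_).trans ?_
    · intro n hn
      simp only [Finset.mem_union, Finset.mem_Ico, not_or, not_and, not_lt] at hn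
      unfold onesZ
      by_cases h0 : 0 ≤ n
      · have h1 := hn.1 h0
        by_cases h2 : n < N
        · rw [if_pos ⟨h0, h2⟩, if_pos ⟨by linarith, by linarith⟩]
        · have := hn.2 (by linarith)
          rw [if_neg (by omega), if_neg (by omega)]
      · rw [if_neg (by omega), if_neg (by omega)]
    · calc (((Finset.Ico 0 (2 ^ i) ∪ Finset.Ico (N : ℤ) (N + 2 ^ i)).card : ℕ) : ℝ≥0∞)
          ≤ ((2 ^ i + 2 ^ i : ℕ) : ℝ≥0∞) := by
            apply Nat.cast_le.2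
            refine (Finset.card_union_le _ _).trans ?_
            rw [Int.card_Ico, Int.card_Ico]
            apply le_of_eq
            rw [sub_zero, add_sub_cancel_left]
            have : ((2 : ℤ) ^ i).toNat = 2 ^ i := by exact_mod_cast Int.toNat_natCast (2 ^ i)
            rw [this]
        _ = _ := by push_cast; ring
  · refine (hbound (Finset.Ico 0 (N : ℤ) ∪ Finset.Ico (2 ^ i : ℤ) (N + 2 ^ i)) ?_).trans ?_
    · intro n hn
      simp only [Finset.mem_union, Finset.mem_Ico, not_or, not_and, not_lt] at hn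
      unfold onesZ
      rw [if_neg, if_neg]
      · intro h
        have := hn.2 (by linarith)
        linarith
      · intro h
        have := hn.1 h.1
        linarith
    · calc (((Finset.Ico 0 (N : ℤ) ∪ Finset.Ico (2 ^ i : ℤ) (N + 2 ^ i)).card : ℕ) : ℝ≥0∞)
          ≤ ((N + N : ℕ) : ℝ≥0∞) := by
            apply Nat.cast_le.2
            refine (Finset.card_union_le _ _).trans ?_
            rw [Int.card_Ico, Int.card_Ico]
            apply le_of_eq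
            rw [sub_zero, add_sub_cancel_right]
            simp
        _ = _ := by push_cast; ring

/-- growth of the norm of `1_{[0,N)}` -/
theorem GN_ones {p : ℝ} (hp : 1 < p) (q : ℝ≥0) (θ : ℝ) (hθ0 : 0 ≤ θ) (hθ1 : θ ≤ 1)
    (hq : q * (2 : ℝ≥0) ^ θ < 1) :
    ∃ C : ℝ≥0, ∀ N : ℕ, GN p q (onesZ N) ≤ C * (N : ℝ≥0∞) ^ (1 - θ) := by
  refine ⟨2 * (1 - q * (2 : ℝ≥0) ^ θ)⁻¹, fun N => ?_⟩
  have h1 : ∀ i : ℕ, (q : ℝ≥0∞) ^ i * DD p (onesZ N) i ≤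
      2 * (N : ℝ≥0∞) ^ (1 - θ) * ((q * (2 : ℝ≥0) ^ θ : ℝ≥0) : ℝ≥0∞) ^ i := by
    intro i
    have h2 : min (2 ^ i : ℝ≥0∞) N ≤ (2 ^ i : ℝ≥0∞) ^ θ * (N : ℝ≥0∞) ^ (1 - θ) := by
      have hm : min (2 ^ i : ℝ≥0∞) N = (min (2 ^ i : ℝ≥0∞) N) ^ θ * (min (2 ^ i : ℝ≥0∞) N) ^ (1 - θ) := by
        rw [← ENNReal.rpow_add_of_nonneg _ _ hθ0 (by linarith), add_sub_cancel, ENNReal.rpow_one]
      rw [hm]
      exact mul_le_mul' (ENNReal.rpow_le_rpow (min_le_left _ _) hθ0)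
        (ENNReal.rpow_le_rpow (min_le_right _ _) (by linarith))
    calc (q : ℝ≥0∞) ^ i * DD p (onesZ N) i ≤ (q : ℝ≥0∞) ^ i * (2 * ((2 ^ i : ℝ≥0∞) ^ θ * (N : ℝ≥0∞) ^ (1 - θ))) := by
          gcongr
          exact (DD_ones hp N i).trans (by gcongr)
      _ = _ := by
          rw [ENNReal.coe_mul, mul_pow]
          have : (2 ^ i : ℝ≥0∞) ^ θ = (((2 : ℝ≥0) ^ θ : ℝ≥0) : ℝ≥0∞) ^ i := by
            rw [← ENNReal.rpow_natCast, ← ENNReal.rpow_mul, mul_comm, ENNReal.rpow_mul, ENNReal.rpow_natCast,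
              ENNReal.coe_rpow_of_nonneg _ hθ0]
            rfl
          rw [this]
          ring
  unfold GN
  refine (ENNReal.tsum_le_tsum h1).trans ?_
  rw [ENNReal.tsum_mul_left, ENNReal.tsum_geometric]
  apply le_of_eq
  rw [ENNReal.coe_mul 2, ENNReal.coe_inv (tsub_pos_of_lt hq).ne', ENNReal.coe_sub, ENNReal.coe_one]
  rw [ENNReal.coe_ofNat]
  ring

end Pool.Agent.Lib.MP89175a
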