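import Mathlib
import Pool.Agent.Lib.MP_89175a_an.Carrier
import Pool.Agent.Lib.MP_89175a_an.Hardy

/-!
Functions of the form `y ↦ Θ (fract y) ⌊y⌋` and the core function.
-/

open Finset MeasureTheory Filter
open scoped ENNReal NNReal

namespace Pool.Agent.Lib.MP89175a

theorem lintegral_tiling (F : ℝ → ℝ≥0∞) :
    ∫⁻ y, F y = ∑' n : ℤ, ∫⁻ z in Set.Ico (0 : ℝ) 1, F (z + n) := by
  have h1 : ∫⁻ y, F y = ∫⁻ y in ⋃ n : ℤ, Set.Ico (n : ℝ) (n + 1), F y := by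
    rw [iUnion_Ico_intCast, setLIntegral_univ]
  rw [h1, lintegral_iUnion (fun n => measurableSet_Ico) (Set.pairwise_disjoint_Ico_intCast ℝ)]
  refine tsum_congr fun n => ?_
  have h2 := (measurePreserving_add_right (volume : Measure ℝ) (n : ℝ)).setLIntegral_comp_preimage_emb
    (measurableEmbedding_addRight (n : ℝ)) F (Set.Ico (n : ℝ) (n + 1))
  rw [← h2]
  congr 2
  ext z
  simp only [Set.mem_preimage, Set.mem_Ico]
  constructor
  · intro h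
    constructor <;> linarith [h.1, h.2]
  · intro h
    constructor <;> linarith [h.1, h.2]

variable {E : Type*} [NormedAddCommGroup E] [NormedSpace ℝ E] {P : ℝ≥0∞} [hP : Fact (1 ≤ P)]

theorem P_ne_zero : P ≠ 0 := by
  intro h
  have := hP.out
  rw [h] at this
  simp at this

omit [NormedSpace ℝ E] in
theorem enorm_rpow_eq (hP' : P ≠ ∞) (F : Lp E P (volume : Measure ℝ)) :
    ‖F‖ₑ ^ P.toReal = ∫⁻ y, ‖F y‖ₑ ^ P.toReal := by
  rw [Lp.enorm_def, eLpNorm_eq_lintegral_rpow_enorm_toReal P_ne_zero hP', ← ENNReal.rpow_mul,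
    one_div, inv_mul_cancel₀ (ENNReal.toReal_pos P_ne_zero hP').ne', ENNReal.rpow_one]

/-- representation of a combination of integer translates -/
theorem comb_coeFn {𝕜 : Type*} [NormedField 𝕜] [NormedSpace 𝕜 E] (S : Finset ℕ) (c : ℕ → 𝕜)
    (F : Lp E P (volume : Measure ℝ)) (f : ℝ → E) (hf : F =ᵐ[volume] f) :
    ((∑ j ∈ S, c j • tr (j : ℝ) F : Lp E P (volume : Measure ℝ)) : ℝ → E) =ᵐ[volume]
      fun y => ∑ j ∈ S, c j • f (y - j) := by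
  classical
  induction S using Finset.induction_on with
  | empty =>
    simp only [Finset.sum_empty]
    exact Lp.coeFn_zero _ _ _
  | insert j S hj ih =>
    rw [Finset.sum_insert hj]
    filter_upwards [Lp.coeFn_add (c j • tr (j : ℝ) F) (∑ j ∈ S, c j • tr (j : ℝ) F), ih,
      Lp.coeFn_smul (c j) (tr (j : ℝ) F), tr_coeFn (j : ℝ) F, tr_congr (j : ℝ) hf] with y h1 h2 h3 h4 h5
    rw [h1, Pi.add_apply, h2, h3, Pi.smul_apply, h4, h5, Finset.sum_insert hj]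

theorem comb_norm {𝕜 : Type*} [NormedField 𝕜] [NormedSpace 𝕜 E] (hP' : P ≠ ∞) (S : Finset ℕ) (c : ℕ → 𝕜)
    (F : Lp E P (volume : Measure ℝ)) (Θ : ℝ → ℤ → E) (hF : F =ᵐ[volume] fun y => Θ (Int.fract y) ⌊y⌋) :
    ‖(∑ j ∈ S, c j • tr (j : ℝ) F : Lp E P (volume : Measure ℝ))‖ₑ ^ P.toReal =
      ∑' n : ℤ, ∫⁻ z in Set.Ico (0 : ℝ) 1, ‖∑ j ∈ S, c j • Θ z (n - j)‖ₑ ^ P.toReal := by
  rw [enorm_rpow_eq hP']
  have h1 := comb_coeFn S c F _ hF
  have h2 : ∫⁻ y, ‖(∑ j ∈ S, c j • tr (j : ℝ) F : Lp E P (volume : Measure ℝ)) y‖ₑ ^ P.toReal =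
      ∫⁻ y, ‖∑ j ∈ S, c j • Θ (Int.fract (y - j)) ⌊y - j⌋‖ₑ ^ P.toReal := by
    apply lintegral_congr_ae
    filter_upwards [h1] with y hy
    rw [hy]
  rw [h2, lintegral_tiling]
  refine tsum_congr fun n => ?_
  apply setLIntegral_congr_fun measurableSet_Ico
  intro z hz
  dsimp only
  congr 2
  refine Finset.sum_congr rfl fun j _ => ?_
  have h3 : z + n - j = z + ((n - j : ℤ) : ℝ) := by push_cast; ring
  have h4 : Int.fract z = z := Int.fract_eq_self.2 hz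
  have h5 : ⌊z⌋ = 0 := Int.floor_eq_zero_iff.2 hz
  rw [h3, Int.fract_add_intCast, Int.floor_add_intCast, h4, h5, zero_add]

/-- the index of the dyadic block of `z` -/
noncomputable def idx (z : ℝ) : ℕ := Nat.log 2 ⌊1 / z⌋₊

theorem measurable_idx : Measurable idx := by
  unfold idx
  exact (measurable_from_nat (f := Nat.log 2)).comp (Nat.measurable_floor.comp (measurable_id.const_div 1))

theorem idx_eq_iff {z : ℝ} (hz : 0 < z) (hz1 : z ≤ 1) (i : ℕ) :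
    idx z = i ↔ (2 : ℝ)⁻¹ ^ (i + 1) < z ∧ z ≤ (2 : ℝ)⁻¹ ^ i := by
  have h1 : 1 ≤ 1 / z := by rw [le_div_iff₀ hz]; linarith
  have h2 : ⌊1 / z⌋₊ ≠ 0 := by
    have := Nat.floor_pos.2 h1
    omega
  have h0 : (0 : ℝ) ≤ 1 / z := by positivity
  unfold idx
  rw [Nat.log_eq_iff (Or.inr ⟨by norm_num, h2⟩), Nat.le_floor_iff h0, Nat.floor_lt h0]
  push_cast
  rw [le_div_iff₀ hz, div_lt_iff₀ hz, inv_pow, inv_pow, inv_lt_iff_one_lt_mul₀ (by positivity),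
    le_inv_comm₀ hz (by positivity), and_comm]
  constructor
  · rintro ⟨h3, h4⟩
    refine ⟨by linarith, ?_⟩
    rw [le_inv_comm₀ (by positivity) hz, ← one_div, le_div_iff₀' (by positivity)]
    linarith
  · rintro ⟨h3, h4⟩
    refine ⟨by linarith, ?_⟩
    rw [le_inv_comm₀ (by positivity) hz, ← one_div, le_div_iff₀' (by positivity)] at h4
    linarith

theorem volume_idx (i : ℕ) :
    (volume.restrict (Set.Ico (0 : ℝ) 1)).map idx {i} = (2 : ℝ≥0∞)⁻¹ ^ (i + 1) := by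
  rw [Measure.map_apply measurable_idx (measurableSet_singleton i),
    Measure.restrict_apply (measurable_idx (measurableSet_singleton i))]
  have hlen : (2 : ℝ≥0∞)⁻¹ ^ (i + 1) = ENNReal.ofReal ((2 : ℝ)⁻¹ ^ i - (2 : ℝ)⁻¹ ^ (i + 1)) := by
    have : (2 : ℝ)⁻¹ ^ i - (2 : ℝ)⁻¹ ^ (i + 1) = (2 : ℝ)⁻¹ ^ (i + 1) := by rw [pow_succ]; ring
    rw [this, ENNReal.ofReal_pow (by positivity), ENNReal.ofReal_inv_of_pos (by norm_num), ENNReal.ofReal_ofNat]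
  have hi1 : (2 : ℝ)⁻¹ ^ i ≤ 1 := pow_le_one₀ (by norm_num) (by norm_num)
  have hi2 : (0 : ℝ) < (2 : ℝ)⁻¹ ^ (i + 1) := by positivity
  rw [hlen]
  apply le_antisymm
  · have hsub : idx ⁻¹' {i} ∩ Set.Ico (0 : ℝ) 1 ⊆ Set.Icc ((2 : ℝ)⁻¹ ^ (i + 1)) ((2 : ℝ)⁻¹ ^ i) ∪ {0} := by
      rintro z ⟨hz, hz01⟩
      rcases hz01.1.eq_or_lt with h | h
      · right; exact h.symm
      · left
        have := (idx_eq_iff h hz01.2.le i).1 hz
        exact ⟨this.1.le, this.2⟩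
    refine (measure_mono hsub).trans ((measure_union_le _ _).trans ?_)
    rw [Real.volume_singleton, add_zero, Real.volume_Icc]
  · have hsub : Set.Ioo ((2 : ℝ)⁻¹ ^ (i + 1)) ((2 : ℝ)⁻¹ ^ i) ⊆ idx ⁻¹' {i} ∩ Set.Ico (0 : ℝ) 1 := by
      rintro z ⟨h1, h2⟩
      have h0 : 0 < z := hi2.trans h1
      have h3 : z < 1 := h2.trans_le hi1
      exact ⟨(idx_eq_iff h0 h3.le i).2 ⟨h1, h2.le⟩, h0.le, h3⟩
    calc ENNReal.ofReal ((2 : ℝ)⁻¹ ^ i - (2 : ℝ)⁻¹ ^ (i + 1)) =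
          volume (Set.Ioo ((2 : ℝ)⁻¹ ^ (i + 1)) ((2 : ℝ)⁻¹ ^ i)) := by rw [Real.volume_Ioo]
      _ ≤ _ := measure_mono hsub

theorem lintegral_idx (F : ℕ → ℝ≥0∞) :
    ∫⁻ z in Set.Ico (0 : ℝ) 1, F (idx z) = ∑' i : ℕ, (2 : ℝ≥0∞)⁻¹ ^ (i + 1) * F i := by
  have h1 : ∫⁻ z in Set.Ico (0 : ℝ) 1, F (idx z) =
      ∫⁻ i, F i ∂((volume.restrict (Set.Ico (0 : ℝ) 1)).map idx) := by
    rw [lintegral_map (measurable_of_countable F) measurable_idx]
  rw [h1, lintegral_countable']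
  refine tsum_congr fun i => ?_
  rw [volume_idx, mul_comm]

/-- amplitude -/
noncomputable def amp (p : ℝ) (q : ℝ≥0) (i : ℕ) : ℝ := ((2 : ℝ) ^ (i + 1) * (q : ℝ) ^ i) ^ (1 / p)

theorem enorm_amp {p : ℝ} (hp : 0 < p) (q : ℝ≥0) (i : ℕ) (x : ℝ) :
    ‖amp p q i * x‖ₑ ^ p = (2 : ℝ≥0∞) ^ (i + 1) * (q : ℝ≥0∞) ^ i * ‖x‖ₑ ^ p := by
  rw [enorm_mul, ENNReal.mul_rpow_of_nonneg _ _ hp.le]
  congr 1
  have h0 : (0 : ℝ) ≤ (2 : ℝ) ^ (i + 1) * (q : ℝ) ^ i := by positivity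
  unfold amp
  rw [Real.enorm_eq_ofReal (by positivity), ENNReal.ofReal_rpow_of_nonneg (by positivity) hp.le,
    ← Real.rpow_mul h0, one_div, inv_mul_cancel₀ hp.ne', Real.rpow_one,
    ENNReal.ofReal_mul (by positivity), ENNReal.ofReal_pow (by positivity), ENNReal.ofReal_pow (by positivity)]
  simp

/-- the profile of the core function -/
noncomputable def ΘG (p : ℝ) (q : ℝ≥0) (a : ℤ → ℝ) (z : ℝ) (n : ℤ) : ℝ :=
  amp p q (idx z) * (a n - a (n - 2 ^ (idx z)))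

theorem lintegral_ΘG {p : ℝ} (hp : 0 < p) (q : ℝ≥0) (a : ℤ → ℝ) :
    ∑' n : ℤ, ∫⁻ z in Set.Ico (0 : ℝ) 1, ‖ΘG p q a z n‖ₑ ^ p = GN p q a := by
  have h1 : ∀ n : ℤ, ∫⁻ z in Set.Ico (0 : ℝ) 1, ‖ΘG p q a z n‖ₑ ^ p =
      ∑' i : ℕ, (q : ℝ≥0∞) ^ i * ‖a n - a (n - 2 ^ i)‖ₑ ^ p := by
    intro n
    have := lintegral_idx (fun i => ‖amp p q i * (a n - a (n - 2 ^ i))‖ₑ ^ p)
    unfold ΘG
    rw [this]
    refine tsum_congr fun i => ?_
    rw [enorm_amp hp, ← mul_assoc, ← mul_assoc, ← mul_pow, ENNReal.inv_mul_cancel (by norm_num) (by norm_num),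
      one_pow, one_mul]
  simp_rw [h1]
  rw [ENNReal.tsum_comm]
  unfold GN DD
  refine tsum_congr fun i => ?_
  rw [ENNReal.tsum_mul_left]

/-- sequences on `[0,N)` as sequences on `ℤ` -/
noncomputable def zx {𝕜 : Type*} [Zero 𝕜] (N : ℕ) (c : ℕ → 𝕜) (n : ℤ) : 𝕜 :=
  if 0 ≤ n ∧ n < N then c n.toNat else 0

theorem sum_delta {𝕜 : Type*} [Ring 𝕜] (N : ℕ) (c : ℕ → 𝕜) (n : ℤ) :
    ∑ j ∈ range N, c j * (if n - (j : ℤ) = 0 then 1 else 0) = zx N c n := by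
  unfold zx
  split_ifs with h
  · rw [Finset.sum_eq_single_of_mem n.toNat (by simp; omega)]
    · rw [if_pos (by omega), mul_one]
    · intro j _ hj
      rw [if_neg (by omega), mul_zero]
  · apply Finset.sum_eq_zero
    intro j hj
    rw [Finset.mem_range] at hj
    rw [if_neg (by omega), mul_zero]

theorem zx_bdd {𝕜 : Type*} [Zero 𝕜] (N : ℕ) (c : ℕ → 𝕜) : ∃ B : ℤ, ∀ n, B < |n| → zx N c n = 0 := by
  refine ⟨N, fun n hn => ?_⟩
  unfold zx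
  rw [if_neg]
  rintro ⟨h1, h2⟩
  rw [abs_of_nonneg h1] at hn
  omega

theorem measurable_ΘG (p : ℝ) (q : ℝ≥0) (a : ℤ → ℝ) :
    Measurable fun y : ℝ => ΘG p q a (Int.fract y) ⌊y⌋ := by
  have h1 : Measurable fun y : ℝ => (idx (Int.fract y), ⌊y⌋) :=
    (measurable_idx.comp measurable_fract).prodMk Int.measurable_floor
  have h2 : Measurable fun z : ℕ × ℤ => amp p q z.1 * (a z.2 - a (z.2 - 2 ^ z.1)) := measurable_of_countable _
  exact h2.comp h1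

/-- the unit sequence -/
noncomputable def dlt (n : ℤ) : ℝ := if n = 0 then 1 else 0

theorem GN_dlt {p : ℝ} (hp : 1 < p) (q : ℝ≥0) (hq1 : q < 1) : GN p q dlt < ∞ := by
  have h1 : ∀ i, DD p dlt i ≤ 2 := by
    intro i
    have := DD_ones hp 1 i
    have h2 : onesZ 1 = dlt := by
      ext n
      unfold onesZ dlt
      have : (0 ≤ n ∧ n < ((1 : ℕ) : ℤ)) ↔ n = 0 := by omega
      simp only [this]
    rw [h2] at this
    refine this.trans ?_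
    calc 2 * min (2 ^ i : ℝ≥0∞) ((1 : ℕ) : ℝ≥0∞) ≤ 2 * ((1 : ℕ) : ℝ≥0∞) := by gcongr; exact min_le_right _ _
      _ = 2 := by simp
  calc GN p q dlt ≤ ∑' i : ℕ, (q : ℝ≥0∞) ^ i * 2 := by
        unfold GN
        apply ENNReal.tsum_le_tsum
        intro i
        gcongr
        exact h1 i
    _ = (1 - (q : ℝ≥0∞))⁻¹ * 2 := by rw [ENNReal.tsum_mul_right, ENNReal.tsum_geometric]
    _ < ∞ := by
        apply ENNReal.mul_lt_top _ (by norm_num)
        rw [← ENNReal.coe_one, ← ENNReal.coe_sub, ← ENNReal.coe_inv (tsub_pos_of_lt hq1).ne']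
        exact ENNReal.coe_lt_top

theorem memLp_core (hP1 : 1 < P) (hP' : P ≠ ∞) (q : ℝ≥0) (hq1 : q < 1) :
    MemLp (fun y : ℝ => ΘG P.toReal q dlt (Int.fract y) ⌊y⌋) P volume := by
  have hp : 1 < P.toReal := by
    rw [← ENNReal.toReal_one]
    exact (ENNReal.toReal_lt_toReal (by norm_num) hP').2 hP1
  refine ⟨(measurable_ΘG _ _ _).aestronglyMeasurable, ?_⟩
  rw [eLpNorm_lt_top_iff_lintegral_rpow_enorm_lt_top P_ne_zero hP', lintegral_tiling]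
  have : ∀ n : ℤ, ∫⁻ z in Set.Ico (0 : ℝ) 1, ‖ΘG P.toReal q dlt (Int.fract (z + n)) ⌊z + n⌋‖ₑ ^ P.toReal =
      ∫⁻ z in Set.Ico (0 : ℝ) 1, ‖ΘG P.toReal q dlt z n‖ₑ ^ P.toReal := by
    intro n
    apply setLIntegral_congr_fun measurableSet_Ico
    intro z hz
    dsimp only
    rw [Int.fract_add_intCast, Int.floor_add_intCast, Int.fract_eq_self.2 hz, Int.floor_eq_zero_iff.2 hz, zero_add]
  simp_rw [this]
  rw [lintegral_ΘG (by linarith)]
  exact GN_dlt hp q hq1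

/-- existence of the core function, with its norm formula -/
theorem exists_core (hP1 : 1 < P) (hP' : P ≠ ∞) (q : ℝ≥0) (hq1 : q < 1) :
    ∃ G : Lp ℝ P (volume : Measure ℝ), ∀ (N : ℕ) (c : ℕ → ℝ),
      ‖(∑ j ∈ range N, c j • tr (j : ℝ) G : Lp ℝ P (volume : Measure ℝ))‖ₑ ^ P.toReal =
        GN P.toReal q (zx N c) := by
  have hp : 1 < P.toReal := by
    rw [← ENNReal.toReal_one]
    exact (ENNReal.toReal_lt_toReal (by norm_num) hP').2 hP1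
  refine ⟨(memLp_core hP1 hP' q hq1).toLp _, fun N c => ?_⟩
  rw [comb_norm hP' (range N) c _ (ΘG P.toReal q dlt) (MemLp.coeFn_toLp _),
    ← lintegral_ΘG (by linarith)]
  refine tsum_congr fun n => ?_
  congr 1
  ext z
  congr 2
  unfold ΘG
  have h1 : ∀ m : ℤ, ∑ j ∈ range N, c j * dlt (m - j) = zx N c m := fun m => by
    unfold dlt
    exact sum_delta N c m
  rw [← h1, ← h1, mul_sub, Finset.mul_sum, Finset.mul_sum, ← Finset.sum_sub_distrib]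
  refine Finset.sum_congr rfl fun j _ => ?_
  rw [smul_eq_mul, show n - (j : ℤ) - 2 ^ idx z = n - 2 ^ idx z - j by ring]
  ring

end Pool.Agent.Lib.MP89175a
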