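import Mathlib
import Pool.Agent.Lib.MP_89175a_an.Core

/-!
Norm inequalities for the core function.
-/

open Finset MeasureTheory Filter
open scoped ENNReal NNReal

namespace Pool.Agent.Lib.MP89175a

theorem norm_le_of_enorm_rpow {F F' : Type*} [NormedAddCommGroup F] [NormedAddCommGroup F'] {p : ℝ}
    (hp : 0 < p) (x : F) (y : F') (C : ℝ≥0) (h : ‖x‖ₑ ^ p ≤ C * ‖y‖ₑ ^ p) :
    ‖x‖ ≤ (C : ℝ) ^ (1 / p) * ‖y‖ := by
  rw [enorm_eq_nnnorm, enorm_eq_nnnorm, ← ENNReal.coe_rpow_of_nonneg _ hp.le,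
    ← ENNReal.coe_rpow_of_nonneg _ hp.le, ← ENNReal.coe_mul, ENNReal.coe_le_coe] at h
  have h2 : ‖x‖₊ ≤ C ^ (1 / p) * ‖y‖₊ := by
    have h3 := NNReal.rpow_le_rpow h (by positivity : (0 : ℝ) ≤ 1 / p)
    rw [NNReal.mul_rpow, ← NNReal.rpow_mul, ← NNReal.rpow_mul, mul_one_div_cancel hp.ne', NNReal.rpow_one,
      NNReal.rpow_one] at h3
    exact h3
  exact_mod_cast h2

theorem enorm_rpow_le_of_norm {F F' : Type*} [NormedAddCommGroup F] [NormedAddCommGroup F'] {p : ℝ}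
    (hp : 0 < p) (x : F) (y : F') (C : ℝ≥0) (h : ‖x‖ ≤ C * ‖y‖) :
    ‖x‖ₑ ^ p ≤ (C : ℝ≥0∞) ^ p * ‖y‖ₑ ^ p := by
  rw [← ENNReal.mul_rpow_of_nonneg _ _ hp.le]
  apply ENNReal.rpow_le_rpow _ hp.le
  rw [enorm_eq_nnnorm, enorm_eq_nnnorm, ← ENNReal.coe_mul, ENNReal.coe_le_coe]
  exact_mod_cast h

variable {P : ℝ≥0∞} [hP : Fact (1 ≤ P)]

omit hP in
theorem toReal_gt_one (hP1 : 1 < P) (hP2 : P < 2) : 1 < P.toReal := by
  rw [← ENNReal.toReal_one]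
  exact (ENNReal.toReal_lt_toReal (by norm_num) (ne_top_of_lt hP2)).2 hP1

omit hP in
theorem toReal_lt_two (hP2 : P < 2) : P.toReal < 2 := by
  have : (2 : ℝ) = (2 : ℝ≥0∞).toReal := by simp
  rw [this]
  exact (ENNReal.toReal_lt_toReal (ne_top_of_lt hP2) (by norm_num)).2 hP2

theorem trunc_zx (N x : ℕ) (hx : x ≤ N) (c : ℕ → ℝ) : trunc x (zx N c) = zx x c := by
  ext n
  unfold trunc zx
  by_cases h : n < x
  · rw [if_pos h]
    by_cases h0 : 0 ≤ n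
    · rw [if_pos ⟨h0, by omega⟩, if_pos ⟨h0, h⟩]
    · rw [if_neg (by omega), if_neg (by omega)]
  · rw [if_neg h, if_neg (by omega)]

theorem zx_one (N : ℕ) : zx N (fun _ => (1 : ℝ)) = onesZ N := rfl

/-- all the properties of the core function that are needed later -/
theorem core_props (hP1 : 1 < P) (hP2 : P < 2) :
    ∃ (G : Lp ℝ P (volume : Measure ℝ)) (C s : ℝ), 0 < C ∧ 0 ≤ s ∧ s < 1 - 1 / P.toReal ∧
      (∀ (N x : ℕ) (c : ℕ → ℝ), x ≤ N →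
        ‖∑ j ∈ range x, c j • tr (j : ℝ) G‖ ≤ C * ‖∑ j ∈ range N, c j • tr (j : ℝ) G‖) ∧
      (∀ (N : ℕ) (c : ℕ → ℝ), ∀ j < N, |c j| ≤ C * ‖∑ j ∈ range N, c j • tr (j : ℝ) G‖) ∧
      (∀ (N : ℕ) (c : ℕ → ℝ), ∑ j ∈ Icc (0 : ℤ) N, ‖zx N c j - zx N c (j - 1)‖ₑ ^ P.toReal ≤
        ‖∑ j ∈ range N, c j • tr (j : ℝ) G‖ₑ ^ P.toReal) ∧
      (∀ N : ℕ, ‖∑ j ∈ range N, tr (j : ℝ) G‖ ≤ C * (N : ℝ) ^ s) := by
  have hP' : P ≠ ∞ := ne_top_of_lt hP2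
  set p := P.toReal with hp
  have h1 : 1 < p := toReal_gt_one hP1 hP2
  have h2 : p < 2 := toReal_lt_two hP2
  have hp0 : 0 < p := by linarith
  -- parameters
  set q : ℝ≥0 := (2 : ℝ≥0) ^ (-((3 - p) / 2)) with hq
  set θ : ℝ := (7 - 3 * p) / 4 with hθ
  have hq1 : q < 1 := NNReal.rpow_lt_one_of_one_lt_of_neg (by norm_num) (by linarith)
  have hq2 : 1 / 2 < q := by
    have : (1 / 2 : ℝ≥0) = (2 : ℝ≥0) ^ (-1 : ℝ) := by
      rw [NNReal.rpow_neg_one, one_div]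
    rw [this, hq]
    exact NNReal.rpow_lt_rpow_of_exponent_lt (by norm_num) (by linarith)
  have hqθ : q * (2 : ℝ≥0) ^ θ < 1 := by
    rw [hq, ← NNReal.rpow_add (by norm_num)]
    exact NNReal.rpow_lt_one_of_one_lt_of_neg (by norm_num) (by rw [hθ]; linarith)
  obtain ⟨G, hG⟩ := exists_core hP1 hP' q hq1
  obtain ⟨C₁, hC₁⟩ := GN_trunc h1 q hq2 hq1
  obtain ⟨C₂, hC₂⟩ := GN_point h1 q hq2
  obtain ⟨C₃, hC₃⟩ := GN_ones h1 q θ (by rw [hθ]; linarith) (by rw [hθ]; linarith) hqθ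
  rw [← hp] at hG
  refine ⟨G, (C₁ : ℝ) ^ (1 / p) + (C₂ : ℝ) ^ (1 / p) + (C₃ : ℝ) ^ (1 / p) + 1, (1 - θ) / p, by positivity,
    ?_, ?_, ?_, ?_, ?_, ?_⟩
  · apply div_nonneg _ hp0.le
    rw [hθ]
    linarith
  · rw [div_lt_iff₀ hp0, sub_mul, one_div, inv_mul_cancel₀ hp0.ne', hθ]
    linarith
  · intro N x c hx
    have h3 := hC₁ (zx N c) (zx_bdd N c) x
    rw [trunc_zx N x hx, ← hG, ← hG] at h3
    refine (norm_le_of_enorm_rpow hp0 _ _ _ h3).trans ?_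
    gcongr
    have : 0 ≤ (C₂ : ℝ) ^ (1 / p) := by positivity
    have : 0 ≤ (C₃ : ℝ) ^ (1 / p) := by positivity
    linarith
  · intro N c j hj
    have h3 := hC₂ (zx N c) (zx_bdd N c) j
    rw [← hG] at h3
    have h4 : zx N c j = c j := by
      unfold zx
      rw [if_pos (by omega), Int.toNat_natCast]
    rw [h4] at h3
    have h5 := norm_le_of_enorm_rpow hp0 _ _ _ h3
    rw [Real.norm_eq_abs] at h5
    refine h5.trans ?_
    gcongr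
    have : 0 ≤ (C₁ : ℝ) ^ (1 / p) := by positivity
    have : 0 ≤ (C₃ : ℝ) ^ (1 / p) := by positivity
    linarith
  · intro N c
    rw [hG]
    refine le_trans ?_ (ENNReal.le_tsum 0)
    rw [pow_zero, one_mul]
    unfold DD
    rw [pow_zero]
    exact ENNReal.sum_le_tsum _
  · intro N
    have h3 := hC₃ N
    rw [← zx_one, ← hG] at h3
    simp only [one_smul] at h3
    have h4 : ‖∑ j ∈ range N, tr (j : ℝ) G‖ₑ ^ p ≤ C₃ * ‖(N : ℝ) ^ ((1 - θ) / p)‖ₑ ^ p := by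
      refine h3.trans (le_of_eq ?_)
      congr 1
      rw [Real.enorm_eq_ofReal (by positivity), ENNReal.ofReal_rpow_of_nonneg (by positivity) hp0.le,
        ← Real.rpow_mul (by positivity), div_mul_cancel₀ _ hp0.ne',
        ← ENNReal.ofReal_rpow_of_nonneg (by positivity) (by rw [hθ]; linarith), ENNReal.ofReal_natCast]
    have h5 := norm_le_of_enorm_rpow hp0 _ _ _ h4
    rw [Real.norm_eq_abs, abs_of_nonneg (by positivity)] at h5
    refine h5.trans ?_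
    gcongr
    have : 0 ≤ (C₁ : ℝ) ^ (1 / p) := by positivity
    have : 0 ≤ (C₂ : ℝ) ^ (1 / p) := by positivity
    linarith

end Pool.Agent.Lib.MP89175a
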