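import Mathlib

/-!
Specifications of the independent modules (paper proof in table ideas, helper31).
-/

open Finset Complex MeasureTheory

namespace Pool.Agent.Lib.MP89175a

/-- MODULE MR. -/
def RieszDisc (p : ℝ) : Prop :=
  ∃ C : ℝ, 0 < C ∧ ∀ (N M : ℕ), 4 * N + 4 ≤ M → ∀ (c : ℕ → ℂ) (x : ℕ), x ≤ N + 1 →
    ∑ k ∈ range M, ‖∑ j ∈ range x, c j * exp (2 * Real.pi * I * (j * k / M))‖ ^ p ≤
      C * ∑ k ∈ range M, ‖∑ j ∈ range (N + 1), c j * exp (2 * Real.pi * I * (j * k / M))‖ ^ p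

/-- the chirp -/
noncomputable def chirp (N : ℕ) (n : ℤ) : ℂ :=
  (-1) ^ n * exp (-(Real.pi * I * ((n : ℂ) ^ 2 / (8 * N))))

/-- the truncated chirp filter -/
noncomputable def ht (N : ℕ) (n : ℤ) : ℂ :=
  if -(5 * N : ℤ) ≤ n ∧ n < 4 * N then chirp N n else 0

/-- MODULE CHIRP. -/
def ChirpMult (p : ℝ) : Prop :=
  ∃ C : ℝ, 0 < C ∧ ∀ N : ℕ, 1 ≤ N → ∀ (s : Finset ℤ) (x : ℤ → ℝ),
    (∑' n : ℤ, ‖∑ j ∈ s, (x j : ℂ) * ht N (n - j)‖ₑ ^ p) ≤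
      ENNReal.ofReal (C * N * (1 + Real.log N) ^ (p / 2)) * ∑ j ∈ s, ‖x j‖ₑ ^ p

/-- L_p-normalised Haar function number `m` (`m = 0`: constant, `m = 2^k+i`: level `k`, position `i`),
as a function on `ℝ` supported in `[0,1)`. -/
noncomputable def haar (p : ℝ) (m : ℕ) (y : ℝ) : ℝ :=
  if m = 0 then (Set.Ico (0 : ℝ) 1).indicator 1 y
  else (2 : ℝ) ^ ((Nat.log 2 m : ℝ) / p) *
    ((Set.Ico (((m : ℝ) - 2 ^ Nat.log 2 m) / 2 ^ Nat.log 2 m)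
        (((m : ℝ) - 2 ^ Nat.log 2 m + 1 / 2) / 2 ^ Nat.log 2 m)).indicator 1 y -
      (Set.Ico (((m : ℝ) - 2 ^ Nat.log 2 m + 1 / 2) / 2 ^ Nat.log 2 m)
        (((m : ℝ) - 2 ^ Nat.log 2 m + 1) / 2 ^ Nat.log 2 m)).indicator 1 y)

/-- MODULE HAAR, part 1: square function equivalence for `1 < p < 2`. -/
def HaarSquare (p : ℝ) : Prop :=
  ∃ K : ℝ, 0 < K ∧ ∀ (n : ℕ) (c : ℕ → ℝ),
    (∫ y in Set.Ico (0 : ℝ) 1, (∑ m ∈ range n, c m ^ 2 * haar p m y ^ 2) ^ (p / 2)) ≤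
        K * ∫ y in Set.Ico (0 : ℝ) 1, |∑ m ∈ range n, c m * haar p m y| ^ p ∧
    (∫ y in Set.Ico (0 : ℝ) 1, |∑ m ∈ range n, c m * haar p m y| ^ p) ≤
        2 * ∫ y in Set.Ico (0 : ℝ) 1, (∑ m ∈ range n, c m ^ 2 * haar p m y ^ 2) ^ (p / 2)

/-- MODULE HAAR, part 2: density. -/
def HaarDense (p : ℝ) : Prop :=
  ∀ (F : ℝ → ℝ), MemLp F (ENNReal.ofReal p) (volume.restrict (Set.Icc (0 : ℝ) 1)) →
    ∀ ε : ℝ, 0 < ε → ∃ (n : ℕ) (c : ℕ → ℝ),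
      eLpNorm (fun y => F y - ∑ m ∈ range n, c m * haar p m y) (ENNReal.ofReal p)
        (volume.restrict (Set.Icc (0 : ℝ) 1)) ≤ ENNReal.ofReal ε

end Pool.Agent.Lib.MP89175a
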