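import Mathlib
import Pool.Agent.Lib.MP_89175a_an.Carrier
import Pool.Agent.Lib.MP_89175a_an.Spec

/-!
Specifications of the second round of modules (SQP, SQREC, DQH, EMBED, SCHAUDER).
Carrier.lean holds `tr` (translation), `MK K w` (the real function Re (w e^{2 pi i K y})), `carr`, `phase`.
-/

open Finset MeasureTheory Filter Topology
open scoped ENNReal

namespace Pool.Agent.Lib.MP89175a

variable {P : ℝ≥0∞} [hP : Fact (1 ≤ P)]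

/-- MODULE SQP (file SquarePoint.lean): `theorem sq_point : 1 < p → p < 2 → SqPoint p`. -/
def SqPoint (p : ℝ) : Prop :=
  ∀ x u v t : ℝ, 0 ≤ t →
    (((x + u) ^ 2 + (t + (u ^ 2 + v ^ 2))) ^ (p / 2) + ((x - u) ^ 2 + (t + (u ^ 2 + v ^ 2))) ^ (p / 2) +
      ((x + v) ^ 2 + (t + (u ^ 2 + v ^ 2))) ^ (p / 2) + ((x - v) ^ 2 + (t + (u ^ 2 + v ^ 2))) ^ (p / 2)) / 4 -
        (x ^ 2 + t) ^ (p / 2) ≤
      3 / (p - 1) * ((|x + u| ^ p + |x - u| ^ p + |x + v| ^ p + |x - v| ^ p) / 4 - |x| ^ p) ∧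
    (((x + u) ^ 2 + (t + (u ^ 2 + v ^ 2))) ^ (p / 2) + ((x - u) ^ 2 + (t + (u ^ 2 + v ^ 2))) ^ (p / 2) +
      ((x + v) ^ 2 + (t + (u ^ 2 + v ^ 2))) ^ (p / 2) + ((x - v) ^ 2 + (t + (u ^ 2 + v ^ 2))) ^ (p / 2)) / 4 -
        (x ^ 2 + t) ^ (p / 2) ≤
      2 * ((t + (u ^ 2 + v ^ 2)) ^ (p / 2) - t ^ (p / 2))

/-- `g = ∑ c_i Re (w_i e_{K_i})` -/
noncomputable def gsum (M : ℕ) (w : ℕ → Lp ℂ P (volume : Measure ℝ)) (K : ℕ → ℝ) (c : ℕ → ℝ) :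
    Lp ℝ P (volume : Measure ℝ) := ∑ i ∈ range M, c i • MK (K i) (w i)

/-- the square function of the family `w` -/
noncomputable def DQ (M : ℕ) (w : ℕ → Lp ℂ P (volume : Measure ℝ)) (c : ℕ → ℝ) : ℝ :=
  ∫ y, (∑ i ∈ range M, c i ^ 2 * ‖w i y‖ ^ 2) ^ (P.toReal / 2)

/-- the mixed square function -/
noncomputable def BQ (M : ℕ) (w : ℕ → Lp ℂ P (volume : Measure ℝ)) (K : ℕ → ℝ) (c : ℕ → ℝ) : ℝ :=
  ∫ y, ((gsum M w K c) y ^ 2 + ∑ i ∈ range M, c i ^ 2 * ‖w i y‖ ^ 2) ^ (P.toReal / 2)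

/-- the invariant of the square function recursion -/
def SqInv (M : ℕ) (w : ℕ → Lp ℂ P (volume : Measure ℝ)) (K : ℕ → ℝ) (η : ℝ) : Prop :=
  ∀ c : ℕ → ℝ, BQ M w K c ≤ 3 / (P.toReal - 1) * ‖gsum M w K c‖ ^ P.toReal + η * DQ M w c ∧
    BQ M w K c ≤ (2 + η) * DQ M w c

/-- MODULE SQREC (file SquareRec.lean), for `1 < P`, `P < 2` (P : ℝ≥0∞):
`theorem sqInv_zero (w K η) (hη : 0 ≤ η) : SqInv 0 w K η`
`theorem sqInv_congr (M w w' K K' η) (∀ i < M, w i = w' i) (∀ i < M, K i = K' i) : SqInv M w K η → SqInv M w' K' η`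
`theorem sqInv_step : 1 < P → P < 2 → SqStep P`
`theorem sqInv_concl : 1 < P → P < 2 → SqConcl P` -/
def SqStep (P : ℝ≥0∞) [Fact (1 ≤ P)] : Prop :=
  ∀ (M : ℕ) (w : ℕ → Lp ℂ P (volume : Measure ℝ)) (K : ℕ → ℝ) (η η' : ℝ), 0 ≤ η → η < η' →
    (∀ i ≤ M, 1 ≤ ‖w i‖) → SqInv M w K η →
      ∃ K₀ : ℝ, ∀ k : ℝ, K₀ ≤ k → SqInv (M + 1) w (Function.update K M k) η'

def SqConcl (P : ℝ≥0∞) [Fact (1 ≤ P)] : Prop :=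
  ∀ (M : ℕ) (w : ℕ → Lp ℂ P (volume : Measure ℝ)) (K : ℕ → ℝ) (η : ℝ), η ≤ 1 / 2 → SqInv M w K η →
    ∀ c : ℕ → ℝ, DQ M w c ≤ 6 / (P.toReal - 1) * ‖gsum M w K c‖ ^ P.toReal ∧
      ‖gsum M w K c‖ ^ P.toReal ≤ 3 * DQ M w c

/-- MODULE DQH (file DqHaar.lean): `theorem dq_haar : 1 < P → P < 2 → DqHaar P`. -/
def DqHaar (P : ℝ≥0∞) [Fact (1 ≤ P)] : Prop :=
  ∃ C : ℝ, 0 < C ∧ ∀ (w : ℕ → Lp ℂ P (volume : Measure ℝ)) (U : ℕ → ℤ → ℂ),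
    (∀ i, w i =ᵐ[volume] fun y => ((|haar P.toReal i (Int.fract y)| : ℝ) : ℂ) * U i ⌊y⌋) →
    (∀ i n, ‖U i n‖ ≤ 100 / (1 + |(n : ℝ)|)) → (∀ i, 1 ≤ ‖U i 0‖) →
    (∀ i, 1 ≤ ‖w i‖) ∧
    ∀ (M : ℕ) (c : ℕ → ℝ),
      (∫ y in Set.Ico (0 : ℝ) 1, (∑ m ∈ range M, c m ^ 2 * haar P.toReal m y ^ 2) ^ (P.toReal / 2)) ≤ DQ M w c ∧
      DQ M w c ≤ C * ∫ y in Set.Ico (0 : ℝ) 1, (∑ m ∈ range M, c m ^ 2 * haar P.toReal m y ^ 2) ^ (P.toReal / 2)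

/-- MODULE EMBED (file Embed.lean): `theorem embed_of_haar : 1 ≤ P → P ≠ ∞ → EmbedOfHaar P` (use `haar_dense`). -/
def EmbedOfHaar (P : ℝ≥0∞) [Fact (1 ≤ P)] : Prop :=
  ∀ (b : ℕ → Lp ℝ P (volume : Measure ℝ)) (C : ℝ), 0 < C →
    (∀ (M : ℕ) (c : ℕ → ℝ), (∫ y in Set.Ico (0 : ℝ) 1, |∑ m ∈ range M, c m * haar P.toReal m y| ^ P.toReal) ≤
        C * ‖∑ m ∈ range M, c m • b m‖ ^ P.toReal ∧
      ‖∑ m ∈ range M, c m • b m‖ ^ P.toReal ≤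
        C * ∫ y in Set.Ico (0 : ℝ) 1, |∑ m ∈ range M, c m * haar P.toReal m y| ^ P.toReal) →
    ∃ T : Lp ℝ P (volume.restrict (Set.Icc (0 : ℝ) 1)) →L[ℝ] Lp ℝ P (volume : Measure ℝ),
      (∃ δ : ℝ, 0 < δ ∧ ∀ F, δ * ‖F‖ ≤ ‖T F‖) ∧
      ∀ F, T F ∈ closure (Submodule.span ℝ (Set.range b) : Set (Lp ℝ P (volume : Measure ℝ)))

/-- MODULE SCHAUDER (file Schauder.lean): `theorem schauder_of_prefix : SchauderOfPrefix X` for every real Banach space. -/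
def SchauderOfPrefix (X : Type*) [NormedAddCommGroup X] [NormedSpace ℝ X] : Prop :=
  ∀ (x : ℕ → X) (C : ℝ), (∀ i, x i ≠ 0) →
    (∀ (m n : ℕ) (a : ℕ → ℝ), m ≤ n → ‖∑ i ∈ range m, a i • x i‖ ≤ C * ‖∑ i ∈ range n, a i • x i‖) →
    ∀ v ∈ closure (Submodule.span ℝ (Set.range x) : Set X),
      ∃! a : ℕ → ℝ, Tendsto (fun n => ∑ i ∈ range n, a i • x i) atTop (𝓝 v)

end Pool.Agent.Lib.MP89175a
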