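import Mathlib
import Pool.Agent.Lib.MP_89175a_an.Spec2

/-!
MODULE SQP: pointwise inequality for the square function recursion.
-/

open Finset MeasureTheory Filter Topology
open scoped ENNReal

namespace Pool.Agent.Lib.MP89175a

/-- second order Bernoulli inequality -/
lemma sqp_taylor {p : ℝ} (h1 : 1 < p) (h2 : p < 2) {d : ℝ} (hd0 : 0 ≤ d) (hd1 : d ≤ 1) :
    2 + p * (p - 1) * d ^ 2 ≤ (1 + d) ^ p + (1 - d) ^ p := by
  have hk : ∀ x ∈ Set.Icc (0 : ℝ) 1, 0 ≤ (1 + x) ^ (p - 1) - (1 - x) ^ (p - 1) - 2 * (p - 1) * x := by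
    have hmono : MonotoneOn (fun x : ℝ => (1 + x) ^ (p - 1) - (1 - x) ^ (p - 1) - 2 * (p - 1) * x)
        (Set.Icc 0 1) := by
      apply monotoneOn_of_deriv_nonneg (convex_Icc 0 1)
      · apply ContinuousOn.sub
        · apply ContinuousOn.sub
          · exact (continuousOn_const.add continuousOn_id).rpow_const (fun x hx => Or.inr (by linarith))
          · exact (continuousOn_const.sub continuousOn_id).rpow_const (fun x hx => Or.inr (by linarith))
        · fun_prop
      · rw [interior_Icc]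
        intro x hx
        have hx1 : (1 : ℝ) + x ≠ 0 := by have := hx.1; linarith
        have hx2 : (1 : ℝ) - x ≠ 0 := by have := hx.2; linarith
        have e1 : DifferentiableAt ℝ (fun x : ℝ => (1 + x) ^ (p - 1)) x :=
          DifferentiableAt.rpow_const (by fun_prop) (Or.inl hx1)
        have e2 : DifferentiableAt ℝ (fun x : ℝ => (1 - x) ^ (p - 1)) x :=
          DifferentiableAt.rpow_const (by fun_prop) (Or.inl hx2)
        exact ((e1.sub e2).sub (by fun_prop)).differentiableWithinAt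
      · rw [interior_Icc]
        intro x hx
        have hx1 : (0 : ℝ) < 1 + x := by have := hx.1; linarith
        have hx2 : (0 : ℝ) < 1 - x := by have := hx.2; linarith
        have e1 : HasDerivAt (fun x : ℝ => (1 + x) ^ (p - 1)) (1 * (p - 1) * (1 + x) ^ (p - 1 - 1)) x := by
          apply HasDerivAt.rpow_const _ (Or.inl hx1.ne')
          simpa using (hasDerivAt_id x).const_add 1
        have e2 : HasDerivAt (fun x : ℝ => (1 - x) ^ (p - 1)) (-1 * (p - 1) * (1 - x) ^ (p - 1 - 1)) x := by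
          apply HasDerivAt.rpow_const _ (Or.inl hx2.ne')
          simpa using (hasDerivAt_id x).const_sub 1
        have e3 : HasDerivAt (fun x : ℝ => 2 * (p - 1) * x) (2 * (p - 1) * 1) x :=
          (hasDerivAt_id x).const_mul _
        have e4 := ((e1.sub e2).sub e3).deriv
        have e5 : (fun x : ℝ => (1 + x) ^ (p - 1) - (1 - x) ^ (p - 1) - 2 * (p - 1) * x)
            = (((fun x : ℝ => (1 + x) ^ (p - 1)) - fun x : ℝ => (1 - x) ^ (p - 1)) - fun x : ℝ => 2 * (p - 1) * x) := rfl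
        rw [e5, e4]
        set a := (1 + x) ^ (p - 1 - 1) with ha
        set b := (1 - x) ^ (p - 1 - 1) with hb
        have ha0 : 0 < a := Real.rpow_pos_of_pos hx1 _
        have hb0 : 0 < b := Real.rpow_pos_of_pos hx2 _
        have hab : 1 ≤ a * b := by
          rw [ha, hb, ← Real.mul_rpow hx1.le hx2.le]
          apply Real.one_le_rpow_of_pos_of_le_one_of_nonpos (by positivity) _ (by linarith)
          nlinarith [sq_nonneg x]
        have hsum : 2 ≤ a + b := by
          nlinarith [sq_nonneg (a - b)]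
        nlinarith
    intro x hx
    have := hmono (Set.left_mem_Icc.2 zero_le_one) hx hx.1
    simpa using this
  have hmono2 : MonotoneOn (fun x : ℝ => (1 + x) ^ p + (1 - x) ^ p - p * (p - 1) * x ^ 2) (Set.Icc 0 1) := by
    apply monotoneOn_of_deriv_nonneg (convex_Icc 0 1)
    · apply ContinuousOn.sub
      · apply ContinuousOn.add
        · exact (continuousOn_const.add continuousOn_id).rpow_const (fun x hx => Or.inr (by linarith))
        · exact (continuousOn_const.sub continuousOn_id).rpow_const (fun x hx => Or.inr (by linarith))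
      · fun_prop
    · rw [interior_Icc]
      intro x hx
      have hx1 : (1 : ℝ) + x ≠ 0 := by have := hx.1; linarith
      have hx2 : (1 : ℝ) - x ≠ 0 := by have := hx.2; linarith
      have e1 : DifferentiableAt ℝ (fun x : ℝ => (1 + x) ^ p) x :=
        DifferentiableAt.rpow_const (by fun_prop) (Or.inl hx1)
      have e2 : DifferentiableAt ℝ (fun x : ℝ => (1 - x) ^ p) x :=
        DifferentiableAt.rpow_const (by fun_prop) (Or.inl hx2)
      exact ((e1.add e2).sub (by fun_prop)).differentiableWithinAt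
    · rw [interior_Icc]
      intro x hx
      have hx1 : (0 : ℝ) < 1 + x := by have := hx.1; linarith
      have hx2 : (0 : ℝ) < 1 - x := by have := hx.2; linarith
      have e1 : HasDerivAt (fun x : ℝ => (1 + x) ^ p) (1 * p * (1 + x) ^ (p - 1)) x := by
        apply HasDerivAt.rpow_const _ (Or.inl hx1.ne')
        simpa using (hasDerivAt_id x).const_add 1
      have e2 : HasDerivAt (fun x : ℝ => (1 - x) ^ p) (-1 * p * (1 - x) ^ (p - 1)) x := by
        apply HasDerivAt.rpow_const _ (Or.inl hx2.ne')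
        simpa using (hasDerivAt_id x).const_sub 1
      have e3 : HasDerivAt (fun x : ℝ => p * (p - 1) * x ^ 2) (p * (p - 1) * (2 * x)) x := by
        have := (hasDerivAt_pow 2 x).const_mul (p * (p - 1))
        simpa using this
      have e4 := ((e1.add e2).sub e3).deriv
      have e5 : (fun x : ℝ => (1 + x) ^ p + (1 - x) ^ p - p * (p - 1) * x ^ 2)
          = (((fun x : ℝ => (1 + x) ^ p) + fun x : ℝ => (1 - x) ^ p) - fun x : ℝ => p * (p - 1) * x ^ 2) := rfl
      rw [e5, e4]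
      have := hk x ⟨hx.1.le, hx.2.le⟩
      have hp0 : 0 < p := by linarith
      nlinarith
  have h0 := hmono2 (Set.left_mem_Icc.2 zero_le_one) ⟨hd0, hd1⟩ hd0
  simp only [add_zero, sub_zero, Real.one_rpow] at h0
  linarith

/-- two-point inequality, normalised small case -/
lemma sqp_two_point_small {p : ℝ} (h1 : 1 < p) (h2 : p < 2) {x d : ℝ} (hx : 0 ≤ x) (hd : 0 ≤ d) (hdx : d ≤ x) :
    (x ^ 2 + (p - 1) * d ^ 2) ^ (p / 2) ≤ (|x + d| ^ p + |x - d| ^ p) / 2 := by
  rcases hx.eq_or_lt with h0 | h0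
  · have : d = 0 := by linarith
    subst this; subst h0
    simp only [add_zero, sub_zero, abs_zero]
    have hp : p ≠ 0 := by linarith
    have hp2 : p / 2 ≠ 0 := by positivity
    simp [Real.zero_rpow hp, Real.zero_rpow hp2]
  have hs0 : 0 ≤ d / x := by positivity
  have hs1 : d / x ≤ 1 := by rw [div_le_one h0]; exact hdx
  have ht := sqp_taylor h1 h2 hs0 hs1
  set s := d / x with hs
  have hd' : d = x * s := by rw [hs]; field_simp
  have e1 : |x + d| ^ p = x ^ p * (1 + s) ^ p := by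
    rw [abs_of_nonneg (by linarith), hd', ← Real.mul_rpow h0.le (by linarith)]; ring_nf
  have e2 : |x - d| ^ p = x ^ p * (1 - s) ^ p := by
    rw [abs_of_nonneg (by linarith), hd', ← Real.mul_rpow h0.le (by linarith)]; ring_nf
  have e3 : (x ^ 2 + (p - 1) * d ^ 2) ^ (p / 2) = x ^ p * (1 + (p - 1) * s ^ 2) ^ (p / 2) := by
    have : x ^ 2 + (p - 1) * d ^ 2 = x ^ 2 * (1 + (p - 1) * s ^ 2) := by rw [hd']; ring
    rw [this, Real.mul_rpow (by positivity) (by nlinarith [sq_nonneg s])]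
    congr 1
    rw [← Real.rpow_natCast x 2, ← Real.rpow_mul h0.le]
    congr 1; push_cast; ring
  rw [e1, e2, e3]
  have hxp : 0 < x ^ p := Real.rpow_pos_of_pos h0 p
  have hb : (1 + (p - 1) * s ^ 2) ^ (p / 2) ≤ 1 + (p / 2) * ((p - 1) * s ^ 2) := by
    apply rpow_one_add_le_one_add_mul_self
    · nlinarith [sq_nonneg s]
    · linarith
    · linarith
  have : (1 + (p - 1) * s ^ 2) ^ (p / 2) ≤ ((1 + s) ^ p + (1 - s) ^ p) / 2 := by linarith
  calc x ^ p * (1 + (p - 1) * s ^ 2) ^ (p / 2) ≤ x ^ p * (((1 + s) ^ p + (1 - s) ^ p) / 2) :=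
        mul_le_mul_of_nonneg_left this hxp.le
    _ = _ := by ring

/-- two-point inequality -/
lemma sqp_two_point {p : ℝ} (h1 : 1 < p) (h2 : p < 2) (x d : ℝ) :
    (x ^ 2 + (p - 1) * d ^ 2) ^ (p / 2) ≤ (|x + d| ^ p + |x - d| ^ p) / 2 := by
  -- reduce to absolute values
  have key : ∀ x d : ℝ, 0 ≤ x → 0 ≤ d →
      (x ^ 2 + (p - 1) * d ^ 2) ^ (p / 2) ≤ (|x + d| ^ p + |x - d| ^ p) / 2 := by
    intro x d hx hd
    rcases le_total d x with h | h
    · exact sqp_two_point_small h1 h2 hx hd h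
    · have := sqp_two_point_small h1 h2 hd hx h
      have e1 : |d + x| = |x + d| := by rw [add_comm]
      have e2 : |d - x| = |x - d| := abs_sub_comm _ _
      rw [e1, e2] at this
      refine le_trans ?_ this
      apply Real.rpow_le_rpow
      · nlinarith [sq_nonneg x, sq_nonneg d]
      · nlinarith [mul_le_mul h h hx hd]
      · linarith
  have h := key |x| |d| (abs_nonneg _) (abs_nonneg _)
  rw [sq_abs, sq_abs] at h
  refine h.trans (le_of_eq ?_)
  congr 1
  rcases abs_cases x with ⟨ex, _⟩ | ⟨ex, _⟩ <;> rcases abs_cases d with ⟨ed, _⟩ | ⟨ed, _⟩ <;> rw [ex, ed]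
  · rw [add_comm]
    congr 1
    · congr 2; ring
  · rw [add_comm]
    congr 2
    · rw [← abs_neg]; congr 1; ring
    · rw [← abs_neg]; congr 1; ring
  · congr 2
    · rw [← abs_neg]; congr 1; ring
    · rw [← abs_neg]; congr 1; ring

lemma sqp_conc {q : ℝ} (hq0 : 0 < q) (hq1 : q ≤ 1) {x y w1 w2 : ℝ} (hx : 0 ≤ x) (hy : 0 ≤ y)
    (h1 : 0 ≤ w1) (h2 : 0 ≤ w2) (h : w1 + w2 = 1) :
    w1 * x ^ q + w2 * y ^ q ≤ (w1 * x + w2 * y) ^ q := by
  have := (Real.concaveOn_rpow hq0.le hq1).2 (Set.mem_Ici.2 hx) (Set.mem_Ici.2 hy) h1 h2 h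
  simpa only [smul_eq_mul] using this

/-- concave increments: `φ(a+s) - φ(a)` is nonincreasing in `a` for `φ = (·)^q`, `0<q≤1` -/
lemma sqp_incr {q : ℝ} (hq0 : 0 < q) (hq1 : q ≤ 1) {a b s : ℝ} (ha : 0 ≤ a) (hab : a ≤ b) (hs : 0 ≤ s) :
    (b + s) ^ q - b ^ q ≤ (a + s) ^ q - a ^ q := by
  rcases (add_nonneg (sub_nonneg.2 hab) hs).eq_or_lt with h | h
  · have h3 : b - a = 0 := by linarith [sub_nonneg.2 hab]
    have h4 : s = 0 := by linarith
    have : b = a := by linarith
    subst this; exact le_rfl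
  -- b and a+s are convex combinations of a and b+s
  set L := (b - a) + s with hL
  have h5 := sqp_conc hq0 hq1 (x := a) (y := b + s) ha (by linarith)
    (w1 := s / L) (w2 := (b - a) / L) (by positivity) (div_nonneg (by linarith) h.le)
    (by rw [← add_div, div_eq_one_iff_eq h.ne']; ring)
  have h6 := sqp_conc hq0 hq1 (x := a) (y := b + s) ha (by linarith)
    (w1 := (b - a) / L) (w2 := s / L) (div_nonneg (by linarith) h.le) (by positivity)
    (by rw [← add_div, div_eq_one_iff_eq h.ne'])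
  have e5 : s / L * a + (b - a) / L * (b + s) = b := by
    field_simp; rw [hL]; ring
  have e6 : (b - a) / L * a + s / L * (b + s) = a + s := by
    field_simp; rw [hL]; ring
  rw [e5] at h5
  rw [e6] at h6
  have e7 : s / L + (b - a) / L = 1 := by
    rw [← add_div, div_eq_one_iff_eq h.ne']; rw [hL]; ring
  have h7 : (s / L + (b - a) / L) * a ^ q + (s / L + (b - a) / L) * (b + s) ^ q ≤ b ^ q + (a + s) ^ q := by
    nlinarith
  rw [e7] at h7
  linarith

/-- concave scaling: `ψ(λ s) ≤ λ ψ(s)` for `ψ(s) = (a+s)^q - a^q` and `λ ≥ 1` -/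
lemma sqp_scale {q : ℝ} (hq0 : 0 < q) (hq1 : q ≤ 1) {a s lam : ℝ} (ha : 0 ≤ a) (hs : 0 ≤ s) (hl : 1 ≤ lam) :
    (a + lam * s) ^ q - a ^ q ≤ lam * ((a + s) ^ q - a ^ q) := by
  have hl0 : 0 < lam := by linarith
  have h5 := sqp_conc hq0 hq1 (x := a) (y := a + lam * s) ha (by positivity)
    (w1 := 1 - 1 / lam) (w2 := 1 / lam) (by rw [sub_nonneg, div_le_one hl0]; exact hl) (by positivity) (by ring)
  have e5 : (1 - 1 / lam) * a + 1 / lam * (a + lam * s) = a + s := by field_simp; ring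
  rw [e5] at h5
  have h6 := mul_le_mul_of_nonneg_left h5 hl0.le
  have e6 : lam * ((1 - 1 / lam) * a ^ q + 1 / lam * (a + lam * s) ^ q) = (lam - 1) * a ^ q + (a + lam * s) ^ q := by
    field_simp
  rw [e6] at h6
  linarith

/-- average over the two signs -/
lemma sqp_avg {q : ℝ} (hq0 : 0 < q) (hq1 : q ≤ 1) {a b : ℝ} (ha : 0 ≤ a) (hb : 0 ≤ b) :
    (a ^ q + b ^ q) / 2 ≤ ((a + b) / 2) ^ q := by
  have h5 := sqp_conc hq0 hq1 (x := a) (y := b) ha hb
    (w1 := 1 / 2) (w2 := 1 / 2) (by norm_num) (by norm_num) (by norm_num)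
  have e : (1 / 2 : ℝ) * a + 1 / 2 * b = (a + b) / 2 := by ring
  rw [e] at h5
  linarith

theorem sq_point {p : ℝ} (h1 : 1 < p) (h2 : p < 2) : SqPoint p := by
  intro x u v t ht
  have hq0 : 0 < p / 2 := by linarith
  have hq1 : p / 2 ≤ 1 := by linarith
  have hD : 0 ≤ u ^ 2 + v ^ 2 := by positivity
  set D := u ^ 2 + v ^ 2 with hDdef
  -- the common upper bound
  have hA : (((x + u) ^ 2 + (t + D)) ^ (p / 2) + ((x - u) ^ 2 + (t + D)) ^ (p / 2) +
      ((x + v) ^ 2 + (t + D)) ^ (p / 2) + ((x - v) ^ 2 + (t + D)) ^ (p / 2)) / 4 ≤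
      ((x ^ 2 + t) + 3 / 2 * D) ^ (p / 2) := by
    have a1 := sqp_avg hq0 hq1 (a := (x + u) ^ 2 + (t + D)) (b := (x - u) ^ 2 + (t + D)) (by positivity) (by positivity)
    have a2 := sqp_avg hq0 hq1 (a := (x + v) ^ 2 + (t + D)) (b := (x - v) ^ 2 + (t + D)) (by positivity) (by positivity)
    have e1 : ((x + u) ^ 2 + (t + D) + ((x - u) ^ 2 + (t + D))) / 2 = x ^ 2 + u ^ 2 + t + D := by ring
    have e2 : ((x + v) ^ 2 + (t + D) + ((x - v) ^ 2 + (t + D))) / 2 = x ^ 2 + v ^ 2 + t + D := by ring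
    rw [e1] at a1
    rw [e2] at a2
    have a3 := sqp_avg hq0 hq1 (a := x ^ 2 + u ^ 2 + t + D) (b := x ^ 2 + v ^ 2 + t + D) (by positivity) (by positivity)
    have e3 : (x ^ 2 + u ^ 2 + t + D + (x ^ 2 + v ^ 2 + t + D)) / 2 = (x ^ 2 + t) + 3 / 2 * D := by
      rw [hDdef]; ring
    rw [e3] at a3
    linarith
  constructor
  · -- first inequality
    have hxx : (x ^ 2) ^ (p / 2) = |x| ^ p := by
      rw [← sq_abs, ← Real.rpow_natCast |x| 2, ← Real.rpow_mul (abs_nonneg _)]
      congr 1; push_cast; ring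
    have b1 := sqp_incr hq0 hq1 (a := x ^ 2) (b := x ^ 2 + t) (s := 3 / 2 * D) (by positivity) (by linarith) (by positivity)
    -- subadditivity
    have b2 := sqp_incr hq0 hq1 (a := x ^ 2) (b := x ^ 2 + 3 / 2 * u ^ 2) (s := 3 / 2 * v ^ 2) (by positivity)
      (by nlinarith [sq_nonneg u]) (by positivity)
    have e4 : x ^ 2 + 3 / 2 * u ^ 2 + 3 / 2 * v ^ 2 = x ^ 2 + 3 / 2 * D := by rw [hDdef]; ring
    rw [e4] at b2
    have hlam : 1 ≤ (3 / 2) / (p - 1) := by rw [le_div_iff₀ (by linarith)]; linarith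
    have hp1 : p - 1 ≠ 0 := by linarith
    have b3 := sqp_scale hq0 hq1 (a := x ^ 2) (s := (p - 1) * u ^ 2) (lam := (3 / 2) / (p - 1)) (by positivity)
      (mul_nonneg (by linarith) (by positivity)) hlam
    have b4 := sqp_scale hq0 hq1 (a := x ^ 2) (s := (p - 1) * v ^ 2) (lam := (3 / 2) / (p - 1)) (by positivity)
      (mul_nonneg (by linarith) (by positivity)) hlam
    have e5 : (3 / 2) / (p - 1) * ((p - 1) * u ^ 2) = 3 / 2 * u ^ 2 := by field_simp
    have e6 : (3 / 2) / (p - 1) * ((p - 1) * v ^ 2) = 3 / 2 * v ^ 2 := by field_simp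
    rw [e5] at b3
    rw [e6] at b4
    have c1 := sqp_two_point h1 h2 x u
    have c2 := sqp_two_point h1 h2 x v
    rw [hxx] at b1 b2 b3 b4
    have hl0 : 0 ≤ (3 / 2) / (p - 1) := by linarith
    have c3 := mul_le_mul_of_nonneg_left c1 hl0
    have c4 := mul_le_mul_of_nonneg_left c2 hl0
    have e7 : 3 / (p - 1) * ((|x + u| ^ p + |x - u| ^ p + |x + v| ^ p + |x - v| ^ p) / 4 - |x| ^ p)
        = (3 / 2) / (p - 1) * ((|x + u| ^ p + |x - u| ^ p) / 2) - (3 / 2) / (p - 1) * |x| ^ p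
          + ((3 / 2) / (p - 1) * ((|x + v| ^ p + |x - v| ^ p) / 2) - (3 / 2) / (p - 1) * |x| ^ p) := by
      ring
    rw [e7]
    rw [mul_sub] at b3 b4
    linarith
  · have b1 := sqp_incr hq0 hq1 (a := t) (b := x ^ 2 + t) (s := 3 / 2 * D) ht (by nlinarith [sq_nonneg x]) (by positivity)
    have b2 := sqp_scale hq0 hq1 (a := t) (s := D) (lam := 3 / 2) ht hD (by norm_num)
    have b3 : 0 ≤ (t + D) ^ (p / 2) - t ^ (p / 2) := by
      have : t ^ (p / 2) ≤ (t + D) ^ (p / 2) := Real.rpow_le_rpow ht (by linarith) hq0.le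
      linarith
    linarith

end Pool.Agent.Lib.MP89175a
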