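import Mathlib
import Pool.Agent.Lib.MP_89175a_an.Spec2

/-!
MODULE SQREC: the recursion for the square functions.
-/

set_option autoImplicit false

open Finset MeasureTheory Filter Topology
open scoped ENNReal

namespace Pool.Agent.Lib.MP89175a

section general

variable {P : ℝ≥0∞} [hP : Fact (1 ≤ P)] {E : Type*} [NormedAddCommGroup E] [NormedSpace ℝ E]

omit [NormedSpace ℝ E] hP in
theorem sr_norm_rpow_eq (h0 : P ≠ 0) (hP' : P ≠ ∞) (F : Lp E P (volume : Measure ℝ)) :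
    ‖F‖ ^ P.toReal = ∫ y, ‖F y‖ ^ P.toReal := by
  have hp : 0 < P.toReal := ENNReal.toReal_pos h0 hP'
  rw [Lp.norm_def, (Lp.memLp F).eLpNorm_eq_integral_rpow_norm h0 hP',
    ENNReal.toReal_ofReal (by positivity),
    ← Real.rpow_mul (by positivity), inv_mul_cancel₀ hp.ne', Real.rpow_one]

omit [NormedSpace ℝ E] hP in
theorem sr_integrable_rpow (h0 : P ≠ 0) (hP' : P ≠ ∞) (F : Lp E P (volume : Measure ℝ)) :
    Integrable (fun y => ‖F y‖ ^ P.toReal) (volume : Measure ℝ) :=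
  (Lp.memLp F).integrable_norm_rpow h0 hP'

omit hP in
theorem sr_sum_coeFn {ι : Type*} (S : Finset ι) (c : ι → ℝ)
    (u : ι → Lp E P (volume : Measure ℝ)) :
    ((∑ i ∈ S, c i • u i : Lp E P (volume : Measure ℝ)) : ℝ → E) =ᵐ[volume]
      fun y => ∑ i ∈ S, c i • u i y := by
  classical
  induction S using Finset.induction_on with
  | empty =>
    simp only [Finset.sum_empty]
    exact Lp.coeFn_zero E P volume
  | insert a S ha ih =>
    rw [Finset.sum_insert ha]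
    filter_upwards [ih, Lp.coeFn_add (c a • u a) (∑ i ∈ S, c i • u i),
      Lp.coeFn_smul (c a) (u a)] with y h1 h2 h3
    rw [h2, Pi.add_apply, h3, h1, Finset.sum_insert ha, Pi.smul_apply]

/-- difference of powers -/
theorem sr_rpow_diff {p : ℝ} (hp : 1 ≤ p) {a b R δ : ℝ} (ha : 0 ≤ a) (hb : 0 ≤ b) (haR : a ≤ R)
    (hbR : b ≤ R) (h : |a - b| ≤ δ) : |a ^ p - b ^ p| ≤ p * R ^ (p - 1) * δ := by
  have hR : 0 ≤ R := ha.trans haR
  have key := Convex.norm_image_sub_le_of_norm_hasDerivWithin_le (𝕜 := ℝ)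
    (f := fun x : ℝ => x ^ p) (f' := fun x => p * x ^ (p - 1)) (C := p * R ^ (p - 1))
    (s := Set.Icc 0 R) (x := b) (y := a)
    (fun x _ => (Real.hasDerivAt_rpow_const (Or.inr hp)).hasDerivWithinAt)
    (fun x hx => by
      rw [Real.norm_eq_abs, abs_of_nonneg (by have := hx.1; positivity)]
      have : x ^ (p - 1) ≤ R ^ (p - 1) := Real.rpow_le_rpow hx.1 hx.2 (by linarith)
      nlinarith)
    (convex_Icc 0 R) ⟨hb, hbR⟩ ⟨ha, haR⟩
  rw [Real.norm_eq_abs, Real.norm_eq_abs] at key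
  exact key.trans (mul_le_mul_of_nonneg_left h (by positivity))

end general

/-! ### The Euclidean space of coordinates -/

/-- the Euclidean space with coordinates `none` and `some i` -/
abbrev EE (n : ℕ) := EuclideanSpace ℂ (Option (Fin n))

/-- coordinate inclusion -/
noncomputable def incl (n : ℕ) (j : Option (Fin n)) : ℂ →L[ℝ] EE n :=
  LinearMap.toContinuousLinearMap
    { toFun := fun z => EuclideanSpace.single j z
      map_add' := fun z w => by ext i; simp; split_ifs <;> simp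
      map_smul' := fun z w => by ext i; simp }

theorem incl_apply (n : ℕ) (j i : Option (Fin n)) (z : ℂ) :
    incl n j z i = if i = j then z else 0 := by
  simp [incl]

theorem norm_incl (n : ℕ) (j : Option (Fin n)) (z : ℂ) : ‖incl n j z‖ = ‖z‖ := by
  simp [incl]

theorem EE_norm_sq (n : ℕ) (x : EE n) :
    ‖x‖ ^ 2 = ‖x none‖ ^ 2 + ∑ i : Fin n, ‖x (some i)‖ ^ 2 := by
  rw [EuclideanSpace.norm_sq_eq, Fintype.sum_option]

/-- `z ↦ Re z` in the coordinate `none` -/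
noncomputable def Lre (n : ℕ) : ℂ →L[ℝ] EE n :=
  (incl n none).comp (Complex.ofRealCLM.comp Complex.reCLM)

theorem Lre_apply (n : ℕ) (z : ℂ) : Lre n z = incl n none ((z.re : ℝ) : ℂ) := rfl

theorem norm_Lre_le (n : ℕ) : ‖Lre n‖ ≤ 1 := by
  apply ContinuousLinearMap.opNorm_le_bound _ zero_le_one
  intro z
  rw [Lre_apply, norm_incl, one_mul, Complex.norm_real]
  exact Complex.abs_re_le_norm z

variable {P : ℝ≥0∞} [hP : Fact (1 ≤ P)]

/-- the vector with coordinates `q` and `w` -/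
noncomputable def Uf (n : ℕ) (q : ℕ → Lp ℝ P (volume : Measure ℝ))
    (w : ℕ → Lp ℂ P (volume : Measure ℝ)) (i : Fin n) : Lp (EE n) P (volume : Measure ℝ) :=
  ((incl n none).comp Complex.ofRealCLM).compLp (q i) + (incl n (some i)).compLp (w i)

omit hP in
theorem Uf_coeFn (n : ℕ) (q : ℕ → Lp ℝ P (volume : Measure ℝ))
    (w : ℕ → Lp ℂ P (volume : Measure ℝ)) (i : Fin n) :
    Uf n q w i =ᵐ[volume] fun y => incl n none ((q i y : ℝ) : ℂ) + incl n (some i) (w i y) := by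
  unfold Uf
  filter_upwards [Lp.coeFn_add (((incl n none).comp Complex.ofRealCLM).compLp (q i))
    ((incl n (some i)).compLp (w i)),
    ((incl n none).comp Complex.ofRealCLM).coeFn_compLp (q i),
    (incl n (some i)).coeFn_compLp (w i)] with y h1 h2 h3
  rw [h1, Pi.add_apply, h2, h3]
  rfl

/-- the basic formula for the norm -/
theorem G_norm_sq (n : ℕ) (q : ℕ → Lp ℝ P (volume : Measure ℝ))
    (w : ℕ → Lp ℂ P (volume : Measure ℝ)) (c : ℕ → ℝ) (k : ℝ)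
    (z : Lp ℂ P (volume : Measure ℝ)) :
    ∀ᵐ y, ‖(∑ i : Fin n, c i • Uf n q w i + carr (Lre n) k z : Lp (EE n) P volume) y‖ ^ 2 =
      (∑ i ∈ range n, c i * q i y + (ee k y * z y).re) ^ 2 +
        ∑ i ∈ range n, c i ^ 2 * ‖w i y‖ ^ 2 := by
  have hU : ∀ᵐ y, ∀ i : Fin n,
      Uf n q w i y = incl n none ((q i y : ℝ) : ℂ) + incl n (some i) (w i y) := by
    rw [ae_all_iff]
    exact fun i => Uf_coeFn n q w i
  filter_upwards [hU, Lp.coeFn_add (∑ i : Fin n, c i • Uf n q w i) (carr (Lre n) k z),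
    sr_sum_coeFn (Finset.univ) (fun i : Fin n => c i) (Uf n q w), carr_coeFn (Lre n) k z]
    with y h1 h2 h3 h4
  rw [h2, Pi.add_apply, h3, h4, EE_norm_sq]
  congr 1
  · -- coordinate none
    have : (∑ i : Fin n, c i • Uf n q w i y + Lre n (ee k y * z y) : EE n) none =
        (((∑ i ∈ range n, c i * q i y + (ee k y * z y).re : ℝ)) : ℂ) := by
      rw [PiLp.add_apply, Lre_apply, incl_apply, if_pos rfl]
      rw [Complex.ofReal_add, Finset.sum_range]
      congr 1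
      rw [WithLp.ofLp_sum, Finset.sum_apply, Complex.ofReal_sum]
      refine Finset.sum_congr rfl fun i _ => ?_
      rw [h1 i, PiLp.smul_apply, PiLp.add_apply, incl_apply, incl_apply, if_pos rfl,
        if_neg (by simp)]
      simp
    rw [this, Complex.norm_real, Real.norm_eq_abs, sq_abs]
  · rw [Finset.sum_range]
    refine Finset.sum_congr rfl fun j _ => ?_
    have : (∑ i : Fin n, c i • Uf n q w i y + Lre n (ee k y * z y) : EE n) (some j) =
        (c j : ℂ) * w j y := by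
      rw [PiLp.add_apply, Lre_apply, incl_apply, if_neg (by simp), add_zero, WithLp.ofLp_sum,
        Finset.sum_apply, Finset.sum_eq_single j]
      · rw [h1 j, PiLp.smul_apply, PiLp.add_apply, incl_apply, incl_apply, if_neg (by simp),
          if_pos rfl]
        simp
      · intro i _ hij
        rw [h1 i, PiLp.smul_apply, PiLp.add_apply, incl_apply, incl_apply, if_neg (by simp),
          if_neg (by simpa using Ne.symm hij)]
        simp
      · simp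
    rw [this, norm_mul, mul_pow, Complex.norm_real, Real.norm_eq_abs, sq_abs]

/-- integral form of the basic formula -/
theorem G_norm_rpow (h0 : P ≠ 0) (hP' : P ≠ ∞) (n : ℕ) (q : ℕ → Lp ℝ P (volume : Measure ℝ))
    (w : ℕ → Lp ℂ P (volume : Measure ℝ)) (c : ℕ → ℝ) (k : ℝ)
    (z : Lp ℂ P (volume : Measure ℝ)) :
    ‖(∑ i : Fin n, c i • Uf n q w i + carr (Lre n) k z : Lp (EE n) P volume)‖ ^ P.toReal =
      ∫ y, ((∑ i ∈ range n, c i * q i y + (ee k y * z y).re) ^ 2 +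
        ∑ i ∈ range n, c i ^ 2 * ‖w i y‖ ^ 2) ^ (P.toReal / 2) ∧
    Integrable (fun y => ((∑ i ∈ range n, c i * q i y + (ee k y * z y).re) ^ 2 +
        ∑ i ∈ range n, c i ^ 2 * ‖w i y‖ ^ 2) ^ (P.toReal / 2)) (volume : Measure ℝ) := by
  have hae : (fun y => ‖(∑ i : Fin n, c i • Uf n q w i + carr (Lre n) k z :
      Lp (EE n) P volume) y‖ ^ P.toReal) =ᵐ[volume]
      fun y => ((∑ i ∈ range n, c i * q i y + (ee k y * z y).re) ^ 2 +
        ∑ i ∈ range n, c i ^ 2 * ‖w i y‖ ^ 2) ^ (P.toReal / 2) := by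
    filter_upwards [G_norm_sq n q w c k z] with y hy
    rw [← hy, ← Real.rpow_natCast, ← Real.rpow_mul (norm_nonneg _)]
    congr 1
    push_cast
    ring
  constructor
  · rw [sr_norm_rpow_eq h0 hP']
    exact integral_congr_ae hae
  · exact (sr_integrable_rpow h0 hP' _).congr hae

/-- the functions `t = ∑ c_i² |w_i|²` -/
noncomputable def tf (n : ℕ) (w : ℕ → Lp ℂ P (volume : Measure ℝ)) (c : ℕ → ℝ) (y : ℝ) : ℝ :=
  ∑ i ∈ range n, c i ^ 2 * ‖w i y‖ ^ 2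

omit hP in
theorem tf_nonneg (n : ℕ) (w : ℕ → Lp ℂ P (volume : Measure ℝ)) (c : ℕ → ℝ) (y : ℝ) :
    0 ≤ tf n w c y := Finset.sum_nonneg fun _ _ => by positivity

theorem integrable_DQ (h0 : P ≠ 0) (hP' : P ≠ ∞) (n : ℕ)
    (w : ℕ → Lp ℂ P (volume : Measure ℝ)) (c : ℕ → ℝ) :
    Integrable (fun y => (tf n w c y) ^ (P.toReal / 2)) (volume : Measure ℝ) := by
  have h := (G_norm_rpow h0 hP' n (fun _ => 0) w c 0 0).2
  refine h.congr ?_
  filter_upwards [Lp.coeFn_zero ℝ P (volume : Measure ℝ), Lp.coeFn_zero ℂ P (volume : Measure ℝ)]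
    with y h1 h2
  rw [h1, h2]
  simp [tf]

/-- lower bound for `DQ` -/
theorem le_DQ (h0 : P ≠ 0) (hP' : P ≠ ∞) (n : ℕ)
    (w : ℕ → Lp ℂ P (volume : Measure ℝ)) (c : ℕ → ℝ) {i : ℕ} (hi : i < n) :
    |c i| ^ P.toReal * ‖w i‖ ^ P.toReal ≤ DQ n w c := by
  have hp : 0 < P.toReal := ENNReal.toReal_pos h0 hP'
  rw [sr_norm_rpow_eq h0 hP', ← integral_const_mul]
  unfold DQ
  apply integral_mono ((sr_integrable_rpow h0 hP' (w i)).const_mul _) (integrable_DQ h0 hP' n w c)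
  intro y
  simp only
  have h1 : |c i| ^ P.toReal * ‖w i y‖ ^ P.toReal = (c i ^ 2 * ‖w i y‖ ^ 2) ^ (P.toReal / 2) := by
    rw [← Real.mul_rpow (abs_nonneg _) (norm_nonneg _),
      show c i ^ 2 * ‖w i y‖ ^ 2 = (|c i| * ‖w i y‖) ^ 2 by rw [mul_pow, sq_abs],
      ← Real.rpow_natCast, ← Real.rpow_mul (by positivity)]
    congr 1
    push_cast
    ring
  rw [h1]
  apply Real.rpow_le_rpow (by positivity) _ (by positivity)
  exact Finset.single_le_sum (f := fun i => c i ^ 2 * ‖w i y‖ ^ 2)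
    (fun _ _ => by positivity) (mem_range.2 hi)

theorem DQ_mono (h0 : P ≠ 0) (hP' : P ≠ ∞) (n : ℕ)
    (w : ℕ → Lp ℂ P (volume : Measure ℝ)) (c : ℕ → ℝ) : DQ n w c ≤ DQ (n + 1) w c := by
  have hp : 0 < P.toReal := ENNReal.toReal_pos h0 hP'
  apply integral_mono (integrable_DQ h0 hP' n w c) (integrable_DQ h0 hP' (n + 1) w c)
  intro y
  apply Real.rpow_le_rpow (tf_nonneg _ _ _ _) _ (by positivity)
  show tf n w c y ≤ tf (n + 1) w c y
  unfold tf
  rw [Finset.sum_range_succ]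
  have : 0 ≤ c n ^ 2 * ‖w n y‖ ^ 2 := by positivity
  linarith

theorem DQ_nonneg (n : ℕ) (w : ℕ → Lp ℂ P (volume : Measure ℝ)) (c : ℕ → ℝ) :
    0 ≤ DQ n w c :=
  integral_nonneg fun y => Real.rpow_nonneg (tf_nonneg n w c y) _

theorem sr_ee_three_quarters : ee 1 (3 / 4) = -Complex.I := by
  have h : (3 / 4 : ℝ) = 1 / 2 + 1 / 4 := by norm_num
  rw [h, ee_add, ee_one_half, ee_one_quarter]
  ring

theorem sr_ee_zero : ee 1 0 = 1 := by
  unfold ee
  simp

/-- `q`-family of the first `M` carriers -/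
noncomputable def qf (M : ℕ) (w : ℕ → Lp ℂ P (volume : Measure ℝ)) (K : ℕ → ℝ) (i : ℕ) :
    Lp ℝ P (volume : Measure ℝ) := if i < M then MK (K i) (w i) else 0

theorem gsum_coeFn (M : ℕ) (w : ℕ → Lp ℂ P (volume : Measure ℝ)) (K : ℕ → ℝ) (c : ℕ → ℝ) :
    (gsum M w K c : ℝ → ℝ) =ᵐ[volume] fun y => ∑ i ∈ range (M + 1), c i * qf M w K i y := by
  unfold gsum
  filter_upwards [sr_sum_coeFn (range M) c (fun i => MK (K i) (w i)),
    Lp.coeFn_zero ℝ P (volume : Measure ℝ)] with y h1 h2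
  rw [h1, Finset.sum_range_succ]
  have h3 : qf M w K M = 0 := by simp [qf]
  rw [h3, h2, Pi.zero_apply, mul_zero, add_zero]
  refine Finset.sum_congr rfl fun i hi => ?_
  rw [qf, if_pos (mem_range.1 hi), smul_eq_mul]

theorem gsum_coeFn' (M : ℕ) (w : ℕ → Lp ℂ P (volume : Measure ℝ)) (K : ℕ → ℝ) (c : ℕ → ℝ) :
    (gsum M w K c : ℝ → ℝ) =ᵐ[volume] fun y => ∑ i ∈ range M, c i * qf M w K i y := by
  unfold gsum
  filter_upwards [sr_sum_coeFn (range M) c (fun i => MK (K i) (w i))] with y h1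
  rw [h1]
  refine Finset.sum_congr rfl fun i hi => ?_
  rw [qf, if_pos (mem_range.1 hi), smul_eq_mul]

theorem integrable_BQ (h0 : P ≠ 0) (hP' : P ≠ ∞) (M : ℕ)
    (w : ℕ → Lp ℂ P (volume : Measure ℝ)) (K : ℕ → ℝ) (c : ℕ → ℝ) :
    Integrable (fun y => ((gsum M w K c) y ^ 2 + tf M w c y) ^ (P.toReal / 2))
      (volume : Measure ℝ) := by
  have h := (G_norm_rpow h0 hP' M (qf M w K) w c 0 0).2
  refine h.congr ?_
  filter_upwards [gsum_coeFn' M w K c, Lp.coeFn_zero ℂ P (volume : Measure ℝ)]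
    with y h1 h2
  rw [h1, h2]
  simp [tf]

/-- the new vector-valued element -/
noncomputable def GB (M : ℕ) (w : ℕ → Lp ℂ P (volume : Measure ℝ)) (K : ℕ → ℝ) (c : ℕ → ℝ) (k : ℝ)
    (θ : ℂ) : Lp (EE (M + 1)) P (volume : Measure ℝ) :=
  ∑ i : Fin (M + 1), c i • Uf (M + 1) (qf M w K) w i + carr (Lre (M + 1)) k (θ • (c M • w M))

/-- the new scalar element -/
noncomputable def GA (M : ℕ) (w : ℕ → Lp ℂ P (volume : Measure ℝ)) (K : ℕ → ℝ) (c : ℕ → ℝ) (k : ℝ)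
    (θ : ℂ) : Lp ℝ P (volume : Measure ℝ) :=
  gsum M w K c + MK k (θ • (c M • w M))

/-- the increment `Re(e_k θ c w)` -/
noncomputable def uf (w : Lp ℂ P (volume : Measure ℝ)) (c : ℝ) (k : ℝ) (θ : ℂ) (y : ℝ) : ℝ :=
  (ee k y * (θ * (c * w y))).re

theorem GB_rpow (h0 : P ≠ 0) (hP' : P ≠ ∞) (M : ℕ) (w : ℕ → Lp ℂ P (volume : Measure ℝ))
    (K : ℕ → ℝ) (c : ℕ → ℝ) (k : ℝ) (θ : ℂ) :
    ‖GB M w K c k θ‖ ^ P.toReal =
      ∫ y, ((gsum M w K c y + uf (w M) (c M) k θ y) ^ 2 + tf (M + 1) w c y) ^ (P.toReal / 2) ∧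
    Integrable (fun y => ((gsum M w K c y + uf (w M) (c M) k θ y) ^ 2 + tf (M + 1) w c y) ^
      (P.toReal / 2)) (volume : Measure ℝ) := by
  have h := G_norm_rpow h0 hP' (M + 1) (qf M w K) w c k (θ • (c M • w M))
  have hae : (fun y => ((∑ i ∈ range (M + 1), c i * qf M w K i y +
        (ee k y * (θ • (c M • w M) : Lp ℂ P (volume : Measure ℝ)) y).re) ^ 2 +
        ∑ i ∈ range (M + 1), c i ^ 2 * ‖w i y‖ ^ 2) ^ (P.toReal / 2)) =ᵐ[volume]
      fun y => ((gsum M w K c y + uf (w M) (c M) k θ y) ^ 2 + tf (M + 1) w c y) ^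
        (P.toReal / 2) := by
    filter_upwards [gsum_coeFn M w K c, Lp.coeFn_smul θ (c M • w M), Lp.coeFn_smul (c M) (w M)]
      with y h1 h2 h3
    rw [h1, h2, Pi.smul_apply, h3, Pi.smul_apply]
    simp only [uf, tf, smul_eq_mul, Complex.real_smul]
  refine ⟨?_, h.2.congr hae⟩
  rw [← integral_congr_ae hae]
  exact h.1

theorem GA_rpow (h0 : P ≠ 0) (hP' : P ≠ ∞) (M : ℕ) (w : ℕ → Lp ℂ P (volume : Measure ℝ))
    (K : ℕ → ℝ) (c : ℕ → ℝ) (k : ℝ) (θ : ℂ) :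
    ‖GA M w K c k θ‖ ^ P.toReal =
      ∫ y, |gsum M w K c y + uf (w M) (c M) k θ y| ^ P.toReal ∧
    Integrable (fun y => |gsum M w K c y + uf (w M) (c M) k θ y| ^ P.toReal)
      (volume : Measure ℝ) := by
  have hae : (fun y => ‖(GA M w K c k θ) y‖ ^ P.toReal) =ᵐ[volume]
      fun y => |gsum M w K c y + uf (w M) (c M) k θ y| ^ P.toReal := by
    filter_upwards [Lp.coeFn_add (gsum M w K c) (MK k (θ • (c M • w M))),
      carr_coeFn Complex.reCLM k (θ • (c M • w M)), Lp.coeFn_smul θ (c M • w M),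
      Lp.coeFn_smul (c M) (w M)] with y h1 h2 h3 h4
    unfold GA
    rw [h1, Pi.add_apply, h2, h3, Pi.smul_apply, h4, Pi.smul_apply]
    simp only [uf, smul_eq_mul, Complex.real_smul, Complex.reCLM_apply, Real.norm_eq_abs]
  refine ⟨?_, (sr_integrable_rpow h0 hP' _).congr hae⟩
  rw [sr_norm_rpow_eq h0 hP']
  exact integral_congr_ae hae

theorem uf_one (w : Lp ℂ P (volume : Measure ℝ)) (c k y : ℝ) :
    uf w c k 1 y = c * (ee k y * w y).re := by
  unfold uf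
  rw [one_mul, mul_left_comm, Complex.re_ofReal_mul]

theorem uf_neg (w : Lp ℂ P (volume : Measure ℝ)) (c k y : ℝ) (θ : ℂ) :
    uf w c k (-θ) y = - uf w c k θ y := by
  unfold uf
  rw [neg_mul, mul_neg, Complex.neg_re]

theorem uf_I (w : Lp ℂ P (volume : Measure ℝ)) (c k y : ℝ) :
    uf w c k Complex.I y = - (c * (ee k y * w y).im) := by
  unfold uf
  rw [show ee k y * (Complex.I * (c * w y)) = (c : ℂ) * (Complex.I * (ee k y * w y)) by ring,
    Complex.re_ofReal_mul, Complex.I_mul_re]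
  ring

theorem uf_sq (w : Lp ℂ P (volume : Measure ℝ)) (c k y : ℝ) :
    uf w c k 1 y ^ 2 + uf w c k Complex.I y ^ 2 = c ^ 2 * ‖w y‖ ^ 2 := by
  have h : ‖w y‖ = ‖ee k y * w y‖ := by rw [norm_mul, norm_ee, one_mul]
  rw [uf_one, uf_I, h, Complex.sq_norm, Complex.normSq_apply]
  ring

theorem int_comb {f1 f2 f3 f4 f : ℝ → ℝ} (h1 : Integrable f1) (h2 : Integrable f2)
    (h3 : Integrable f3) (h4 : Integrable f4) (h : Integrable f) :
    (∫ y, ((f1 y + f2 y + f3 y + f4 y) / 4 - f y)) =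
      ((∫ y, f1 y) + (∫ y, f2 y) + (∫ y, f3 y) + ∫ y, f4 y) / 4 - ∫ y, f y ∧
    Integrable (fun y => (f1 y + f2 y + f3 y + f4 y) / 4 - f y) := by
  have i12 : Integrable (fun y => f1 y + f2 y) := h1.add h2
  have i123 : Integrable (fun y => f1 y + f2 y + f3 y) := i12.add h3
  have i1234 : Integrable (fun y => f1 y + f2 y + f3 y + f4 y) := i123.add h4
  refine ⟨?_, (i1234.div_const 4).sub h⟩
  rw [integral_sub (i1234.div_const 4) h, integral_div, integral_add i123 h4,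
    integral_add i12 h3, integral_add h1 h2]

/-- integrated four point inequalities -/
theorem four_ineq (hP1 : 1 < P) (hP' : P ≠ ∞) (hsq : SqPoint P.toReal) (M : ℕ)
    (w : ℕ → Lp ℂ P (volume : Measure ℝ)) (K : ℕ → ℝ) (c : ℕ → ℝ) (k : ℝ) :
    (‖GB M w K c k 1‖ ^ P.toReal + ‖GB M w K c k (-1)‖ ^ P.toReal +
      ‖GB M w K c k Complex.I‖ ^ P.toReal + ‖GB M w K c k (-Complex.I)‖ ^ P.toReal) / 4 -
        BQ M w K c ≤ 3 / (P.toReal - 1) * ((‖GA M w K c k 1‖ ^ P.toReal +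
          ‖GA M w K c k (-1)‖ ^ P.toReal +
      ‖GA M w K c k Complex.I‖ ^ P.toReal + ‖GA M w K c k (-Complex.I)‖ ^ P.toReal) / 4 -
        ‖gsum M w K c‖ ^ P.toReal) ∧
    (‖GB M w K c k 1‖ ^ P.toReal + ‖GB M w K c k (-1)‖ ^ P.toReal +
      ‖GB M w K c k Complex.I‖ ^ P.toReal + ‖GB M w K c k (-Complex.I)‖ ^ P.toReal) / 4 -
        BQ M w K c ≤ 2 * (DQ (M + 1) w c - DQ M w c) := by
  have h0 : P ≠ 0 := (zero_lt_one.trans hP1).ne'
  have hb := fun θ => GB_rpow h0 hP' M w K c k θ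
  have ha := fun θ => GA_rpow h0 hP' M w K c k θ
  have hB := integrable_BQ h0 hP' M w K c
  have hA := sr_integrable_rpow h0 hP' (gsum M w K c)
  have hD := integrable_DQ h0 hP' M w c
  have hD1 := integrable_DQ h0 hP' (M + 1) w c
  have hpt : ∀ y, tf (M + 1) w c y = tf M w c y +
      (uf (w M) (c M) k 1 y ^ 2 + uf (w M) (c M) k Complex.I y ^ 2) := by
    intro y
    rw [uf_sq]
    unfold tf
    rw [Finset.sum_range_succ]
  have cB := int_comb (hb 1).2 (hb (-1)).2 (hb Complex.I).2 (hb (-Complex.I)).2 hB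
  have cA := int_comb (ha 1).2 (ha (-1)).2 (ha Complex.I).2 (ha (-Complex.I)).2 hA
  have eD : DQ (M + 1) w c - DQ M w c = ∫ y, ((tf (M + 1) w c y) ^ (P.toReal / 2) -
      (tf M w c y) ^ (P.toReal / 2)) := by
    rw [integral_sub hD1 hD]
    rfl
  rw [← (hb 1).1, ← (hb (-1)).1, ← (hb Complex.I).1, ← (hb (-Complex.I)).1] at cB
  rw [← (ha 1).1, ← (ha (-1)).1, ← (ha Complex.I).1, ← (ha (-Complex.I)).1,
    ← sr_norm_rpow_eq h0 hP'] at cA
  have cB1 : (‖GB M w K c k 1‖ ^ P.toReal + ‖GB M w K c k (-1)‖ ^ P.toReal +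
      ‖GB M w K c k Complex.I‖ ^ P.toReal + ‖GB M w K c k (-Complex.I)‖ ^ P.toReal) / 4 -
        BQ M w K c = _ := cB.1.symm
  rw [cB1, ← cA.1, eD, ← integral_const_mul, ← integral_const_mul]
  constructor
  · apply integral_mono cB.2 (cA.2.const_mul _)
    intro y
    simp only
    rw [hpt y, uf_neg, uf_neg, ← sub_eq_add_neg, ← sub_eq_add_neg, Real.norm_eq_abs]
    exact (hsq _ _ _ _ (tf_nonneg M w c y)).1
  · apply integral_mono cB.2 ((hD1.sub hD).const_mul _)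
    intro y
    simp only [Pi.sub_apply]
    rw [hpt y, uf_neg, uf_neg, ← sub_eq_add_neg, ← sub_eq_add_neg]
    exact (hsq _ _ _ _ (tf_nonneg M w c y)).2

/-! ### Phases -/

theorem phase_GB (hP' : P ≠ ∞) (M : ℕ) (w : ℕ → Lp ℂ P (volume : Measure ℝ)) (K : ℕ → ℝ)
    {ε : ℝ} (hε : 0 < ε) :
    ∃ K₀ : ℝ, 0 < K₀ ∧ ∀ k : ℝ, K₀ ≤ k → ∀ r : ℝ, 0 ≤ r → r ≤ 1 → ∀ c : ℕ → ℝ,
      |‖GB M w K c k 1‖ - ‖GB M w K c k (ee 1 r)‖| ≤ ε * (2 * ∑ i ∈ range (M + 1), |c i|) := by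
  obtain ⟨K₀, hK₀, h⟩ := phase_family hP' (Lre (M + 1)) (norm_Lre_le _)
    (Finset.univ : Finset (Fin (M + 1))) (Uf (M + 1) (qf M w K) w) ({()} : Finset Unit)
    (fun _ => w M) hε
  refine ⟨K₀, hK₀, fun k hk r hr0 hr1 c => ?_⟩
  have h1 := h k hk r hr0 hr1 (fun i => c i) (fun _ => c M)
  rw [Finset.sum_singleton, Finset.sum_singleton] at h1
  unfold GB
  rw [one_smul]
  refine h1.trans (mul_le_mul_of_nonneg_left ?_ hε.le)
  rw [Finset.sum_range (fun i => |c i|), two_mul]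
  gcongr
  rw [← Finset.sum_range (fun i => |c i|)]
  exact Finset.single_le_sum (f := fun i => |c i|) (fun _ _ => abs_nonneg _)
    (mem_range.2 (Nat.lt_succ_self M))

theorem phase_GA (hP' : P ≠ ∞) (M : ℕ) (w : ℕ → Lp ℂ P (volume : Measure ℝ)) (K : ℕ → ℝ)
    {ε : ℝ} (hε : 0 < ε) :
    ∃ K₀ : ℝ, 0 < K₀ ∧ ∀ k : ℝ, K₀ ≤ k → ∀ r : ℝ, 0 ≤ r → r ≤ 1 → ∀ c : ℕ → ℝ,
      |‖GA M w K c k 1‖ - ‖GA M w K c k (ee 1 r)‖| ≤ ε * (2 * ∑ i ∈ range (M + 1), |c i|) := by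
  obtain ⟨K₀, hK₀, h⟩ := phase_family hP' Complex.reCLM norm_reCLM_le
    (range M) (fun i => MK (K i) (w i)) ({()} : Finset Unit)
    (fun _ => w M) hε
  refine ⟨K₀, hK₀, fun k hk r hr0 hr1 c => ?_⟩
  have h1 := h k hk r hr0 hr1 (fun i => c i) (fun _ => c M)
  rw [Finset.sum_singleton, Finset.sum_singleton] at h1
  unfold GA gsum
  rw [one_smul]
  refine h1.trans (mul_le_mul_of_nonneg_left ?_ hε.le)
  rw [Finset.sum_range_succ]
  have : 0 ≤ ∑ i ∈ range M, |c i| := Finset.sum_nonneg fun _ _ => abs_nonneg _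
  have := abs_nonneg (c M)
  linarith

theorem abs_le_sum {M : ℕ} (c : ℕ → ℝ) {i : ℕ} (hi : i < M + 1) :
    |c i| ≤ ∑ i ∈ range (M + 1), |c i| :=
  Finset.single_le_sum (f := fun i => |c i|) (fun _ _ => abs_nonneg _) (mem_range.2 hi)

theorem norm_GB_le (M : ℕ) (w : ℕ → Lp ℂ P (volume : Measure ℝ)) (K : ℕ → ℝ) (c : ℕ → ℝ) (k : ℝ)
    {θ : ℂ} (hθ : ‖θ‖ = 1) :
    ‖GB M w K c k θ‖ ≤ (∑ i ∈ range (M + 1), |c i|) *
      (∑ i : Fin (M + 1), ‖Uf (M + 1) (qf M w K) w i‖ + ∑ i ∈ range M, ‖MK (K i) (w i)‖ +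
        ‖w M‖) := by
  set S := ∑ i ∈ range (M + 1), |c i| with hS
  have hS0 : 0 ≤ S := Finset.sum_nonneg fun _ _ => abs_nonneg _
  unfold GB
  have h1 : ‖∑ i : Fin (M + 1), c i • Uf (M + 1) (qf M w K) w i‖ ≤
      S * ∑ i : Fin (M + 1), ‖Uf (M + 1) (qf M w K) w i‖ := by
    rw [Finset.mul_sum]
    refine (norm_sum_le _ _).trans (Finset.sum_le_sum fun i _ => ?_)
    rw [norm_smul, Real.norm_eq_abs]
    exact mul_le_mul_of_nonneg_right (abs_le_sum c i.2) (norm_nonneg _)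
  have h2 : ‖carr (Lre (M + 1)) k (θ • (c M • w M))‖ ≤ S * ‖w M‖ := by
    refine (norm_carr_le _ (norm_Lre_le _) _ _).trans ?_
    rw [norm_smul, hθ, one_mul, norm_smul, Real.norm_eq_abs]
    exact mul_le_mul_of_nonneg_right (abs_le_sum c (Nat.lt_succ_self M)) (norm_nonneg _)
  have h3 : 0 ≤ S * ∑ i ∈ range M, ‖MK (K i) (w i)‖ :=
    mul_nonneg hS0 (Finset.sum_nonneg fun _ _ => norm_nonneg _)
  calc _ ≤ _ := norm_add_le _ _
    _ ≤ S * ∑ i : Fin (M + 1), ‖Uf (M + 1) (qf M w K) w i‖ + S * ‖w M‖ := add_le_add h1 h2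
    _ ≤ _ := by rw [mul_add, mul_add]; linarith

theorem norm_GA_le (M : ℕ) (w : ℕ → Lp ℂ P (volume : Measure ℝ)) (K : ℕ → ℝ) (c : ℕ → ℝ) (k : ℝ)
    {θ : ℂ} (hθ : ‖θ‖ = 1) :
    ‖GA M w K c k θ‖ ≤ (∑ i ∈ range (M + 1), |c i|) *
      (∑ i : Fin (M + 1), ‖Uf (M + 1) (qf M w K) w i‖ + ∑ i ∈ range M, ‖MK (K i) (w i)‖ +
        ‖w M‖) := by
  set S := ∑ i ∈ range (M + 1), |c i| with hS
  have hS0 : 0 ≤ S := Finset.sum_nonneg fun _ _ => abs_nonneg _
  unfold GA gsum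
  have h1 : ‖∑ i ∈ range M, c i • MK (K i) (w i)‖ ≤ S * ∑ i ∈ range M, ‖MK (K i) (w i)‖ := by
    rw [Finset.mul_sum]
    refine (norm_sum_le _ _).trans (Finset.sum_le_sum fun i hi => ?_)
    rw [norm_smul, Real.norm_eq_abs]
    exact mul_le_mul_of_nonneg_right (abs_le_sum c (Nat.lt_succ_of_lt (mem_range.1 hi)))
      (norm_nonneg _)
  have h2 : ‖MK k (θ • (c M • w M))‖ ≤ S * ‖w M‖ := by
    refine (norm_carr_le _ norm_reCLM_le _ _).trans ?_
    rw [norm_smul, hθ, one_mul, norm_smul, Real.norm_eq_abs]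
    exact mul_le_mul_of_nonneg_right (abs_le_sum c (Nat.lt_succ_self M)) (norm_nonneg _)
  have h3 : 0 ≤ S * ∑ i : Fin (M + 1), ‖Uf (M + 1) (qf M w K) w i‖ :=
    mul_nonneg hS0 (Finset.sum_nonneg fun _ _ => norm_nonneg _)
  calc _ ≤ _ := norm_add_le _ _
    _ ≤ S * ∑ i ∈ range M, ‖MK (K i) (w i)‖ + S * ‖w M‖ := add_le_add h1 h2
    _ ≤ _ := by rw [mul_add, mul_add]; linarith

/-- the sum of the coefficients is controlled by `DQ` -/
theorem sum_abs_rpow_le (hP1 : 1 < P) (hP' : P ≠ ∞) (M : ℕ)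
    (w : ℕ → Lp ℂ P (volume : Measure ℝ)) (c : ℕ → ℝ) (hw : ∀ i ≤ M, 1 ≤ ‖w i‖) :
    (∑ i ∈ range (M + 1), |c i|) ^ P.toReal ≤ ((M : ℝ) + 1) ^ P.toReal * DQ (M + 1) w c := by
  have h0 : P ≠ 0 := (zero_lt_one.trans hP1).ne'
  have hp : 0 < P.toReal := ENNReal.toReal_pos h0 hP'
  set D := DQ (M + 1) w c with hD
  have hD0 : 0 ≤ D := DQ_nonneg _ _ _
  have h1 : ∀ i ∈ range (M + 1), |c i| ≤ D ^ (P.toReal)⁻¹ := by
    intro i hi
    have hi' : i ≤ M := Nat.lt_succ_iff.1 (mem_range.1 hi)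
    have h2 := le_DQ h0 hP' (M + 1) w c (mem_range.1 hi)
    have h3 : |c i| ^ P.toReal ≤ D := by
      refine le_trans ?_ h2
      have h4 : 1 ≤ ‖w i‖ ^ P.toReal := Real.one_le_rpow (hw i hi') hp.le
      have h5 : 0 ≤ |c i| ^ P.toReal := by positivity
      nlinarith
    calc |c i| = (|c i| ^ P.toReal) ^ (P.toReal)⁻¹ := by
          rw [← Real.rpow_mul (abs_nonneg _), mul_inv_cancel₀ hp.ne', Real.rpow_one]
      _ ≤ _ := Real.rpow_le_rpow (by positivity) h3 (by positivity)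
  have h2 : ∑ i ∈ range (M + 1), |c i| ≤ ((M : ℝ) + 1) * D ^ (P.toReal)⁻¹ := by
    refine (Finset.sum_le_sum h1).trans ?_
    rw [Finset.sum_const, Finset.card_range, nsmul_eq_mul]
    push_cast
    exact le_rfl
  calc (∑ i ∈ range (M + 1), |c i|) ^ P.toReal ≤ (((M : ℝ) + 1) * D ^ (P.toReal)⁻¹) ^ P.toReal :=
        Real.rpow_le_rpow (Finset.sum_nonneg fun _ _ => abs_nonneg _) h2 hp.le
    _ = _ := by
        rw [Real.mul_rpow (by positivity) (by positivity), ← Real.rpow_mul hD0,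
          inv_mul_cancel₀ hp.ne', Real.rpow_one]

theorem gsum_succ (M : ℕ) (w : ℕ → Lp ℂ P (volume : Measure ℝ)) (K : ℕ → ℝ) (c : ℕ → ℝ) (k : ℝ) :
    gsum (M + 1) w (Function.update K M k) c = GA M w K c k 1 := by
  unfold gsum GA gsum
  rw [Finset.sum_range_succ, one_smul, Function.update_self]
  congr 1
  · refine Finset.sum_congr rfl fun i hi => ?_
    rw [Function.update_of_ne (mem_range.1 hi).ne]
  · exact (carr_smul Complex.reCLM k (c M) (w M)).symm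

theorem BQ_succ (h0 : P ≠ 0) (hP' : P ≠ ∞) (M : ℕ) (w : ℕ → Lp ℂ P (volume : Measure ℝ))
    (K : ℕ → ℝ) (c : ℕ → ℝ) (k : ℝ) :
    BQ (M + 1) w (Function.update K M k) c = ‖GB M w K c k 1‖ ^ P.toReal := by
  rw [(GB_rpow h0 hP' M w K c k 1).1]
  unfold BQ
  rw [gsum_succ]
  apply integral_congr_ae
  filter_upwards [Lp.coeFn_add (gsum M w K c) (MK k ((1 : ℂ) • (c M • w M))),
      carr_coeFn Complex.reCLM k ((1 : ℂ) • (c M • w M)), Lp.coeFn_smul (1 : ℂ) (c M • w M),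
      Lp.coeFn_smul (c M) (w M)] with y h1 h2 h3 h4
  unfold GA
  rw [h1, Pi.add_apply, h2, h3, Pi.smul_apply, h4, Pi.smul_apply]
  simp only [uf, tf, smul_eq_mul, Complex.real_smul, Complex.reCLM_apply]

theorem toReal_one_lt (hP1 : 1 < P) (hP' : P ≠ ∞) : 1 < P.toReal := by
  rw [← ENNReal.toReal_one]
  exact (ENNReal.toReal_lt_toReal ENNReal.one_ne_top hP').2 hP1

/-- MODULE SQREC, the step. -/
theorem sqInv_step (hP1 : 1 < P) (hP2 : P < 2) (hsq : SqPoint P.toReal) : SqStep P := by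
  intro M w K η η' hη hηη' hw hinv
  have hP' : P ≠ ∞ := (hP2.trans (by norm_num)).ne
  have h0 : P ≠ 0 := (zero_lt_one.trans hP1).ne'
  have hp1 : 1 < P.toReal := toReal_one_lt hP1 hP'
  have hp : 0 < P.toReal := by linarith
  set p := P.toReal with hpdef
  set K0 : ℝ := 3 / (p - 1) with hK0
  have hK0pos : 0 < K0 := by rw [hK0]; apply div_pos (by norm_num); linarith
  set Λ : ℝ := ∑ i : Fin (M + 1), ‖Uf (M + 1) (qf M w K) w i‖ + ∑ i ∈ range M, ‖MK (K i) (w i)‖ +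
        ‖w M‖ with hΛ
  have hΛ0 : 0 ≤ Λ := by positivity
  set Q : ℝ := p * Λ ^ (p - 1) * 2 * ((M : ℝ) + 1) ^ p with hQ
  have hQ0 : 0 ≤ Q := by positivity
  set ε : ℝ := (η' - η) / ((K0 + 1) * Q + 1) with hε
  have hden : 0 < (K0 + 1) * Q + 1 := by positivity
  have hε0 : 0 < ε := div_pos (by linarith) hden
  have hεQ : (K0 + 1) * (ε * Q) ≤ η' - η := by
    have : ε * ((K0 + 1) * Q + 1) = η' - η := by rw [hε]; field_simp
    nlinarith
  obtain ⟨k1, hk1, hGB⟩ := phase_GB hP' M w K hε0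
  obtain ⟨k2, hk2, hGA⟩ := phase_GA hP' M w K hε0
  refine ⟨max k1 k2, fun k hk c => ?_⟩
  have hk1' := (le_max_left k1 k2).trans hk
  have hk2' := (le_max_right k1 k2).trans hk
  set S := ∑ i ∈ range (M + 1), |c i| with hS
  have hS0 : 0 ≤ S := Finset.sum_nonneg fun _ _ => abs_nonneg _
  set D := DQ (M + 1) w c with hD
  have hD0 : 0 ≤ D := DQ_nonneg _ _ _
  have hSp : S ^ p ≤ ((M : ℝ) + 1) ^ p * D := sum_abs_rpow_le hP1 hP' M w c hw
  have herr : p * (S * Λ) ^ (p - 1) * (ε * (2 * S)) ≤ ε * Q * D := by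
    have e1 : (S * Λ) ^ (p - 1) = S ^ (p - 1) * Λ ^ (p - 1) := Real.mul_rpow hS0 hΛ0
    have e2 : S ^ (p - 1) * S = S ^ p := by
      have := Real.rpow_add_one' hS0 (y := p - 1) (by linarith)
      rw [← this]; congr 1; ring
    calc p * (S * Λ) ^ (p - 1) * (ε * (2 * S)) = ε * (p * Λ ^ (p - 1) * 2) * (S ^ (p - 1) * S) := by
          rw [e1]; ring
      _ = ε * (p * Λ ^ (p - 1) * 2) * S ^ p := by rw [e2]
      _ ≤ ε * (p * Λ ^ (p - 1) * 2) * (((M : ℝ) + 1) ^ p * D) :=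
          mul_le_mul_of_nonneg_left hSp (by positivity)
      _ = ε * Q * D := by rw [hQ]; ring
  -- differences for one phase
  have dB : ∀ r : ℝ, 0 ≤ r → r ≤ 1 →
      |‖GB M w K c k 1‖ ^ p - ‖GB M w K c k (ee 1 r)‖ ^ p| ≤ ε * Q * D := by
    intro r hr0 hr1
    exact (sr_rpow_diff hp1.le (norm_nonneg _) (norm_nonneg _) (norm_GB_le M w K c k (by simp))
      (norm_GB_le M w K c k (norm_ee _ _)) (hGB k hk1' r hr0 hr1 c)).trans herr
  have dA : ∀ r : ℝ, 0 ≤ r → r ≤ 1 →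
      |‖GA M w K c k 1‖ ^ p - ‖GA M w K c k (ee 1 r)‖ ^ p| ≤ ε * Q * D := by
    intro r hr0 hr1
    exact (sr_rpow_diff hp1.le (norm_nonneg _) (norm_nonneg _) (norm_GA_le M w K c k (by simp))
      (norm_GA_le M w K c k (norm_ee _ _)) (hGA k hk2' r hr0 hr1 c)).trans herr
  have b2 := dB (1 / 2) (by norm_num) (by norm_num)
  have b1 := dB (1 / 4) (by norm_num) (by norm_num)
  have b3 := dB (3 / 4) (by norm_num) (by norm_num)
  have a2 := dA (1 / 2) (by norm_num) (by norm_num)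
  have a1 := dA (1 / 4) (by norm_num) (by norm_num)
  have a3 := dA (3 / 4) (by norm_num) (by norm_num)
  rw [ee_one_half] at b2 a2
  rw [ee_one_quarter] at b1 a1
  rw [sr_ee_three_quarters] at b3 a3
  obtain ⟨f1, f2⟩ := four_ineq hP1 hP' hsq M w K c k
  rw [← hpdef, ← hK0] at f1
  rw [← hpdef] at f2
  obtain ⟨g1, g2⟩ := hinv c
  rw [← hpdef, ← hK0] at g1
  have hDD : DQ M w c ≤ D := DQ_mono h0 hP' M w c
  have hDM := DQ_nonneg M w c
  rw [BQ_succ h0 hP', gsum_succ, ← hpdef, ← hK0]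
  have hεQD : 0 ≤ ε * Q * D := by positivity
  have hkey : (K0 + 1) * (ε * Q * D) ≤ (η' - η) * D := by
    have := mul_le_mul_of_nonneg_right hεQ hD0
    linarith
  have hkey2 : ε * Q * D ≤ (η' - η) * D := by
    have : 0 ≤ K0 * (ε * Q * D) := by positivity
    linarith
  have hηD : η * DQ M w c ≤ η * D := mul_le_mul_of_nonneg_left hDD hη
  rw [abs_le] at b1 b2 b3 a1 a2 a3
  constructor
  · -- first inequality
    have hA : (‖GA M w K c k 1‖ ^ p + ‖GA M w K c k (-1)‖ ^ p + ‖GA M w K c k Complex.I‖ ^ p +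
        ‖GA M w K c k (-Complex.I)‖ ^ p) / 4 ≤ ‖GA M w K c k 1‖ ^ p + ε * Q * D := by
      linarith [a1.1, a2.1, a3.1]
    have hA2 := mul_le_mul_of_nonneg_left hA hK0pos.le
    linarith [b1.2, b2.2, b3.2]
  · linarith [b1.2, b2.2, b3.2]

/-- MODULE SQREC, the conclusion. -/
theorem sqInv_concl (hP1 : 1 < P) (hP2 : P < 2) : SqConcl P := by
  intro M w K η hη hinv c
  have hP' : P ≠ ∞ := (hP2.trans (by norm_num)).ne
  have h0 : P ≠ 0 := (zero_lt_one.trans hP1).ne'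
  have hp1 : 1 < P.toReal := toReal_one_lt hP1 hP'
  obtain ⟨g1, g2⟩ := hinv c
  have hDM := DQ_nonneg M w c
  have iB := integrable_BQ h0 hP' M w K c
  have hDB : DQ M w c ≤ BQ M w K c := by
    apply integral_mono (integrable_DQ h0 hP' M w c) iB
    intro y
    apply Real.rpow_le_rpow (tf_nonneg _ _ _ _) _ (by linarith)
    show tf M w c y ≤ (gsum M w K c) y ^ 2 + tf M w c y
    nlinarith [sq_nonneg ((gsum M w K c) y)]
  have hAB : ‖gsum M w K c‖ ^ P.toReal ≤ BQ M w K c := by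
    rw [sr_norm_rpow_eq h0 hP']
    apply integral_mono (sr_integrable_rpow h0 hP' _) iB
    intro y
    have e : ‖(gsum M w K c) y‖ ^ P.toReal = ((gsum M w K c) y ^ 2) ^ (P.toReal / 2) := by
      rw [← sq_abs, ← Real.norm_eq_abs, ← Real.rpow_natCast, ← Real.rpow_mul (norm_nonneg _)]
      congr 1
      push_cast
      ring
    simp only
    rw [e]
    apply Real.rpow_le_rpow (sq_nonneg _) _ (by linarith)
    have := tf_nonneg M w c y
    show _ ≤ (gsum M w K c) y ^ 2 + tf M w c y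
    linarith
  have h6 : 6 / (P.toReal - 1) = 2 * (3 / (P.toReal - 1)) := by ring
  constructor
  · rw [h6]
    nlinarith
  · nlinarith

theorem sqInv_zero (hP1 : 1 < P) (hP2 : P < 2) (w : ℕ → Lp ℂ P (volume : Measure ℝ))
    (K : ℕ → ℝ) (η : ℝ) : SqInv 0 w K η := by
  intro c
  have hP' : P ≠ ∞ := (hP2.trans (by norm_num)).ne
  have hp1 : 1 < P.toReal := toReal_one_lt hP1 hP'
  have hg : gsum 0 w K c = 0 := by simp [gsum]
  have hB : BQ 0 w K c = 0 := by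
    unfold BQ
    rw [hg]
    rw [← integral_zero ℝ ℝ (μ := (volume : Measure ℝ))]
    apply integral_congr_ae
    filter_upwards [Lp.coeFn_zero ℝ P (volume : Measure ℝ)] with y hy
    rw [hy]
    simp only [Pi.zero_apply, range_zero, sum_empty, add_zero]
    rw [zero_pow two_ne_zero, Real.zero_rpow (by linarith)]
  have hD : DQ 0 w c = 0 := by
    unfold DQ
    simp only [range_zero, sum_empty]
    rw [Real.zero_rpow (by linarith)]
    simp
  rw [hB, hD, hg, norm_zero, Real.zero_rpow (by linarith)]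
  simp

theorem sqInv_congr (M : ℕ) (w w' : ℕ → Lp ℂ P (volume : Measure ℝ)) (K K' : ℕ → ℝ) (η : ℝ)
    (hw : ∀ i < M, w i = w' i) (hK : ∀ i < M, K i = K' i) (h : SqInv M w K η) :
    SqInv M w' K' η := by
  intro c
  have hg : gsum M w' K' c = gsum M w K c := by
    unfold gsum
    refine Finset.sum_congr rfl fun i hi => ?_
    rw [hw i (mem_range.1 hi), hK i (mem_range.1 hi)]
  have hsum : ∀ y, ∑ i ∈ range M, c i ^ 2 * ‖w' i y‖ ^ 2 = ∑ i ∈ range M, c i ^ 2 * ‖w i y‖ ^ 2 := by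
    intro y
    refine Finset.sum_congr rfl fun i hi => ?_
    rw [hw i (mem_range.1 hi)]
  have hB : BQ M w' K' c = BQ M w K c := by
    unfold BQ
    rw [hg]
    simp_rw [hsum]
  have hD : DQ M w' c = DQ M w c := by
    unfold DQ
    simp_rw [hsum]
  rw [hB, hD, hg]
  exact h c

end Pool.Agent.Lib.MP89175a
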