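import Mathlib
import Pool.Agent.Lib.MP_89175a_an.CoreProps
import Pool.Agent.Lib.MP_89175a_an.Spec

/-!
The chirp block filter.
-/

open Finset MeasureTheory Complex
open scoped ENNReal NNReal

namespace Pool.Agent.Lib.MP89175a

/-- powers of the root of unity of order `16 N` -/
noncomputable def zp (N : ℕ) (k : ℤ) : ℂ := exp ((Real.pi * (k / (8 * N)) : ℝ) * I)

theorem norm_zp (N : ℕ) (k : ℤ) : ‖zp N k‖ = 1 := norm_exp_ofReal_mul_I _

theorem zp_add (N : ℕ) (k l : ℤ) : zp N (k + l) = zp N k * zp N l := by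
  unfold zp
  rw [← Complex.exp_add]
  congr 1
  push_cast
  ring

theorem zp_zero (N : ℕ) : zp N 0 = 1 := by
  unfold zp
  simp

theorem zp_ne_zero (N : ℕ) (k : ℤ) : zp N k ≠ 0 := by
  intro h
  have := norm_zp N k
  rw [h] at this
  simp at this

theorem zp_mul_neg (N : ℕ) (k : ℤ) : zp N k * zp N (-k) = 1 := by
  rw [← zp_add, add_neg_cancel, zp_zero]

theorem chirp_eq (N : ℕ) (n : ℤ) : chirp N n = (-1) ^ n * zp N (-n ^ 2) := by
  unfold chirp zp
  congr 2
  push_cast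
  ring

/-- the phases -/
noncomputable def eta (N : ℕ) (j : ℤ) : ℂ := (-1) ^ j * zp N (j ^ 2)

theorem norm_neg_one_zpow (n : ℤ) : ‖((-1 : ℂ) ^ n)‖ = 1 := by
  rw [norm_zpow, norm_neg, norm_one, one_zpow]

theorem norm_eta (N : ℕ) (j : ℤ) : ‖eta N j‖ = 1 := by
  unfold eta
  rw [norm_mul, norm_neg_one_zpow, norm_zp, one_mul]

theorem neg_one_zpow_mul_self (n : ℤ) : ((-1 : ℂ) ^ n) * (-1) ^ n = 1 := by
  rw [← mul_zpow]
  simp

/-- the difference filter -/
noncomputable def hh (N : ℕ) (n : ℤ) : ℂ := ht N n - ht N (n - 1)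

theorem summation_by_parts {𝕜 : Type*} [Ring 𝕜] (N : ℕ) (b : ℕ → 𝕜) (f : ℕ → 𝕜) :
    ∑ j ∈ range N, b j * (f j - f (j + 1)) = ∑ j ∈ range (N + 1), (zx N b j - zx N b (j - 1)) * f j := by
  have e1 : ∀ j : ℕ, zx N b (j : ℤ) = if j < N then b j else 0 := by
    intro j
    unfold zx
    by_cases h : j < N
    · rw [if_pos (by omega), if_pos h, Int.toNat_natCast]
    · rw [if_neg (by omega), if_neg h]
  have h1 : ∑ j ∈ range (N + 1), zx N b j * f j = ∑ j ∈ range N, b j * f j := by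
    rw [Finset.sum_range_succ, e1 N, if_neg (lt_irrefl N), zero_mul, add_zero]
    refine Finset.sum_congr rfl fun j hj => ?_
    rw [e1, if_pos (Finset.mem_range.1 hj)]
  have h2 : ∑ j ∈ range (N + 1), zx N b ((j : ℤ) - 1) * f j = ∑ j ∈ range N, b j * f (j + 1) := by
    rw [Finset.sum_range_succ']
    have : zx N b (((0 : ℕ) : ℤ) - 1) = 0 := by
      unfold zx
      rw [if_neg (by omega)]
    rw [this, zero_mul, add_zero]
    refine Finset.sum_congr rfl fun j hj => ?_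
    rw [Nat.cast_succ, add_sub_cancel_right, e1, if_pos (Finset.mem_range.1 hj)]
  simp_rw [mul_sub, sub_mul]
  rw [Finset.sum_sub_distrib, Finset.sum_sub_distrib, h1, h2]

/-- the block output -/
noncomputable def bet (N : ℕ) (a : ℕ → ℝ) (n : ℤ) : ℂ :=
  ∑ j ∈ range N, (a j * eta N j : ℂ) * hh N (n - j)

/-- the modified coefficients -/
noncomputable def cc (N : ℕ) (a : ℕ → ℝ) (j : ℕ) : ℂ :=
  zx N a j + zp N (-(2 * j - 1)) * zx N a (j - 1)

theorem bet_eq (N : ℕ) (a : ℕ → ℝ) (n : ℤ) :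
    bet N a n = (-1) ^ n * zp N (-n ^ 2) * ∑ j ∈ range (N + 1),
      (if n - 4 * N < j ∧ j ≤ n + 5 * N then cc N a j * zp N (2 * j * n) else 0) := by
  have h1 : bet N a n = ∑ j ∈ range (N + 1), (zx N (fun j => (a j * eta N j : ℂ)) j -
      zx N (fun j => (a j * eta N j : ℂ)) (j - 1)) * ht N (n - j) := by
    unfold bet
    rw [← summation_by_parts N (fun j => (a j * eta N j : ℂ)) (fun j => ht N (n - j))]
    refine Finset.sum_congr rfl fun j _ => ?_
    unfold hh
    congr 2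
    push_cast
    congr 1
    ring
  rw [h1, Finset.mul_sum]
  refine Finset.sum_congr rfl fun j _ => ?_
  by_cases hj : n - 4 * N < j ∧ j ≤ n + 5 * N
  · rw [if_pos hj]
    have h2 : ht N (n - j) = (-1) ^ n * zp N (-n ^ 2) * zp N (2 * j * n) * ((-1) ^ (j : ℤ) * zp N (-(j : ℤ) ^ 2)) := by
      unfold ht
      rw [if_pos (by omega), chirp_eq]
      have e1 : (-1 : ℂ) ^ (n - (j : ℤ)) = (-1) ^ n * (-1) ^ (j : ℤ) := by
        rw [zpow_sub₀ (by norm_num : (-1 : ℂ) ≠ 0), div_eq_iff (zpow_ne_zero _ (by norm_num)), mul_assoc,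
          neg_one_zpow_mul_self, mul_one]
      have e2 : zp N (-(n - (j : ℤ)) ^ 2) = zp N (-n ^ 2) * zp N (2 * j * n) * zp N (-(j : ℤ) ^ 2) := by
        rw [← zp_add, ← zp_add]
        congr 1
        ring
      rw [e1, e2]
      ring
    have h3 : ∀ m : ℤ, zx N (fun j => (a j * eta N j : ℂ)) m = ((zx N a m : ℝ) : ℂ) * eta N m := by
      intro m
      unfold zx
      split_ifs with h
      · show (a m.toNat : ℂ) * eta N ((m.toNat : ℕ) : ℤ) = _
        rw [Int.toNat_of_nonneg h.1]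
      · simp
    rw [h2, h3, h3]
    have h4 : eta N j * ((-1) ^ (j : ℤ) * zp N (-(j : ℤ) ^ 2)) = 1 := by
      unfold eta
      calc (-1 : ℂ) ^ (j : ℤ) * zp N ((j : ℤ) ^ 2) * ((-1) ^ (j : ℤ) * zp N (-(j : ℤ) ^ 2))
          = ((-1 : ℂ) ^ (j : ℤ) * (-1) ^ (j : ℤ)) * (zp N ((j : ℤ) ^ 2) * zp N (-((j : ℤ) ^ 2))) := by ring
        _ = 1 := by rw [neg_one_zpow_mul_self, zp_mul_neg, one_mul]
    have h5 : eta N (j - 1) * ((-1) ^ (j : ℤ) * zp N (-(j : ℤ) ^ 2)) = - zp N (-(2 * j - 1)) := by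
      unfold eta
      have e1 : (-1 : ℂ) ^ ((j : ℤ) - 1) = - (-1) ^ (j : ℤ) := by
        rw [zpow_sub_one₀ (by norm_num : (-1 : ℂ) ≠ 0)]
        norm_num
      have e2 : zp N (((j : ℤ) - 1) ^ 2) * zp N (-(j : ℤ) ^ 2) = zp N (-(2 * j - 1)) := by
        rw [← zp_add]
        congr 1
        ring
      calc (-1 : ℂ) ^ ((j : ℤ) - 1) * zp N (((j : ℤ) - 1) ^ 2) * ((-1) ^ (j : ℤ) * zp N (-(j : ℤ) ^ 2))
          = - (((-1 : ℂ) ^ (j : ℤ) * (-1) ^ (j : ℤ)) * (zp N (((j : ℤ) - 1) ^ 2) * zp N (-(j : ℤ) ^ 2))) := by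
            rw [e1]; ring
        _ = _ := by rw [neg_one_zpow_mul_self, e2, one_mul]
    unfold cc
    calc (((zx N a j : ℝ) : ℂ) * eta N j - ((zx N a (j - 1) : ℝ) : ℂ) * eta N (j - 1)) *
          ((-1) ^ n * zp N (-n ^ 2) * zp N (2 * j * n) * ((-1) ^ (j : ℤ) * zp N (-(j : ℤ) ^ 2)))
        = (-1) ^ n * zp N (-n ^ 2) * ((((zx N a j : ℝ) : ℂ) * (eta N j * ((-1) ^ (j : ℤ) * zp N (-(j : ℤ) ^ 2))) -
          ((zx N a (j - 1) : ℝ) : ℂ) * (eta N (j - 1) * ((-1) ^ (j : ℤ) * zp N (-(j : ℤ) ^ 2)))) * zp N (2 * j * n)) := by ring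
      _ = _ := by rw [h4, h5]; ring
  · rw [if_neg hj]
    unfold ht
    rw [if_neg (by omega)]
    ring

theorem norm_bet (N : ℕ) (a : ℕ → ℝ) (n : ℤ) :
    ‖bet N a n‖ = ‖∑ j ∈ range (N + 1),
      (if n - 4 * N < j ∧ j ≤ n + 5 * N then cc N a j * zp N (2 * j * n) else 0)‖ := by
  rw [bet_eq, norm_mul, norm_mul, norm_neg_one_zpow, norm_zp, one_mul, one_mul]

/-- prefix sums -/
noncomputable def pre (N : ℕ) (a : ℕ → ℝ) (x : ℕ) (n : ℤ) : ℂ :=
  ∑ j ∈ range x, cc N a j * zp N (2 * j * n)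

theorem zp_period (N : ℕ) (hN : 0 < N) (k : ℤ) : zp N (16 * N * k) = 1 := by
  unfold zp
  have hN' : (N : ℝ) ≠ 0 := by positivity
  have : (Real.pi * (((16 * N * k : ℤ) : ℝ) / (8 * N)) : ℝ) = (k : ℝ) * (2 * Real.pi) := by
    push_cast
    field_simp
    ring
  rw [this]
  push_cast
  have := Complex.exp_int_mul_two_pi_mul_I k
  rw [← this]
  congr 1
  ring

theorem pre_periodic (N : ℕ) (hN : 0 < N) (a : ℕ → ℝ) (x : ℕ) (n : ℤ) :
    pre N a x (n + 8 * N) = pre N a x n := by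
  unfold pre
  refine Finset.sum_congr rfl fun j _ => ?_
  rw [show (2 * j * (n + 8 * N) : ℤ) = 2 * j * n + 16 * N * j by ring, zp_add, zp_period N hN, mul_one]

theorem sum_period_aux (M : ℕ) (f : ℤ → ℝ≥0∞) (hf : ∀ n, f (n + M) = f n) (m : ℕ) :
    ∑ k ∈ range M, f (-(m : ℤ) + k) = ∑ k ∈ range M, f k := by
  induction m with
  | zero => simp
  | succ m ih =>
    rw [← ih]
    rcases M with _ | M
    · simp
    · rw [Finset.sum_range_succ', Finset.sum_range_succ]
      congr 1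
      · refine Finset.sum_congr rfl fun k _ => ?_
        congr 1
        push_cast
        ring
      · have h := hf (-((m : ℤ) + 1))
        have e1 : -(m : ℤ) + (M : ℕ) = -((m : ℤ) + 1) + ((M + 1 : ℕ) : ℤ) := by push_cast; ring
        have e2 : -((m + 1 : ℕ) : ℤ) + ((0 : ℕ) : ℤ) = -((m : ℤ) + 1) := by push_cast; ring
        rw [e1, h, e2]

theorem sum_two_periods (M : ℕ) (f : ℤ → ℝ≥0∞) (hf : ∀ n, f (n + M) = f n) :
    ∑ n ∈ Ico (-(M : ℤ)) M, f n = 2 * ∑ k ∈ range M, f k := by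
  have h1 := sum_period_aux M f hf M
  have h2 : ∑ n ∈ Ico (-(M : ℤ)) M, f n = ∑ n ∈ Ico (-(M : ℤ)) 0, f n + ∑ n ∈ Ico (0 : ℤ) M, f n := by
    rw [← Finset.sum_union]
    · congr 1
      ext n
      simp only [Finset.mem_union, Finset.mem_Ico]
      omega
    · rw [Finset.disjoint_left]
      intro n h1 h2
      rw [Finset.mem_Ico] at h1 h2
      omega
  have h3 : ∑ n ∈ Ico (-(M : ℤ)) 0, f n = ∑ k ∈ range M, f (-(M : ℤ) + k) := by
    refine Finset.sum_bij' (fun n _ => (n + M).toNat) (fun k _ => -(M : ℤ) + k) ?_ ?_ ?_ ?_ ?_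
    · intro n hn
      rw [Finset.mem_Ico] at hn
      rw [Finset.mem_range]
      omega
    · intro k hk
      rw [Finset.mem_range] at hk
      rw [Finset.mem_Ico]
      omega
    · intro n hn
      rw [Finset.mem_Ico] at hn
      omega
    · intro k hk
      simp
    · intro n hn
      rw [Finset.mem_Ico] at hn
      congr 1
      omega
  have h4 : ∑ n ∈ Ico (0 : ℤ) M, f n = ∑ k ∈ range M, f k := by
    refine Finset.sum_bij' (fun n _ => n.toNat) (fun k _ => (k : ℤ)) ?_ ?_ ?_ ?_ ?_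
    · intro n hn
      rw [Finset.mem_Ico] at hn
      rw [Finset.mem_range]
      omega
    · intro k hk
      rw [Finset.mem_range] at hk
      rw [Finset.mem_Ico]
      omega
    · intro n hn
      rw [Finset.mem_Ico] at hn
      omega
    · intro k hk
      simp
    · intro n hn
      rw [Finset.mem_Ico] at hn
      congr 1
      omega
  rw [h2, h3, h4, h1, two_mul]

theorem sum_center_period (N : ℕ) (f : ℤ → ℝ≥0∞) (hf : ∀ n, f (n + (8 * N : ℕ)) = f n) :
    ∑ k ∈ range (8 * N), f k = ∑ n ∈ Ico (-(4 * N : ℤ)) (4 * N), f n := by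
  rw [← sum_period_aux (8 * N) f hf (4 * N)]
  refine Finset.sum_bij' (fun k _ => -(4 * N : ℤ) + k) (fun n _ => (n + 4 * N).toNat) ?_ ?_ ?_ ?_ ?_
  · intro k hk
    rw [Finset.mem_range] at hk
    rw [Finset.mem_Ico]
    omega
  · intro n hn
    rw [Finset.mem_Ico] at hn
    rw [Finset.mem_range]
    omega
  · intro k hk
    omega
  · intro n hn
    rw [Finset.mem_Ico] at hn
    omega
  · intro k hk
    congr 1

/-- truncation of coefficients -/
noncomputable def cut (x : ℕ) (a : ℕ → ℝ) (j : ℕ) : ℝ := if j < x then a j else 0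

theorem cc_cut_lt (N x : ℕ) (a : ℕ → ℝ) (j : ℕ) (hj : j < x) : cc N (cut x a) j = cc N a j := by
  have h1 : ∀ m : ℤ, m < x → zx N (cut x a) m = zx N a m := by
    intro m hm
    unfold zx
    split_ifs with h
    · unfold cut
      rw [if_pos (by omega)]
    · rfl
  unfold cc
  rw [h1 j (by omega), h1 (j - 1) (by omega)]

theorem cc_cut_gt (N x : ℕ) (a : ℕ → ℝ) (j : ℕ) (hj : x < j) : cc N (cut x a) j = 0 := by
  have h1 : ∀ m : ℤ, (x : ℤ) ≤ m → zx N (cut x a) m = 0 := by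
    intro m hm
    unfold zx
    split_ifs with h
    · unfold cut
      rw [if_neg (by omega)]
    · rfl
  unfold cc
  rw [h1 j (by omega), h1 (j - 1) (by omega)]
  simp

theorem sin_lower {t : ℝ} (ht : |t| ≤ 3 / 4) : |t| / 2 ≤ |Real.sin (Real.pi * t)| := by
  have key : ∀ u : ℝ, 0 ≤ u → u ≤ 3 / 4 → u / 2 ≤ Real.sin (Real.pi * u) := by
    intro u hu0 hu1
    have hpi := Real.pi_pos
    by_cases h : u ≤ 1 / 2
    · have := Real.mul_le_sin (x := Real.pi * u) (by positivity) (by nlinarith)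
      have h2 : 2 / Real.pi * (Real.pi * u) = 2 * u := by field_simp
      rw [h2] at this
      linarith
    · push Not at h
      have h1 : Real.sin (Real.pi * u) = Real.sin (Real.pi * (1 - u)) := by
        rw [← Real.sin_pi_sub]
        congr 1
        ring
      have := Real.mul_le_sin (x := Real.pi * (1 - u)) (by nlinarith) (by nlinarith)
      have h2 : 2 / Real.pi * (Real.pi * (1 - u)) = 2 * (1 - u) := by field_simp
      rw [h2] at this
      rw [h1]
      linarith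
  rcases le_total 0 t with h | h
  · rw [abs_of_nonneg h] at *
    exact (key t h ht).trans (le_abs_self _)
  · rw [abs_of_nonpos h] at *
    have := key (-t) (by linarith) ht
    rw [show Real.pi * -t = -(Real.pi * t) by ring, Real.sin_neg] at this
    exact this.trans (neg_le_abs _)

theorem norm_zp_sub_one {N : ℕ} (hN : 0 < N) (m : ℤ) (hm : |m| ≤ 6 * N) :
    (|m| : ℝ) / (8 * N) ≤ ‖zp N (2 * m) - 1‖ := by
  have hN' : (0 : ℝ) < N := by exact_mod_cast hN
  unfold zp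
  rw [mul_comm _ I, Complex.norm_exp_I_mul_ofReal_sub_one, Real.norm_eq_abs, abs_mul, abs_of_pos (by norm_num : (0 : ℝ) < 2)]
  have e1 : Real.pi * (((2 * m : ℤ) : ℝ) / (8 * N)) / 2 = Real.pi * (m / (8 * N)) := by
    push_cast
    ring
  rw [e1]
  have h1 : |(m : ℝ) / (8 * N)| ≤ 3 / 4 := by
    rw [abs_div, abs_of_pos (by positivity : (0 : ℝ) < 8 * N), div_le_iff₀ (by positivity)]
    have : |(m : ℝ)| ≤ 6 * N := by exact_mod_cast hm
    linarith
  have h2 := sin_lower h1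
  rw [abs_div, abs_of_pos (by positivity : (0 : ℝ) < 8 * N)] at h2
  linarith

theorem geom_bound {N : ℕ} (hN : 0 < N) (m : ℤ) (hm : |m| ≤ 6 * N) (hm0 : m ≠ 0) (l u : ℕ) :
    ‖∑ j ∈ Ico l u, zp N (2 * j * m)‖ ≤ 16 * N / |m| := by
  have hN' : (0 : ℝ) < N := by exact_mod_cast hN
  have hm' : (0 : ℝ) < |(m : ℝ)| := by
    rw [abs_pos]
    exact_mod_cast hm0
  by_cases hlu : l ≤ u
  · have h1 : ∑ j ∈ Ico l u, zp N (2 * j * m) = ∑ j ∈ Ico l u, (zp N (2 * m)) ^ j := by
      refine Finset.sum_congr rfl fun j hj => ?_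
      clear hj
      induction j with
      | zero => simp [zp_zero]
      | succ j ih =>
        rw [pow_succ, ← ih, ← zp_add]
        congr 1
        push_cast
        ring
    have h2 := geom_sum_Ico_mul (zp N (2 * m)) hlu
    have h3 : ‖∑ j ∈ Ico l u, zp N (2 * m) ^ j‖ * ‖zp N (2 * m) - 1‖ ≤ 2 := by
      rw [← norm_mul, h2]
      refine (norm_sub_le _ _).trans ?_
      rw [norm_pow, norm_pow, norm_zp]
      norm_num
    have h4 := norm_zp_sub_one hN m hm
    rw [h1, le_div_iff₀ (by exact_mod_cast hm')]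
    have h5 : ‖∑ j ∈ Ico l u, zp N (2 * m) ^ j‖ * (|(m : ℝ)| / (8 * N)) ≤ 2 :=
      le_trans (by gcongr) h3
    rw [mul_div_assoc', div_le_iff₀ (by positivity)] at h5
    push_cast
    linarith
  · rw [Finset.Ico_eq_empty (by omega), Finset.sum_empty, norm_zero]
    positivity

theorem norm_cc_cut_eq (N x : ℕ) (a : ℕ → ℝ) : ‖cc N (cut x a) x‖ ≤ |a (x - 1)| := by
  have h1 : zx N (cut x a) (x : ℤ) = 0 := by
    unfold zx
    split_ifs with h
    · unfold cut
      rw [if_neg (by omega)]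
    · rfl
  unfold cc
  rw [h1, Complex.ofReal_zero, zero_add, norm_mul, norm_zp, one_mul, Complex.norm_real, Real.norm_eq_abs]
  unfold zx
  split_ifs with h
  · have : ((x : ℤ) - 1).toNat = x - 1 := by omega
    rw [this]
    unfold cut
    rw [if_pos (by omega)]
  · simp

theorem bet_cut_bound (N x : ℕ) (hx : x ≤ N) (a : ℕ → ℝ) (n : ℤ) :
    ‖bet N (cut x a) n‖ ≤ ‖bet N a n‖ + ‖pre N a (N + 1) n‖ + ‖pre N a x n‖ + |a (x - 1)| := by
  set sel : ℤ → ℕ → Prop := fun n j => n - 4 * N < j ∧ (j : ℤ) ≤ n + 5 * N with hsel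
  have h1 : ‖bet N (cut x a) n‖ ≤ ‖∑ j ∈ range x,
      (if n - 4 * N < j ∧ (j : ℤ) ≤ n + 5 * N then cc N a j * zp N (2 * j * n) else 0)‖ + |a (x - 1)| := by
    rw [norm_bet]
    have e1 : ∑ j ∈ range (N + 1),
        (if n - 4 * N < j ∧ (j : ℤ) ≤ n + 5 * N then cc N (cut x a) j * zp N (2 * j * n) else 0) =
        ∑ j ∈ range (x + 1),
        (if n - 4 * N < j ∧ (j : ℤ) ≤ n + 5 * N then cc N (cut x a) j * zp N (2 * j * n) else 0) := by
      symm
      apply Finset.sum_subset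
      · intro j hj
        rw [Finset.mem_range] at *
        omega
      · intro j _ hj
        rw [Finset.mem_range] at hj
        rw [cc_cut_gt N x a j (by omega), zero_mul, ite_self]
    rw [e1, Finset.sum_range_succ]
    refine (norm_add_le _ _).trans ?_
    apply add_le_add
    · apply le_of_eq
      congr 1
      refine Finset.sum_congr rfl fun j hj => ?_
      rw [cc_cut_lt N x a j (Finset.mem_range.1 hj)]
    · split_ifs
      · rw [norm_mul, norm_zp, mul_one]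
        exact norm_cc_cut_eq N x a
      · rw [norm_zero]
        exact abs_nonneg _
  refine h1.trans ?_
  gcongr
  by_cases hn1 : n < -(4 * N)
  · by_cases hn2 : n + 5 * N < x
    · have e2 : ∑ j ∈ range x,
        (if n - 4 * N < j ∧ (j : ℤ) ≤ n + 5 * N then cc N a j * zp N (2 * j * n) else 0) =
        ∑ j ∈ range (N + 1),
        (if n - 4 * N < j ∧ (j : ℤ) ≤ n + 5 * N then cc N a j * zp N (2 * j * n) else 0) := by
        apply Finset.sum_subset
        · intro j hj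
          rw [Finset.mem_range] at *
          omega
        · intro j _ hj
          rw [Finset.mem_range] at hj
          rw [if_neg (by omega)]
      rw [e2, ← norm_bet]
      have := norm_nonneg (pre N a (N + 1) n)
      have := norm_nonneg (pre N a x n)
      linarith
    · have e2 : ∑ j ∈ range x,
        (if n - 4 * N < j ∧ (j : ℤ) ≤ n + 5 * N then cc N a j * zp N (2 * j * n) else 0) = pre N a x n := by
        unfold pre
        refine Finset.sum_congr rfl fun j hj => ?_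
        rw [Finset.mem_range] at hj
        rw [if_pos (by omega)]
      rw [e2]
      have := norm_nonneg (pre N a (N + 1) n)
      have := norm_nonneg (bet N a n)
      linarith
  · by_cases hn3 : n < 4 * N
    · have e2 : ∑ j ∈ range x,
        (if n - 4 * N < j ∧ (j : ℤ) ≤ n + 5 * N then cc N a j * zp N (2 * j * n) else 0) = pre N a x n := by
        unfold pre
        refine Finset.sum_congr rfl fun j hj => ?_
        rw [Finset.mem_range] at hj
        rw [if_pos (by omega)]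
      rw [e2]
      have := norm_nonneg (pre N a (N + 1) n)
      have := norm_nonneg (bet N a n)
      linarith
    · by_cases hn4 : (x : ℤ) ≤ n - 4 * N + 1
      · have e2 : ∑ j ∈ range x,
          (if n - 4 * N < j ∧ (j : ℤ) ≤ n + 5 * N then cc N a j * zp N (2 * j * n) else 0) = 0 := by
          apply Finset.sum_eq_zero
          intro j hj
          rw [Finset.mem_range] at hj
          rw [if_neg (by omega)]
        rw [e2, norm_zero]
        positivity
      · have e2 : ∑ j ∈ range (N + 1),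
          (if n - 4 * N < j ∧ (j : ℤ) ≤ n + 5 * N then cc N a j * zp N (2 * j * n) else 0) =
          ∑ j ∈ range x,
          (if n - 4 * N < j ∧ (j : ℤ) ≤ n + 5 * N then cc N a j * zp N (2 * j * n) else 0) +
          (pre N a (N + 1) n - pre N a x n) := by
          unfold pre
          rw [← Finset.sum_range_add_sum_Ico _ (by omega : x ≤ N + 1),
            ← Finset.sum_range_add_sum_Ico (fun j : ℕ => cc N a j * zp N (2 * j * n)) (by omega : x ≤ N + 1),
            add_sub_cancel_left]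
          congr 1
          refine Finset.sum_congr rfl fun j hj => ?_
          rw [Finset.mem_Ico] at hj
          rw [if_pos (by omega)]
        have e3 : ‖∑ j ∈ range x,
          (if n - 4 * N < j ∧ (j : ℤ) ≤ n + 5 * N then cc N a j * zp N (2 * j * n) else 0)‖ =
          ‖∑ j ∈ range (N + 1),
          (if n - 4 * N < j ∧ (j : ℤ) ≤ n + 5 * N then cc N a j * zp N (2 * j * n) else 0) -
          (pre N a (N + 1) n - pre N a x n)‖ := by
          rw [e2, add_sub_cancel_right]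
        rw [e3]
        refine (norm_sub_le _ _).trans ?_
        rw [← norm_bet, add_assoc]
        gcongr
        exact norm_sub_le _ _

theorem bet_zero (N : ℕ) (a : ℕ → ℝ) (n : ℤ) (hn : n ∉ Ico (-(5 * N : ℤ)) (5 * N)) : bet N a n = 0 := by
  rw [← norm_eq_zero, norm_bet, norm_eq_zero]
  apply Finset.sum_eq_zero
  intro j hj
  rw [Finset.mem_range] at hj
  rw [Finset.mem_Ico] at hn
  rw [if_neg (by omega)]

theorem bet_center (N : ℕ) (a : ℕ → ℝ) (n : ℤ) (hn : n ∈ Ico (-(4 * N : ℤ)) (4 * N)) :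
    ‖bet N a n‖ = ‖pre N a (N + 1) n‖ := by
  rw [norm_bet]
  rw [Finset.mem_Ico] at hn
  congr 1
  unfold pre
  refine Finset.sum_congr rfl fun j hj => ?_
  rw [Finset.mem_range] at hj
  rw [if_pos (by omega)]

theorem enorm_of_norm_eq {F F' : Type*} [NormedAddCommGroup F] [NormedAddCommGroup F'] {x : F} {y : F'}
    (h : ‖x‖ = ‖y‖) : ‖x‖ₑ = ‖y‖ₑ := by
  rw [← ofReal_norm, ← ofReal_norm, h]

theorem riesz_pre {p : ℝ} (hp : 0 < p) (h : RieszDisc p) :
    ∃ C : ℝ≥0, ∀ (N : ℕ), 1 ≤ N → ∀ (a : ℕ → ℝ) (x : ℕ), x ≤ N + 1 →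
      ∑ k ∈ range (8 * N), ‖pre N a x k‖ₑ ^ p ≤ C * ∑ k ∈ range (8 * N), ‖pre N a (N + 1) k‖ₑ ^ p := by
  obtain ⟨C, hC, h⟩ := h
  refine ⟨C.toNNReal, fun N hN a x hx => ?_⟩
  have h1 := h N (8 * N) (by omega) (cc N a) x hx
  have h2 : ∀ (y k : ℕ), ∑ j ∈ range y, cc N a j * exp (2 * Real.pi * I * (j * k / (8 * N : ℕ))) = pre N a y k := by
    intro y k
    unfold pre
    refine Finset.sum_congr rfl fun j _ => ?_
    congr 1
    unfold zp
    congr 1
    push_cast
    ring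
  simp_rw [h2] at h1
  have h3 : ∀ y : ℕ, ∑ k ∈ range (8 * N), ‖pre N a y k‖ₑ ^ p =
      ENNReal.ofReal (∑ k ∈ range (8 * N), ‖pre N a y k‖ ^ p) := by
    intro y
    rw [ENNReal.ofReal_sum_of_nonneg (fun k _ => by positivity)]
    refine Finset.sum_congr rfl fun k _ => ?_
    rw [← ENNReal.ofReal_rpow_of_nonneg (norm_nonneg _) hp.le, ofReal_norm]
  rw [h3, h3]
  calc _ ≤ ENNReal.ofReal (C * ∑ k ∈ range (8 * N), ‖pre N a (N + 1) k‖ ^ p) := ENNReal.ofReal_le_ofReal h1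
    _ = _ := by rw [ENNReal.ofReal_mul hC.le]; rfl

theorem four_rpow {p : ℝ} (hp : 1 < p) (hp2 : p < 2) (u v w z : ℝ≥0∞) :
    (u + v + w + z) ^ p ≤ 4 * (u ^ p + v ^ p + w ^ p + z ^ p) := by
  have h2 : (2 : ℝ≥0∞) ^ (p - 1) ≤ 2 := by
    calc (2 : ℝ≥0∞) ^ (p - 1) ≤ (2 : ℝ≥0∞) ^ (1 : ℝ) :=
          ENNReal.rpow_le_rpow_of_exponent_le (by norm_num) (by linarith)
      _ = 2 := ENNReal.rpow_one _
  have key : ∀ s t : ℝ≥0∞, (s + t) ^ p ≤ 2 * (s ^ p + t ^ p) := fun s t =>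
    (ENNReal.rpow_add_le_mul_rpow_add_rpow s t hp.le).trans (by gcongr)
  calc (u + v + w + z) ^ p = ((u + v) + (w + z)) ^ p := by rw [add_assoc]
    _ ≤ 2 * ((u + v) ^ p + (w + z) ^ p) := key _ _
    _ ≤ 2 * (2 * (u ^ p + v ^ p) + 2 * (w ^ p + z ^ p)) := by gcongr <;> exact key _ _
    _ = _ := by ring

/-- (B3) block stability -/
theorem block_stability {p : ℝ} (hp : 1 < p) (hp2 : p < 2) (h : RieszDisc p) :
    ∃ C : ℝ≥0, ∀ (N : ℕ), 1 ≤ N → ∀ (a : ℕ → ℝ) (x : ℕ), x ≤ N →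
      ∑' n : ℤ, ‖bet N (cut x a) n‖ₑ ^ p ≤
        C * (∑' n : ℤ, ‖bet N a n‖ₑ ^ p + N * ‖a (x - 1)‖ₑ ^ p) := by
  have hp0 : 0 < p := by linarith
  obtain ⟨C, hC⟩ := riesz_pre hp0 h
  refine ⟨4 * (1 + 2 + 2 * C + 10), fun N hN a x hx => ?_⟩
  have h1 : ∑ n ∈ Ico (-(5 * N : ℤ)) (5 * N), ‖bet N (cut x a) n‖ₑ ^ p ≤
      ∑ n ∈ Ico (-(5 * N : ℤ)) (5 * N), 4 * (‖bet N a n‖ₑ ^ p + ‖pre N a (N + 1) n‖ₑ ^ p +
        ‖pre N a x n‖ₑ ^ p + ‖a (x - 1)‖ₑ ^ p) := by
    apply Finset.sum_le_sum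
    intro n _
    refine le_trans ?_ (four_rpow hp hp2 _ _ _ _)
    apply ENNReal.rpow_le_rpow _ hp0.le
    have := bet_cut_bound N x hx a n
    rw [← ofReal_norm, ← ofReal_norm, ← ofReal_norm, ← ofReal_norm, ← ofReal_norm,
      ← ENNReal.ofReal_add (by positivity) (by positivity), ← ENNReal.ofReal_add (by positivity) (by positivity),
      ← ENNReal.ofReal_add (by positivity) (by positivity)]
    apply ENNReal.ofReal_le_ofReal
    exact this
  have hper : ∀ y, ∀ n : ℤ, ‖pre N a y (n + (8 * N : ℕ))‖ₑ ^ p = ‖pre N a y n‖ₑ ^ p := by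
    intro y n
    have := pre_periodic N hN a y n
    push_cast
    rw [this]
  have h2 : ∀ y, ∑ n ∈ Ico (-(5 * N : ℤ)) (5 * N), ‖pre N a y n‖ₑ ^ p ≤
      2 * ∑ k ∈ range (8 * N), ‖pre N a y k‖ₑ ^ p := by
    intro y
    rw [← sum_two_periods (8 * N) (fun n => ‖pre N a y n‖ₑ ^ p) (hper y)]
    apply Finset.sum_le_sum_of_subset
    intro n hn
    rw [Finset.mem_Ico] at *
    push_cast
    constructor <;> linarith [hn.1, hn.2]
  have h3 : ∑ k ∈ range (8 * N), ‖pre N a (N + 1) k‖ₑ ^ p ≤ ∑' n : ℤ, ‖bet N a n‖ₑ ^ p := by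
    rw [sum_center_period N (fun n => ‖pre N a (N + 1) n‖ₑ ^ p) (hper (N + 1))]
    calc ∑ n ∈ Ico (-(4 * N : ℤ)) (4 * N), ‖pre N a (N + 1) n‖ₑ ^ p
        = ∑ n ∈ Ico (-(4 * N : ℤ)) (4 * N), ‖bet N a n‖ₑ ^ p := by
          refine Finset.sum_congr rfl fun n hn => ?_
          rw [enorm_of_norm_eq (bet_center N a n hn)]
      _ ≤ _ := ENNReal.sum_le_tsum _
  have h4 : ∑' n : ℤ, ‖bet N (cut x a) n‖ₑ ^ p =
      ∑ n ∈ Ico (-(5 * N : ℤ)) (5 * N), ‖bet N (cut x a) n‖ₑ ^ p := by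
    apply tsum_eq_sum
    intro n hn
    rw [bet_zero N _ n hn, enorm_zero, ENNReal.zero_rpow_of_pos hp0]
  rw [h4]
  refine h1.trans ?_
  rw [← Finset.mul_sum, Finset.sum_add_distrib, Finset.sum_add_distrib, Finset.sum_add_distrib,
    Finset.sum_const, Int.card_Ico]
  set T := ∑' n : ℤ, ‖bet N a n‖ₑ ^ p with hT
  have h5 : ∑ n ∈ Ico (-(5 * N : ℤ)) (5 * N), ‖bet N a n‖ₑ ^ p ≤ T := ENNReal.sum_le_tsum _
  have h6 : ∑ n ∈ Ico (-(5 * N : ℤ)) (5 * N), ‖pre N a (N + 1) n‖ₑ ^ p ≤ 2 * T :=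
    (h2 (N + 1)).trans (by gcongr)
  have h7 : ∑ n ∈ Ico (-(5 * N : ℤ)) (5 * N), ‖pre N a x n‖ₑ ^ p ≤ 2 * C * T := by
    refine (h2 x).trans ?_
    calc 2 * ∑ k ∈ range (8 * N), ‖pre N a x k‖ₑ ^ p ≤ 2 * (C * T) := by
          gcongr
          exact (hC N hN a x (by omega)).trans (by gcongr)
      _ = _ := by ring
  have h8 : ((5 * N - -(5 * N : ℤ)).toNat : ℕ) • ‖a (x - 1)‖ₑ ^ p = 10 * (N * ‖a (x - 1)‖ₑ ^ p) := by
    have : (5 * N - -(5 * N : ℤ)).toNat = 10 * N := by omega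
    rw [this, nsmul_eq_mul]
    push_cast
    ring
  rw [h8]
  set Z := (N : ℝ≥0∞) * ‖a (x - 1)‖ₑ ^ p
  calc 4 * (∑ n ∈ Ico (-(5 * N : ℤ)) (5 * N), ‖bet N a n‖ₑ ^ p + ∑ n ∈ Ico (-(5 * N : ℤ)) (5 * N), ‖pre N a (N + 1) n‖ₑ ^ p +
        ∑ n ∈ Ico (-(5 * N : ℤ)) (5 * N), ‖pre N a x n‖ₑ ^ p + 10 * Z)
      ≤ 4 * (T + 2 * T + 2 * C * T + 10 * Z) := by gcongr
    _ = 4 * (1 + 2 + 2 * C) * T + 4 * 10 * Z := by ring
    _ ≤ 4 * (1 + 2 + 2 * C + 10) * T + 4 * (1 + 2 + 2 * C + 10) * Z := by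
        have i1 : (4 * (1 + 2 + 2 * C) : ℝ≥0∞) ≤ 4 * (1 + 2 + 2 * C + 10) := mul_le_mul_right le_self_add _
        have i2 : (4 * 10 : ℝ≥0∞) ≤ 4 * (1 + 2 + 2 * C + 10) := mul_le_mul_right le_add_self _
        exact add_le_add (mul_le_mul_left i1 T) (mul_le_mul_left i2 Z)
    _ = _ := by push_cast; ring

/-- (B4) -/
theorem bet_one_eq (N : ℕ) (n : ℤ) :
    ‖bet N (fun _ => 1) n‖ = ‖∑ j ∈ Ico (n - 4 * N + 1).toNat (min N (n + 5 * N + 1).toNat), zp N (2 * j * n) +
      zp N 1 * ∑ j ∈ Ico (max 1 (n - 4 * N + 1).toNat) (min (N + 1) (n + 5 * N + 1).toNat),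
        zp N (2 * j * (n - 1))‖ := by
  rw [norm_bet]
  congr 1
  have h1 : ∀ j : ℕ, cc N (fun _ => 1) j * zp N (2 * j * n) = (if j < N then zp N (2 * j * n) else 0) +
      (if 1 ≤ j ∧ j ≤ N then zp N 1 * zp N (2 * j * (n - 1)) else 0) := by
    intro j
    unfold cc zx
    have e1 : ((0 : ℤ) ≤ (j : ℤ) ∧ (j : ℤ) < N) ↔ j < N := by omega
    have e2 : ((0 : ℤ) ≤ (j : ℤ) - 1 ∧ (j : ℤ) - 1 < N) ↔ (1 ≤ j ∧ j ≤ N) := by omega
    simp only [e1, e2]
    have e3 : zp N (-(2 * j - 1)) * zp N (2 * j * n) = zp N 1 * zp N (2 * j * (n - 1)) := by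
      rw [← zp_add, ← zp_add]
      congr 1
      ring
    rw [add_mul]
    congr 1
    · split_ifs <;> simp
    · split_ifs
      · rw [Complex.ofReal_one, mul_one, e3]
      · simp
  have h2 : ∀ j : ℕ, (if n - 4 * N < j ∧ (j : ℤ) ≤ n + 5 * N then cc N (fun _ => 1) j * zp N (2 * j * n) else 0) =
      (if j < N ∧ n - 4 * N < j ∧ (j : ℤ) ≤ n + 5 * N then zp N (2 * j * n) else 0) +
      (if (1 ≤ j ∧ j ≤ N) ∧ n - 4 * N < j ∧ (j : ℤ) ≤ n + 5 * N then zp N 1 * zp N (2 * j * (n - 1)) else 0) := by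
    intro j
    rw [h1]
    by_cases hj : n - 4 * N < j ∧ (j : ℤ) ≤ n + 5 * N
    · simp only [hj, and_true, if_true, and_self]
    · rw [if_neg hj, if_neg (fun h => hj h.2), if_neg (fun h => hj h.2), add_zero]
  simp_rw [h2]
  rw [Finset.sum_add_distrib, ← Finset.sum_filter, ← Finset.sum_filter, Finset.mul_sum]
  congr 1
  · apply Finset.sum_congr _ (fun _ _ => rfl)
    ext j
    simp only [Finset.mem_filter, Finset.mem_range, Finset.mem_Ico]
    omega
  · apply Finset.sum_congr _ (fun _ _ => rfl)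
    ext j
    simp only [Finset.mem_filter, Finset.mem_range, Finset.mem_Ico]
    omega

theorem bet_one_le {N : ℕ} (hN : 0 < N) (n : ℤ) : ‖bet N (fun _ => 1) n‖ ≤ N * (100 / (1 + |(n : ℝ)|)) := by
  have hN' : (0 : ℝ) < N := by exact_mod_cast hN
  by_cases hn : n ∈ Ico (-(5 * N : ℤ)) (5 * N)
  · rw [Finset.mem_Ico] at hn
    have hcard : ‖bet N (fun _ => 1) n‖ ≤ N + N := by
      rw [bet_one_eq]
      refine (norm_add_le _ _).trans ?_
      rw [norm_mul, norm_zp, one_mul]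
      apply add_le_add
      · refine (norm_sum_le _ _).trans ?_
        simp only [norm_zp, Finset.sum_const, Nat.card_Ico, nsmul_eq_mul, mul_one]
        exact_mod_cast (Nat.sub_le _ _).trans (min_le_left _ _)
      · refine (norm_sum_le _ _).trans ?_
        simp only [norm_zp, Finset.sum_const, Nat.card_Ico, nsmul_eq_mul, mul_one]
        have : min (N + 1) (n + 5 * N + 1).toNat - max 1 (n - 4 * N + 1).toNat ≤ N := by omega
        exact_mod_cast this
    by_cases hn2 : 2 ≤ |n|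
    · have hn0 : n ≠ 0 := by rintro rfl; simp at hn2
      have hn1 : n - 1 ≠ 0 := by
        intro h
        have : n = 1 := by omega
        rw [this] at hn2
        simp at hn2
      have ha : |n| ≤ 6 * N := by rw [abs_le]; omega
      have hb : |n - 1| ≤ 6 * N := by rw [abs_le]; omega
      have h3 : |(n : ℝ)| / 2 ≤ |((n - 1 : ℤ) : ℝ)| := by
        have h5 : |(n : ℝ)| - 1 ≤ |((n - 1 : ℤ) : ℝ)| := by
          push_cast
          have := abs_sub_abs_le_abs_sub (n : ℝ) 1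
          rw [abs_one] at this
          exact this
        have h6 : (2 : ℝ) ≤ |(n : ℝ)| := by exact_mod_cast hn2
        linarith
      have h6 : (2 : ℝ) ≤ |(n : ℝ)| := by exact_mod_cast hn2
      have h7 : ‖bet N (fun _ => 1) n‖ ≤ 16 * N / |(n : ℝ)| + 16 * N / |((n - 1 : ℤ) : ℝ)| := by
        rw [bet_one_eq]
        refine (norm_add_le _ _).trans ?_
        rw [norm_mul, norm_zp, one_mul]
        apply add_le_add
        · have := geom_bound hN n ha hn0 (n - 4 * N + 1).toNat (min N (n + 5 * N + 1).toNat)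
          push_cast at this
          exact this
        · have := geom_bound hN (n - 1) hb hn1 (max 1 (n - 4 * N + 1).toNat) (min (N + 1) (n + 5 * N + 1).toNat)
          rw [Int.cast_abs] at this
          exact this
      have h8 : 16 * N / |((n - 1 : ℤ) : ℝ)| ≤ 32 * N / |(n : ℝ)| := by
        rw [div_le_div_iff₀ (by linarith) (by linarith)]
        nlinarith
      calc _ ≤ 16 * N / |(n : ℝ)| + 32 * N / |(n : ℝ)| := by linarith
        _ = N * (48 / |(n : ℝ)|) := by ring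
        _ ≤ N * (100 / (1 + |(n : ℝ)|)) := by
            gcongr N * ?_
            rw [div_le_div_iff₀ (by linarith) (by linarith)]
            linarith
    · have : |(n : ℝ)| ≤ 1 := by
        have : |n| ≤ 1 := by omega
        exact_mod_cast this
      calc _ ≤ (N : ℝ) + N := hcard
        _ = N * 2 := by ring
        _ ≤ N * (100 / (1 + |(n : ℝ)|)) := by
            gcongr N * ?_
            rw [le_div_iff₀ (by positivity)]
            linarith
  · rw [bet_zero N _ n hn, norm_zero]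
    positivity

theorem bet_one_zero {N : ℕ} (hN : 0 < N) : (N : ℝ) ≤ ‖bet N (fun _ => 1) 0‖ := by
  have hN' : (0 : ℝ) < N := by exact_mod_cast hN
  rw [bet_one_eq]
  have e1 : ((0 : ℤ) - 4 * N + 1).toNat = 0 := by omega
  have e2 : min N ((0 : ℤ) + 5 * N + 1).toNat = N := by omega
  have e3 : min (N + 1) ((0 : ℤ) + 5 * N + 1).toNat = N + 1 := by omega
  rw [e1, e2, e3]
  refine le_trans ?_ (Complex.re_le_norm _)
  rw [Complex.add_re]
  have h1 : (∑ j ∈ Ico 0 N, zp N (2 * j * 0)).re = N := by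
    simp [zp_zero]
  have h2 : 0 ≤ (zp N 1 * ∑ j ∈ Ico (max 1 0) (N + 1), zp N (2 * j * (0 - 1))).re := by
    rw [Finset.mul_sum, Complex.re_sum]
    apply Finset.sum_nonneg
    intro j hj
    rw [Finset.mem_Ico] at hj
    rw [← zp_add]
    unfold zp
    rw [Complex.exp_ofReal_mul_I_re]
    apply Real.cos_nonneg_of_mem_Icc
    have hj1 : (1 : ℝ) ≤ j := by
      have : 1 ≤ j := by omega
      exact_mod_cast this
    have hj2 : (j : ℝ) ≤ N := by
      have : j ≤ N := by omega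
      exact_mod_cast this
    have hpi := Real.pi_pos
    have h3 : Real.pi * (((1 + 2 * j * (0 - 1) : ℤ) : ℝ) / (8 * N)) = - (Real.pi * ((2 * j - 1) / (8 * N))) := by
      push_cast
      ring
    have h4 : ((2 * j - 1) / (8 * N) : ℝ) ≤ 1 / 2 := by
      rw [div_le_div_iff₀ (by positivity) (by norm_num)]
      linarith
    have h5 : (0 : ℝ) ≤ ((2 * j - 1) / (8 * N) : ℝ) := by
      apply div_nonneg (by linarith) (by positivity)
    rw [h3]
    constructor
    · nlinarith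
    · nlinarith
  linarith

end Pool.Agent.Lib.MP89175a
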