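import Pool.Agent.Lib.MP_89175a_an.Spec

/-!
MODULE MR: the M. Riesz theorem on partial sums, sampled at roots of unity.
-/

set_option autoImplicit false

open Finset Complex MeasureTheory

namespace Pool.Agent.Lib.MP89175a.Riesz

open Real (circleAverage)

/-! ### The pointwise inequality -/

theorem trig_ineq (p : ℝ) (hp1 : 1 < p) (hp2 : p < 2) :
    ∃ A B : ℝ, 0 < A ∧ 0 < B ∧ ∀ t : ℝ, |t| ≤ Real.pi / 2 →
      1 ≤ A * Real.cos t ^ p - B * Real.cos (t * p) := by
  have hpi := Real.pi_pos
  set t0 : ℝ := (Real.pi / 2 + Real.pi / (2 * p)) / 2 with ht0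
  have h1 : Real.pi / (2 * p) < Real.pi / 2 := by
    rw [div_lt_div_iff₀ (by positivity) (by norm_num)]
    nlinarith
  have h2 : t0 < Real.pi / 2 := by rw [ht0]; linarith
  have h3 : Real.pi / (2 * p) < t0 := by rw [ht0]; linarith
  have h3' : 0 < Real.pi / (2 * p) := by positivity
  have h4 : Real.pi / 2 < t0 * p := by
    have : Real.pi / (2 * p) * p < t0 * p := by
      apply mul_lt_mul_of_pos_right h3 (by linarith)
    have e : Real.pi / (2 * p) * p = Real.pi / 2 := by field_simp
    linarith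
  have h5 : t0 * p < Real.pi := by nlinarith
  have hc : Real.cos (t0 * p) < 0 := by
    apply Real.cos_neg_of_pi_div_two_lt_of_lt h4
    linarith
  have hc0 : 0 < Real.cos t0 := by
    apply Real.cos_pos_of_mem_Ioo
    constructor <;> linarith
  set B : ℝ := 1 / (-Real.cos (t0 * p)) with hB
  have hBpos : 0 < B := by
    rw [hB]
    apply one_div_pos.mpr
    linarith
  set A : ℝ := (1 + B) / Real.cos t0 ^ p with hA
  have hcp : 0 < Real.cos t0 ^ p := Real.rpow_pos_of_pos hc0 _
  have hApos : 0 < A := by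
    rw [hA]
    positivity
  refine ⟨A, B, hApos, hBpos, ?_⟩
  intro t ht
  have hct : Real.cos t = Real.cos |t| := (Real.cos_abs t).symm
  have hctp : Real.cos (t * p) = Real.cos (|t| * p) := by
    rw [← Real.cos_abs (t * p), abs_mul, abs_of_pos (by linarith : 0 < p)]
  rw [hct, hctp]
  have habs := abs_nonneg t
  have hcosn : 0 ≤ Real.cos |t| := by
    apply Real.cos_nonneg_of_mem_Icc
    constructor <;> linarith
  rcases le_or_gt |t| t0 with h | h
  · have e1 : Real.cos t0 ≤ Real.cos |t| :=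
      Real.cos_le_cos_of_nonneg_of_le_pi habs (by linarith) h
    have e2 : Real.cos t0 ^ p ≤ Real.cos |t| ^ p :=
      Real.rpow_le_rpow hc0.le e1 (by linarith)
    have e3 : 1 + B ≤ A * Real.cos |t| ^ p := by
      calc 1 + B = A * Real.cos t0 ^ p := by
            rw [hA]
            field_simp
        _ ≤ _ := mul_le_mul_of_nonneg_left e2 hApos.le
    have e4 := Real.cos_le_one (|t| * p)
    nlinarith
  · have e1 : Real.cos (|t| * p) ≤ Real.cos (t0 * p) := by
      apply Real.cos_le_cos_of_nonneg_of_le_pi (by linarith) (by nlinarith)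
      exact mul_le_mul_of_nonneg_right h.le (by linarith)
    have e2 : 1 ≤ -(B * Real.cos (|t| * p)) := by
      have : B * (-Real.cos (t0 * p)) = 1 := by
        rw [hB]
        exact one_div_mul_cancel (by linarith)
      nlinarith
    have e3 : 0 ≤ A * Real.cos |t| ^ p := mul_nonneg hApos.le (Real.rpow_nonneg hcosn _)
    linarith

theorem pointwise (p : ℝ) (hp1 : 1 < p) (hp2 : p < 2) :
    ∃ A B : ℝ, 0 < A ∧ 0 < B ∧ ∀ w : ℂ, 0 < w.re →
      ‖w‖ ^ p ≤ A * w.re ^ p - B * (w ^ (p : ℂ)).re := by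
  obtain ⟨A, B, hA, hB, h⟩ := trig_ineq p hp1 hp2
  refine ⟨A, B, hA, hB, ?_⟩
  intro w hw
  have h1 : |arg w| ≤ Real.pi / 2 := (abs_arg_lt_pi_div_two_iff.mpr (Or.inl hw)).le
  have h2 := h (arg w) h1
  have hc : 0 ≤ Real.cos (arg w) := by
    rw [abs_le] at h1
    exact Real.cos_nonneg_of_mem_Icc h1
  have e1 : w.re ^ p = ‖w‖ ^ p * Real.cos (arg w) ^ p := by
    rw [← Real.mul_rpow (norm_nonneg _) hc, norm_mul_cos_arg]
  have e2 : (w ^ (p : ℂ)).re = ‖w‖ ^ p * Real.cos (arg w * p) := Complex.cpow_ofReal_re w p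
  rw [e1, e2]
  have h3 : 0 ≤ ‖w‖ ^ p := Real.rpow_nonneg (norm_nonneg _) _
  nlinarith

/-! ### Entire functions with nonnegative real part on the circle -/

theorem re_nonneg_disc (q : ℂ → ℂ) (hq : Differentiable ℂ q)
    (h : ∀ z, ‖z‖ = 1 → 0 ≤ (q z).re) (z : ℂ) (hz : ‖z‖ ≤ 1) : 0 ≤ (q z).re := by
  have hd : DiffContOnCl ℂ (fun z => exp (-q z)) (Metric.ball (0 : ℂ) 1) :=
    (hq.neg.cexp).diffContOnCl
  have hb : Bornology.IsBounded (Metric.ball (0 : ℂ) 1) := Metric.isBounded_ball
  have hf : ∀ z ∈ frontier (Metric.ball (0 : ℂ) 1), ‖exp (-q z)‖ ≤ 1 := by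
    intro z hz
    rw [frontier_ball _ (by norm_num : (1 : ℝ) ≠ 0)] at hz
    rw [norm_exp, neg_re]
    have := h z (by simpa using hz)
    apply Real.exp_le_one_iff.mpr
    linarith
  have hz' : z ∈ closure (Metric.ball (0 : ℂ) 1) := by
    rw [closure_ball _ (by norm_num : (1 : ℝ) ≠ 0)]
    simpa using hz
  have := norm_le_of_forall_mem_frontier_norm_le hb hd hf hz'
  rw [norm_exp, neg_re, Real.exp_le_one_iff] at this
  linarith

theorem circleIntegrable_of_continuous {E : Type} [NormedAddCommGroup E] {f : ℂ → E}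
    (hf : Continuous f) : CircleIntegrable f 0 1 :=
  hf.continuousOn.circleIntegrable (by norm_num)

/-- the key bound of the norm by the real part -/
theorem av_norm_le (p : ℝ) (hp1 : 1 < p) (hp2 : p < 2) :
    ∃ C : ℝ, 0 < C ∧ ∀ q : ℂ → ℂ, Differentiable ℂ q → (∀ z, ‖z‖ = 1 → 0 ≤ (q z).re) →
      (q 0).im = 0 →
      circleAverage (fun z => ‖q z‖ ^ p) 0 1 ≤
        C * circleAverage (fun z => |(q z).re| ^ p) 0 1 := by
  obtain ⟨A, B, hA, hB, hAB⟩ := pointwise p hp1 hp2
  have hp0 : 0 < p := by linarith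
  refine ⟨2 * A, by positivity, ?_⟩
  intro q hq hre him
  have hqc : Continuous q := hq.continuous
  have hrec : Continuous (fun z => |(q z).re| ^ p) := by
    apply Continuous.rpow_const _ (fun _ => Or.inr hp0.le)
    exact (Complex.continuous_re.comp hqc).abs
  have hnc : Continuous (fun z => ‖q z‖ ^ p) :=
    Continuous.rpow_const hqc.norm (fun _ => Or.inr hp0.le)
  apply le_of_forall_pos_le_add
  intro δ hδ
  set ε : ℝ := (δ / (2 * A)) ^ (1 / p) with hε
  have hεpos : 0 < ε := Real.rpow_pos_of_pos (by positivity) _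
  have hεp : 2 * A * ε ^ p = δ := by
    rw [hε, ← Real.rpow_mul (by positivity), one_div_mul_cancel hp0.ne', Real.rpow_one]
    field_simp
  -- the holomorphic function
  have hslit : ∀ z : ℂ, ‖z‖ ≤ 1 → 0 < (q z + ε).re := by
    intro z hz
    have := re_nonneg_disc q hq hre z hz
    simp only [add_re, ofReal_re]
    linarith
  have hdc : DiffContOnCl ℂ (fun z => (q z + ε) ^ (p : ℂ)) (Metric.ball (0 : ℂ) |1|) := by
    apply DifferentiableOn.diffContOnCl
    rw [abs_one, closure_ball _ (by norm_num : (1 : ℝ) ≠ 0)]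
    intro z hz
    apply DifferentiableAt.differentiableWithinAt
    apply DifferentiableAt.cpow_const
    · exact (hq z).add_const _
    · left
      exact hslit z (by simpa using hz)
  have hmv := hdc.circleAverage
  have hq0 : q 0 = (((q 0).re : ℝ) : ℂ) := by
    apply Complex.ext
    · simp
    · simp [him]
  have hq0n : 0 ≤ (q 0).re := re_nonneg_disc q hq hre 0 (by simp)
  have hval : ((q 0 + ε) ^ (p : ℂ)).re = ((q 0).re + ε) ^ p := by
    rw [hq0]
    have : (((q 0).re : ℝ) : ℂ) + (ε : ℂ) = (((q 0).re + ε : ℝ) : ℂ) := by push_cast; rfl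
    rw [this, ← Complex.ofReal_cpow (by positivity), ofReal_re, ofReal_re]
  -- real part of the average
  have hint : CircleIntegrable (fun z => (q z + ε) ^ (p : ℂ)) 0 1 := by
    apply ContinuousOn.circleIntegrable (by norm_num)
    have := hdc.2
    rw [abs_one, closure_ball _ (by norm_num : (1 : ℝ) ≠ 0)] at this
    exact this.mono Metric.sphere_subset_closedBall
  have hre_av : circleAverage (fun z => ((q z + ε) ^ (p : ℂ)).re) 0 1 = ((q 0).re + ε) ^ p := by
    have := ContinuousLinearMap.circleAverage_comp_comm Complex.reCLM hint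
    rw [hmv] at this
    simp only [Complex.reCLM_apply] at this
    rw [← hval, ← this]
    rfl
  have hint_re : CircleIntegrable (fun z => ((q z + ε) ^ (p : ℂ)).re) 0 1 := by
    apply ContinuousOn.circleIntegrable (by norm_num)
    have := hdc.2
    rw [abs_one, closure_ball _ (by norm_num : (1 : ℝ) ≠ 0)] at this
    exact Complex.continuous_re.comp_continuousOn (this.mono Metric.sphere_subset_closedBall)
  have hcont2 : Continuous (fun z => |(q z + ε).re| ^ p) := by
    apply Continuous.rpow_const _ (fun _ => Or.inr hp0.le)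
    exact (Complex.continuous_re.comp (hqc.add continuous_const)).abs
  -- combine
  have s1 : circleAverage (fun z => ‖q z‖ ^ p) 0 1 ≤
      circleAverage (fun z => A * |(q z + ε).re| ^ p - B * ((q z + ε) ^ (p : ℂ)).re) 0 1 := by
    apply Real.circleAverage_mono (circleIntegrable_of_continuous hnc)
    · apply CircleIntegrable.sub
      · exact circleIntegrable_of_continuous (continuous_const.mul hcont2)
      · exact hint_re.const_smul (a := B)
    · intro z hz
      have hz1 : ‖z‖ = 1 := by simpa using hz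
      have hpos := hslit z hz1.le
      have h1 := hAB (q z + ε) hpos
      have h2 : ‖q z‖ ≤ ‖q z + ε‖ := by
        have hr := hre z hz1
        rw [Complex.norm_eq_sqrt_sq_add_sq, Complex.norm_eq_sqrt_sq_add_sq]
        apply Real.sqrt_le_sqrt
        simp only [add_re, ofReal_re, add_im, ofReal_im, add_zero]
        nlinarith
      have h3 : ‖q z‖ ^ p ≤ ‖q z + ε‖ ^ p := Real.rpow_le_rpow (norm_nonneg _) h2 hp0.le
      rw [abs_of_pos hpos]
      linarith
  have s2 : circleAverage (fun z => A * |(q z + ε).re| ^ p - B * ((q z + ε) ^ (p : ℂ)).re) 0 1 =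
      A * circleAverage (fun z => |(q z + ε).re| ^ p) 0 1 - B * ((q 0).re + ε) ^ p := by
    have e1 := Real.circleAverage_fun_sub
      (f₁ := fun z => A • |(q z + ε).re| ^ p) (f₂ := fun z => B • ((q z + ε) ^ (p : ℂ)).re)
      (c := 0) (R := 1) (circleIntegrable_of_continuous (continuous_const.mul hcont2))
      (hint_re.const_smul (a := B))
    simp only [smul_eq_mul] at e1
    rw [e1]
    have e2 := Real.circleAverage_fun_smul (a := A) (f := fun z => |(q z + ε).re| ^ p)
      (c := 0) (R := 1)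
    have e3 := Real.circleAverage_fun_smul (a := B) (f := fun z => ((q z + ε) ^ (p : ℂ)).re)
      (c := 0) (R := 1)
    simp only [smul_eq_mul] at e2 e3
    rw [e2, e3, hre_av]
  have s3 : 0 ≤ B * ((q 0).re + ε) ^ p := by positivity
  have s4 : circleAverage (fun z => |(q z + ε).re| ^ p) 0 1 ≤
      circleAverage (fun z => 2 * |(q z).re| ^ p + 2 * ε ^ p) 0 1 := by
    apply Real.circleAverage_mono (circleIntegrable_of_continuous hcont2)
    · exact circleIntegrable_of_continuous ((continuous_const.mul hrec).add continuous_const)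
    · intro z hz
      have h1 : |(q z + ε).re| ≤ |(q z).re| + ε := by
        simp only [add_re, ofReal_re]
        refine (abs_add_le _ _).trans ?_
        rw [abs_of_pos hεpos]
      have h2 : |(q z + ε).re| ^ p ≤ (|(q z).re| + ε) ^ p :=
        Real.rpow_le_rpow (abs_nonneg _) h1 hp0.le
      have h3 : (|(q z).re| + ε) ^ p ≤ 2 ^ (p - 1) * (|(q z).re| ^ p + ε ^ p) := by
        have := Real.rpow_sum_le_const_mul_sum_rpow_of_nonneg (s := (univ : Finset (Fin 2)))
          (f := ![|(q z).re|, ε]) hp1.le (by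
            intro i _
            fin_cases i
            · simp
            · simp [hεpos.le])
        simpa [Fin.sum_univ_two] using this
      have h4 : (2 : ℝ) ^ (p - 1) ≤ 2 := by
        calc (2 : ℝ) ^ (p - 1) ≤ 2 ^ (1 : ℝ) :=
              Real.rpow_le_rpow_of_exponent_le (by norm_num) (by linarith)
          _ = 2 := Real.rpow_one 2
      have h5 : 0 ≤ |(q z).re| ^ p + ε ^ p := by positivity
      have h6 : 2 ^ (p - 1) * (|(q z).re| ^ p + ε ^ p) ≤ 2 * (|(q z).re| ^ p + ε ^ p) :=
        mul_le_mul_of_nonneg_right h4 h5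
      linarith
  have s5 : circleAverage (fun z => 2 * |(q z).re| ^ p + 2 * ε ^ p) 0 1 =
      2 * circleAverage (fun z => |(q z).re| ^ p) 0 1 + 2 * ε ^ p := by
    have e1 := Real.circleAverage_fun_add
      (f₁ := fun z => (2 : ℝ) • |(q z).re| ^ p) (f₂ := fun _ => 2 * ε ^ p)
      (c := 0) (R := 1) (circleIntegrable_of_continuous (continuous_const.mul hrec))
      (circleIntegrable_of_continuous continuous_const)
    simp only [smul_eq_mul] at e1
    rw [e1, Real.circleAverage_const]
    have e2 := Real.circleAverage_fun_smul (a := (2 : ℝ)) (f := fun z => |(q z).re| ^ p)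
      (c := 0) (R := 1)
    simp only [smul_eq_mul] at e2
    rw [e2]
  have s6 := mul_le_mul_of_nonneg_left (s4.trans s5.le) hA.le
  linarith

/-! ### The analytic Fejér kernel -/

/-- analytic half of the Fejér kernel: `1 + 2 ∑_{0<j<n} (1-j/n) z^j` -/
noncomputable def KK (n : ℕ) (z : ℂ) : ℂ := 2 * ∑ j ∈ range n, (1 - (j : ℂ) / n) * z ^ j - 1

theorem KK_diff (n : ℕ) : Differentiable ℂ (KK n) := by
  unfold KK
  fun_prop

theorem KK_zero (n : ℕ) (hn : 0 < n) : KK n 0 = 1 := by
  unfold KK
  have : ∑ j ∈ range n, (1 - (j : ℂ) / n) * (0 : ℂ) ^ j = 1 := by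
    rw [sum_eq_single 0]
    · simp
    · intro j _ hj
      simp [hj]
    · intro h
      simp at h
      omega
  rw [this]
  norm_num

theorem KK_conj (n : ℕ) (z : ℂ) : KK n ((starRingEnd ℂ) z) = (starRingEnd ℂ) (KK n z) := by
  unfold KK
  simp only [map_sub, map_mul, map_ofNat, map_sum, map_one, map_pow, map_div₀, map_natCast]

theorem fejer_aux (z : ℂ) (hz : ‖z‖ = 1) (n : ℕ) :
    2 * (∑ j ∈ range n, ((n : ℂ) - j) * z ^ j).re - n = ‖∑ j ∈ range n, z ^ j‖ ^ 2 := by
  induction n with
  | zero => simp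
  | succ n ih =>
    have hE : ∑ j ∈ range (n + 1), (((n + 1 : ℕ) : ℂ) - j) * z ^ j =
        ∑ j ∈ range n, ((n : ℂ) - j) * z ^ j + ∑ j ∈ range (n + 1), z ^ j := by
      rw [sum_range_succ, sum_range_succ (fun j => z ^ j), ← add_assoc, ← sum_add_distrib]
      push_cast
      congr 1
      · apply sum_congr rfl
        intro j _
        ring
      · ring
    have hzz : (starRingEnd ℂ) z * z = 1 := by
      rw [mul_comm, Complex.mul_conj, Complex.normSq_eq_norm_sq, hz]
      norm_num
    have hre : ∀ w : ℂ, ‖w‖ ^ 2 = (w * (starRingEnd ℂ) w).re := by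
      intro w
      rw [Complex.mul_conj, Complex.normSq_eq_norm_sq, Complex.ofReal_re]
    set D := ∑ j ∈ range n, z ^ j with hD
    have hDn : ∑ j ∈ range (n + 1), z ^ j = D + z ^ n := sum_range_succ _ _
    have hkey : (D * (starRingEnd ℂ) (z ^ n)).re = (∑ j ∈ range (n + 1), z ^ j).re - 1 := by
      have e1 : D * (starRingEnd ℂ) (z ^ n) =
          ∑ j ∈ range n, (starRingEnd ℂ) (z ^ (j + 1)) := by
        rw [hD, sum_mul, ← sum_range_reflect (fun j => (starRingEnd ℂ) (z ^ (j + 1)))]
        apply sum_congr rfl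
        intro j hj
        rw [mem_range] at hj
        have e2 : n = j + (n - 1 - j + 1) := by omega
        have e3 : (starRingEnd ℂ) (z ^ n) =
            (starRingEnd ℂ) (z) ^ j * (starRingEnd ℂ) (z ^ (n - 1 - j + 1)) := by
          conv_lhs => rw [e2]
          rw [pow_add, map_mul, map_pow]
        rw [e3, ← mul_assoc, ← mul_pow, mul_comm z, hzz, one_pow, one_mul]
      rw [e1, sum_range_succ' (fun j => z ^ j), add_re, re_sum, re_sum]
      simp only [conj_re, pow_zero, one_re]
      ring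
    have hpn : ‖z ^ n‖ ^ 2 = 1 := by rw [norm_pow, hz]; simp
    have hexp : ‖D + z ^ n‖ ^ 2 = ‖D‖ ^ 2 + 1 + 2 * (D * (starRingEnd ℂ) (z ^ n)).re := by
      have := Complex.normSq_add D (z ^ n)
      rw [Complex.normSq_eq_norm_sq, Complex.normSq_eq_norm_sq, Complex.normSq_eq_norm_sq,
        hpn] at this
      exact this
    have hre' : (∑ j ∈ range (n + 1), z ^ j).re = D.re + (z ^ n).re := by
      rw [hDn, add_re]
    rw [hE, add_re, hDn, hexp, hkey, hre', ← ih, add_re]
    push_cast
    ring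

theorem KK_re (n : ℕ) (hn : 0 < n) (z : ℂ) (hz : ‖z‖ = 1) :
    (KK n z).re = ‖∑ j ∈ range n, z ^ j‖ ^ 2 / n := by
  have hn' : (n : ℂ) ≠ 0 := by exact_mod_cast hn.ne'
  have hn'' : (n : ℝ) ≠ 0 := by exact_mod_cast hn.ne'
  have e1 : ∑ j ∈ range n, (1 - (j : ℂ) / n) * z ^ j =
      ((1 / n : ℝ) : ℂ) * ∑ j ∈ range n, ((n : ℂ) - j) * z ^ j := by
    rw [mul_sum]
    apply sum_congr rfl
    intro j _
    push_cast
    field_simp
  unfold KK
  rw [e1, ← fejer_aux z hz n]
  rw [sub_re, one_re, show (2 : ℂ) = ((2 : ℝ) : ℂ) by norm_num, re_ofReal_mul, re_ofReal_mul]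
  field_simp

theorem KK_re_nonneg (n : ℕ) (hn : 0 < n) (z : ℂ) (hz : ‖z‖ = 1) : 0 ≤ (KK n z).re := by
  rw [KK_re n hn z hz]
  positivity

/-- discrete average of the kernel -/
theorem KK_sum (M n : ℕ) (hn : 0 < n) (hM : n ≤ M) (ζ : ℂ) (hζ : IsPrimitiveRoot ζ M) (u : ℂ) :
    ∑ k ∈ range M, KK n (u * ζ ^ k) = M := by
  unfold KK
  rw [sum_sub_distrib, ← mul_sum, sum_comm]
  have h1 : ∀ j ∈ range n, ∑ k ∈ range M, (1 - (j : ℂ) / n) * (u * ζ ^ k) ^ j =
      if j = 0 then (M : ℂ) else 0 := by
    intro j hj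
    rw [mem_range] at hj
    have e1 : ∀ k ∈ range M, (1 - (j : ℂ) / n) * (u * ζ ^ k) ^ j =
        (1 - (j : ℂ) / n) * u ^ j * (ζ ^ j) ^ k := by
      intro k _
      rw [mul_pow, ← pow_mul, mul_comm k j, pow_mul]
      ring
    rw [sum_congr rfl e1, ← mul_sum]
    split_ifs with hj0
    · subst hj0
      simp
    · have h2 : ζ ^ j ≠ 1 := hζ.pow_ne_one_of_pos_of_lt hj0 (by omega)
      have h3 : ∑ k ∈ range M, (ζ ^ j) ^ k = 0 := by
        have h4 := mul_neg_geom_sum (ζ ^ j) M
        rw [← pow_mul, mul_comm j M, pow_mul, hζ.pow_eq_one, one_pow, sub_self] at h4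
        rcases mul_eq_zero.mp h4 with h5 | h5
        · exact absurd (sub_eq_zero.mp h5).symm h2
        · exact h5
      rw [h3, mul_zero]
  rw [sum_congr rfl h1, sum_ite_eq', if_pos (mem_range.mpr hn)]
  simp
  ring

/-! ### Averages of monomials -/

theorem av_pow (m : ℕ) (hm : m ≠ 0) : circleAverage (fun z : ℂ => z ^ m) 0 1 = 0 := by
  have hd : DiffContOnCl ℂ (fun z : ℂ => z ^ m) (Metric.ball (0 : ℂ) |1|) :=
    (differentiable_pow m).diffContOnCl
  rw [hd.circleAverage]
  simp [hm]

theorem conj_mul_self_of_norm (z : ℂ) (hz : ‖z‖ = 1) : (starRingEnd ℂ) z * z = 1 := by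
  rw [mul_comm, Complex.mul_conj, Complex.normSq_eq_norm_sq, hz]
  norm_num

theorem av_conj (f : ℂ → ℂ) (hf : Continuous f) :
    circleAverage (fun z => (starRingEnd ℂ) (f z)) 0 1 =
      (starRingEnd ℂ) (circleAverage f 0 1) := by
  have := ContinuousLinearMap.circleAverage_comp_comm (Complex.conjCLE : ℂ →L[ℝ] ℂ)
    (circleIntegrable_of_continuous hf)
  simp only [ContinuousLinearEquiv.coe_coe, Complex.conjCLE_apply] at this
  rw [← this]
  rfl

theorem av_pow_conj (i j : ℕ) :
    circleAverage (fun z : ℂ => z ^ j * (starRingEnd ℂ) z ^ i) 0 1 = if i = j then 1 else 0 := by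
  rcases lt_trichotomy i j with h | h | h
  · rw [if_neg h.ne]
    refine Eq.trans ?_ (av_pow (j - i) (by omega))
    apply Real.circleAverage_congr_sphere
    intro z hz
    have hz1 : ‖z‖ = 1 := by simpa using hz
    simp only
    obtain ⟨m, rfl⟩ := Nat.exists_eq_add_of_lt h
    have e : i + m + 1 - i = m + 1 := by omega
    rw [e, show i + m + 1 = (m + 1) + i by ring, pow_add, mul_assoc, ← mul_pow, mul_comm z,
      conj_mul_self_of_norm z hz1, one_pow, mul_one]
  · subst h
    rw [if_pos rfl]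
    apply Real.circleAverage_const_on_circle
    intro z hz
    have hz1 : ‖z‖ = 1 := by simpa using hz
    rw [← mul_pow, mul_comm z, conj_mul_self_of_norm z hz1, one_pow]
  · rw [if_neg h.ne']
    have h1 : circleAverage (fun z : ℂ => (starRingEnd ℂ) (z ^ (i - j))) 0 1 = 0 := by
      rw [av_conj _ (by fun_prop), av_pow (i - j) (by omega), map_zero]
    refine Eq.trans ?_ h1
    apply Real.circleAverage_congr_sphere
    intro z hz
    have hz1 : ‖z‖ = 1 := by simpa using hz
    simp only
    obtain ⟨m, rfl⟩ := Nat.exists_eq_add_of_lt h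
    have e : j + m + 1 - j = m + 1 := by omega
    rw [e, map_pow, show j + m + 1 = j + (m + 1) by ring, pow_add, ← mul_assoc, ← mul_pow,
      mul_comm z, conj_mul_self_of_norm z hz1, one_pow, one_mul]

theorem av_sum_mul (s : Finset ℕ) (a : ℕ → ℂ) (F : ℕ → ℂ → ℂ) (hF : ∀ i, Continuous (F i)) :
    circleAverage (fun z => ∑ i ∈ s, a i * F i z) 0 1 = ∑ i ∈ s, a i * circleAverage (F i) 0 1 := by
  have h1 := Real.circleAverage_fun_sum (s := s) (f := fun i z => a i * F i z) (c := 0) (R := 1)
    (fun i _ => circleIntegrable_of_continuous (continuous_const.mul (hF i)))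
  rw [h1]
  apply sum_congr rfl
  intro i _
  have h2 := Real.circleAverage_fun_smul (a := a i) (f := F i) (c := 0) (R := 1)
  simpa only [smul_eq_mul] using h2

theorem av_const_mul (a : ℂ) (F : ℂ → ℂ) :
    circleAverage (fun z => a * F z) 0 1 = a * circleAverage F 0 1 := by
  have h2 := Real.circleAverage_fun_smul (a := a) (f := F) (c := 0) (R := 1)
  simpa only [smul_eq_mul] using h2

theorem av_norm (F : ℂ → ℂ) :
    ‖circleAverage F 0 1‖ ≤ circleAverage (fun z => ‖F z‖) 0 1 := by
  unfold circleAverage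
  rw [norm_smul, smul_eq_mul, Real.norm_of_nonneg (by positivity)]
  apply mul_le_mul_of_nonneg_left _ (by positivity)
  exact intervalIntegral.norm_integral_le_integral_norm Real.two_pi_pos.le

theorem av_pow_KK (n j : ℕ) (hj : j < n) (w : ℂ) :
    circleAverage (fun z => z ^ j * ((KK n (w * (starRingEnd ℂ) z)).re : ℂ)) 0 1 =
      (1 - (j : ℂ) / n) * w ^ j := by
  have hn : 0 < n := by omega
  have e0 : (fun z : ℂ => z ^ j * ((KK n (w * (starRingEnd ℂ) z)).re : ℂ)) =
      fun z => (1 / 2 : ℂ) * ((z ^ j * KK n (w * (starRingEnd ℂ) z)) +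
        z ^ j * KK n ((starRingEnd ℂ) w * z)) := by
    funext z
    have h1 : KK n ((starRingEnd ℂ) w * z) = (starRingEnd ℂ) (KK n (w * (starRingEnd ℂ) z)) := by
      rw [← KK_conj, map_mul, Complex.conj_conj]
    rw [h1, Complex.re_eq_add_conj]
    ring
  have hc1 : Continuous (fun z : ℂ => z ^ j * KK n (w * (starRingEnd ℂ) z)) := by
    have := (KK_diff n).continuous
    fun_prop
  have hd2 : Differentiable ℂ (fun z : ℂ => z ^ j * KK n ((starRingEnd ℂ) w * z)) := by
    have := KK_diff n
    fun_prop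
  have a1 : circleAverage (fun z : ℂ => z ^ j * KK n (w * (starRingEnd ℂ) z)) 0 1 =
      2 * ((1 - (j : ℂ) / n) * w ^ j) - if 0 = j then 1 else 0 := by
    have e1 : (fun z : ℂ => z ^ j * KK n (w * (starRingEnd ℂ) z)) =
        fun z => (2 : ℂ) • (∑ i ∈ range n, ((1 - (i : ℂ) / n) * w ^ i) *
          (z ^ j * (starRingEnd ℂ) z ^ i)) - z ^ j * (starRingEnd ℂ) z ^ 0 := by
      funext z
      unfold KK
      rw [smul_eq_mul, mul_sub, mul_sum, mul_sum, mul_sum]
      congr 1
      · apply sum_congr rfl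
        intro i _
        rw [mul_pow]
        ring
    rw [e1, Real.circleAverage_fun_sub]
    · rw [Real.circleAverage_fun_smul, av_sum_mul _ _ _ (by intro i; fun_prop), av_pow_conj,
        smul_eq_mul]
      congr 2
      simp only [av_pow_conj, mul_ite, mul_one, mul_zero]
      rw [sum_ite_eq', if_pos (mem_range.mpr hj)]
    · apply circleIntegrable_of_continuous
      fun_prop
    · apply circleIntegrable_of_continuous
      fun_prop
  have a2 : circleAverage (fun z : ℂ => z ^ j * KK n ((starRingEnd ℂ) w * z)) 0 1 =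
      if 0 = j then 1 else 0 := by
    have hd : DiffContOnCl ℂ (fun z : ℂ => z ^ j * KK n ((starRingEnd ℂ) w * z))
        (Metric.ball (0 : ℂ) |1|) := hd2.diffContOnCl
    rw [hd.circleAverage, mul_zero, KK_zero n hn, mul_one]
    by_cases h : j = 0
    · subst h
      simp
    · rw [if_neg (fun h' => h h'.symm), zero_pow h]
  rw [e0, av_const_mul, Real.circleAverage_fun_add (circleIntegrable_of_continuous hc1)
    (circleIntegrable_of_continuous hd2.continuous), a1, a2]
  ring

/-- the real part of the kernel averages to one -/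
theorem av_KK_re (n : ℕ) (hn : 0 < n) (w : ℂ) :
    circleAverage (fun z => (KK n (w * (starRingEnd ℂ) z)).re) 0 1 = 1 := by
  have h := av_pow_KK n 0 hn w
  simp only [pow_zero, one_mul, Nat.cast_zero, zero_div, sub_zero, mul_one] at h
  have hc : Continuous (fun z : ℂ => (KK n (w * (starRingEnd ℂ) z)).re) := by
    have := (KK_diff n).continuous
    fun_prop
  have h2 := ContinuousLinearMap.circleAverage_comp_comm Complex.ofRealCLM
    (circleIntegrable_of_continuous hc)
  have h3 : (⇑Complex.ofRealCLM ∘ fun z => (KK n (w * (starRingEnd ℂ) z)).re) =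
      fun z => ((KK n (w * (starRingEnd ℂ) z)).re : ℂ) := rfl
  rw [h3, h] at h2
  have h4 := h2.symm
  simp only [Complex.ofRealCLM_apply] at h4
  exact_mod_cast h4

theorem av_KK_re' (n : ℕ) (hn : 0 < n) (w : ℂ) :
    circleAverage (fun z => (KK n (z * w)).re) 0 1 = 1 := by
  refine Eq.trans ?_ (av_KK_re n hn ((starRingEnd ℂ) w))
  congr 1
  funext z
  rw [← map_mul, KK_conj, conj_re, mul_comm]

/-- Jensen's inequality for a weighted circle average -/
theorem jensen_av (p : ℝ) (hp : 1 ≤ p) (F W : ℂ → ℝ) (hF : Continuous F) (hW : Continuous W)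
    (hF0 : ∀ z, ‖z‖ = 1 → 0 ≤ F z) (hW0 : ∀ z, ‖z‖ = 1 → 0 ≤ W z)
    (hW1 : circleAverage W 0 1 = 1) :
    (circleAverage (fun z => F z * W z) 0 1) ^ p ≤
      circleAverage (fun z => |F z| ^ p * W z) 0 1 := by
  set y := circleAverage (fun z => F z * W z) 0 1 with hy
  have hy0 : 0 ≤ y := by
    apply Real.circleAverage_nonneg_of_nonneg
    intro z hz
    have hz1 : ‖z‖ = 1 := by simpa using hz
    exact mul_nonneg (hF0 z hz1) (hW0 z hz1)
  have hp0 : 0 < p := by linarith
  have hcp : Continuous (fun z => |F z| ^ p * W z) := by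
    apply Continuous.mul _ hW
    exact Continuous.rpow_const hF.abs (fun _ => Or.inr hp0.le)
  rcases hy0.eq_or_lt with h | h
  · rw [← h, Real.zero_rpow hp0.ne']
    apply Real.circleAverage_nonneg_of_nonneg
    intro z hz
    have hz1 : ‖z‖ = 1 := by simpa using hz
    exact mul_nonneg (Real.rpow_nonneg (abs_nonneg _) _) (hW0 z hz1)
  · -- tangent line
    have hpt : ∀ z, ‖z‖ = 1 → (y ^ p - p * y ^ (p - 1) * y) * W z +
        (p * y ^ (p - 1)) * (F z * W z) ≤ |F z| ^ p * W z := by
      intro z hz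
      have h1 : y ^ p + p * y ^ (p - 1) * (F z - y) ≤ |F z| ^ p := by
        have hs : -1 ≤ F z / y - 1 := by
          have : 0 ≤ F z / y := div_nonneg (hF0 z hz) h.le
          linarith
        have h2 := one_add_mul_self_le_rpow_one_add hs hp
        have h3 : 1 + (F z / y - 1) = F z / y := by ring
        rw [h3, Real.div_rpow (hF0 z hz) h.le] at h2
        have h4 : 0 < y ^ p := Real.rpow_pos_of_pos h _
        rw [le_div_iff₀ h4] at h2
        rw [abs_of_nonneg (hF0 z hz)]
        refine le_trans (le_of_eq ?_) h2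
        have h5 : y ^ p = y ^ (p - 1) * y := by
          rw [← Real.rpow_add_one h.ne']
          congr 1
          ring
        rw [h5]
        field_simp
      have := mul_le_mul_of_nonneg_right h1 (hW0 z hz)
      refine le_trans (le_of_eq ?_) this
      ring
    have hc1 : Continuous (fun z => F z * W z) := hF.mul hW
    have hmono := Real.circleAverage_mono (c := 0) (R := 1)
      (f₁ := fun z => (y ^ p - p * y ^ (p - 1) * y) * W z + (p * y ^ (p - 1)) * (F z * W z))
      (f₂ := fun z => |F z| ^ p * W z)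
      (circleIntegrable_of_continuous ((continuous_const.mul hW).add (continuous_const.mul hc1)))
      (circleIntegrable_of_continuous hcp) (by
        intro z hz
        exact hpt z (by simpa using hz))
    refine le_trans (le_of_eq ?_) hmono
    have e1 := Real.circleAverage_fun_add
      (f₁ := fun z => (y ^ p - p * y ^ (p - 1) * y) • W z)
      (f₂ := fun z => (p * y ^ (p - 1)) • (F z * W z)) (c := 0) (R := 1)
      (circleIntegrable_of_continuous (continuous_const.mul hW))
      (circleIntegrable_of_continuous (continuous_const.mul hc1))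
    have e2 := Real.circleAverage_fun_smul (a := y ^ p - p * y ^ (p - 1) * y) (f := W)
      (c := 0) (R := 1)
    have e3 := Real.circleAverage_fun_smul (a := p * y ^ (p - 1)) (f := fun z => F z * W z)
      (c := 0) (R := 1)
    simp only [smul_eq_mul] at e1 e2 e3
    rw [e1, e2, e3, hW1, ← hy]
    ring

/-- the averages of a polynomial at roots of unity are controlled by the circle average -/
theorem sampling (p : ℝ) (hp : 1 ≤ p) (N M : ℕ) (hM : 2 * N + 2 ≤ M) (α : ℕ → ℂ) (w : ℂ)
    (hw : IsPrimitiveRoot w M) :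
    ∑ k ∈ range M, ‖∑ j ∈ range (N + 1), α j * (w ^ k) ^ j‖ ^ p ≤
      3 ^ p * M * circleAverage (fun z => ‖∑ j ∈ range (N + 1), α j * z ^ j‖ ^ p) 0 1 := by
  have hp0 : 0 < p := by linarith
  have hwn : ‖w‖ = 1 := hw.norm'_eq_one (by omega)
  set A : ℂ → ℂ := fun z => ∑ j ∈ range (N + 1), α j * z ^ j with hA
  have hAc : Continuous A := by
    rw [hA]
    fun_prop
  have hKc := fun n => (KK_diff n).continuous
  have hrep : ∀ u : ℂ, A u = circleAverage (fun z => A z *
      ((2 * (KK (2 * N + 2) (u * (starRingEnd ℂ) z)).re -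
        (KK (N + 1) (u * (starRingEnd ℂ) z)).re : ℝ) : ℂ)) 0 1 := by
    intro u
    have e1 : (fun z => A z *
      ((2 * (KK (2 * N + 2) (u * (starRingEnd ℂ) z)).re -
        (KK (N + 1) (u * (starRingEnd ℂ) z)).re : ℝ) : ℂ)) =
        fun z => ∑ j ∈ range (N + 1), α j *
          ((2 : ℂ) • (z ^ j * ((KK (2 * N + 2) (u * (starRingEnd ℂ) z)).re : ℂ)) -
            z ^ j * ((KK (N + 1) (u * (starRingEnd ℂ) z)).re : ℂ)) := by
      funext z
      rw [hA]
      simp only
      rw [sum_mul]
      apply sum_congr rfl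
      intro j _
      push_cast
      rw [smul_eq_mul]
      ring
    rw [e1, av_sum_mul]
    · rw [hA]
      apply sum_congr rfl
      intro j hj
      rw [mem_range] at hj
      congr 1
      rw [Real.circleAverage_fun_sub, Real.circleAverage_fun_smul, av_pow_KK _ _ (by omega),
        av_pow_KK _ _ (by omega), smul_eq_mul]
      · have : ((2 * N + 2 : ℕ) : ℂ) = 2 * ((N + 1 : ℕ) : ℂ) := by push_cast; ring
        rw [this]
        have h2 : ((N + 1 : ℕ) : ℂ) ≠ 0 := by exact_mod_cast (Nat.succ_ne_zero N)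
        field_simp
        ring
      · apply circleIntegrable_of_continuous
        have := hKc (2 * N + 2)
        fun_prop
      · apply circleIntegrable_of_continuous
        have := hKc (N + 1)
        fun_prop
    · intro i
      have := hKc (2 * N + 2)
      have := hKc (N + 1)
      fun_prop
  set W : ℂ → ℂ → ℝ := fun u z => (2 * (KK (2 * N + 2) (u * (starRingEnd ℂ) z)).re +
        (KK (N + 1) (u * (starRingEnd ℂ) z)).re) / 3 with hW
  have hWc : ∀ u, Continuous (W u) := by
    intro u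
    rw [hW]
    have := hKc (2 * N + 2)
    have := hKc (N + 1)
    fun_prop
  have hW0 : ∀ u z : ℂ, ‖u‖ = 1 → ‖z‖ = 1 → 0 ≤ W u z := by
    intro u z hu hz
    rw [hW]
    have hn : ‖u * (starRingEnd ℂ) z‖ = 1 := by
      rw [norm_mul, RCLike.norm_conj, hu, hz, one_mul]
    have h1 := KK_re_nonneg (2 * N + 2) (by omega) _ hn
    have h2 := KK_re_nonneg (N + 1) (by omega) _ hn
    positivity
  have hW1 : ∀ u, circleAverage (W u) 0 1 = 1 := by
    intro u
    have e1 : W u = fun z => (1 / 3 : ℝ) • ((2 : ℝ) • (KK (2 * N + 2) (u * (starRingEnd ℂ) z)).re +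
        (KK (N + 1) (u * (starRingEnd ℂ) z)).re) := by
      funext z
      rw [hW]
      simp only [smul_eq_mul]
      ring
    rw [e1, Real.circleAverage_fun_smul, Real.circleAverage_fun_add, Real.circleAverage_fun_smul,
      av_KK_re _ (by omega), av_KK_re _ (by omega)]
    · norm_num
    · apply circleIntegrable_of_continuous
      have := hKc (2 * N + 2)
      fun_prop
    · apply circleIntegrable_of_continuous
      have := hKc (N + 1)
      fun_prop
  have hcAp : Continuous (fun z => ‖A z‖ ^ p) :=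
    Continuous.rpow_const hAc.norm (fun _ => Or.inr hp0.le)
  have hpt : ∀ u : ℂ, ‖u‖ = 1 → ‖A u‖ ^ p ≤ 3 ^ p *
      circleAverage (fun z => ‖A z‖ ^ p * W u z) 0 1 := by
    intro u hu
    have h1 : ‖A u‖ ≤ 3 * circleAverage (fun z => ‖A z‖ * W u z) 0 1 := by
      calc ‖A u‖ = ‖circleAverage (fun z => A z *
            ((2 * (KK (2 * N + 2) (u * (starRingEnd ℂ) z)).re -
            (KK (N + 1) (u * (starRingEnd ℂ) z)).re : ℝ) : ℂ)) 0 1‖ := by
            rw [← hrep u]
        _ ≤ circleAverage (fun z => ‖A z *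
            ((2 * (KK (2 * N + 2) (u * (starRingEnd ℂ) z)).re -
            (KK (N + 1) (u * (starRingEnd ℂ) z)).re : ℝ) : ℂ)‖) 0 1 := av_norm _
        _ ≤ circleAverage (fun z => (3 : ℝ) • (‖A z‖ * W u z)) 0 1 := by
            apply Real.circleAverage_mono
            · apply circleIntegrable_of_continuous
              have := hKc (2 * N + 2)
              have := hKc (N + 1)
              fun_prop
            · apply circleIntegrable_of_continuous
              exact continuous_const.mul (hAc.norm.mul (hWc u))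
            · intro z hz
              have hz1 : ‖z‖ = 1 := by simpa using hz
              have hn : ‖u * (starRingEnd ℂ) z‖ = 1 := by
                rw [norm_mul, RCLike.norm_conj, hu, hz1, one_mul]
              have k1 := KK_re_nonneg (2 * N + 2) (by omega) _ hn
              have k2 := KK_re_nonneg (N + 1) (by omega) _ hn
              simp only [smul_eq_mul, hW]
              rw [norm_mul, Complex.norm_real, Real.norm_eq_abs]
              have k3 : |2 * (KK (2 * N + 2) (u * (starRingEnd ℂ) z)).re -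
                  (KK (N + 1) (u * (starRingEnd ℂ) z)).re| ≤
                  2 * (KK (2 * N + 2) (u * (starRingEnd ℂ) z)).re +
                  (KK (N + 1) (u * (starRingEnd ℂ) z)).re := by
                rw [abs_le]
                constructor <;> linarith
              have k4 := mul_le_mul_of_nonneg_left k3 (norm_nonneg (A z))
              refine k4.trans (le_of_eq ?_)
              ring
        _ = 3 * circleAverage (fun z => ‖A z‖ * W u z) 0 1 := by
            rw [Real.circleAverage_fun_smul, smul_eq_mul]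
    have h2 : (0 : ℝ) ≤ circleAverage (fun z => ‖A z‖ * W u z) 0 1 := by
      apply Real.circleAverage_nonneg_of_nonneg
      intro z hz
      have hz1 : ‖z‖ = 1 := by simpa using hz
      exact mul_nonneg (norm_nonneg _) (hW0 u z hu hz1)
    have h3 := Real.rpow_le_rpow (norm_nonneg _) h1 hp0.le
    rw [Real.mul_rpow (by norm_num) h2] at h3
    refine h3.trans ?_
    apply mul_le_mul_of_nonneg_left _ (by positivity)
    have h4 := jensen_av p hp (fun z => ‖A z‖) (W u) hAc.norm (hWc u) (fun _ _ => norm_nonneg _)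
      (fun z hz => hW0 u z hu hz) (hW1 u)
    simpa only [abs_norm] using h4
  have hsumW : ∀ z : ℂ, ‖z‖ = 1 → ∑ k ∈ range M, W (w ^ k) z = M := by
    intro z _
    rw [hW]
    simp only
    rw [← sum_div, sum_add_distrib, ← mul_sum]
    have e1 : ∀ n : ℕ, 0 < n → n ≤ M →
        ∑ k ∈ range M, (KK n (w ^ k * (starRingEnd ℂ) z)).re = M := by
      intro n hn hnM
      have h := KK_sum M n hn hnM w hw ((starRingEnd ℂ) z)
      have h2 : (∑ k ∈ range M, KK n ((starRingEnd ℂ) z * w ^ k)).re = (M : ℂ).re := by rw [h]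
      rw [re_sum, natCast_re] at h2
      rw [← h2]
      apply sum_congr rfl
      intro k _
      rw [mul_comm]
    rw [e1 _ (by omega) hM, e1 _ (by omega) (by omega)]
    ring
  calc ∑ k ∈ range M, ‖∑ j ∈ range (N + 1), α j * (w ^ k) ^ j‖ ^ p
      ≤ ∑ k ∈ range M, 3 ^ p * circleAverage (fun z => ‖A z‖ ^ p * W (w ^ k) z) 0 1 := by
        apply sum_le_sum
        intro k _
        exact hpt (w ^ k) (by rw [norm_pow, hwn, one_pow])
    _ = 3 ^ p * circleAverage (fun z => ∑ k ∈ range M, ‖A z‖ ^ p * W (w ^ k) z) 0 1 := by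
        rw [← mul_sum, Real.circleAverage_fun_sum]
        intro k _
        exact circleIntegrable_of_continuous (hcAp.mul (hWc _))
    _ = 3 ^ p * circleAverage (fun z => (M : ℝ) • ‖A z‖ ^ p) 0 1 := by
        congr 1
        apply Real.circleAverage_congr_sphere
        intro z hz
        have hz1 : ‖z‖ = 1 := by simpa using hz
        simp only
        rw [← mul_sum, hsumW z hz1, smul_eq_mul, mul_comm]
    _ = _ := by
        rw [Real.circleAverage_fun_smul, smul_eq_mul]
        ring

/-- the analytic polynomial attached to samples -/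
noncomputable def QQ (M n : ℕ) (ζ : ℂ) (f : ℕ → ℂ) (z : ℂ) : ℂ :=
  (M : ℂ)⁻¹ * ∑ k ∈ range M, f k * KK n (z * ζ ^ k)

theorem QQ_diff (M n : ℕ) (ζ : ℂ) (f : ℕ → ℂ) : Differentiable ℂ (QQ M n ζ f) := by
  unfold QQ
  have := KK_diff n
  fun_prop

/-- nonnegative samples -/
theorem QQ_nonneg (p : ℝ) (hp1 : 1 < p) (hp2 : p < 2) :
    ∃ C : ℝ, 0 < C ∧ ∀ (M n : ℕ), 0 < n → n ≤ M → ∀ ζ : ℂ, IsPrimitiveRoot ζ M →
      ∀ f : ℕ → ℝ, (∀ k, 0 ≤ f k) →
      circleAverage (fun z => ‖QQ M n ζ (fun k => (f k : ℂ)) z‖ ^ p) 0 1 ≤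
        C * ((M : ℝ)⁻¹ * ∑ k ∈ range M, f k ^ p) := by
  obtain ⟨C, hC, h⟩ := av_norm_le p hp1 hp2
  have hp0 : 0 < p := by linarith
  refine ⟨C, hC, ?_⟩
  intro M n hn hM ζ hζ f hf
  have hMpos : 0 < M := by omega
  have hM' : (0 : ℝ) < M := by exact_mod_cast hMpos
  have hζn : ‖ζ‖ = 1 := hζ.norm'_eq_one hMpos.ne'
  have hre : ∀ z : ℂ, (QQ M n ζ (fun k => (f k : ℂ)) z).re =
      ∑ k ∈ range M, (KK n (z * ζ ^ k)).re / M * f k := by
    intro z
    unfold QQ
    have : ((M : ℂ)⁻¹) = (((M : ℝ)⁻¹ : ℝ) : ℂ) := by push_cast; rfl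
    rw [this, re_ofReal_mul, re_sum, mul_sum]
    apply sum_congr rfl
    intro k _
    rw [re_ofReal_mul]
    ring
  have hkn : ∀ z : ℂ, ‖z‖ = 1 → ∀ k, 0 ≤ (KK n (z * ζ ^ k)).re := by
    intro z hz k
    apply KK_re_nonneg n hn
    rw [norm_mul, norm_pow, hζn, hz]
    simp
  have hsum1 : ∀ z : ℂ, ∑ k ∈ range M, (KK n (z * ζ ^ k)).re / M = 1 := by
    intro z
    rw [← sum_div]
    have h1 := KK_sum M n hn hM ζ hζ z
    have h2 : (∑ k ∈ range M, KK n (z * ζ ^ k)).re = (M : ℂ).re := by rw [h1]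
    rw [re_sum, natCast_re] at h2
    rw [h2, div_self hM'.ne']
  have h0im : (QQ M n ζ (fun k => (f k : ℂ)) 0).im = 0 := by
    unfold QQ
    simp only [zero_mul, KK_zero n hn, mul_one]
    have : ((M : ℂ)⁻¹) = (((M : ℝ)⁻¹ : ℝ) : ℂ) := by push_cast; rfl
    rw [this, im_ofReal_mul, im_sum]
    simp
  have hb := h (QQ M n ζ (fun k => (f k : ℂ))) (QQ_diff _ _ _ _) (by
    intro z hz
    rw [hre z]
    apply sum_nonneg
    intro k _
    have := hkn z hz k
    have := hf k
    positivity) h0im
  refine hb.trans ?_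
  apply mul_le_mul_of_nonneg_left _ hC.le
  have hKc := (KK_diff n).continuous
  calc circleAverage (fun z => |(QQ M n ζ (fun k => (f k : ℂ)) z).re| ^ p) 0 1
      ≤ circleAverage (fun z => ∑ k ∈ range M, (f k ^ p / M) • (KK n (z * ζ ^ k)).re) 0 1 := by
        apply Real.circleAverage_mono
        · apply circleIntegrable_of_continuous
          apply Continuous.rpow_const _ (fun _ => Or.inr hp0.le)
          exact (Complex.continuous_re.comp (QQ_diff _ _ _ _).continuous).abs
        · apply circleIntegrable_of_continuous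
          fun_prop
        · intro z hz
          have hz1 : ‖z‖ = 1 := by simpa using hz
          simp only [smul_eq_mul]
          rw [hre z]
          have hnn : 0 ≤ ∑ k ∈ range M, (KK n (z * ζ ^ k)).re / M * f k := by
            apply sum_nonneg
            intro k _
            have := hkn z hz1 k
            have := hf k
            positivity
          rw [abs_of_nonneg hnn]
          have := Real.rpow_arith_mean_le_arith_mean_rpow (range M)
            (fun k => (KK n (z * ζ ^ k)).re / M) f (fun k _ => by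
              have := hkn z hz1 k
              positivity) (hsum1 z) (fun k _ => hf k) hp1.le
          refine this.trans (le_of_eq ?_)
          apply sum_congr rfl
          intro k _
          ring
    _ = ∑ k ∈ range M, (f k ^ p / M) * 1 := by
        rw [Real.circleAverage_fun_sum]
        · apply sum_congr rfl
          intro k _
          rw [Real.circleAverage_fun_smul, av_KK_re' n hn, smul_eq_mul]
        · intro k _
          apply circleIntegrable_of_continuous
          fun_prop
    _ = _ := by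
        rw [mul_sum]
        apply sum_congr rfl
        intro k _
        ring

theorem av_add_le {f g : ℂ → ℝ} (hf : Continuous f) (hg : Continuous g) :
    circleAverage (fun z => f z + g z) 0 1 = circleAverage f 0 1 + circleAverage g 0 1 :=
  Real.circleAverage_fun_add (circleIntegrable_of_continuous hf) (circleIntegrable_of_continuous hg)

theorem av_mul_const (a : ℝ) (f : ℂ → ℝ) :
    circleAverage (fun z => a * f z) 0 1 = a * circleAverage f 0 1 := by
  have := Real.circleAverage_fun_smul (a := a) (f := f) (c := 0) (R := 1)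
  simpa only [smul_eq_mul] using this

theorem four_rpow (p : ℝ) (hp : 1 ≤ p) (a b c d : ℝ) (ha : 0 ≤ a) (hb : 0 ≤ b) (hc : 0 ≤ c)
    (hd : 0 ≤ d) : (a + b + c + d) ^ p ≤ 4 ^ (p - 1) * (a ^ p + b ^ p + c ^ p + d ^ p) := by
  have := Real.rpow_sum_le_const_mul_sum_rpow_of_nonneg (s := (univ : Finset (Fin 4)))
    (f := ![a, b, c, d]) hp (by
      intro i _
      fin_cases i <;> simpa)
  simpa [Fin.sum_univ_four, Fin.sum_univ_succ, add_assoc] using this

theorem three_rpow (p : ℝ) (hp : 1 ≤ p) (a b c : ℝ) (ha : 0 ≤ a) (hb : 0 ≤ b) (hc : 0 ≤ c) :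
    (a + b + c) ^ p ≤ 3 ^ (p - 1) * (a ^ p + b ^ p + c ^ p) := by
  have := Real.rpow_sum_le_const_mul_sum_rpow_of_nonneg (s := (univ : Finset (Fin 3)))
    (f := ![a, b, c]) hp (by
      intro i _
      fin_cases i <;> simpa)
  simpa [Fin.sum_univ_succ, add_assoc] using this

theorem two_rpow (p : ℝ) (hp : 1 ≤ p) (a b : ℝ) (ha : 0 ≤ a) (hb : 0 ≤ b) :
    (a + b) ^ p ≤ 2 ^ (p - 1) * (a ^ p + b ^ p) := by
  have := Real.rpow_sum_le_const_mul_sum_rpow_of_nonneg (s := (univ : Finset (Fin 2)))
    (f := ![a, b]) hp (by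
      intro i _
      fin_cases i <;> simpa)
  simpa [Fin.sum_univ_succ] using this

/-- complex samples -/
theorem QQ_bound (p : ℝ) (hp1 : 1 < p) (hp2 : p < 2) :
    ∃ C : ℝ, 0 < C ∧ ∀ (M n : ℕ), 0 < n → n ≤ M → ∀ ζ : ℂ, IsPrimitiveRoot ζ M →
      ∀ f : ℕ → ℂ,
      circleAverage (fun z => ‖QQ M n ζ f z‖ ^ p) 0 1 ≤
        C * ((M : ℝ)⁻¹ * ∑ k ∈ range M, ‖f k‖ ^ p) := by
  obtain ⟨C, hC, h⟩ := QQ_nonneg p hp1 hp2
  have hp0 : 0 < p := by linarith
  refine ⟨4 ^ (p - 1) * (4 * C), by positivity, ?_⟩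
  intro M n hn hM ζ hζ f
  have hMpos : 0 < M := by omega
  have hM' : (0 : ℝ) < M := by exact_mod_cast hMpos
  set f1 : ℕ → ℝ := fun k => max (f k).re 0 with hf1
  set f2 : ℕ → ℝ := fun k => max (-(f k).re) 0 with hf2
  set f3 : ℕ → ℝ := fun k => max (f k).im 0 with hf3
  set f4 : ℕ → ℝ := fun k => max (-(f k).im) 0 with hf4
  have hdec : ∀ k, f k = (f1 k : ℂ) - f2 k + I * (f3 k - f4 k) := by
    intro k
    have e1 : ∀ x : ℝ, x = max x 0 - max (-x) 0 := by
      intro x
      rcases le_total 0 x with hx | hx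
      · rw [max_eq_left hx, max_eq_right (by linarith)]
        ring
      · rw [max_eq_right hx, max_eq_left (by linarith)]
        ring
    apply Complex.ext
    · simp [hf1, hf2, hf3, hf4]
    · simp [hf1, hf2, hf3, hf4]
  set Q : (ℕ → ℝ) → ℂ → ℂ := fun g => QQ M n ζ (fun k => (g k : ℂ)) with hQ
  have hQdec : ∀ z, QQ M n ζ f z = Q f1 z - Q f2 z + I * (Q f3 z - Q f4 z) := by
    intro z
    simp only [hQ, QQ]
    have : ∑ k ∈ range M, f k * KK n (z * ζ ^ k) =
        ∑ k ∈ range M, ((f1 k : ℂ) * KK n (z * ζ ^ k) - f2 k * KK n (z * ζ ^ k) +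
          I * (f3 k * KK n (z * ζ ^ k) - f4 k * KK n (z * ζ ^ k))) := by
      apply sum_congr rfl
      intro k _
      rw [hdec k]
      ring
    rw [this, sum_add_distrib, sum_sub_distrib, ← mul_sum, sum_sub_distrib]
    ring
  have hle : ∀ g : ℕ → ℝ, (∀ k, 0 ≤ g k) → (∀ k, g k ≤ ‖f k‖) →
      circleAverage (fun z => ‖Q g z‖ ^ p) 0 1 ≤
        C * ((M : ℝ)⁻¹ * ∑ k ∈ range M, ‖f k‖ ^ p) := by
    intro g hg0 hg1
    refine (h M n hn hM ζ hζ g hg0).trans ?_
    gcongr with k _
    · exact hg0 k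
    · exact hg1 k
  have habs : ∀ k, |(f k).re| ≤ ‖f k‖ ∧ |(f k).im| ≤ ‖f k‖ := fun k =>
    ⟨abs_re_le_norm _, abs_im_le_norm _⟩
  have b1 := hle f1 (fun k => le_max_right _ _) (fun k => max_le
    ((le_abs_self _).trans (habs k).1) (norm_nonneg _))
  have b2 := hle f2 (fun k => le_max_right _ _) (fun k => max_le
    ((neg_le_abs _).trans (habs k).1) (norm_nonneg _))
  have b3 := hle f3 (fun k => le_max_right _ _) (fun k => max_le
    ((le_abs_self _).trans (habs k).2) (norm_nonneg _))
  have b4 := hle f4 (fun k => le_max_right _ _) (fun k => max_le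
    ((neg_le_abs _).trans (habs k).2) (norm_nonneg _))
  have hc : ∀ g : ℕ → ℝ, Continuous (fun z => ‖Q g z‖ ^ p) := fun g =>
    Continuous.rpow_const (QQ_diff _ _ _ _).continuous.norm (fun _ => Or.inr hp0.le)
  have hcf : Continuous (fun z => ‖QQ M n ζ f z‖ ^ p) :=
    Continuous.rpow_const (QQ_diff _ _ _ _).continuous.norm (fun _ => Or.inr hp0.le)
  calc circleAverage (fun z => ‖QQ M n ζ f z‖ ^ p) 0 1
      ≤ circleAverage (fun z => 4 ^ (p - 1) * (‖Q f1 z‖ ^ p + ‖Q f2 z‖ ^ p + ‖Q f3 z‖ ^ p +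
          ‖Q f4 z‖ ^ p)) 0 1 := by
        apply Real.circleAverage_mono (circleIntegrable_of_continuous hcf)
        · apply circleIntegrable_of_continuous
          exact continuous_const.mul ((((hc f1).add (hc f2)).add (hc f3)).add (hc f4))
        · intro z _
          have h1 : ‖QQ M n ζ f z‖ ≤ ‖Q f1 z‖ + ‖Q f2 z‖ + ‖Q f3 z‖ + ‖Q f4 z‖ := by
            rw [hQdec z]
            have h2 := norm_add_le (Q f1 z - Q f2 z) (I * (Q f3 z - Q f4 z))
            have h3 := norm_sub_le (Q f1 z) (Q f2 z)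
            have h4 := norm_sub_le (Q f3 z) (Q f4 z)
            rw [norm_mul, norm_I, one_mul] at h2
            linarith
          exact (Real.rpow_le_rpow (norm_nonneg _) h1 hp0.le).trans
            (four_rpow p hp1.le _ _ _ _ (norm_nonneg _) (norm_nonneg _) (norm_nonneg _)
              (norm_nonneg _))
    _ = 4 ^ (p - 1) * (circleAverage (fun z => ‖Q f1 z‖ ^ p) 0 1 +
          circleAverage (fun z => ‖Q f2 z‖ ^ p) 0 1 + circleAverage (fun z => ‖Q f3 z‖ ^ p) 0 1 +
          circleAverage (fun z => ‖Q f4 z‖ ^ p) 0 1) := by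
        rw [av_mul_const, av_add_le
          (f := fun z => ‖Q f1 z‖ ^ p + ‖Q f2 z‖ ^ p + ‖Q f3 z‖ ^ p)
          (g := fun z => ‖Q f4 z‖ ^ p) (((hc f1).add (hc f2)).add (hc f3)) (hc f4),
          av_add_le (f := fun z => ‖Q f1 z‖ ^ p + ‖Q f2 z‖ ^ p)
          (g := fun z => ‖Q f3 z‖ ^ p) ((hc f1).add (hc f2)) (hc f3),
          av_add_le (hc f1) (hc f2)]
    _ ≤ 4 ^ (p - 1) * (4 * (C * ((M : ℝ)⁻¹ * ∑ k ∈ range M, ‖f k‖ ^ p))) := by
        apply mul_le_mul_of_nonneg_left _ (by positivity)
        linarith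
    _ = _ := by ring

/-- expansion of `QQ` in powers -/
theorem QQ_expand (M n : ℕ) (ζ : ℂ) (f : ℕ → ℂ) (z : ℂ) :
    QQ M n ζ f z = 2 * ∑ j ∈ range n, (1 - (j : ℂ) / n) *
      ((M : ℂ)⁻¹ * ∑ k ∈ range M, f k * (ζ ^ k) ^ j) * z ^ j -
        (M : ℂ)⁻¹ * ∑ k ∈ range M, f k * (ζ ^ k) ^ 0 := by
  unfold QQ KK
  simp only [mul_sub, sum_sub_distrib, mul_one, pow_zero]
  congr 1
  simp only [mul_sum, sum_mul]
  rw [sum_comm]
  apply sum_congr rfl
  intro j _
  apply sum_congr rfl
  intro k _
  rw [mul_pow]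
  ring

/-- MODULE MR -/
theorem riesz_disc (p : ℝ) (hp1 : 1 < p) (hp2 : p < 2) : RieszDisc p := by
  obtain ⟨C, hC, hQ⟩ := QQ_bound p hp1 hp2
  have hp0 : 0 < p := by linarith
  refine ⟨3 ^ (p - 1) * (2 + 3 ^ p * (2 ^ (p - 1) * (2 ^ p * C + C))), by positivity, ?_⟩
  intro N M hNM c x hx
  have hMpos : 0 < M := by omega
  have hM' : (0 : ℝ) < M := by exact_mod_cast hMpos
  have hMC : (M : ℂ) ≠ 0 := by exact_mod_cast hMpos.ne'
  set w : ℂ := exp (2 * Real.pi * I / M) with hw
  have hwr : IsPrimitiveRoot w M := Complex.isPrimitiveRoot_exp M hMpos.ne'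
  set ζ : ℂ := w⁻¹ with hζ
  have hζr : IsPrimitiveRoot ζ M := hwr.inv
  have hwn : ‖w‖ = 1 := hwr.norm'_eq_one hMpos.ne'
  have hζn : ‖ζ‖ = 1 := hζr.norm'_eq_one hMpos.ne'
  have hw0 : w ≠ 0 := by
    intro h
    rw [h] at hwn
    simp at hwn
  have hwζ : w * ζ = 1 := mul_inv_cancel₀ hw0
  have hexp : ∀ j k : ℕ, exp (2 * Real.pi * I * (j * k / M)) = (w ^ k) ^ j := by
    intro j k
    rw [hw, ← Complex.exp_nat_mul, ← Complex.exp_nat_mul]
    congr 1
    ring
  simp only [hexp]
  set g : ℕ → ℂ := fun k => ∑ j ∈ range (N + 1), c j * (w ^ k) ^ j with hg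
  set f : ℕ → ℂ := fun k => (ζ ^ k) ^ x * g k with hf
  have hfn : ∀ k, ‖f k‖ = ‖g k‖ := by
    intro k
    rw [hf]
    simp only
    rw [norm_mul, norm_pow, norm_pow, hζn]
    simp
  -- Fourier coefficients
  set a : ℕ → ℂ := fun j => (M : ℂ)⁻¹ * ∑ k ∈ range M, f k * (ζ ^ k) ^ j with ha
  have hacoef : ∀ j, j < 2 * N + 2 → a j = if x + j < N + 1 then c (x + j) else 0 := by
    intro j hj
    have e1 : ∑ k ∈ range M, f k * (ζ ^ k) ^ j =
        ∑ i ∈ range (N + 1), c i * ∑ k ∈ range M, (w ^ i * ζ ^ (x + j)) ^ k := by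
      simp only [hf, hg, mul_sum, sum_mul]
      rw [sum_comm]
      apply sum_congr rfl
      intro i _
      apply sum_congr rfl
      intro k _
      rw [mul_pow, ← pow_mul, ← pow_mul, ← pow_mul, ← pow_mul, ← pow_mul, mul_comm k i,
        add_mul, pow_add, mul_comm k x, mul_comm k j]
      ring
    have e2 : ∀ i ∈ range (N + 1), c i * ∑ k ∈ range M, (w ^ i * ζ ^ (x + j)) ^ k =
        if i = x + j then c i * M else 0 := by
      intro i hi
      rw [mem_range] at hi
      split_ifs with hij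
      · subst hij
        rw [← mul_pow, hwζ]
        simp
      · have h1 : w ^ i * ζ ^ (x + j) ≠ 1 := by
          intro h
          rcases lt_or_gt_of_ne hij with hlt | hgt
          · obtain ⟨m, hm⟩ := Nat.exists_eq_add_of_lt hlt
            have : w ^ i * ζ ^ (x + j) = ζ ^ (m + 1) := by
              rw [hm, show i + m + 1 = i + (m + 1) by ring, pow_add, ← mul_assoc, ← mul_pow,
                hwζ, one_pow, one_mul]
            rw [this] at h
            exact hζr.pow_ne_one_of_pos_of_lt (Nat.succ_ne_zero m) (by omega) h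
          · obtain ⟨m, hm⟩ := Nat.exists_eq_add_of_lt hgt
            have : w ^ i * ζ ^ (x + j) = w ^ (m + 1) := by
              rw [hm, show x + j + m + 1 = (m + 1) + (x + j) by ring, pow_add, mul_assoc,
                ← mul_pow, hwζ, one_pow, mul_one]
            rw [this] at h
            exact hwr.pow_ne_one_of_pos_of_lt (Nat.succ_ne_zero m) (by omega) h
        have h2 : (w ^ i * ζ ^ (x + j)) ^ M = 1 := by
          rw [mul_pow, ← pow_mul, ← pow_mul, mul_comm i, mul_comm (x + j), pow_mul, pow_mul,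
            hwr.pow_eq_one, hζr.pow_eq_one, one_pow, one_pow, one_mul]
        have h3 := mul_neg_geom_sum (w ^ i * ζ ^ (x + j)) M
        rw [h2, sub_self] at h3
        rcases mul_eq_zero.mp h3 with h4 | h4
        · exact absurd (sub_eq_zero.mp h4).symm h1
        · rw [h4, mul_zero]
    simp only [ha]
    rw [e1, sum_congr rfl e2, sum_ite_eq' (range (N + 1)) (x + j) (fun i => c i * (M : ℂ))]
    by_cases h : x + j < N + 1
    · rw [if_pos (mem_range.mpr h), if_pos h]
      field_simp
    · rw [if_neg (fun h' => h (mem_range.mp h')), if_neg h, mul_zero]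
  -- the combination
  set T : ℂ → ℂ := fun z => 2 * QQ M (2 * N + 2) ζ f z - QQ M (N + 1) ζ f z with hT
  have hTexp : ∀ z, T z = ∑ j ∈ range (N + 1), (2 * a j - if j = 0 then a 0 else 0) * z ^ j := by
    intro z
    simp only [hT]
    rw [QQ_expand, QQ_expand]
    have e1 : ∑ j ∈ range (2 * N + 2), (1 - (j : ℂ) / ((2 * N + 2 : ℕ) : ℂ)) *
        ((M : ℂ)⁻¹ * ∑ k ∈ range M, f k * (ζ ^ k) ^ j) * z ^ j =
        ∑ j ∈ range (N + 1), (1 - (j : ℂ) / ((2 * N + 2 : ℕ) : ℂ)) * a j * z ^ j := by
      have hsub : range (N + 1) ⊆ range (2 * N + 2) := range_subset_range.mpr (by omega)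
      symm
      apply sum_subset hsub
      intro j hj1 hj2
      rw [mem_range] at hj1
      simp only [mem_range, not_lt] at hj2
      have := hacoef j hj1
      rw [if_neg (by omega)] at this
      rw [this]
      ring
    rw [e1]
    have e2 : ((M : ℂ)⁻¹ * ∑ k ∈ range M, f k * (ζ ^ k) ^ 0) = a 0 := rfl
    rw [e2]
    have e3 : ∑ j ∈ range (N + 1), (2 * a j - if j = 0 then a 0 else 0) * z ^ j =
        ∑ j ∈ range (N + 1), 2 * a j * z ^ j - a 0 := by
      have : ∀ j ∈ range (N + 1), (2 * a j - if j = 0 then a 0 else 0) * z ^ j =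
          2 * a j * z ^ j - if j = 0 then a 0 else 0 := by
        intro j _
        split_ifs with h0
        · subst h0
          simp
        · ring
      rw [sum_congr rfl this, sum_sub_distrib, sum_ite_eq', if_pos (by simp)]
    rw [e3]
    have e4 : ∀ j ∈ range (N + 1), 2 * a j * z ^ j =
        2 * (2 * ((1 - (j : ℂ) / ((2 * N + 2 : ℕ) : ℂ)) * a j * z ^ j)) -
        2 * ((1 - (j : ℂ) / ((N + 1 : ℕ) : ℂ)) * a j * z ^ j) := by
      intro j _
      have h1 : ((2 * N + 2 : ℕ) : ℂ) = 2 * ((N + 1 : ℕ) : ℂ) := by push_cast; ring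
      rw [h1]
      have h2 : ((N + 1 : ℕ) : ℂ) ≠ 0 := by exact_mod_cast (Nat.succ_ne_zero N)
      field_simp
      ring
    rw [sum_congr rfl e4, sum_sub_distrib, ← mul_sum, ← mul_sum, ← mul_sum]
    simp only [ha]
    ring
  -- the identity for the partial sum
  have hpart : ∀ k, ∑ j ∈ range x, c j * (w ^ k) ^ j =
      g k - (w ^ k) ^ x * ((T (w ^ k) + a 0) / 2) := by
    intro k
    have e1 : (T (w ^ k) + a 0) / 2 = ∑ j ∈ range (N + 1), a j * (w ^ k) ^ j := by
      rw [hTexp]
      have : ∀ j ∈ range (N + 1), (2 * a j - if j = 0 then a 0 else 0) * (w ^ k) ^ j =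
          2 * (a j * (w ^ k) ^ j) - if j = 0 then a 0 else 0 := by
        intro j _
        split_ifs with h0
        · subst h0
          simp
        · ring
      rw [sum_congr rfl this, sum_sub_distrib, sum_ite_eq', if_pos (by simp), ← mul_sum]
      ring
    have e2 : ∑ j ∈ range (N + 1), a j * (w ^ k) ^ j =
        ∑ j ∈ range (N + 1 - x), c (x + j) * (w ^ k) ^ j := by
      have hsub : range (N + 1 - x) ⊆ range (N + 1) := range_subset_range.mpr (by omega)
      rw [← sum_subset hsub]
      · apply sum_congr rfl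
        intro j hj
        rw [mem_range] at hj
        rw [hacoef j (by omega), if_pos (by omega)]
      · intro j hj1 hj2
        rw [mem_range] at hj1
        simp only [mem_range, not_lt] at hj2
        rw [hacoef j (by omega), if_neg (by omega), zero_mul]
    rw [e1, e2, mul_sum, hg]
    simp only
    have e3 : ∑ j ∈ range (N + 1), c j * (w ^ k) ^ j =
        ∑ j ∈ range x, c j * (w ^ k) ^ j +
          ∑ j ∈ range (N + 1 - x), c (x + j) * (w ^ k) ^ (x + j) := by
      conv_lhs => rw [show N + 1 = x + (N + 1 - x) by omega]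
      rw [sum_range_add]
    rw [e3]
    have e4 : ∑ j ∈ range (N + 1 - x), (w ^ k) ^ x * (c (x + j) * (w ^ k) ^ j) =
        ∑ j ∈ range (N + 1 - x), c (x + j) * (w ^ k) ^ (x + j) := by
      apply sum_congr rfl
      intro j _
      rw [pow_add]
      ring
    rw [e4]
    ring
  -- bounds
  set S : ℝ := ∑ k ∈ range M, ‖g k‖ ^ p with hS
  have hS0 : 0 ≤ S := sum_nonneg fun _ _ => by positivity
  have hSf : ∑ k ∈ range M, ‖f k‖ ^ p = S := by
    apply sum_congr rfl
    intro k _
    rw [hfn]
  have hTav : circleAverage (fun z => ‖T z‖ ^ p) 0 1 ≤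
      2 ^ (p - 1) * (2 ^ p * C + C) * ((M : ℝ)⁻¹ * S) := by
    have q1 := hQ M (2 * N + 2) (by omega) (by omega) ζ hζr f
    have q2 := hQ M (N + 1) (by omega) (by omega) ζ hζr f
    rw [hSf] at q1 q2
    have hc : ∀ n : ℕ, Continuous (fun z => ‖QQ M n ζ f z‖ ^ p) := fun n =>
      Continuous.rpow_const (QQ_diff _ _ _ _).continuous.norm (fun _ => Or.inr hp0.le)
    have hTc : Continuous (fun z => ‖T z‖ ^ p) := by
      apply Continuous.rpow_const _ (fun _ => Or.inr hp0.le)
      apply Continuous.norm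
      exact (continuous_const.mul (QQ_diff _ _ _ _).continuous).sub (QQ_diff _ _ _ _).continuous
    calc circleAverage (fun z => ‖T z‖ ^ p) 0 1
        ≤ circleAverage (fun z => 2 ^ (p - 1) * (2 ^ p * ‖QQ M (2 * N + 2) ζ f z‖ ^ p +
            ‖QQ M (N + 1) ζ f z‖ ^ p)) 0 1 := by
          apply Real.circleAverage_mono (circleIntegrable_of_continuous hTc)
          · apply circleIntegrable_of_continuous
            exact continuous_const.mul ((continuous_const.mul (hc _)).add (hc _))
          · intro z _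
            have h1 : ‖T z‖ ≤ 2 * ‖QQ M (2 * N + 2) ζ f z‖ + ‖QQ M (N + 1) ζ f z‖ := by
              simp only [hT]
              refine (norm_sub_le _ _).trans ?_
              rw [norm_mul]
              simp
            refine (Real.rpow_le_rpow (norm_nonneg _) h1 hp0.le).trans ?_
            refine (two_rpow p hp1.le _ _ (by positivity) (norm_nonneg _)).trans (le_of_eq ?_)
            rw [Real.mul_rpow (by norm_num) (norm_nonneg _)]
      _ = 2 ^ (p - 1) * (2 ^ p * circleAverage (fun z => ‖QQ M (2 * N + 2) ζ f z‖ ^ p) 0 1 +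
            circleAverage (fun z => ‖QQ M (N + 1) ζ f z‖ ^ p) 0 1) := by
          rw [av_mul_const, av_add_le (f := fun z => 2 ^ p * ‖QQ M (2 * N + 2) ζ f z‖ ^ p)
            (g := fun z => ‖QQ M (N + 1) ζ f z‖ ^ p)
            (continuous_const.mul (hc _)) (hc _), av_mul_const]
      _ ≤ 2 ^ (p - 1) * (2 ^ p * (C * ((M : ℝ)⁻¹ * S)) + C * ((M : ℝ)⁻¹ * S)) := by
          gcongr
      _ = _ := by ring
  have hTs : ∑ k ∈ range M, ‖T (w ^ k)‖ ^ p ≤
      3 ^ p * (2 ^ (p - 1) * (2 ^ p * C + C)) * S := by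
    have h1 := sampling p hp1.le N M (by omega)
      (fun j => 2 * a j - if j = 0 then a 0 else 0) w hwr
    simp only [← hTexp] at h1
    refine h1.trans ?_
    have h2 := mul_le_mul_of_nonneg_left hTav (by positivity : (0 : ℝ) ≤ 3 ^ p * M)
    refine h2.trans (le_of_eq ?_)
    field_simp
  have ha0 : (M : ℝ) * ‖a 0‖ ^ p ≤ S := by
    have h1 : ‖a 0‖ ≤ ∑ k ∈ range M, (M : ℝ)⁻¹ * ‖g k‖ := by
      simp only [ha]
      rw [norm_mul, ← mul_sum]
      have e1 : ‖(M : ℂ)⁻¹‖ = (M : ℝ)⁻¹ := by simp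
      rw [e1]
      apply mul_le_mul_of_nonneg_left _ (by positivity)
      refine (norm_sum_le _ _).trans (le_of_eq ?_)
      apply sum_congr rfl
      intro k _
      rw [pow_zero, mul_one, hfn]
    have h2 := Real.rpow_le_rpow (norm_nonneg _) h1 hp0.le
    have h3 := Real.rpow_arith_mean_le_arith_mean_rpow (range M)
      (fun _ => (M : ℝ)⁻¹) (fun k => ‖g k‖) (fun k _ => by positivity)
      (by simp [hM'.ne']) (fun k _ => norm_nonneg _) hp1.le
    have h4 := h2.trans h3
    rw [← mul_sum] at h4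
    calc (M : ℝ) * ‖a 0‖ ^ p ≤ M * ((M : ℝ)⁻¹ * ∑ k ∈ range M, ‖g k‖ ^ p) :=
          mul_le_mul_of_nonneg_left h4 hM'.le
      _ = S := by
          rw [← mul_assoc, mul_inv_cancel₀ hM'.ne', one_mul]
  calc ∑ k ∈ range M, ‖∑ j ∈ range x, c j * (w ^ k) ^ j‖ ^ p
      ≤ ∑ k ∈ range M, 3 ^ (p - 1) * (‖g k‖ ^ p + ‖T (w ^ k)‖ ^ p + ‖a 0‖ ^ p) := by
        apply sum_le_sum
        intro k _
        rw [hpart k]
        have h1 : ‖g k - (w ^ k) ^ x * ((T (w ^ k) + a 0) / 2)‖ ≤
            ‖g k‖ + ‖T (w ^ k)‖ + ‖a 0‖ := by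
          refine (norm_sub_le _ _).trans ?_
          rw [norm_mul, norm_pow, norm_pow, hwn, one_pow, one_pow, one_mul, norm_div]
          have h2 := norm_add_le (T (w ^ k)) (a 0)
          have h3 : ‖(2 : ℂ)‖ = 2 := by simp
          rw [h3]
          have h4 := norm_nonneg (T (w ^ k))
          have h5 := norm_nonneg (a 0)
          linarith
        exact (Real.rpow_le_rpow (norm_nonneg _) h1 hp0.le).trans
          (three_rpow p hp1.le _ _ _ (norm_nonneg _) (norm_nonneg _) (norm_nonneg _))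
    _ = 3 ^ (p - 1) * (S + ∑ k ∈ range M, ‖T (w ^ k)‖ ^ p + M * ‖a 0‖ ^ p) := by
        rw [← mul_sum, sum_add_distrib, sum_add_distrib, sum_const, card_range, nsmul_eq_mul]
    _ ≤ 3 ^ (p - 1) * (S + 3 ^ p * (2 ^ (p - 1) * (2 ^ p * C + C)) * S + S) := by
        gcongr
    _ = _ := by ring

end Pool.Agent.Lib.MP89175a.Riesz

namespace Pool.Agent.Lib.MP89175a

theorem riesz_disc (p : ℝ) (hp1 : 1 < p) (hp2 : p < 2) : RieszDisc p :=
  Riesz.riesz_disc p hp1 hp2

end Pool.Agent.Lib.MP89175a
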