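import Mathlib
import Pool.Agent.Lib.MP_89175a_an.Filter
import Pool.Agent.Lib.MP_89175a_an.Chirp
import Pool.Agent.Lib.MP_89175a_an.Riesz

/-!
The gadget theorem.
-/

open Finset MeasureTheory Complex Filter Topology
open scoped ENNReal NNReal

namespace Pool.Agent.Lib.MP89175a

theorem log_growth {E : ℝ} (hE : 0 < E) {δ : ℝ} (hδ : 0 < δ) :
    ∃ N₀ : ℕ, 1 ≤ N₀ ∧ ∀ N : ℕ, N₀ ≤ N → (N : ℝ) ^ (-E) * (1 + Real.log N) ≤ δ := by
  have h1 : Tendsto (fun x : ℝ => (1 + 2 / E) * x ^ (-(E / 2))) atTop (𝓝 ((1 + 2 / E) * 0)) :=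
    (tendsto_rpow_neg_atTop (by positivity)).const_mul _
  rw [mul_zero] at h1
  have h2 := (h1.comp tendsto_natCast_atTop_atTop).eventually (gt_mem_nhds hδ)
  obtain ⟨N₀, hN₀⟩ := eventually_atTop.1 h2
  refine ⟨max N₀ 1, le_max_right _ _, fun N hN => ?_⟩
  have hN1 : (1 : ℝ) ≤ N := by
    have : 1 ≤ N := (le_max_right _ _).trans hN
    exact_mod_cast this
  have hN0 : (0 : ℝ) < N := by linarith
  have h3 := hN₀ N ((le_max_left _ _).trans hN)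
  refine le_trans ?_ h3.le
  have h4 := Real.log_le_rpow_div hN0.le (by positivity : 0 < E / 2)
  have h5 : (1 : ℝ) ≤ (N : ℝ) ^ (E / 2) := Real.one_le_rpow hN1 (by positivity)
  have h6 : 1 + Real.log N ≤ (1 + 2 / E) * (N : ℝ) ^ (E / 2) := by
    calc 1 + Real.log N ≤ (N : ℝ) ^ (E / 2) + (N : ℝ) ^ (E / 2) / (E / 2) := add_le_add h5 h4
      _ = _ := by field_simp
  calc (N : ℝ) ^ (-E) * (1 + Real.log N) ≤ (N : ℝ) ^ (-E) * ((1 + 2 / E) * (N : ℝ) ^ (E / 2)) := by gcongr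
    _ = (1 + 2 / E) * ((N : ℝ) ^ (-E) * (N : ℝ) ^ (E / 2)) := by ring
    _ = _ := by
        rw [← Real.rpow_add hN0]
        simp only [Function.comp]
        congr 2
        ring

variable {P : ℝ≥0∞} [hP : Fact (1 ≤ P)]

/-- the profile of the filter function -/
noncomputable def ΘA (N : ℕ) (t : ℝ) (Φ : ℝ → ℝ) (z : ℝ) (n : ℤ) : ℂ := ((t * Φ z : ℝ) : ℂ) * hh N n

theorem hh_zero (N : ℕ) (n : ℤ) (hn : n ∉ Icc (-(5 * N : ℤ)) (4 * N)) : hh N n = 0 := by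
  rw [Finset.mem_Icc] at hn
  unfold hh ht
  rw [if_neg (by omega), if_neg (by omega), sub_zero]

theorem lintegral_profile {p : ℝ} (hp : 0 < p) (t : ℝ) (Φ : ℝ → ℝ) (hΦm : Measurable Φ)
    (hΦ : ∫⁻ z in Set.Ico (0 : ℝ) 1, ‖Φ z‖ₑ ^ p = 1) (f : ℤ → ℂ) :
    ∑' n : ℤ, ∫⁻ z in Set.Ico (0 : ℝ) 1, ‖((t * Φ z : ℝ) : ℂ) * f n‖ₑ ^ p = ‖t‖ₑ ^ p * ∑' n : ℤ, ‖f n‖ₑ ^ p := by
  rw [← ENNReal.tsum_mul_left]
  refine tsum_congr fun n => ?_
  have : ∀ z, ‖((t * Φ z : ℝ) : ℂ) * f n‖ₑ ^ p = ‖t‖ₑ ^ p * ‖f n‖ₑ ^ p * ‖Φ z‖ₑ ^ p := by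
    intro z
    rw [enorm_mul, ENNReal.mul_rpow_of_nonneg _ _ hp.le]
    have h1 : ‖((t * Φ z : ℝ) : ℂ)‖ₑ = ‖t‖ₑ * ‖Φ z‖ₑ := by
      rw [← enorm_mul]
      apply enorm_of_norm_eq
      exact Complex.norm_real _
    rw [h1, ENNReal.mul_rpow_of_nonneg _ _ hp.le]
    ring
  simp_rw [this]
  rw [lintegral_const_mul _ (hΦm.enorm.pow_const p), hΦ, mul_one]

theorem tiling_profile {F : Type*} [NormedAddCommGroup F] (Θ : ℝ → ℤ → F) (p : ℝ) :
    ∫⁻ y, ‖Θ (Int.fract y) ⌊y⌋‖ₑ ^ p = ∑' n : ℤ, ∫⁻ z in Set.Ico (0 : ℝ) 1, ‖Θ z n‖ₑ ^ p := by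
  rw [lintegral_tiling]
  refine tsum_congr fun n => ?_
  apply setLIntegral_congr_fun measurableSet_Ico
  intro z hz
  dsimp only
  rw [Int.fract_add_intCast, Int.floor_add_intCast, Int.fract_eq_self.2 hz, Int.floor_eq_zero_iff.2 hz, zero_add]

theorem memLp_filter (hP' : P ≠ ∞) (N : ℕ) (t : ℝ) (Φ : ℝ → ℝ) (hΦm : Measurable Φ)
    (hΦ : ∫⁻ z in Set.Ico (0 : ℝ) 1, ‖Φ z‖ₑ ^ P.toReal = 1) :
    MemLp (fun y : ℝ => ΘA N t Φ (Int.fract y) ⌊y⌋) P volume := by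
  have hp0 : 0 < P.toReal := ENNReal.toReal_pos P_ne_zero hP'
  refine ⟨?_, ?_⟩
  · apply Measurable.aestronglyMeasurable
    unfold ΘA
    have h1 : Measurable fun y : ℝ => ((t * Φ (Int.fract y) : ℝ) : ℂ) :=
      Complex.measurable_ofReal.comp ((hΦm.comp measurable_fract).const_mul t)
    have h2 : Measurable fun y : ℝ => hh N ⌊y⌋ := (measurable_of_countable (hh N)).comp Int.measurable_floor
    exact h1.mul h2
  · rw [eLpNorm_lt_top_iff_lintegral_rpow_enorm_lt_top P_ne_zero hP', tiling_profile]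
    unfold ΘA
    rw [lintegral_profile hp0 t Φ hΦm hΦ]
    apply ENNReal.mul_lt_top
    · exact ENNReal.rpow_lt_top_of_nonneg hp0.le enorm_ne_top
    · rw [tsum_eq_sum (s := Icc (-(5 * N : ℤ)) (4 * N))]
      · apply ENNReal.sum_lt_top.2
        intro n _
        exact ENNReal.rpow_lt_top_of_nonneg hp0.le enorm_ne_top
      · intro n hn
        rw [hh_zero N n hn, enorm_zero, ENNReal.zero_rpow_of_pos hp0]

/-- the norm formula for the filter function -/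
theorem filter_norm (hP' : P ≠ ∞) (N : ℕ) (t : ℝ) (Φ : ℝ → ℝ) (hΦm : Measurable Φ)
    (hΦ : ∫⁻ z in Set.Ico (0 : ℝ) 1, ‖Φ z‖ₑ ^ P.toReal = 1) (A : Lp ℂ P (volume : Measure ℝ))
    (hA : A =ᵐ[volume] fun y : ℝ => ΘA N t Φ (Int.fract y) ⌊y⌋) (S : Finset ℕ) (c : ℕ → ℂ) :
    ‖(∑ j ∈ S, c j • tr (j : ℝ) A : Lp ℂ P (volume : Measure ℝ))‖ₑ ^ P.toReal =
      ‖t‖ₑ ^ P.toReal * ∑' n : ℤ, ‖∑ j ∈ S, c j * hh N (n - j)‖ₑ ^ P.toReal := by
  have hp0 : 0 < P.toReal := ENNReal.toReal_pos P_ne_zero hP'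
  rw [comb_norm hP' S c A _ hA, ← lintegral_profile hp0 t Φ hΦm hΦ]
  refine tsum_congr fun n => ?_
  congr 1
  ext z
  congr 2
  rw [Finset.mul_sum]
  refine Finset.sum_congr rfl fun j _ => ?_
  unfold ΘA
  rw [smul_eq_mul]
  ring

theorem conv_hh (N N' : ℕ) (a : ℕ → ℝ) (n : ℤ) :
    ∑ j ∈ range N', (a j : ℂ) * hh N (n - j) =
      ∑ j ∈ Icc (0 : ℤ) N', ((zx N' a j - zx N' a (j - 1) : ℝ) : ℂ) * ht N (n - j) := by
  have h1 : ∑ j ∈ range N', (a j : ℂ) * hh N (n - j) =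
      ∑ j ∈ range (N' + 1), (zx N' (fun j => (a j : ℂ)) j - zx N' (fun j => (a j : ℂ)) (j - 1)) * ht N (n - j) := by
    rw [← summation_by_parts N' (fun j => (a j : ℂ)) (fun j => ht N (n - j))]
    refine Finset.sum_congr rfl fun j _ => ?_
    unfold hh
    congr 2
    push_cast
    congr 1
    ring
  rw [h1]
  have h2 : ∀ m : ℤ, zx N' (fun j => (a j : ℂ)) m = ((zx N' a m : ℝ) : ℂ) := by
    intro m
    unfold zx
    split_ifs <;> simp
  refine Finset.sum_bij' (fun j _ => (j : ℤ)) (fun j _ => j.toNat) ?_ ?_ ?_ ?_ ?_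
  · intro j hj
    rw [Finset.mem_range] at hj
    rw [Finset.mem_Icc]
    omega
  · intro j hj
    rw [Finset.mem_Icc] at hj
    rw [Finset.mem_range]
    omega
  · intro j _
    simp
  · intro j hj
    rw [Finset.mem_Icc] at hj
    omega
  · intro j _
    rw [h2, h2]
    push_cast
    rfl

theorem sum_cut (N x : ℕ) (hx : x ≤ N) (a : ℕ → ℝ) (n : ℤ) :
    ∑ j ∈ range x, (a j * eta N j : ℂ) * hh N (n - j) = bet N (cut x a) n := by
  unfold bet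
  rw [← Finset.sum_subset (Finset.range_mono hx)]
  · refine Finset.sum_congr rfl fun j hj => ?_
    unfold cut
    rw [if_pos (Finset.mem_range.1 hj)]
  · intro j _ hj
    rw [Finset.mem_range] at hj
    unfold cut
    rw [if_neg hj]
    simp

/-- THE GADGET THEOREM -/
theorem gadget (hP1 : 1 < P) (hP2 : P < 2) :
    ∃ (G : Lp ℝ P (volume : Measure ℝ)) (C : ℝ), 1 ≤ C ∧
      (∀ (N x : ℕ) (c : ℕ → ℝ), x ≤ N →
        ‖∑ j ∈ range x, c j • tr (j : ℝ) G‖ ≤ C * ‖∑ j ∈ range N, c j • tr (j : ℝ) G‖) ∧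
      (∀ (N : ℕ) (c : ℕ → ℝ), ∀ j < N, |c j| ≤ C * ‖∑ j ∈ range N, c j • tr (j : ℝ) G‖) ∧
      ∀ (Φ : ℝ → ℝ), Measurable Φ → (∫⁻ z in Set.Ico (0 : ℝ) 1, ‖Φ z‖ₑ ^ P.toReal = 1) →
        ∀ (ρ ε : ℝ), 0 < ρ → 0 < ε →
        ∃ (N : ℕ) (A : Lp ℂ P (volume : Measure ℝ)) (η : ℕ → ℂ) (U : ℤ → ℂ) (κ : ℝ),
          1 ≤ N ∧ 0 < κ ∧ (∀ j, ‖η j‖ = 1) ∧
          (∀ (N' : ℕ) (a : ℕ → ℝ), ‖∑ j ∈ range N', a j • tr (j : ℝ) A‖ ≤
            ε * ‖∑ j ∈ range N', a j • tr (j : ℝ) G‖) ∧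
          (∀ (x : ℕ) (a : ℕ → ℝ), x ≤ N → ‖∑ j ∈ range x, a j • (η j • tr (j : ℝ) A)‖ ≤
            C * (‖∑ j ∈ range N, a j • (η j • tr (j : ℝ) A)‖ + ‖∑ j ∈ range N, a j • tr (j : ℝ) G‖)) ∧
          (((κ : ℂ) • ∑ j ∈ range N, η j • tr (j : ℝ) A : Lp ℂ P (volume : Measure ℝ)) =ᵐ[volume]
            fun y => ((Φ (Int.fract y) : ℝ) : ℂ) * U ⌊y⌋) ∧
          (∀ n, ‖U n‖ ≤ 100 / (1 + |(n : ℝ)|)) ∧ 1 ≤ ‖U 0‖ ∧
          κ * ‖∑ j ∈ range N, tr (j : ℝ) G‖ ≤ ρ := by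
  have hP' : P ≠ ∞ := ne_top_of_lt hP2
  set p := P.toReal with hp
  have h1 : 1 < p := toReal_gt_one hP1 hP2
  have h2 : p < 2 := toReal_lt_two hP2
  have hp0 : 0 < p := by linarith
  obtain ⟨G, C, s, hC, hs0, hs, hG1, hG2, hG3, hG5⟩ := core_props hP1 hP2
  obtain ⟨Cm, hCm, hchirp⟩ := chirp_mult p h1 h2
  obtain ⟨C₃, hC₃⟩ := block_stability h1 h2 (riesz_disc p h1 h2)
  set C' : ℝ := 1 + C + (C₃ : ℝ) ^ (1 / p) * (1 + C) with hC'
  have hC₃0 : 0 ≤ (C₃ : ℝ) ^ (1 / p) := by positivity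
  have hCC' : C ≤ C' := by
    rw [hC']
    nlinarith
  refine ⟨G, C', ?_, ?_, ?_, ?_⟩
  · rw [hC']
    nlinarith
  · intro N x c hx
    exact (hG1 N x c hx).trans (by gcongr)
  · intro N c j hj
    exact (hG2 N c j hj).trans (by gcongr)
  intro Φ hΦm hΦ ρ ε hρ hε
  -- choice of N
  set E : ℝ := -(p * (s - 1) + 1) with hE
  have hE0 : 0 < E := by
    rw [hE]
    have : p * s < p * (1 - 1 / p) := by gcongr
    rw [mul_sub, mul_one, mul_one_div_cancel hp0.ne'] at this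
    linarith
  set r : ℝ := ρ / C with hr
  have hr0 : 0 < r := by positivity
  set δ : ℝ := min (r ^ p) (ε ^ p * r ^ p / Cm) with hδ
  have hδ0 : 0 < δ := by positivity
  obtain ⟨N, hN1, hN⟩ := log_growth hE0 hδ0
  specialize hN N le_rfl
  have hNR : (1 : ℝ) ≤ N := by exact_mod_cast hN1
  have hN0 : (0 : ℝ) < N := by linarith
  have hlog : 0 ≤ Real.log N := Real.log_nonneg hNR
  set t : ℝ := (N : ℝ) ^ (s - 1) / r with htdef
  have ht0 : 0 < t := by positivity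
  have htp : t ^ p * N = (N : ℝ) ^ (-E) / r ^ p := by
    rw [htdef, Real.div_rpow (by positivity) hr0.le, ← Real.rpow_mul hN0.le, div_mul_eq_mul_div]
    congr 1
    nth_rewrite 2 [← Real.rpow_one (N : ℝ)]
    rw [← Real.rpow_add hN0]
    congr 1
    rw [hE]
    ring
  have htN : t ^ p * N ≤ 1 := by
    rw [htp, div_le_one (by positivity)]
    calc (N : ℝ) ^ (-E) ≤ (N : ℝ) ^ (-E) * (1 + Real.log N) := by
          apply le_mul_of_one_le_right (by positivity)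
          linarith
      _ ≤ δ := hN
      _ ≤ r ^ p := min_le_left _ _
  have htL : t ^ p * (Cm * N * (1 + Real.log N) ^ (p / 2)) ≤ ε ^ p := by
    have e1 : (1 + Real.log N) ^ (p / 2) ≤ 1 + Real.log N := by
      calc (1 + Real.log N) ^ (p / 2) ≤ (1 + Real.log N) ^ (1 : ℝ) :=
            Real.rpow_le_rpow_of_exponent_le (by linarith) (by linarith)
        _ = _ := Real.rpow_one _
    calc t ^ p * (Cm * N * (1 + Real.log N) ^ (p / 2)) ≤ t ^ p * (Cm * N * (1 + Real.log N)) := by gcongr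
      _ = (t ^ p * N) * Cm * (1 + Real.log N) := by ring
      _ = Cm / r ^ p * ((N : ℝ) ^ (-E) * (1 + Real.log N)) := by rw [htp]; ring
      _ ≤ Cm / r ^ p * (ε ^ p * r ^ p / Cm) := by
          gcongr
          exact hN.trans (min_le_right _ _)
      _ = ε ^ p := by field_simp
  set κ : ℝ := r * (N : ℝ) ^ (-s) with hκ
  have hκt : κ * t = 1 / N := by
    rw [hκ, htdef]
    have : r * (N : ℝ) ^ (-s) * ((N : ℝ) ^ (s - 1) / r) = (N : ℝ) ^ (-s) * (N : ℝ) ^ (s - 1) := by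
      field_simp
    rw [this, ← Real.rpow_add hN0]
    have : -s + (s - 1) = -1 := by ring
    rw [this, Real.rpow_neg_one, one_div]
  set A : Lp ℂ P (volume : Measure ℝ) := (memLp_filter hP' N t Φ hΦm hΦ).toLp _ with hAdef
  have hA : A =ᵐ[volume] fun y : ℝ => ΘA N t Φ (Int.fract y) ⌊y⌋ := MemLp.coeFn_toLp _
  have hte : ‖t‖ₑ ^ p = ENNReal.ofReal (t ^ p) := by
    rw [Real.enorm_eq_ofReal ht0.le, ENNReal.ofReal_rpow_of_nonneg ht0.le hp0.le]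
  refine ⟨N, A, fun j => eta N j, fun n => bet N (fun _ => 1) n / N, κ, hN1, by positivity,
    fun j => norm_eta N j, ?_, ?_, ?_, ?_, ?_, ?_⟩
  · -- (b)
    intro N' a
    have e0 : ∑ j ∈ range N', a j • tr (j : ℝ) A = ∑ j ∈ range N', (a j : ℂ) • tr (j : ℝ) A := by
      refine Finset.sum_congr rfl fun j _ => ?_
      exact (Complex.coe_smul (a j) (tr (j : ℝ) A)).symm
    have e1 : ‖∑ j ∈ range N', a j • tr (j : ℝ) A‖ₑ ^ p ≤ ((ENNReal.ofReal (ε ^ p)).toNNReal : ℝ≥0∞) *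
        ‖∑ j ∈ range N', a j • tr (j : ℝ) G‖ₑ ^ p := by
      rw [ENNReal.coe_toNNReal ENNReal.ofReal_ne_top, e0, filter_norm hP' N t Φ hΦm hΦ A hA]
      simp_rw [conv_hh]
      calc ‖t‖ₑ ^ p * ∑' n : ℤ, ‖∑ j ∈ Icc (0 : ℤ) N', ((zx N' a j - zx N' a (j - 1) : ℝ) : ℂ) * ht N (n - j)‖ₑ ^ p
          ≤ ‖t‖ₑ ^ p * (ENNReal.ofReal (Cm * N * (1 + Real.log N) ^ (p / 2)) *
            ∑ j ∈ Icc (0 : ℤ) N', ‖zx N' a j - zx N' a (j - 1)‖ₑ ^ p) := by
            gcongr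
            exact hchirp N hN1 (Icc (0 : ℤ) N') (fun j => zx N' a j - zx N' a (j - 1))
        _ ≤ ‖t‖ₑ ^ p * (ENNReal.ofReal (Cm * N * (1 + Real.log N) ^ (p / 2)) *
            ‖∑ j ∈ range N', a j • tr (j : ℝ) G‖ₑ ^ p) := by
            gcongr
            exact hG3 N' a
        _ = ENNReal.ofReal (t ^ p * (Cm * N * (1 + Real.log N) ^ (p / 2))) *
            ‖∑ j ∈ range N', a j • tr (j : ℝ) G‖ₑ ^ p := by
            rw [hte, ← mul_assoc, ← ENNReal.ofReal_mul (by positivity)]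
        _ ≤ ENNReal.ofReal (ε ^ p) * ‖∑ j ∈ range N', a j • tr (j : ℝ) G‖ₑ ^ p := by
            gcongr
    have e2 := norm_le_of_enorm_rpow hp0 _ _ _ e1
    refine e2.trans (le_of_eq ?_)
    congr 1
    rw [ENNReal.coe_toNNReal_eq_toReal, ENNReal.toReal_ofReal (by positivity), ← Real.rpow_mul hε.le,
      mul_one_div_cancel hp0.ne', Real.rpow_one]
  · -- (c)
    intro x a hx
    have e0 : ∀ y : ℕ, ∑ j ∈ range y, a j • ((fun j : ℕ => eta N j) j • tr (j : ℝ) A) =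
        ∑ j ∈ range y, (a j * eta N j : ℂ) • tr (j : ℝ) A := by
      intro y
      refine Finset.sum_congr rfl fun j _ => ?_
      show a j • (eta N j • tr (j : ℝ) A) = _
      calc a j • (eta N j • tr (j : ℝ) A) = (a j : ℂ) • (eta N j • tr (j : ℝ) A) :=
            (Complex.coe_smul (a j) (eta N j • tr (j : ℝ) A)).symm
        _ = _ := by rw [smul_smul]
    rcases Nat.eq_zero_or_pos x with rfl | hx0
    · simp only [Finset.range_zero, Finset.sum_empty, norm_zero]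
      positivity
    have e1 : ‖∑ j ∈ range x, (a j * eta N j : ℂ) • tr (j : ℝ) A‖ₑ ^ p ≤
        C₃ * ‖‖∑ j ∈ range N, (a j * eta N j : ℂ) • tr (j : ℝ) A‖ + |a (x - 1)|‖ₑ ^ p := by
      rw [filter_norm hP' N t Φ hΦm hΦ A hA]
      simp_rw [sum_cut N x hx]
      calc ‖t‖ₑ ^ p * ∑' n : ℤ, ‖bet N (cut x a) n‖ₑ ^ p
          ≤ ‖t‖ₑ ^ p * (C₃ * (∑' n : ℤ, ‖bet N a n‖ₑ ^ p + N * ‖a (x - 1)‖ₑ ^ p)) := by
            gcongr
            exact hC₃ N hN1 a x hx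
        _ = C₃ * (‖t‖ₑ ^ p * ∑' n : ℤ, ‖bet N a n‖ₑ ^ p + (‖t‖ₑ ^ p * N) * ‖a (x - 1)‖ₑ ^ p) := by ring
        _ ≤ C₃ * (‖∑ j ∈ range N, (a j * eta N j : ℂ) • tr (j : ℝ) A‖ₑ ^ p + 1 * ‖a (x - 1)‖ₑ ^ p) := by
            gcongr
            · rw [filter_norm hP' N t Φ hΦm hΦ A hA]
              rfl
            · rw [hte]
              calc ENNReal.ofReal (t ^ p) * (N : ℝ≥0∞) = ENNReal.ofReal (t ^ p * N) := by
                    rw [ENNReal.ofReal_mul (by positivity), ENNReal.ofReal_natCast]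
                _ ≤ ENNReal.ofReal 1 := ENNReal.ofReal_le_ofReal htN
                _ = 1 := ENNReal.ofReal_one
        _ ≤ C₃ * (‖∑ j ∈ range N, (a j * eta N j : ℂ) • tr (j : ℝ) A‖ₑ + ‖a (x - 1)‖ₑ) ^ p := by
            rw [one_mul]
            gcongr
            exact ENNReal.add_rpow_le_rpow_add _ _ h1.le
        _ = _ := by
            congr 2
            rw [Real.enorm_eq_ofReal (r := ‖∑ j ∈ range N, (a j * eta N j : ℂ) • tr (j : ℝ) A‖ + |a (x - 1)|)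
              (by positivity), ENNReal.ofReal_add (norm_nonneg _) (abs_nonneg _), ofReal_norm,
              ← Real.norm_eq_abs (a (x - 1)), ofReal_norm]
    have e2 := norm_le_of_enorm_rpow hp0 _ _ _ e1
    rw [e0, e0]
    refine e2.trans ?_
    rw [Real.norm_eq_abs, abs_of_nonneg (by positivity)]
    have e3 := hG2 N a (x - 1) (by omega)
    set B := ‖∑ j ∈ range N, (a j * eta N j : ℂ) • tr (j : ℝ) A‖
    set g := ‖∑ j ∈ range N, a j • tr (j : ℝ) G‖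
    have hB : 0 ≤ B := norm_nonneg _
    have hg : 0 ≤ g := norm_nonneg _
    calc (C₃ : ℝ) ^ (1 / p) * (B + |a (x - 1)|) ≤ (C₃ : ℝ) ^ (1 / p) * (B + C * g) := by gcongr
      _ ≤ (C₃ : ℝ) ^ (1 / p) * ((1 + C) * (B + g)) := by
          gcongr
          nlinarith
      _ = (C₃ : ℝ) ^ (1 / p) * (1 + C) * (B + g) := by ring
      _ ≤ C' * (B + g) := by
          gcongr
          rw [hC']
          linarith
  · -- (d)
    have e1 := comb_coeFn (range N) (fun j => eta N j) A _ hA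
    have e2 := Lp.coeFn_smul (κ : ℂ) (∑ j ∈ range N, (fun j : ℕ => eta N j) j • tr (j : ℝ) A)
    filter_upwards [e1, e2] with y e1 e2
    rw [e2, Pi.smul_apply, e1]
    have e3 : ∀ j : ℕ, ΘA N t Φ (Int.fract (y - j)) ⌊y - j⌋ = ((t * Φ (Int.fract y) : ℝ) : ℂ) * hh N (⌊y⌋ - j) := by
      intro j
      unfold ΘA
      rw [Int.fract_sub_natCast, Int.floor_sub_natCast]
    simp_rw [e3]
    have e4 : bet N (fun _ => 1) ⌊y⌋ = ∑ j ∈ range N, eta N j * hh N (⌊y⌋ - j) := by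
      unfold bet
      simp
    rw [e4]
    have e5 : (κ : ℂ) * t = 1 / N := by
      rw [← Complex.ofReal_mul, hκt]
      push_cast
      rfl
    simp only [smul_eq_mul]
    push_cast
    calc (κ : ℂ) * ∑ j ∈ range N, eta N j * ((t : ℂ) * Φ (Int.fract y) * hh N (⌊y⌋ - j))
        = (κ * t) * (Φ (Int.fract y) * ∑ j ∈ range N, eta N j * hh N (⌊y⌋ - j)) := by
          rw [Finset.mul_sum, Finset.mul_sum, Finset.mul_sum]
          refine Finset.sum_congr rfl fun j _ => ?_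
          ring
      _ = _ := by rw [e5]; ring
  · intro n
    rw [norm_div, Complex.norm_natCast, div_le_iff₀ hN0]
    have := bet_one_le (N := N) (by omega) n
    rw [mul_comm]
    exact this
  · rw [norm_div, Complex.norm_natCast, le_div_iff₀ hN0, one_mul]
    exact bet_one_zero (by omega)
  · calc κ * ‖∑ j ∈ range N, tr (j : ℝ) G‖ ≤ κ * (C * (N : ℝ) ^ s) := by
          gcongr
          exact hG5 N
      _ = r * C * ((N : ℝ) ^ (-s) * (N : ℝ) ^ s) := by rw [hκ]; ring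
      _ = ρ := by
          rw [← Real.rpow_add hN0, neg_add_cancel, Real.rpow_zero, mul_one, hr]
          field_simp
      _ ≤ ρ := le_rfl

end Pool.Agent.Lib.MP89175a
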