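import Mathlib
import Pool.Agent.Lib.MP_89175a_an.Gadget

/-!
The induction step.
-/

open Finset MeasureTheory Complex Filter Topology
open scoped ENNReal NNReal

namespace Pool.Agent.Lib.MP89175a

/-- the real inequalities of the step -/
theorem real_step {M₁ M₂ e ε₁ ε₂ hA nu nz nug w0 L L' : ℝ} (hL : 0 ≤ L) (hL' : 0 ≤ L')
    (hM₁ : 0 ≤ M₁) (hM₂ : 0 ≤ M₂) (he0 : 0 ≤ e) (he : e ≤ 1) (hε₁ : 0 ≤ ε₁) (hε₂ : 0 ≤ ε₂)
    (hA0 : 0 ≤ hA) (hw0 : 0 ≤ w0)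
    (h1 : L ≤ M₁ * nu) (h2 : L' ≤ M₂ * nz) (h3 : nu ≤ nug + ε₂ * (L + L'))
    (h4 : nug ≤ w0 + ε₂ * (L + L' + L')) (h5 : nz ≤ w0 + ε₂ * (L + L' + L'))
    (h6 : 6 * ε₂ * (M₁ + M₂) ≤ e) (h7 : hA * M₁ ≤ e) (h8 : 4 * ε₁ * (M₁ + M₂) ≤ e) :
    nu ≤ (1 + e) * w0 ∧ nz ≤ (1 + e) * w0 ∧ nug ≤ (1 + e) * w0 ∧
      hA * L + 2 * ε₁ * L' ≤ 3 * e * w0 ∧ ε₂ * L' ≤ e * w0 ∧ L + L' ≤ 2 * (M₁ + M₂) * w0 := by
  set Λ := L + L' with hΛ
  have hΛ0 : 0 ≤ Λ := by positivity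
  have hεΛ : 0 ≤ ε₂ * Λ := by positivity
  have hL'Λ : ε₂ * L' ≤ ε₂ * Λ := by gcongr; linarith
  have a0 : ε₂ * (Λ + L') = ε₂ * Λ + ε₂ * L' := by ring
  have a1 : nu ≤ w0 + 3 * (ε₂ * Λ) := by linarith
  have a2 : nz ≤ w0 + 3 * (ε₂ * Λ) := by linarith
  have a3 : nug ≤ w0 + 3 * (ε₂ * Λ) := by linarith
  have a4 : Λ ≤ (M₁ + M₂) * (w0 + 3 * (ε₂ * Λ)) := by
    calc Λ ≤ M₁ * nu + M₂ * nz := add_le_add h1 h2
      _ ≤ M₁ * (w0 + 3 * (ε₂ * Λ)) + M₂ * (w0 + 3 * (ε₂ * Λ)) := by gcongr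
      _ = _ := by ring
  have a5 : Λ ≤ 2 * (M₁ + M₂) * w0 := by
    have e1 : 6 * ε₂ * (M₁ + M₂) * Λ ≤ 1 * Λ := by
      gcongr
      exact h6.trans he
    linarith
  have a6 : 3 * (ε₂ * Λ) ≤ e * w0 := by
    calc 3 * (ε₂ * Λ) ≤ 3 * (ε₂ * (2 * (M₁ + M₂) * w0)) := by gcongr
      _ = 6 * ε₂ * (M₁ + M₂) * w0 := by ring
      _ ≤ e * w0 := by gcongr
  have b1 : nu ≤ (1 + e) * w0 := by linarith
  refine ⟨b1, by linarith, by linarith, ?_, by linarith, a5⟩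
  have c1 : hA * L ≤ 2 * e * w0 := by
    calc hA * L ≤ hA * (M₁ * ((1 + e) * w0)) := by
          gcongr
          exact h1.trans (by gcongr)
      _ = hA * M₁ * (1 + e) * w0 := by ring
      _ ≤ e * (1 + 1) * w0 := by gcongr
      _ = _ := by ring
  have c2 : 2 * ε₁ * L' ≤ e * w0 := by
    calc 2 * ε₁ * L' ≤ 2 * ε₁ * (2 * (M₁ + M₂) * w0) := by
          gcongr
          linarith
      _ = 4 * ε₁ * (M₁ + M₂) * w0 := by ring
      _ ≤ _ := by gcongr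
  linarith

theorem exists_phase (η : ℂ) (h : ‖η‖ = 1) : ∃ r : ℝ, 0 ≤ r ∧ r < 1 ∧ ee 1 (-r) = η := by
  refine ⟨Int.fract (-(arg η / (2 * Real.pi))), Int.fract_nonneg _, Int.fract_lt_one _, ?_⟩
  have h1 : η = exp (arg η * I) := by
    have := Complex.norm_mul_exp_arg_mul_I η
    rw [h] at this
    simpa using this.symm
  have h2 : Int.fract (-(arg η / (2 * Real.pi))) = -(arg η / (2 * Real.pi)) - ⌊-(arg η / (2 * Real.pi))⌋ := rfl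
  set k := ⌊-(arg η / (2 * Real.pi))⌋ with hk
  rw [h2]
  unfold ee
  have h3 : (2 * Real.pi * I * ((1 : ℝ) * ((-(-(arg η / (2 * Real.pi)) - (k : ℝ)) : ℝ) : ℂ)) : ℂ) =
      arg η * I + k * (2 * Real.pi * I) := by
    have hpi : (Real.pi : ℂ) ≠ 0 := by exact_mod_cast Real.pi_ne_zero
    push_cast
    field_simp
    ring
  rw [h3, Complex.exp_add, Complex.exp_int_mul_two_pi_mul_I, mul_one]
  exact h1.symm

theorem ee_scale {K : ℝ} (hK : 0 < K) (r : ℝ) : ee K (-(r / K)) = ee 1 (-r) := by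
  have := ee_phase hK (-r)
  rw [neg_div, neg_neg] at this
  exact this

theorem ee_nat (K j : ℕ) : ee K (-(j : ℝ)) = 1 := by
  unfold ee
  have : (2 * Real.pi * I * (((K : ℝ) : ℂ) * ((-(j : ℝ) : ℝ) : ℂ)) : ℂ) = ((-(K * j : ℤ) : ℤ) : ℂ) * (2 * Real.pi * I) := by
    push_cast
    ring
  rw [this, Complex.exp_int_mul_two_pi_mul_I]

variable {P : ℝ≥0∞} [hP : Fact (1 ≤ P)]

/-- the validity of a state of the construction -/
structure Valid (G f : Lp ℝ P (volume : Measure ℝ)) (n : ℕ) (lam : ℕ → ℝ) (Cc δ : ℝ) : Prop where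
  close : ∀ (N : ℕ) (a : ℕ → ℝ), ‖∑ j ∈ range N, a j • tr (j : ℝ) (f - G)‖ ≤
    δ * ‖∑ j ∈ range N, a j • tr (j : ℝ) G‖
  pref : ∀ (m : ℕ) (a : ℕ → ℝ), m ≤ n →
    ‖∑ i ∈ range m, a i • tr (lam i) f‖ ≤ Cc * ‖∑ i ∈ range n, a i • tr (lam i) f‖

theorem close_norm {G f : Lp ℝ P (volume : Measure ℝ)} {n : ℕ} {lam : ℕ → ℝ} {Cc δ : ℝ}
    (hV : Valid G f n lam Cc δ) (hδ : δ ≤ 1 / 2) (N : ℕ) (a : ℕ → ℝ) :
    ‖∑ j ∈ range N, a j • tr (j : ℝ) G‖ ≤ 2 * ‖∑ j ∈ range N, a j • tr (j : ℝ) f‖ ∧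
    ‖∑ j ∈ range N, a j • tr (j : ℝ) f‖ ≤ 3 / 2 * ‖∑ j ∈ range N, a j • tr (j : ℝ) G‖ := by
  have h1 := hV.close N a
  have h2 : ∑ j ∈ range N, a j • tr (j : ℝ) (f - G) = ∑ j ∈ range N, a j • tr (j : ℝ) f - ∑ j ∈ range N, a j • tr (j : ℝ) G := by
    rw [← Finset.sum_sub_distrib]
    refine Finset.sum_congr rfl fun j _ => ?_
    rw [map_sub, smul_sub]
  rw [h2] at h1
  set x := ∑ j ∈ range N, a j • tr (j : ℝ) f
  set y := ∑ j ∈ range N, a j • tr (j : ℝ) G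
  have h3 : ‖x - y‖ ≤ 1 / 2 * ‖y‖ := h1.trans (by gcongr)
  constructor
  · have : ‖y‖ ≤ ‖x‖ + ‖x - y‖ := by
      calc ‖y‖ = ‖x - (x - y)‖ := by rw [sub_sub_cancel]
        _ ≤ _ := norm_sub_le _ _
    linarith
  · have : ‖x‖ ≤ ‖y‖ + ‖x - y‖ := by
      calc ‖x‖ = ‖y + (x - y)‖ := by rw [add_sub_cancel]
        _ ≤ _ := norm_add_le _ _
    linarith

/-- lower bound by the coefficient sum for the old part -/
theorem old_lower {G f : Lp ℝ P (volume : Measure ℝ)} {n : ℕ} {lam : ℕ → ℝ} {Cc δ : ℝ}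
    (hV : Valid G f n lam Cc δ) {b : ℝ} (hb : 0 < b) (hf : b ≤ ‖f‖) (a : ℕ → ℝ) :
    ∑ i ∈ range n, |a i| ≤ n * (2 * Cc / b) * ‖∑ i ∈ range n, a i • tr (lam i) f‖ := by
  have h1 : ∀ i ∈ range n, |a i| ≤ (2 * Cc / b) * ‖∑ i ∈ range n, a i • tr (lam i) f‖ := by
    intro i hi
    rw [Finset.mem_range] at hi
    have e1 : |a i| * ‖f‖ = ‖∑ k ∈ range (i + 1), a k • tr (lam k) f - ∑ k ∈ range i, a k • tr (lam k) f‖ := by
      rw [Finset.sum_range_succ, add_sub_cancel_left, norm_smul, norm_tr, Real.norm_eq_abs]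
    have e2 : |a i| * ‖f‖ ≤ 2 * Cc * ‖∑ i ∈ range n, a i • tr (lam i) f‖ := by
      rw [e1]
      refine (norm_sub_le _ _).trans ?_
      have := hV.pref (i + 1) a (by omega)
      have := hV.pref i a (by omega)
      linarith
    rw [div_mul_eq_mul_div, le_div_iff₀ hb]
    refine le_trans ?_ e2
    gcongr
  calc ∑ i ∈ range n, |a i| ≤ ∑ i ∈ range n, (2 * Cc / b) * ‖∑ i ∈ range n, a i • tr (lam i) f‖ :=
        Finset.sum_le_sum h1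
    _ = _ := by
        rw [Finset.sum_const, Finset.card_range, nsmul_eq_mul]
        ring

theorem tr_new (f : Lp ℝ P (volume : Measure ℝ)) (A : Lp ℂ P (volume : Measure ℝ)) (K : ℕ) (S : ℝ) (j : ℕ)
    (ν : ℝ) (η : ℂ) (hν : ee K (-ν) = η) :
    tr (S + j + ν) (f + tr (-S) (MK K A)) = tr S (tr (j : ℝ) (tr ν f)) + MK K (η • tr (j : ℝ) (tr ν A)) := by
  rw [map_add, ← tr_add (S + j + ν) (-S), show S + j + ν + -S = j + ν by ring, tr_carr,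
    show S + j + ν = S + (j + ν) by ring, tr_add, tr_add, tr_add (j : ℝ) ν A]
  congr 3
  rw [show -((j : ℝ) + ν) = -(j : ℝ) + -ν by ring, ee_add, ee_nat, one_mul, hν]

theorem tr_old (f : Lp ℝ P (volume : Measure ℝ)) (H : Lp ℝ P (volume : Measure ℝ)) (S l : ℝ) :
    tr l (f + tr (-S) H) = tr l f + tr (-S) (tr l H) := by
  rw [map_add, ← tr_add, ← tr_add, add_comm l (-S)]

theorem norm_comb_le {ι E : Type*} [NormedAddCommGroup E] [NormedSpace ℝ E] (S : Finset ι) (a : ι → ℝ) (u : ι → E)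
    {ε : ℝ} (h : ∀ i ∈ S, ‖u i‖ ≤ ε) : ‖∑ i ∈ S, a i • u i‖ ≤ ε * ∑ i ∈ S, |a i| := by
  rw [Finset.mul_sum]
  refine (norm_sum_le _ _).trans (Finset.sum_le_sum fun i hi => ?_)
  rw [norm_smul, Real.norm_eq_abs, mul_comm]
  exact mul_le_mul_of_nonneg_right (h i hi) (abs_nonneg _)

/-- comparison of the true and the simplified combination -/
theorem diff_bound (f : Lp ℝ P (volume : Measure ℝ)) (A : Lp ℂ P (volume : Measure ℝ)) (K : ℕ) (S : ℝ)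
    (n N x : ℕ) (hx : x ≤ N) (lam ν : ℕ → ℝ) (η : ℕ → ℂ) (hη : ∀ j, ‖η j‖ = 1) (hν : ∀ j, ee K (-(ν j)) = η j)
    {ε₁ : ℝ} (hε₁ : 0 ≤ ε₁) (h1 : ∀ j, ‖tr (ν j) f - f‖ ≤ ε₁) (h2 : ∀ j, ‖tr (ν j) A - A‖ ≤ ε₁) (α : ℕ → ℝ) :
    ‖(∑ i ∈ range n, α i • tr (lam i) (f + tr (-S) (MK K A)) +
        ∑ j ∈ range x, α (n + j) • tr (S + j + ν j) (f + tr (-S) (MK K A))) -
      (∑ i ∈ range n, α i • tr (lam i) f + MK K (∑ j ∈ range x, α (n + j) • (η j • tr (j : ℝ) A)) +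
        tr S (∑ j ∈ range x, α (n + j) • tr (j : ℝ) f))‖ ≤
      ‖A‖ * ∑ i ∈ range n, |α i| + 2 * ε₁ * ∑ j ∈ range N, |α (n + j)| := by
  have e1 : ∑ i ∈ range n, α i • tr (lam i) (f + tr (-S) (MK K A)) =
      ∑ i ∈ range n, α i • tr (lam i) f + ∑ i ∈ range n, α i • tr (-S) (tr (lam i) (MK K A)) := by
    rw [← Finset.sum_add_distrib]
    refine Finset.sum_congr rfl fun i _ => ?_
    rw [tr_old, smul_add]
  have e2 : ∑ j ∈ range x, α (n + j) • tr (S + j + ν j) (f + tr (-S) (MK K A)) =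
      tr S (∑ j ∈ range x, α (n + j) • tr (j : ℝ) f) + MK K (∑ j ∈ range x, α (n + j) • (η j • tr (j : ℝ) A)) +
      ∑ j ∈ range x, α (n + j) • (tr S (tr (j : ℝ) (tr (ν j) f - f)) + MK K (η j • tr (j : ℝ) (tr (ν j) A - A))) := by
    have e3 : MK K (∑ j ∈ range x, α (n + j) • (η j • tr (j : ℝ) A)) =
        ∑ j ∈ range x, α (n + j) • MK K (η j • tr (j : ℝ) A) := by
      have := map_sum (carrₗ (P := P) Complex.reCLM K) (fun j => α (n + j) • (η j • tr (j : ℝ) A)) (range x)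
      simp only [map_smul] at this
      exact this
    rw [e3, map_sum, ← Finset.sum_add_distrib, ← Finset.sum_add_distrib]
    refine Finset.sum_congr rfl fun j _ => ?_
    rw [tr_new f A K S j (ν j) (η j) (hν j), map_smul, ← smul_add, ← smul_add]
    congr 1
    have e4 : MK K (η j • tr (j : ℝ) (tr (ν j) A - A)) = MK K (η j • tr (j : ℝ) (tr (ν j) A)) -
        MK K (η j • tr (j : ℝ) A) := by
      rw [map_sub, smul_sub]
      exact map_sub (carrₗ (P := P) Complex.reCLM K) _ _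
    rw [e4, map_sub, map_sub]
    abel
  rw [e1, e2]
  have e5 : ∀ a b c d e : Lp ℝ P (volume : Measure ℝ), (a + b + (c + d + e)) - (a + d + c) = b + e := by
    intro a b c d e
    abel
  rw [e5]
  refine (norm_add_le _ _).trans (add_le_add ?_ ?_)
  · apply norm_comb_le
    intro i _
    rw [norm_tr, norm_tr]
    exact norm_carr_le _ norm_reCLM_le _ _
  · have h3 : ‖∑ j ∈ range x, α (n + j) • (tr S (tr (j : ℝ) (tr (ν j) f - f)) +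
        MK K (η j • tr (j : ℝ) (tr (ν j) A - A)))‖ ≤ 2 * ε₁ * ∑ j ∈ range x, |α (n + j)| := by
      apply norm_comb_le
      intro j _
      refine (norm_add_le _ _).trans ?_
      rw [norm_tr, norm_tr]
      have h4 : ‖MK K (η j • tr (j : ℝ) (tr (ν j) A - A))‖ ≤ ε₁ := by
        refine (norm_carr_le _ norm_reCLM_le _ _).trans ?_
        rw [norm_smul, hη, one_mul, norm_tr]
        exact h2 j
      have := h1 j
      linarith
    refine h3.trans ?_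
    gcongr

theorem MK_sum {ι : Type*} (K : ℝ) (S : Finset ι) (a : ι → ℝ) (w : ι → Lp ℂ P (volume : Measure ℝ)) :
    MK K (∑ j ∈ S, a j • w j) = ∑ j ∈ S, a j • MK K (w j) := by
  have := map_sum (carrₗ (P := P) Complex.reCLM K) (fun j => a j • w j) S
  simp only [map_smul] at this
  exact this

/-- real inequality for the old prefixes -/
theorem real_old {a L M₁ nu w0 W X Cc e ε : ℝ} (ha : 0 ≤ a) (hM₁ : 0 ≤ M₁) (hw0 : 0 ≤ w0)
    (he0 : 0 < e) (he : e ≤ 1 / 6) (hε : 0 < ε) (hCc : 0 < Cc)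
    (heε : e * (4 * Cc + 2 + 3 * ε) ≤ ε) (haM : a * M₁ ≤ e) (h1 : L ≤ M₁ * nu)
    (r1 : nu ≤ (1 + e) * w0) (hW : (1 - 3 * e) * w0 ≤ W) (hX : X ≤ Cc * nu + a * L) :
    X ≤ (Cc + ε) * W := by
  have e5 : a * L ≤ 2 * e * w0 := by
    calc a * L ≤ a * (M₁ * ((1 + e) * w0)) := by
          gcongr
          exact h1.trans (by gcongr)
      _ = a * M₁ * (1 + e) * w0 := by ring
      _ ≤ e * (1 + 1) * w0 := by
          gcongr
          linarith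
      _ = _ := by ring
  calc X ≤ Cc * nu + a * L := hX
    _ ≤ Cc * ((1 + e) * w0) + 2 * e * w0 := by gcongr
    _ = (Cc * (1 + e) + 2 * e) * w0 := by ring
    _ ≤ ((Cc + ε) * (1 - 3 * e)) * w0 := by
        gcongr
        linarith
    _ = (Cc + ε) * ((1 - 3 * e) * w0) := by ring
    _ ≤ (Cc + ε) * W := by gcongr

/-- real inequality for the new prefixes -/
theorem real_new {C Cc e ε w0 W X nu nz nug mB mBN bN g zx D t : ℝ} (hC : 1 ≤ C)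
    (hCc : 48 * C ≤ Cc) (hε : 0 < ε) (he : e ≤ 1 / 6) (hw0 : 0 ≤ w0) (hW0 : 0 ≤ W)
    (r1 : nu ≤ (1 + e) * w0) (r2 : nz ≤ (1 + e) * w0) (r3 : nug ≤ (1 + e) * w0)
    (r4 : D ≤ 3 * e * w0) (r5 : t ≤ e * w0) (hW : (1 - 3 * e) * w0 ≤ W)
    (hX : X ≤ nu + mB + zx + D) (h4 : mB ≤ C * (bN + g)) (h6 : bN ≤ 2 * mBN + t)
    (h5 : mBN ≤ nug + nu) (hg : g ≤ 2 * nz) (hz : zx ≤ 3 / 2 * (C * g)) :
    X ≤ (Cc + ε) * W := by
  have hC0 : 0 < C := by linarith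
  have h8 : e * w0 ≤ 1 / 6 * w0 := by gcongr
  have h9 : bN + g ≤ 8 * w0 := by linarith
  have h10 : mB ≤ C * (8 * w0) := h4.trans (by gcongr)
  have hg' : g ≤ 8 / 3 * w0 := by linarith
  have h11 : zx ≤ C * (4 * w0) := by
    calc zx ≤ 3 / 2 * (C * g) := hz
      _ ≤ 3 / 2 * (C * (8 / 3 * w0)) := by gcongr
      _ = C * (4 * w0) := by ring
  have h12 : w0 ≤ C * w0 := le_mul_of_one_le_left hw0 hC
  have h13 : X ≤ 24 * C * w0 := by linarith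
  have h14 : w0 ≤ 2 * W := by linarith
  calc X ≤ 24 * C * w0 := h13
    _ ≤ 24 * C * (2 * W) := by gcongr
    _ = 48 * C * W := by ring
    _ ≤ (Cc + ε) * W := by
        gcongr
        linarith

/-- choice of the small parameters -/
theorem real_param {M e κ ρ' : ℝ} {N : ℕ} (hM : 0 ≤ M) (he0 : 0 < e) (hκ : 0 < κ) (hρ' : 0 < ρ') :
    ∃ ε₂ ε₁ : ℝ, 0 < ε₂ ∧ 0 < ε₁ ∧ 6 * ε₂ * M ≤ e ∧ 4 * ε₁ * M ≤ e ∧ 2 * κ * N * ε₁ ≤ ρ' := by
  refine ⟨e / (6 * M + 1), min (e / (4 * M + 1)) (ρ' / (2 * κ * N + 1)), by positivity,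
    by positivity, ?_, ?_, ?_⟩
  · have : 6 * (e / (6 * M + 1)) * M = e * ((6 * M) / (6 * M + 1)) := by ring
    rw [this]
    apply mul_le_of_le_one_right he0.le
    rw [div_le_one (by positivity)]
    linarith
  · calc 4 * min (e / (4 * M + 1)) (ρ' / (2 * κ * N + 1)) * M
        ≤ 4 * (e / (4 * M + 1)) * M := by
          gcongr
          exact min_le_left _ _
      _ = e * ((4 * M) / (4 * M + 1)) := by ring
      _ ≤ e := by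
          apply mul_le_of_le_one_right he0.le
          rw [div_le_one (by positivity)]
          linarith
  · calc 2 * κ * N * min (e / (4 * M + 1)) (ρ' / (2 * κ * N + 1))
        ≤ 2 * κ * N * (ρ' / (2 * κ * N + 1)) := by
          gcongr
          exact min_le_right _ _
      _ = ρ' * ((2 * κ * N) / (2 * κ * N + 1)) := by ring
      _ ≤ ρ' := by
          apply mul_le_of_le_one_right hρ'.le
          rw [div_le_one (by positivity)]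
          linarith

/-- closeness is preserved -/
theorem step_close {G f : Lp ℝ P (volume : Measure ℝ)} {A : Lp ℂ P (volume : Measure ℝ)}
    {n : ℕ} {lam : ℕ → ℝ} {Cc δ εg : ℝ} (hV : Valid G f n lam Cc δ)
    (hb : ∀ (N' : ℕ) (a : ℕ → ℝ), ‖∑ j ∈ range N', a j • tr (j : ℝ) A‖ ≤
            εg * ‖∑ j ∈ range N', a j • tr (j : ℝ) G‖) (K : ℕ) (S : ℝ) (N' : ℕ) (a : ℕ → ℝ) :
    ‖∑ j ∈ range N', a j • tr (j : ℝ) ((f + tr (-S) (MK K A)) - G)‖ ≤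
      (δ + εg) * ‖∑ j ∈ range N', a j • tr (j : ℝ) G‖ := by
  have e1 : ∑ j ∈ range N', a j • tr (j : ℝ) ((f + tr (-S) (MK K A)) - G) =
      ∑ j ∈ range N', a j • tr (j : ℝ) (f - G) +
      tr (-S) (MK K (∑ j ∈ range N', a j • tr (j : ℝ) A)) := by
    rw [MK_sum, map_sum, ← Finset.sum_add_distrib]
    refine Finset.sum_congr rfl fun j _ => ?_
    rw [map_smul, ← smul_add]
    congr 1
    have : (f + tr (-S) (MK K A)) - G = (f - G) + tr (-S) (MK K A) := by abel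
    rw [this, map_add, ← tr_add, add_comm (j : ℝ), tr_add, tr_carr, ee_nat, one_smul]
  rw [e1]
  refine (norm_add_le _ _).trans ?_
  rw [norm_tr, add_mul]
  apply add_le_add (hV.close N' a)
  exact (norm_carr_le _ norm_reCLM_le _ _).trans (hb N' a)

/-- the output of the step -/
theorem step_output {G f : Lp ℝ P (volume : Measure ℝ)} {A : Lp ℂ P (volume : Measure ℝ)}
    {n N : ℕ} {lam : ℕ → ℝ} {Cc δ : ℝ} (hV : Valid G f n lam Cc δ) (hδ : δ ≤ 1 / 2)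
    {η : ℕ → ℂ} (hη : ∀ j, ‖η j‖ = 1) {κ ρg ρ' ε₁ : ℝ} (hκ : 0 < κ)
    (hd : κ * ‖∑ j ∈ range N, tr (j : ℝ) G‖ ≤ ρg) (K : ℕ) (S : ℝ) {ν : ℕ → ℝ}
    (hνη : ∀ j, ee K (-(ν j)) = η j) (hνf : ∀ j, ‖tr (ν j) f - f‖ ≤ ε₁)
    (hνA : ∀ j, ‖tr (ν j) A - A‖ ≤ ε₁) (h9 : 2 * κ * N * ε₁ ≤ ρ') :
    ‖κ • ∑ j ∈ range N, tr (S + j + ν j) (f + tr (-S) (MK K A)) -
        MK K ((κ : ℂ) • ∑ j ∈ range N, η j • tr (j : ℝ) A)‖ ≤ 3 / 2 * ρg + ρ' := by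
  have e1 : ∑ j ∈ range N, tr (S + j + ν j) (f + tr (-S) (MK K A)) =
      tr S (∑ j ∈ range N, tr (j : ℝ) f) + MK K (∑ j ∈ range N, η j • tr (j : ℝ) A) +
      ∑ j ∈ range N, (tr S (tr (j : ℝ) (tr (ν j) f - f)) +
        MK K (η j • tr (j : ℝ) (tr (ν j) A - A))) := by
    have e3 : MK K (∑ j ∈ range N, η j • tr (j : ℝ) A) = ∑ j ∈ range N, MK K (η j • tr (j : ℝ) A) :=
      map_sum (carrₗ (P := P) Complex.reCLM K) (fun j => η j • tr (j : ℝ) A) (range N)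
    rw [e3, map_sum, ← Finset.sum_add_distrib, ← Finset.sum_add_distrib]
    refine Finset.sum_congr rfl fun j _ => ?_
    rw [tr_new f A K S j (ν j) (η j) (hνη j)]
    have e4 : MK K (η j • tr (j : ℝ) (tr (ν j) A - A)) = MK K (η j • tr (j : ℝ) (tr (ν j) A)) -
        MK K (η j • tr (j : ℝ) A) := by
      rw [map_sub, smul_sub]
      exact map_sub (carrₗ (P := P) Complex.reCLM K) _ _
    rw [e4, map_sub, map_sub]
    abel
  have e2 : MK K ((κ : ℂ) • ∑ j ∈ range N, η j • tr (j : ℝ) A) =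
      κ • MK K (∑ j ∈ range N, η j • tr (j : ℝ) A) := by
    have : (κ : ℂ) • ∑ j ∈ range N, η j • tr (j : ℝ) A = κ • ∑ j ∈ range N, η j • tr (j : ℝ) A :=
      Complex.coe_smul _ _
    rw [this]
    exact carr_smul _ _ _ _
  rw [e1, e2, ← smul_sub]
  have e3 : ∀ a b c : Lp ℝ P (volume : Measure ℝ), a + b + c - b = a + c := by
    intro a b c
    abel
  rw [e3, norm_smul, Real.norm_eq_abs, abs_of_pos hκ]
  have e4 : ‖∑ j ∈ range N, tr (j : ℝ) f‖ ≤ 3 / 2 * ‖∑ j ∈ range N, tr (j : ℝ) G‖ := by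
    have := (close_norm hV hδ N (fun _ => 1)).2
    simpa only [one_smul] using this
  have e5 : ‖∑ j ∈ range N, (tr S (tr (j : ℝ) (tr (ν j) f - f)) +
      MK K (η j • tr (j : ℝ) (tr (ν j) A - A)))‖ ≤ N * (2 * ε₁) := by
    refine (norm_sum_le _ _).trans ?_
    have : ∀ j ∈ range N, ‖tr S (tr (j : ℝ) (tr (ν j) f - f)) +
        MK K (η j • tr (j : ℝ) (tr (ν j) A - A))‖ ≤ 2 * ε₁ := by
      intro j _
      refine (norm_add_le _ _).trans ?_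
      rw [norm_tr, norm_tr]
      have h4 : ‖MK K (η j • tr (j : ℝ) (tr (ν j) A - A))‖ ≤ ε₁ := by
        refine (norm_carr_le _ norm_reCLM_le _ _).trans ?_
        rw [norm_smul, hη, one_mul, norm_tr]
        exact hνA j
      have := hνf j
      linarith
    refine (Finset.sum_le_sum this).trans ?_
    rw [Finset.sum_const, Finset.card_range, nsmul_eq_mul]
  generalize ∑ j ∈ range N, (tr S (tr (j : ℝ) (tr (ν j) f - f)) +
      MK K (η j • tr (j : ℝ) (tr (ν j) A - A))) = R at e5 ⊢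
  generalize ∑ j ∈ range N, tr (j : ℝ) f = R' at e4 ⊢
  generalize ‖∑ j ∈ range N, tr (j : ℝ) G‖ = g at e4 hd ⊢
  have h1 : ‖tr S R' + R‖ ≤ 3 / 2 * g + N * (2 * ε₁) := by
    refine (norm_add_le _ _).trans ?_
    rw [norm_tr]
    exact add_le_add e4 e5
  calc κ * ‖tr S R' + R‖ ≤ κ * (3 / 2 * g + N * (2 * ε₁)) := by gcongr
    _ = 3 / 2 * (κ * g) + 2 * κ * N * ε₁ := by ring
    _ ≤ 3 / 2 * ρg + ρ' := by gcongr

/-- the prefix inequality, abstract form -/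
theorem pref_abs {E F : Type*} [NormedAddCommGroup E] [NormedAddCommGroup F]
    {C Cc e ε ε₁ ε₂ M₁ M₂ a L L' : ℝ} (hC : 1 ≤ C) (hCc : 48 * C ≤ Cc) (he0 : 0 < e)
    (he : e ≤ 1 / 6) (hε : 0 < ε) (heε : e * (4 * Cc + 2 + 3 * ε) ≤ ε)
    (hM₁0 : 0 ≤ M₁) (hM₂0 : 0 ≤ M₂) (hε₁0 : 0 < ε₁) (hε₂0 : 0 < ε₂)
    (h6 : 6 * ε₂ * (M₁ + M₂) ≤ e) (h8 : 4 * ε₁ * (M₁ + M₂) ≤ e) (ha0 : 0 ≤ a)
    (hAM : a * M₁ ≤ e) (hL0 : 0 ≤ L) (hL'0 : 0 ≤ L') {u mB zN TzN WN : E} {BN : F}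
    (hw : ‖WN - (u + mB + TzN)‖ ≤ a * L + 2 * ε₁ * L')
    (hs1 : ‖u + mB‖ ≤ ‖u + mB + TzN‖ + ε₂ * (L + L' + L'))
    (hs2 : ‖zN‖ ≤ ‖u + mB + TzN‖ + ε₂ * (L + L' + L'))
    (hc1 : ‖u‖ ≤ ‖u + mB‖ + ε₂ * (L + L')) (hc2 : ‖BN‖ ≤ 2 * ‖mB‖ + ε₂ * L')
    (hl1 : L ≤ M₁ * ‖u‖) (hl2 : L' ≤ M₂ * ‖zN‖) :
    (∀ X : E, ‖X‖ ≤ Cc * ‖u‖ + a * L → ‖X‖ ≤ (Cc + ε) * ‖WN‖) ∧
    (∀ (X mBx Tzx : E) (g : ℝ), ‖X - (u + mBx + Tzx)‖ ≤ a * L + 2 * ε₁ * L' →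
      ‖mBx‖ ≤ C * (‖BN‖ + g) → g ≤ 2 * ‖zN‖ → ‖Tzx‖ ≤ 3 / 2 * (C * g) →
      ‖X‖ ≤ (Cc + ε) * ‖WN‖) := by
  obtain ⟨r1, r2, r3, r4, r5, -⟩ := real_step hL0 hL'0 hM₁0 hM₂0 he0.le (by linarith) hε₁0.le
    hε₂0.le ha0 (norm_nonneg (u + mB + TzN)) hl1 hl2 hc1 hs1 hs2 h6 hAM h8
  have hw00 : 0 ≤ ‖u + mB + TzN‖ := norm_nonneg _
  have hWw : (1 - 3 * e) * ‖u + mB + TzN‖ ≤ ‖WN‖ := by
    have h2 : ‖u + mB + TzN‖ ≤ ‖WN‖ + ‖WN - (u + mB + TzN)‖ := by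
      calc ‖u + mB + TzN‖ = ‖WN - (WN - (u + mB + TzN))‖ := by rw [sub_sub_cancel]
        _ ≤ _ := norm_sub_le _ _
    linarith
  constructor
  · intro X hX
    exact real_old ha0 hM₁0 hw00 he0 he hε (by linarith) heε hAM hl1 r1 hWw hX
  · intro X mBx Tzx g hX h4 hg hz
    have h5 : ‖mB‖ ≤ ‖u + mB‖ + ‖u‖ := by
      calc ‖mB‖ = ‖(u + mB) - u‖ := by rw [add_sub_cancel_left]
        _ ≤ _ := norm_sub_le _ _
    have h7 : ‖X‖ ≤ ‖u‖ + ‖mBx‖ + ‖Tzx‖ + (a * L + 2 * ε₁ * L') := by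
      calc ‖X‖ = ‖(u + mBx + Tzx) + (X - (u + mBx + Tzx))‖ := by rw [add_sub_cancel]
        _ ≤ ‖u + mBx + Tzx‖ + ‖X - (u + mBx + Tzx)‖ := norm_add_le _ _
        _ ≤ _ := add_le_add ((norm_add_le _ _).trans (add_le_add (norm_add_le _ _) le_rfl)) hX
    exact real_new hC hCc hε he hw00 (norm_nonneg _) r1 r2 r3 r4 r5 hWw h7 h4 hc2 h5 hg hz

/-- the prefix inequality of the step -/
theorem step_pref {G f : Lp ℝ P (volume : Measure ℝ)} {A : Lp ℂ P (volume : Measure ℝ)} {C : ℝ}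
    (hC : 1 ≤ C)
    (hG1 : ∀ (N x : ℕ) (c : ℕ → ℝ), x ≤ N →
      ‖∑ j ∈ range x, c j • tr (j : ℝ) G‖ ≤ C * ‖∑ j ∈ range N, c j • tr (j : ℝ) G‖)
    (hG2 : ∀ (N : ℕ) (c : ℕ → ℝ), ∀ j < N, |c j| ≤ C * ‖∑ j ∈ range N, c j • tr (j : ℝ) G‖)
    {n N : ℕ} {lam : ℕ → ℝ} {Cc δ : ℝ} (hV : Valid G f n lam Cc δ) (hδ : δ ≤ 1 / 2)
    (hCc : 48 * C ≤ Cc) {η : ℕ → ℂ} (hη : ∀ j, ‖η j‖ = 1)
    (hc : ∀ (x : ℕ) (a : ℕ → ℝ), x ≤ N → ‖∑ j ∈ range x, a j • (η j • tr (j : ℝ) A)‖ ≤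
            C * (‖∑ j ∈ range N, a j • (η j • tr (j : ℝ) A)‖ + ‖∑ j ∈ range N, a j • tr (j : ℝ) G‖))
    {e ε ε₁ ε₂ M₁ M₂ : ℝ} (he0 : 0 < e) (he : e ≤ 1 / 6) (hε : 0 < ε)
    (heε : e * (4 * Cc + 2 + 3 * ε) ≤ ε)
    (hf0 : 1 / (2 * C) ≤ ‖f‖) (hM₁ : M₁ = 4 * n * Cc * C) (hM₂ : M₂ = 2 * N * C)
    (hAM : ‖A‖ * M₁ ≤ e) (hε₁0 : 0 < ε₁) (hε₂0 : 0 < ε₂)
    (h6 : 6 * ε₂ * (M₁ + M₂) ≤ e) (h8 : 4 * ε₁ * (M₁ + M₂) ≤ e)
    (K : ℕ) (S : ℝ) {ν : ℕ → ℝ}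
    (hνη : ∀ j, ee K (-(ν j)) = η j) (hνf : ∀ j, ‖tr (ν j) f - f‖ ≤ ε₁)
    (hνA : ∀ j, ‖tr (ν j) A - A‖ ≤ ε₁) (α : ℕ → ℝ)
    (hs1 : ‖∑ i ∈ range n, α i • tr (lam i) f + MK K (∑ j ∈ range N, α (n + j) • (η j • tr (j : ℝ) A))‖ ≤
      ‖∑ i ∈ range n, α i • tr (lam i) f + MK K (∑ j ∈ range N, α (n + j) • (η j • tr (j : ℝ) A)) +
        tr S (∑ j ∈ range N, α (n + j) • tr (j : ℝ) f)‖ +
      ε₂ * (∑ i ∈ range n, |α i| + ∑ j ∈ range N, |α (n + j)| + ∑ j ∈ range N, |α (n + j)|))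
    (hs2 : ‖∑ j ∈ range N, α (n + j) • tr (j : ℝ) f‖ ≤
      ‖∑ i ∈ range n, α i • tr (lam i) f + MK K (∑ j ∈ range N, α (n + j) • (η j • tr (j : ℝ) A)) +
        tr S (∑ j ∈ range N, α (n + j) • tr (j : ℝ) f)‖ +
      ε₂ * (∑ i ∈ range n, |α i| + ∑ j ∈ range N, |α (n + j)| + ∑ j ∈ range N, |α (n + j)|))
    (hc1 : ‖∑ i ∈ range n, α i • tr (lam i) f‖ ≤
      ‖∑ i ∈ range n, α i • tr (lam i) f + MK K (∑ j ∈ range N, α (n + j) • (η j • tr (j : ℝ) A))‖ +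
      ε₂ * (∑ i ∈ range n, |α i| + ∑ j ∈ range N, |α (n + j)|))
    (hc2 : ‖∑ j ∈ range N, α (n + j) • (η j • tr (j : ℝ) A)‖ ≤
      2 * ‖MK K (∑ j ∈ range N, α (n + j) • (η j • tr (j : ℝ) A))‖ +
      ε₂ * ∑ j ∈ range N, |α (n + j)|) :
    (∀ m ≤ n, ‖∑ i ∈ range m, α i • tr (lam i) (f + tr (-S) (MK K A))‖ ≤ (Cc + ε) *
      ‖∑ i ∈ range n, α i • tr (lam i) (f + tr (-S) (MK K A)) +
        ∑ j ∈ range N, α (n + j) • tr (S + j + ν j) (f + tr (-S) (MK K A))‖) ∧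
    (∀ x ≤ N, ‖∑ i ∈ range n, α i • tr (lam i) (f + tr (-S) (MK K A)) +
        ∑ j ∈ range x, α (n + j) • tr (S + j + ν j) (f + tr (-S) (MK K A))‖ ≤ (Cc + ε) *
      ‖∑ i ∈ range n, α i • tr (lam i) (f + tr (-S) (MK K A)) +
        ∑ j ∈ range N, α (n + j) • tr (S + j + ν j) (f + tr (-S) (MK K A))‖) := by
  have hC0 : 0 < C := by linarith
  have hCc0 : 0 < Cc := by linarith
  have hM₁0 : 0 ≤ M₁ := by rw [hM₁]; positivity
  have hM₂0 : 0 ≤ M₂ := by rw [hM₂]; positivity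
  have hL0 : 0 ≤ ∑ i ∈ range n, |α i| := Finset.sum_nonneg fun _ _ => abs_nonneg _
  have hL'0 : 0 ≤ ∑ j ∈ range N, |α (n + j)| := Finset.sum_nonneg fun _ _ => abs_nonneg _
  have hl1 : ∑ i ∈ range n, |α i| ≤ M₁ * ‖∑ i ∈ range n, α i • tr (lam i) f‖ := by
    refine (old_lower hV (b := 1 / (2 * C)) (by positivity) hf0 α).trans (le_of_eq ?_)
    rw [hM₁]
    field_simp
    ring
  have hg2 := (close_norm hV hδ N (fun j => α (n + j))).1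
  have hl2 : ∑ j ∈ range N, |α (n + j)| ≤ M₂ * ‖∑ j ∈ range N, α (n + j) • tr (j : ℝ) f‖ := by
    have h1 : ∀ j ∈ range N, |α (n + j)| ≤ C * ‖∑ j ∈ range N, α (n + j) • tr (j : ℝ) G‖ :=
      fun j hj => hG2 N (fun j => α (n + j)) j (Finset.mem_range.1 hj)
    have h2 := Finset.sum_le_sum h1
    rw [Finset.sum_const, Finset.card_range, nsmul_eq_mul] at h2
    refine h2.trans ?_
    rw [hM₂]
    calc (N : ℝ) * (C * ‖∑ j ∈ range N, α (n + j) • tr (j : ℝ) G‖)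
        ≤ N * (C * (2 * ‖∑ j ∈ range N, α (n + j) • tr (j : ℝ) f‖)) := by gcongr
      _ = _ := by ring
  obtain ⟨k1, k2⟩ := pref_abs hC hCc he0 he hε heε hM₁0 hM₂0 hε₁0 hε₂0 h6 h8 (norm_nonneg A) hAM
    hL0 hL'0 (diff_bound f A K S n N N le_rfl lam ν η hη hνη hε₁0.le hνf hνA α)
    hs1 hs2 hc1 hc2 hl1 hl2
  constructor
  · intro m hm
    apply k1
    have e1 : ∑ i ∈ range m, α i • tr (lam i) (f + tr (-S) (MK K A)) =
        ∑ i ∈ range m, α i • tr (lam i) f + tr (-S) (∑ i ∈ range m, α i • tr (lam i) (MK K A)) := by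
      rw [map_sum, ← Finset.sum_add_distrib]
      refine Finset.sum_congr rfl fun i _ => ?_
      rw [tr_old, smul_add, map_smul]
    rw [e1]
    have e2 : ‖∑ i ∈ range m, α i • tr (lam i) (MK K A)‖ ≤ ‖A‖ * ∑ i ∈ range m, |α i| := by
      apply norm_comb_le
      intro i _
      rw [norm_tr]
      exact norm_carr_le _ norm_reCLM_le _ _
    refine (norm_add_le _ _).trans ?_
    rw [norm_tr]
    refine add_le_add (hV.pref m α hm) (e2.trans ?_)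
    apply mul_le_mul_of_nonneg_left _ (norm_nonneg _)
    exact Finset.sum_le_sum_of_subset_of_nonneg (Finset.range_mono hm) fun _ _ _ => abs_nonneg _
  · intro x hx
    refine k2 _ _ _ _ (diff_bound f A K S n N x hx lam ν η hη hνη hε₁0.le hνf hνA α)
      ((norm_carr_le _ norm_reCLM_le _ _).trans (hc x (fun j => α (n + j)) hx)) hg2 ?_
    rw [norm_tr]
    exact ((close_norm hV hδ x (fun j => α (n + j))).2).trans
      (mul_le_mul_of_nonneg_left (hG1 N x (fun j => α (n + j)) hx) (by norm_num))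

/-- THE STEP -/
theorem step (hP2 : P < 2) {G : Lp ℝ P (volume : Measure ℝ)} {C : ℝ} (hC : 1 ≤ C)
    (hG1 : ∀ (N x : ℕ) (c : ℕ → ℝ), x ≤ N →
      ‖∑ j ∈ range x, c j • tr (j : ℝ) G‖ ≤ C * ‖∑ j ∈ range N, c j • tr (j : ℝ) G‖)
    (hG2 : ∀ (N : ℕ) (c : ℕ → ℝ), ∀ j < N, |c j| ≤ C * ‖∑ j ∈ range N, c j • tr (j : ℝ) G‖)
    {N : ℕ} {A : Lp ℂ P (volume : Measure ℝ)} {η : ℕ → ℂ} {κ εg ρg : ℝ}
    (hη : ∀ j, ‖η j‖ = 1) (hκ : 0 < κ) (hεg : 0 < εg)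
    (hb : ∀ (N' : ℕ) (a : ℕ → ℝ), ‖∑ j ∈ range N', a j • tr (j : ℝ) A‖ ≤
            εg * ‖∑ j ∈ range N', a j • tr (j : ℝ) G‖)
    (hc : ∀ (x : ℕ) (a : ℕ → ℝ), x ≤ N → ‖∑ j ∈ range x, a j • (η j • tr (j : ℝ) A)‖ ≤
            C * (‖∑ j ∈ range N, a j • (η j • tr (j : ℝ) A)‖ + ‖∑ j ∈ range N, a j • tr (j : ℝ) G‖))
    (hd : κ * ‖∑ j ∈ range N, tr (j : ℝ) G‖ ≤ ρg)
    {f : Lp ℝ P (volume : Measure ℝ)} {n : ℕ} {lam : ℕ → ℝ} {Cc δ : ℝ}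
    (hV : Valid G f n lam Cc δ) (hδ : δ ≤ 1 / 2) (hCc : 48 * C ≤ Cc)
    {e ε : ℝ} (he0 : 0 < e) (he : e ≤ 1 / 6) (hε : 0 < ε) (heε : e * (4 * Cc + 2 + 3 * ε) ≤ ε)
    (hA : εg * ‖G‖ * (4 * n * Cc * C) ≤ e) {ρ' : ℝ} (hρ' : 0 < ρ') :
    ∃ K₀ : ℕ, ∀ K : ℕ, K₀ ≤ K → ∃ (f' : Lp ℝ P (volume : Measure ℝ)) (lam' : ℕ → ℝ),
      (∀ i < n, lam' i = lam i) ∧ ‖f' - f‖ ≤ εg * ‖G‖ ∧
      Valid G f' (n + N) lam' (Cc + ε) (δ + εg) ∧
      ‖κ • ∑ j ∈ range N, tr (lam' (n + j)) f' -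
        MK K ((κ : ℂ) • ∑ j ∈ range N, η j • tr (j : ℝ) A)‖ ≤ 3 / 2 * ρg + ρ' := by
  have hP' : P ≠ ∞ := ne_top_of_lt hP2
  have hC0 : 0 < C := by linarith
  have hCc0 : 0 < Cc := by linarith
  -- norms of G, f, A
  have hG0 : 1 / C ≤ ‖G‖ := by
    have := hG2 1 (fun _ => 1) 0 (by norm_num)
    simp only [Finset.range_one, Finset.sum_singleton, Nat.cast_zero, tr_zero, one_smul, abs_one] at this
    rw [div_le_iff₀ hC0]
    linarith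
  have hf0 : 1 / (2 * C) ≤ ‖f‖ := by
    have := (close_norm hV hδ 1 (fun _ => 1)).1
    simp only [Finset.range_one, Finset.sum_singleton, Nat.cast_zero, tr_zero, one_smul] at this
    have h2 : 1 / (2 * C) = (1 / C) / 2 := by field_simp
    rw [h2]
    linarith
  have hA0 : ‖A‖ ≤ εg * ‖G‖ := by
    have := hb 1 (fun _ => 1)
    simp only [Finset.range_one, Finset.sum_singleton, Nat.cast_zero, tr_zero, one_smul] at this
    exact this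
  obtain ⟨M₁, hM₁⟩ : ∃ M₁ : ℝ, M₁ = 4 * n * Cc * C := ⟨_, rfl⟩
  obtain ⟨M₂, hM₂⟩ : ∃ M₂ : ℝ, M₂ = 2 * N * C := ⟨_, rfl⟩
  have hM₁0 : 0 ≤ M₁ := by rw [hM₁]; positivity
  have hM₂0 : 0 ≤ M₂ := by rw [hM₂]; positivity
  -- parameters
  obtain ⟨ε₂, ε₁, hε₂0, hε₁0, h6, h8, h9⟩ :=
    real_param (M := M₁ + M₂) (N := N) (add_nonneg hM₁0 hM₂0) he0 hκ hρ'
  have hAM : ‖A‖ * M₁ ≤ e := by
    calc ‖A‖ * M₁ ≤ εg * ‖G‖ * M₁ := mul_le_mul_of_nonneg_right hA0 hM₁0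
      _ ≤ e := by rw [hM₁]; exact hA
  -- choice of K₀
  obtain ⟨K₁, hK₁0, hK₁⟩ := carrier_family hP' (range n) (fun i => tr (lam i) f) (range N)
    (fun j => η j • tr (j : ℝ) A) hε₂0
  obtain ⟨δ₁, hδ₁, hδ₁'⟩ := small_tr_family hP' {()} (fun _ => f) hε₁0
  obtain ⟨δ₂, hδ₂, hδ₂'⟩ := small_tr_family hP' {()} (fun _ => A) hε₁0
  obtain ⟨K₂, hK₂⟩ := exists_nat_ge (max K₁ (1 / min δ₁ δ₂))
  refine ⟨K₂ + 1, fun K hK => ?_⟩
  have hKR : (K₂ : ℝ) + 1 ≤ K := by exact_mod_cast hK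
  have hK0 : (0 : ℝ) < K := by
    have : (0 : ℝ) ≤ K₂ := K₂.cast_nonneg
    linarith
  have hKK₁ : K₁ ≤ K := by
    have := le_max_left K₁ (1 / min δ₁ δ₂)
    linarith
  have hm0 : 0 < min δ₁ δ₂ := lt_min hδ₁ hδ₂
  have hKδ : 1 / (K : ℝ) < min δ₁ δ₂ := by
    have h1 := le_max_right K₁ (1 / min δ₁ δ₂)
    have h2 : 1 / min δ₁ δ₂ < K := by linarith
    rw [div_lt_iff₀ hm0] at h2
    rw [div_lt_iff₀ hK0]
    linarith
  -- phases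
  obtain ⟨ν, hνη, hνδ⟩ : ∃ ν : ℕ → ℝ, (∀ j, ee K (-(ν j)) = η j) ∧ ∀ j, |ν j| < min δ₁ δ₂ := by
    choose r hr0 hr1 hr using fun j => exists_phase (η j) (hη j)
    refine ⟨fun j => r j / K, fun j => ?_, fun j => ?_⟩
    · simp only
      rw [ee_scale hK0, hr]
    · simp only
      rw [abs_of_nonneg (div_nonneg (hr0 j) hK0.le)]
      exact (div_le_div_of_nonneg_right (hr1 j).le hK0.le).trans_lt hKδ
  have hνf : ∀ j, ‖tr (ν j) f - f‖ ≤ ε₁ := fun j =>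
    hδ₁' (ν j) ((hνδ j).trans_le (min_le_left _ _)) () (by simp)
  have hνA : ∀ j, ‖tr (ν j) A - A‖ ≤ ε₁ := fun j =>
    hδ₂' (ν j) ((hνδ j).trans_le (min_le_right _ _)) () (by simp)
  -- separation
  obtain ⟨S₀, hS₀, hsep⟩ := separation hP' (range (n + N))
    (fun i => if i < n then tr (lam i) f else MK K (η (i - n) • tr ((i - n : ℕ) : ℝ) A)) (range N)
    (fun j => tr (j : ℝ) f) hε₂0
  obtain ⟨S, hSabs⟩ : ∃ S : ℝ, S₀ < |S| := ⟨S₀ + 1, by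
    rw [abs_of_pos (by linarith)]
    linarith⟩
  obtain ⟨lam', hlam_old, hlam_new⟩ : ∃ lam' : ℕ → ℝ, (∀ i < n, lam' i = lam i) ∧
      ∀ j, lam' (n + j) = S + j + ν j :=
    ⟨fun i => if i < n then lam i else S + ((i - n : ℕ) : ℝ) + ν (i - n),
      fun i hi => if_pos hi, fun j => by
        simp only
        rw [if_neg (by omega), Nat.add_sub_cancel_left]⟩
  refine ⟨f + tr (-S) (MK K A), lam', hlam_old, ?_, ⟨?_, ?_⟩, ?_⟩
  · rw [add_sub_cancel_left, norm_tr]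
    exact (norm_carr_le _ norm_reCLM_le _ _).trans hA0
  · -- closeness
    exact step_close hV hb K S
  · -- prefix inequality
    intro m α hm
    have hW : ∀ x, ∑ i ∈ range (n + x), α i • tr (lam' i) (f + tr (-S) (MK K A)) =
        ∑ i ∈ range n, α i • tr (lam i) (f + tr (-S) (MK K A)) +
        ∑ j ∈ range x, α (n + j) • tr (S + j + ν j) (f + tr (-S) (MK K A)) := by
      intro x
      rw [Finset.sum_range_add]
      congr 1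
      · refine Finset.sum_congr rfl fun i hi => ?_
        rw [hlam_old i (Finset.mem_range.1 hi)]
      · refine Finset.sum_congr rfl fun j _ => ?_
        rw [hlam_new j]
    -- separation consequences
    have hsum : ∑ i ∈ range (n + N), α i • (fun i => if i < n then tr (lam i) f else
        MK K (η (i - n) • tr ((i - n : ℕ) : ℝ) A)) i = ∑ i ∈ range n, α i • tr (lam i) f +
          MK K (∑ j ∈ range N, α (n + j) • (η j • tr (j : ℝ) A)) := by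
      rw [Finset.sum_range_add, MK_sum]
      congr 1
      · refine Finset.sum_congr rfl fun i hi => ?_
        simp only
        rw [if_pos (Finset.mem_range.1 hi)]
      · refine Finset.sum_congr rfl fun j _ => ?_
        simp only
        rw [if_neg (by omega), Nat.add_sub_cancel_left]
    have hsumabs : ∑ i ∈ range (n + N), |α i| = ∑ i ∈ range n, |α i| + ∑ j ∈ range N, |α (n + j)| :=
      Finset.sum_range_add _ _ _
    obtain ⟨hs1, hs2⟩ := hsep S hSabs α (fun j => α (n + j))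
    rw [hsum, hsumabs] at hs1 hs2
    obtain ⟨hc1, hc2⟩ := hK₁ K hKK₁ α (fun j => α (n + j))
    obtain ⟨k1, k2⟩ := step_pref hC hG1 hG2 hV hδ hCc hη hc he0 he hε heε hf0 hM₁ hM₂ hAM hε₁0 hε₂0
      h6 h8 K S hνη hνf hνA α hs1 hs2 hc1 hc2
    rw [hW N]
    rcases Nat.lt_or_ge m n with hmn | hmn
    · have e1 : ∑ i ∈ range m, α i • tr (lam' i) (f + tr (-S) (MK K A)) =
          ∑ i ∈ range m, α i • tr (lam i) (f + tr (-S) (MK K A)) :=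
        Finset.sum_congr rfl fun i hi => by rw [hlam_old i ((Finset.mem_range.1 hi).trans hmn)]
      rw [e1]
      exact k1 m hmn.le
    · obtain ⟨x, rfl⟩ := Nat.exists_eq_add_of_le hmn
      rw [hW x]
      exact k2 x (by omega)
  · -- the output
    have e1 : ∑ j ∈ range N, tr (lam' (n + j)) (f + tr (-S) (MK K A)) =
        ∑ j ∈ range N, tr (S + j + ν j) (f + tr (-S) (MK K A)) :=
      Finset.sum_congr rfl fun j _ => by rw [hlam_new]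
    rw [e1]
    exact step_output hV hδ hη hκ hd K S hνη hνf hνA h9

end Pool.Agent.Lib.MP89175a
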