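import Mathlib
import Pool.Agent.Lib.MP_89175a_an.Step
import Pool.Agent.Lib.MP_89175a_an.SquareRec
import Pool.Agent.Lib.MP_89175a_an.SquarePoint

/-!
The recursion.
-/

open Finset MeasureTheory Complex Filter Topology
open scoped ENNReal NNReal

namespace Pool.Agent.Lib.MP89175a

/-- dependent choice -/
theorem dep_seq {α : Type*} (V : ℕ → α → Prop) (R : ℕ → α → α → Prop) (a₀ : α) (h₀ : V 0 a₀)
    (h : ∀ m a, V m a → ∃ b, V (m + 1) b ∧ R m a b) :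
    ∃ S : ℕ → α, S 0 = a₀ ∧ (∀ m, V m (S m)) ∧ ∀ m, R m (S m) (S (m + 1)) := by
  choose! F hF1 hF2 using h
  let S : ℕ → α := fun m => Nat.rec a₀ (fun m a => F m a) m
  have hV : ∀ m, V m (S m) := by
    intro m
    induction m with
    | zero => exact h₀
    | succ m ih => exact hF1 m (S m) ih
  exact ⟨S, rfl, hV, fun m => hF2 m (S m) (hV m)⟩

theorem measurable_haar (p : ℝ) (m : ℕ) : Measurable (haar p m) := by
  unfold haar
  by_cases h : m = 0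
  · simp only [h, if_true]
    exact measurable_one.indicator measurableSet_Ico
  · simp only [h, if_false]
    exact ((measurable_one.indicator measurableSet_Ico).sub
      (measurable_one.indicator measurableSet_Ico)).const_mul _

/-- the absolute values of the Haar functions as profiles -/
noncomputable def HP (p : ℝ) (m : ℕ) (y : ℝ) : ℝ := |haar p m y|

theorem measurable_HP (p : ℝ) (m : ℕ) : Measurable (HP p m) := (measurable_haar p m).abs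

theorem enorm_haar {p : ℝ} (hp : 0 < p) (m : ℕ) (hm : m ≠ 0) (y : ℝ) :
    ‖HP p m y‖ₑ ^ p = (Set.Ico (((m : ℝ) - 2 ^ Nat.log 2 m) / 2 ^ Nat.log 2 m)
        (((m : ℝ) - 2 ^ Nat.log 2 m + 1) / 2 ^ Nat.log 2 m)).indicator
          (fun _ => (2 : ℝ≥0∞) ^ (Nat.log 2 m)) y := by
  set k := Nat.log 2 m with hk
  set a : ℝ := ((m : ℝ) - 2 ^ k) / 2 ^ k with ha
  set b : ℝ := ((m : ℝ) - 2 ^ k + 1 / 2) / 2 ^ k with hb
  set c : ℝ := ((m : ℝ) - 2 ^ k + 1) / 2 ^ k with hc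
  have hab : a < b := by
    rw [ha, hb]
    gcongr
    linarith
  have hbc : b < c := by
    rw [hb, hc]
    gcongr
    norm_num
  have h1 : HP p m y = (2 : ℝ) ^ ((k : ℝ) / p) * (Set.Ico a c).indicator 1 y := by
    unfold HP haar
    rw [if_neg hm, abs_mul, abs_of_pos (Real.rpow_pos_of_pos (by norm_num) _)]
    congr 1
    by_cases h1 : y ∈ Set.Ico a b
    · have h2 : y ∉ Set.Ico b c := fun h => absurd h1.2 (not_lt.2 h.1)
      have h3 : y ∈ Set.Ico a c := ⟨h1.1, h1.2.trans hbc⟩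
      rw [Set.indicator_of_mem h1, Set.indicator_of_notMem h2, Set.indicator_of_mem h3]
      simp
    · by_cases h2 : y ∈ Set.Ico b c
      · have h3 : y ∈ Set.Ico a c := ⟨hab.le.trans h2.1, h2.2⟩
        rw [Set.indicator_of_notMem h1, Set.indicator_of_mem h2, Set.indicator_of_mem h3]
        simp
      · have h3 : y ∉ Set.Ico a c := by
          intro h
          by_cases h4 : y < b
          · exact h1 ⟨h.1, h4⟩
          · exact h2 ⟨not_lt.1 h4, h.2⟩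
        rw [Set.indicator_of_notMem h1, Set.indicator_of_notMem h2, Set.indicator_of_notMem h3]
        simp
  rw [h1]
  by_cases h3 : y ∈ Set.Ico a c
  · rw [Set.indicator_of_mem h3, Set.indicator_of_mem h3, Pi.one_apply, mul_one,
      Real.enorm_eq_ofReal (by positivity), ENNReal.ofReal_rpow_of_nonneg (by positivity) hp.le,
      ← Real.rpow_mul (by norm_num), div_mul_cancel₀ _ hp.ne', Real.rpow_natCast,
      ENNReal.ofReal_pow (by norm_num), ENNReal.ofReal_ofNat]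
  · rw [Set.indicator_of_notMem h3, Set.indicator_of_notMem h3, mul_zero, enorm_zero,
      ENNReal.zero_rpow_of_pos hp]

theorem lintegral_HP {p : ℝ} (hp : 0 < p) (m : ℕ) :
    ∫⁻ z in Set.Ico (0 : ℝ) 1, ‖HP p m z‖ₑ ^ p = 1 := by
  by_cases hm : m = 0
  · have : ∀ z ∈ Set.Ico (0 : ℝ) 1, ‖HP p m z‖ₑ ^ p = 1 := by
      intro z hz
      unfold HP haar
      rw [if_pos hm, Set.indicator_of_mem hz]
      simp
    rw [setLIntegral_congr_fun measurableSet_Ico this]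
    simp
  · set k := Nat.log 2 m with hk
    have hk1 : 2 ^ k ≤ m := Nat.pow_log_le_self 2 hm
    have hk2 : m < 2 ^ (k + 1) := Nat.lt_pow_succ_log_self (by norm_num) m
    have hk1R : (2 : ℝ) ^ k ≤ m := by exact_mod_cast hk1
    have hk2R : (m : ℝ) + 1 ≤ 2 ^ (k + 1) := by exact_mod_cast hk2
    have hsub : Set.Ico (((m : ℝ) - 2 ^ k) / 2 ^ k) (((m : ℝ) - 2 ^ k + 1) / 2 ^ k) ⊆ Set.Ico 0 1 := by
      apply Set.Ico_subset_Ico
      · apply div_nonneg (by linarith) (by positivity)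
      · rw [div_le_one (by positivity)]
        rw [pow_succ] at hk2R
        linarith
    simp_rw [enorm_haar hp m hm]
    rw [lintegral_indicator measurableSet_Ico, Measure.restrict_restrict measurableSet_Ico,
      Set.inter_eq_left.2 hsub, lintegral_const, Measure.restrict_apply MeasurableSet.univ, Set.univ_inter,
      Real.volume_Ico]
    have : ((m : ℝ) - 2 ^ k + 1) / 2 ^ k - ((m : ℝ) - 2 ^ k) / 2 ^ k = (2 ^ k)⁻¹ := by
      field_simp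
      ring
    rw [this, ENNReal.ofReal_inv_of_pos (by positivity), ENNReal.ofReal_pow (by norm_num), ENNReal.ofReal_ofNat]
    exact ENNReal.mul_inv_cancel (by positivity) (by
      exact ENNReal.pow_ne_top (by norm_num))

variable {P : ℝ≥0∞} [hP : Fact (1 ≤ P)]

/-- the block functions have norm at least one -/
theorem one_le_norm_block (hP' : P ≠ ∞) (Φ : ℝ → ℝ) (hΦm : Measurable Φ)
    (hΦ : ∫⁻ z in Set.Ico (0 : ℝ) 1, ‖Φ z‖ₑ ^ P.toReal = 1) (U : ℤ → ℂ) (hU : 1 ≤ ‖U 0‖)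
    (w : Lp ℂ P (volume : Measure ℝ)) (hw : w =ᵐ[volume] fun y => ((Φ (Int.fract y) : ℝ) : ℂ) * U ⌊y⌋) :
    1 ≤ ‖w‖ := by
  have hp0 : 0 < P.toReal := ENNReal.toReal_pos P_ne_zero hP'
  have h1 : ‖w‖ₑ ^ P.toReal = ∑' n : ℤ, ‖U n‖ₑ ^ P.toReal := by
    rw [enorm_rpow_eq hP']
    have h2 : ∫⁻ y, ‖w y‖ₑ ^ P.toReal =
        ∫⁻ y, ‖(fun (z : ℝ) (n : ℤ) => ((1 * Φ z : ℝ) : ℂ) * U n) (Int.fract y) ⌊y⌋‖ₑ ^ P.toReal := by
      apply lintegral_congr_ae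
      filter_upwards [hw] with y hy
      rw [hy, one_mul]
    rw [h2, tiling_profile (fun (z : ℝ) (n : ℤ) => ((1 * Φ z : ℝ) : ℂ) * U n) P.toReal,
      lintegral_profile hp0 1 Φ hΦm hΦ]
    simp
  have h3 : (1 : ℝ≥0∞) ≤ ‖w‖ₑ ^ P.toReal := by
    rw [h1]
    refine le_trans ?_ (ENNReal.le_tsum 0)
    have : (1 : ℝ≥0∞) ≤ ‖U 0‖ₑ := by
      rw [← ofReal_norm, ← ENNReal.ofReal_one]
      exact ENNReal.ofReal_le_ofReal hU
    calc (1 : ℝ≥0∞) = 1 ^ P.toReal := (ENNReal.one_rpow _).symm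
      _ ≤ _ := ENNReal.rpow_le_rpow this hp0.le
  have h4 : (1 : ℝ≥0∞) ≤ ‖w‖ₑ := by
    by_contra h
    push Not at h
    have := ENNReal.rpow_lt_one h hp0
    exact absurd h3 (not_le.2 this)
  rw [← ofReal_norm, ← ENNReal.ofReal_one, ENNReal.ofReal_le_ofReal_iff (norm_nonneg _)] at h4
  exact h4

/-- a state of the recursion -/
structure St (P : ℝ≥0∞) where
  f : Lp ℝ P (volume : Measure ℝ)
  n : ℕ
  lam : ℕ → ℝ
  w : ℕ → Lp ℂ P (volume : Measure ℝ)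
  K : ℕ → ℝ
  β : ℝ

/-- validity of a state at stage `m` -/
def VS (G : Lp ℝ P (volume : Measure ℝ)) (C : ℝ) (m : ℕ) (s : St P) : Prop :=
  0 < s.β ∧ (∃ Cc : ℝ, 48 * C ≤ Cc ∧ Cc < 48 * C + 1 ∧ ∃ δ : ℝ, 0 ≤ δ ∧ δ < 1 / 2 ∧ Valid G s.f s.n s.lam Cc δ) ∧
    (∃ η : ℝ, 0 ≤ η ∧ η < 1 / 2 ∧ SqInv m s.w s.K η) ∧ (∀ i < m, 1 ≤ ‖s.w i‖)

/-- the relation between consecutive states -/
def RS (ρ : ℕ → ℝ) (m : ℕ) (s s' : St P) : Prop :=
  (∀ i < s.n, s'.lam i = s.lam i) ∧ s.n < s'.n ∧ (∀ i < m, s'.w i = s.w i ∧ s'.K i = s.K i) ∧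
    ‖s'.f - s.f‖ ≤ s.β / 2 ∧ s'.β ≤ s.β / 2 ∧
    (∃ κ : ℝ, 0 < κ ∧ ∃ N : ℕ, s'.n = s.n + N ∧
      ‖κ • ∑ j ∈ range N, tr (s'.lam (s.n + j)) s'.f - MK (s'.K m) (s'.w m)‖ ≤ ρ m ∧ κ * N * s'.β ≤ ρ m) ∧
    (∃ U : ℤ → ℂ, (s'.w m =ᵐ[volume] fun y => ((|haar P.toReal m (Int.fract y)| : ℝ) : ℂ) * U ⌊y⌋) ∧
      (∀ n, ‖U n‖ ≤ 100 / (1 + |(n : ℝ)|)) ∧ 1 ≤ ‖U 0‖)

/-- THE RECURSION STEP -/
theorem rec_step (hP1 : 1 < P) (hP2 : P < 2) {G : Lp ℝ P (volume : Measure ℝ)} {C : ℝ} (hC : 1 ≤ C)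
    (hG1 : ∀ (N x : ℕ) (c : ℕ → ℝ), x ≤ N →
      ‖∑ j ∈ range x, c j • tr (j : ℝ) G‖ ≤ C * ‖∑ j ∈ range N, c j • tr (j : ℝ) G‖)
    (hG2 : ∀ (N : ℕ) (c : ℕ → ℝ), ∀ j < N, |c j| ≤ C * ‖∑ j ∈ range N, c j • tr (j : ℝ) G‖)
    (hgad : ∀ (Φ : ℝ → ℝ), Measurable Φ → (∫⁻ z in Set.Ico (0 : ℝ) 1, ‖Φ z‖ₑ ^ P.toReal = 1) →
        ∀ (ρ ε : ℝ), 0 < ρ → 0 < ε →
        ∃ (N : ℕ) (A : Lp ℂ P (volume : Measure ℝ)) (η : ℕ → ℂ) (U : ℤ → ℂ) (κ : ℝ),
          1 ≤ N ∧ 0 < κ ∧ (∀ j, ‖η j‖ = 1) ∧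
          (∀ (N' : ℕ) (a : ℕ → ℝ), ‖∑ j ∈ range N', a j • tr (j : ℝ) A‖ ≤
            ε * ‖∑ j ∈ range N', a j • tr (j : ℝ) G‖) ∧
          (∀ (x : ℕ) (a : ℕ → ℝ), x ≤ N → ‖∑ j ∈ range x, a j • (η j • tr (j : ℝ) A)‖ ≤
            C * (‖∑ j ∈ range N, a j • (η j • tr (j : ℝ) A)‖ + ‖∑ j ∈ range N, a j • tr (j : ℝ) G‖)) ∧
          (((κ : ℂ) • ∑ j ∈ range N, η j • tr (j : ℝ) A : Lp ℂ P (volume : Measure ℝ)) =ᵐ[volume]
            fun y => ((Φ (Int.fract y) : ℝ) : ℂ) * U ⌊y⌋) ∧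
          (∀ n, ‖U n‖ ≤ 100 / (1 + |(n : ℝ)|)) ∧ 1 ≤ ‖U 0‖ ∧
          κ * ‖∑ j ∈ range N, tr (j : ℝ) G‖ ≤ ρ)
    (ρ : ℕ → ℝ) (hρ : ∀ m, 0 < ρ m) (m : ℕ) (s : St P) (hs : VS G C m s) :
    ∃ s' : St P, VS G C (m + 1) s' ∧ RS ρ m s s' := by
  have hP' : P ≠ ∞ := ne_top_of_lt hP2
  obtain ⟨hβ, ⟨Cc, hCc1, hCc2, δ, hδ0, hδ1, hV⟩, ⟨η₀, hη₀0, hη₀1, hSq⟩, hw1⟩ := hs
  have hC0 : 0 < C := by linarith
  have hCc0 : 0 < Cc := by linarith
  set ε : ℝ := (48 * C + 1 - Cc) / 2 with hε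
  have hε0 : 0 < ε := by rw [hε]; linarith
  set e : ℝ := min (1 / 6) (ε / (4 * Cc + 2 + 3 * ε)) with he
  have he0 : 0 < e := by positivity
  have he1 : e ≤ 1 / 6 := min_le_left _ _
  have he2 : e * (4 * Cc + 2 + 3 * ε) ≤ ε := by
    calc e * (4 * Cc + 2 + 3 * ε) ≤ ε / (4 * Cc + 2 + 3 * ε) * (4 * Cc + 2 + 3 * ε) := by
          gcongr
          exact min_le_right _ _
      _ = ε := by field_simp
  set g := ‖G‖ with hg
  have hg0 : 0 ≤ g := norm_nonneg _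
  set εg : ℝ := min ((1 / 2 - δ) / 2) (min (e / (g * (4 * s.n * Cc * C) + 1)) (s.β / 2 / (g + 1))) with hεg
  have hεg0 : 0 < εg := by
    have : 0 < 1 / 2 - δ := by linarith
    positivity
  have hεg1 : εg ≤ (1 / 2 - δ) / 2 := min_le_left _ _
  have hεg2 : εg * g * (4 * s.n * Cc * C) ≤ e := by
    have h1 : εg ≤ e / (g * (4 * s.n * Cc * C) + 1) := (min_le_right _ _).trans (min_le_left _ _)
    have h0 : 0 ≤ g * (4 * s.n * Cc * C) := by positivity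
    calc εg * g * (4 * s.n * Cc * C) = εg * (g * (4 * s.n * Cc * C)) := by ring
      _ ≤ e / (g * (4 * s.n * Cc * C) + 1) * (g * (4 * s.n * Cc * C)) := by gcongr
      _ = e * ((g * (4 * s.n * Cc * C)) / (g * (4 * s.n * Cc * C) + 1)) := by ring
      _ ≤ e := by
          apply mul_le_of_le_one_right he0.le
          rw [div_le_one (by positivity)]
          linarith
  have hεg3 : εg * g ≤ s.β / 2 := by
    have h1 : εg ≤ s.β / 2 / (g + 1) := (min_le_right _ _).trans (min_le_right _ _)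
    calc εg * g ≤ s.β / 2 / (g + 1) * g := by gcongr
      _ = s.β / 2 * (g / (g + 1)) := by ring
      _ ≤ s.β / 2 := by
          apply mul_le_of_le_one_right (by positivity)
          rw [div_le_one (by positivity)]
          linarith
  have hρm := hρ m
  have hp0 : 0 < P.toReal := ENNReal.toReal_pos P_ne_zero hP'
  obtain ⟨N, A, η, U, κ, hN1, hκ, hη, hb, hc, hd, hU, hU0, hκρ⟩ := hgad (HP P.toReal m) (measurable_HP _ _)
    (lintegral_HP hp0 m) (ρ m / 3) εg (by positivity) hεg0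
  set wm : Lp ℂ P (volume : Measure ℝ) := (κ : ℂ) • ∑ j ∈ range N, η j • tr (j : ℝ) A with hwm
  have hwm1 : 1 ≤ ‖wm‖ := one_le_norm_block hP' (HP P.toReal m) (measurable_HP _ _) (lintegral_HP hp0 m) U hU0 wm hd
  set w' : ℕ → Lp ℂ P (volume : Measure ℝ) := Function.update s.w m wm with hw'
  have hw'_lt : ∀ i < m, w' i = s.w i := fun i hi => by
    rw [hw', Function.update_of_ne (by omega)]
  have hw'_m : w' m = wm := by rw [hw', Function.update_self]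
  have hw'1 : ∀ i ≤ m, 1 ≤ ‖w' i‖ := by
    intro i hi
    rcases hi.eq_or_lt with h | h
    · rw [h, hw'_m]; exact hwm1
    · rw [hw'_lt i h]; exact hw1 i h
  have hSq' : SqInv m w' s.K η₀ := sqInv_congr m s.w w' s.K s.K η₀ (fun i hi => (hw'_lt i hi).symm) (fun _ _ => rfl) hSq
  obtain ⟨K₁, hK₁⟩ := sqInv_step hP1 hP2 (sq_point (toReal_gt_one hP1 hP2) (toReal_lt_two hP2)) m w' s.K η₀
    ((η₀ + 1 / 2) / 2) hη₀0 (by linarith) hw'1 hSq'
  obtain ⟨K₂, hK₂⟩ := exists_nat_ge K₁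
  obtain ⟨K₃, hK₃⟩ := step hP2 hC hG1 hG2 hη hκ hεg0 hb hc hκρ hV hδ1.le hCc1 he0 he1 hε0 he2 hεg2
    (ρ' := ρ m / 2) (by positivity)
  set K : ℕ := max K₂ K₃ with hK
  obtain ⟨f', lam', hlam, hf', hV', hout⟩ := hK₃ K (le_max_right _ _)
  have hKK₁ : K₁ ≤ (K : ℝ) := by
    have : (K₂ : ℝ) ≤ K := by exact_mod_cast le_max_left K₂ K₃
    linarith
  have hSq'' := hK₁ K hKK₁
  set β' : ℝ := min (s.β / 2) (ρ m / (κ * N + 1)) with hβ'
  have hβ'0 : 0 < β' := by positivity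
  refine ⟨⟨f', s.n + N, lam', w', Function.update s.K m K, β'⟩, ⟨hβ'0, ⟨Cc + ε, by linarith, ?_, δ + εg, ?_, ?_, hV'⟩,
    ⟨(η₀ + 1 / 2) / 2, by linarith, by linarith, hSq''⟩, ?_⟩, ?_, ?_, ?_, ?_, ?_, ?_, ?_⟩
  · rw [hε]; linarith
  · linarith
  · linarith
  · intro i hi
    exact hw'1 i (by omega)
  · exact hlam
  · show s.n < s.n + N
    omega
  · intro i hi
    refine ⟨hw'_lt i hi, ?_⟩
    show Function.update s.K m (K : ℝ) i = s.K i
    rw [Function.update_of_ne (by omega)]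
  · exact hf'.trans hεg3
  · exact min_le_left _ _
  · refine ⟨κ, hκ, N, rfl, ?_, ?_⟩
    · show ‖κ • ∑ j ∈ range N, tr (lam' (s.n + j)) f' - MK (Function.update s.K m (K : ℝ) m) (w' m)‖ ≤ ρ m
      rw [Function.update_self, hw'_m]
      refine hout.trans ?_
      linarith
    · show κ * N * β' ≤ ρ m
      calc κ * N * β' ≤ κ * N * (ρ m / (κ * N + 1)) := by
            gcongr
            exact min_le_right _ _
        _ = ρ m * ((κ * N) / (κ * N + 1)) := by ring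
        _ ≤ ρ m := by
            apply mul_le_of_le_one_right hρm.le
            rw [div_le_one (by positivity)]
            linarith
  · refine ⟨U, ?_, hU, hU0⟩
    show w' m =ᵐ[volume] _
    rw [hw'_m]
    exact hd

end Pool.Agent.Lib.MP89175a
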