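import Mathlib
import Pool.Agent.Lib.MP_89175a_an.Recursion

/-!
Comparison of the square function of the blocks with the Haar square function.
-/

open Finset MeasureTheory Complex Filter Topology
open scoped ENNReal NNReal

namespace Pool.Agent.Lib.MP89175a

theorem summable_v {p : ℝ} (hp : 1 < p) : Summable fun n : ℤ => (100 / (1 + |(n : ℝ)|)) ^ p := by
  have h1 : Summable fun n : ℤ => |(n : ℝ)| ^ (-p) := by
    exact Real.summable_abs_int_rpow hp
  have h2 : Summable fun n : ℤ => (100 : ℝ) ^ p * |(n : ℝ)| ^ (-p) + (if n = 0 then (100 : ℝ) ^ p else 0) := by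
    apply (h1.mul_left _).add
    exact summable_of_finite_support ((Set.finite_singleton (0 : ℤ)).subset (by
      intro n hn
      rw [Function.mem_support] at hn
      by_contra h
      apply hn
      rw [if_neg (by simpa using h)]))
  refine Summable.of_nonneg_of_le (fun n => by positivity) (fun n => ?_) h2
  by_cases hn : n = 0
  · rw [hn, if_pos rfl]
    simp only [Int.cast_zero, abs_zero, add_zero, div_one]
    have : 0 ≤ (100 : ℝ) ^ p * (0 : ℝ) ^ (-p) := by positivity
    linarith
  · rw [if_neg hn, add_zero, Real.div_rpow (by norm_num) (by positivity), div_eq_mul_inv]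
    gcongr
    rw [Real.rpow_neg (abs_nonneg _)]
    have h3 : 0 < |(n : ℝ)| := by
      rw [abs_pos]
      exact_mod_cast hn
    gcongr
    linarith

theorem rpow_sum_le {ι : Type*} (s : Finset ι) (f : ι → ℝ) (hf : ∀ i, 0 ≤ f i) {r : ℝ} (hr : 0 < r) (hr1 : r ≤ 1) :
    (∑ i ∈ s, f i) ^ r ≤ ∑ i ∈ s, f i ^ r := by
  classical
  induction s using Finset.induction_on with
  | empty => simp [Real.zero_rpow hr.ne']
  | insert a s ha ih =>
    rw [Finset.sum_insert ha, Finset.sum_insert ha]
    exact (Real.rpow_add_le_add_rpow (hf a) (Finset.sum_nonneg fun i _ => hf i) hr.le hr1).trans (by gcongr)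

variable {P : ℝ≥0∞} [hP : Fact (1 ≤ P)]

theorem dq_haar (hP1 : 1 < P) (hP2 : P < 2) : DqHaar P := by
  have hP' : P ≠ ∞ := ne_top_of_lt hP2
  set p := P.toReal with hp
  have h1 : 1 < p := toReal_gt_one hP1 hP2
  have h2 : p < 2 := toReal_lt_two hP2
  have hp0 : 0 < p := by linarith
  set C := ∑' n : ℤ, (100 / (1 + |(n : ℝ)|)) ^ p with hC
  have hC0 : 0 < C := by
    have := (summable_v h1).le_tsum 0 (fun n _ => by positivity)
    refine lt_of_lt_of_le ?_ this
    positivity
  refine ⟨C, hC0, fun w U hw hU hU0 => ⟨fun i => ?_, fun M c => ?_⟩⟩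
  · exact one_le_norm_block hP' (HP p i) (measurable_HP _ _) (lintegral_HP hp0 i) (U i) (hU0 i) (w i) (hw i)
  -- the integrand
  set Q : ℝ → ℝ := fun z => (∑ m ∈ range M, c m ^ 2 * haar p m z ^ 2) ^ (p / 2) with hQ
  have hQm : Measurable Q := by
    apply Measurable.pow_const
    apply Finset.measurable_sum
    intro m _
    exact ((measurable_haar p m).pow_const 2).const_mul _
  have hQ0 : ∀ z, 0 ≤ Q z := fun z => by
    rw [hQ]
    positivity
  set J : ℝ≥0∞ := ∫⁻ z in Set.Ico (0 : ℝ) 1, ENNReal.ofReal (Q z) with hJ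
  have hI : ∫ z in Set.Ico (0 : ℝ) 1, Q z = J.toReal := by
    rw [integral_eq_lintegral_of_nonneg_ae (Eventually.of_forall hQ0) hQm.aestronglyMeasurable]
  have hJtop : J ≠ ∞ := by
    have h3 : ∀ z, ENNReal.ofReal (Q z) ≤ ∑ m ∈ range M, ENNReal.ofReal (|c m| ^ p) * ‖HP p m z‖ₑ ^ p := by
      intro z
      have h4 : Q z ≤ ∑ m ∈ range M, |c m| ^ p * (HP p m z) ^ p := by
        rw [hQ]
        simp only
        have h5 : ∀ m, |c m| ^ p * (HP p m z) ^ p = (c m ^ 2 * haar p m z ^ 2) ^ (p / 2) := by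
          intro m
          unfold HP
          rw [← Real.mul_rpow (abs_nonneg _) (abs_nonneg _), ← abs_mul,
            show c m ^ 2 * haar p m z ^ 2 = |c m * haar p m z| ^ 2 by rw [sq_abs, mul_pow],
            ← Real.rpow_natCast, ← Real.rpow_mul (abs_nonneg _)]
          congr 1
          push_cast
          ring
        simp_rw [h5]
        exact rpow_sum_le (range M) _ (fun m => by positivity) (by positivity) (by linarith)
      calc ENNReal.ofReal (Q z) ≤ ENNReal.ofReal (∑ m ∈ range M, |c m| ^ p * (HP p m z) ^ p) :=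
            ENNReal.ofReal_le_ofReal h4
        _ = _ := by
            rw [ENNReal.ofReal_sum_of_nonneg (fun m _ => by
              have : 0 ≤ HP p m z := abs_nonneg _
              positivity)]
            refine Finset.sum_congr rfl fun m _ => ?_
            have h6 : 0 ≤ HP p m z := abs_nonneg _
            rw [ENNReal.ofReal_mul (by positivity), Real.enorm_eq_ofReal h6,
              ENNReal.ofReal_rpow_of_nonneg h6 hp0.le]
    have h4 : J ≤ ∑ m ∈ range M, ENNReal.ofReal (|c m| ^ p) := by
      calc J ≤ ∫⁻ z in Set.Ico (0 : ℝ) 1, ∑ m ∈ range M, ENNReal.ofReal (|c m| ^ p) * ‖HP p m z‖ₑ ^ p :=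
            lintegral_mono h3
        _ = ∑ m ∈ range M, ENNReal.ofReal (|c m| ^ p) := by
            rw [lintegral_finsetSum _ (fun m _ => ((measurable_HP p m).enorm.pow_const p).const_mul _)]
            refine Finset.sum_congr rfl fun m _ => ?_
            rw [lintegral_const_mul _ ((measurable_HP p m).enorm.pow_const p), lintegral_HP hp0, mul_one]
    exact ne_top_of_le_ne_top (ENNReal.sum_ne_top.2 fun m _ => ENNReal.ofReal_ne_top) h4
  -- the square function of the blocks
  set D : ℝ≥0∞ := ∫⁻ y, ENNReal.ofReal ((∑ i ∈ range M, c i ^ 2 * ‖w i y‖ ^ 2) ^ (p / 2)) with hD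
  have hDQ : DQ M w c = D.toReal := by
    unfold DQ
    rw [integral_eq_lintegral_of_nonneg_ae (Eventually.of_forall fun y => by positivity)]
    apply AEMeasurable.aestronglyMeasurable
    apply AEMeasurable.pow_const
    apply Finset.aemeasurable_fun_sum
    intro i _
    exact ((Lp.aestronglyMeasurable (w i)).norm.aemeasurable.pow_const 2).const_mul _
  have hDsum : D = ∑' n : ℤ, ∫⁻ z in Set.Ico (0 : ℝ) 1,
      ENNReal.ofReal ((∑ i ∈ range M, c i ^ 2 * (haar p i z ^ 2 * ‖U i n‖ ^ 2)) ^ (p / 2)) := by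
    have hae : ∀ᵐ y : ℝ, ∀ i : ℕ, w i y = ((|haar p i (Int.fract y)| : ℝ) : ℂ) * U i ⌊y⌋ := by
      rw [ae_all_iff]
      exact fun i => hw i
    have h3 : D = ∫⁻ y, ENNReal.ofReal ((∑ i ∈ range M, c i ^ 2 * (haar p i (Int.fract y) ^ 2 * ‖U i ⌊y⌋‖ ^ 2)) ^ (p / 2)) := by
      rw [hD]
      apply lintegral_congr_ae
      filter_upwards [hae] with y hy
      congr 2
      refine Finset.sum_congr rfl fun i _ => ?_
      rw [hy i, norm_mul, Complex.norm_real, Real.norm_eq_abs, abs_abs, mul_pow, sq_abs]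
    rw [h3, lintegral_tiling]
    refine tsum_congr fun n => ?_
    apply setLIntegral_congr_fun measurableSet_Ico
    intro z hz
    dsimp only
    rw [Int.fract_add_intCast, Int.floor_add_intCast, Int.fract_eq_self.2 hz, Int.floor_eq_zero_iff.2 hz, zero_add]
  have hlow : J ≤ D := by
    rw [hDsum]
    refine le_trans ?_ (ENNReal.le_tsum 0)
    apply lintegral_mono
    intro z
    apply ENNReal.ofReal_le_ofReal
    rw [hQ]
    simp only
    apply Real.rpow_le_rpow (Finset.sum_nonneg fun m _ => by positivity) _ (by positivity)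
    apply Finset.sum_le_sum
    intro m _
    have h3 : 1 ≤ ‖U m 0‖ ^ 2 := by
      have := hU0 m
      nlinarith
    have h4 : 0 ≤ haar p m z ^ 2 := sq_nonneg _
    gcongr
    nlinarith
  have hup : D ≤ ENNReal.ofReal C * J := by
    rw [hDsum, hC, ENNReal.ofReal_tsum_of_nonneg (fun n => by positivity) (summable_v h1), ← ENNReal.tsum_mul_right]
    apply ENNReal.tsum_le_tsum
    intro n
    rw [hJ, ← lintegral_const_mul _ hQm.ennreal_ofReal]
    apply lintegral_mono
    intro z
    dsimp only
    rw [← ENNReal.ofReal_mul (by positivity)]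
    apply ENNReal.ofReal_le_ofReal
    rw [hQ]
    simp only
    have h3 : (100 / (1 + |(n : ℝ)|)) ^ p = ((100 / (1 + |(n : ℝ)|)) ^ 2) ^ (p / 2) := by
      rw [← Real.rpow_natCast, ← Real.rpow_mul (by positivity)]
      congr 1
      push_cast
      ring
    rw [h3, ← Real.mul_rpow (by positivity) (Finset.sum_nonneg fun m _ => by positivity)]
    apply Real.rpow_le_rpow (Finset.sum_nonneg fun m _ => by positivity) _ (by positivity)
    rw [Finset.mul_sum]
    apply Finset.sum_le_sum
    intro m _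
    have h4 : ‖U m n‖ ^ 2 ≤ (100 / (1 + |(n : ℝ)|)) ^ 2 := by
      gcongr
      exact hU m n
    calc c m ^ 2 * (haar p m z ^ 2 * ‖U m n‖ ^ 2) ≤ c m ^ 2 * (haar p m z ^ 2 * (100 / (1 + |(n : ℝ)|)) ^ 2) := by
          gcongr
      _ = _ := by ring
  have hDtop : D ≠ ∞ := ne_top_of_le_ne_top (ENNReal.mul_ne_top ENNReal.ofReal_ne_top hJtop) hup
  have hI' : (∫ y in Set.Ico (0 : ℝ) 1, (∑ m ∈ range M, c m ^ 2 * haar P.toReal m y ^ 2) ^ (P.toReal / 2)) = J.toReal := hI
  rw [hI', hDQ]
  constructor
  · exact ENNReal.toReal_mono hDtop hlow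
  · have := ENNReal.toReal_mono (ENNReal.mul_ne_top ENNReal.ofReal_ne_top hJtop) hup
    rwa [ENNReal.toReal_mul, ENNReal.toReal_ofReal hC0.le] at this

end Pool.Agent.Lib.MP89175a
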