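import Mathlib
import Pool.Agent.Lib.MP_89175a_an.Spec

/-!
MODULE HAAR: the square function equivalence and the density of the Haar system.
-/

set_option autoImplicit false

open Finset MeasureTheory

namespace Pool.Agent.Lib.MP89175a

/-! ### The two-point inequality -/

theorem two_point_deriv {p : ℝ} (hp2 : p < 2) {v : ℝ} (hv0 : 0 ≤ v) (hv1 : v < 1) :
    2 ≤ (1 + v) ^ (p - 2) + (1 - v) ^ (p - 2) := by
  have ha : 0 < (1 + v) ^ (p - 2) := Real.rpow_pos_of_pos (by linarith) _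
  have hb : 0 < (1 - v) ^ (p - 2) := Real.rpow_pos_of_pos (by linarith) _
  have hab : 1 ≤ (1 + v) ^ (p - 2) * (1 - v) ^ (p - 2) := by
    rw [← Real.mul_rpow (by linarith) (by linarith)]
    apply Real.one_le_rpow_of_pos_of_le_one_of_nonpos
    · nlinarith
    · nlinarith
    · linarith
  nlinarith [sq_nonneg ((1 + v) ^ (p - 2) - (1 - v) ^ (p - 2))]

theorem two_point_first {p : ℝ} (hp : 1 < p) (hp2 : p < 2) {v : ℝ} (hv0 : 0 ≤ v) (hv1 : v < 1) :
    2 * (p - 1) * v ≤ (1 + v) ^ (p - 1) - (1 - v) ^ (p - 1) := by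
  have hder : ∀ v ∈ Set.Ico (0 : ℝ) 1, HasDerivAt
      (fun v : ℝ => (1 + v) ^ (p - 1) - (1 - v) ^ (p - 1) - 2 * (p - 1) * v)
      ((p - 1) * (1 + v) ^ (p - 2) + (p - 1) * (1 - v) ^ (p - 2) - 2 * (p - 1)) v := by
    intro v hv
    have h1 : HasDerivAt (fun v : ℝ => (1 + v) ^ (p - 1)) (1 * (p - 1) * (1 + v) ^ (p - 1 - 1)) v :=
      HasDerivAt.rpow_const ((hasDerivAt_id v).const_add 1) (Or.inl (by simp; linarith [hv.1]))
    have h2 : HasDerivAt (fun v : ℝ => (1 - v) ^ (p - 1))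
        (-1 * (p - 1) * (1 - v) ^ (p - 1 - 1)) v :=
      HasDerivAt.rpow_const ((hasDerivAt_id v).const_sub 1) (Or.inl (by simp; linarith [hv.2]))
    have h3 : HasDerivAt (fun v : ℝ => 2 * (p - 1) * v) (2 * (p - 1)) v := by
      simpa using (hasDerivAt_id v).const_mul (2 * (p - 1))
    refine ((h1.sub h2).sub h3).congr_deriv ?_
    rw [show p - 1 - 1 = p - 2 by ring]; ring
  have hmono : MonotoneOn (fun v : ℝ => (1 + v) ^ (p - 1) - (1 - v) ^ (p - 1) - 2 * (p - 1) * v)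
      (Set.Ico (0 : ℝ) 1) := by
    apply monotoneOn_of_deriv_nonneg (convex_Ico 0 1)
    · exact fun v hv => (hder v hv).continuousAt.continuousWithinAt
    · exact fun v hv => (hder v (interior_subset hv)).differentiableAt.differentiableWithinAt
    · intro v hv
      have hv' := interior_subset hv
      rw [(hder v hv').deriv]
      have := two_point_deriv hp2 hv'.1 hv'.2
      nlinarith
  have h := hmono (Set.left_mem_Ico.2 one_pos) ⟨hv0, hv1⟩ hv0
  simp at h
  linarith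

/-- for `0 ≤ u ≤ 1`, `1 < p < 2`: `(1+u)^p + (1-u)^p ≥ 2 + p (p-1) u^2`. -/
theorem two_point_aux {p : ℝ} (hp : 1 < p) (hp2 : p < 2) {u : ℝ} (hu : 0 ≤ u) (hu1 : u ≤ 1) :
    2 + p * (p - 1) * u ^ 2 ≤ (1 + u) ^ p + (1 - u) ^ p := by
  have hder : ∀ v ∈ Set.Ioo (0 : ℝ) 1, HasDerivAt
      (fun v : ℝ => (1 + v) ^ p + (1 - v) ^ p - p * (p - 1) * v ^ 2)
      (p * ((1 + v) ^ (p - 1) - (1 - v) ^ (p - 1) - 2 * (p - 1) * v)) v := by
    intro v hv
    have h1 : HasDerivAt (fun v : ℝ => (1 + v) ^ p) (1 * p * (1 + v) ^ (p - 1)) v :=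
      HasDerivAt.rpow_const ((hasDerivAt_id v).const_add 1) (Or.inl (by simp; linarith [hv.1]))
    have h2 : HasDerivAt (fun v : ℝ => (1 - v) ^ p) (-1 * p * (1 - v) ^ (p - 1)) v :=
      HasDerivAt.rpow_const ((hasDerivAt_id v).const_sub 1) (Or.inl (by simp; linarith [hv.2]))
    have h3 : HasDerivAt (fun v : ℝ => p * (p - 1) * v ^ 2) (p * (p - 1) * (2 * v)) v := by
      simpa using (hasDerivAt_pow 2 v).const_mul (p * (p - 1))
    refine ((h1.add h2).sub h3).congr_deriv ?_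
    ring
  have hmono : MonotoneOn (fun v : ℝ => (1 + v) ^ p + (1 - v) ^ p - p * (p - 1) * v ^ 2)
      (Set.Icc (0 : ℝ) 1) := by
    apply monotoneOn_of_deriv_nonneg (convex_Icc 0 1)
    · apply Continuous.continuousOn
      have hp0 : 0 ≤ p := by linarith
      have c1 : Continuous fun v : ℝ => (1 + v) ^ p :=
        (continuous_const.add continuous_id).rpow_const fun _ => Or.inr hp0
      have c2 : Continuous fun v : ℝ => (1 - v) ^ p :=
        (continuous_const.sub continuous_id).rpow_const fun _ => Or.inr hp0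
      exact (c1.add c2).sub (by fun_prop)
    · intro v hv
      rw [interior_Icc] at hv
      exact (hder v hv).differentiableAt.differentiableWithinAt
    · intro v hv
      rw [interior_Icc] at hv
      rw [(hder v hv).deriv]
      have := two_point_first hp hp2 hv.1.le hv.2
      have hp0 : 0 ≤ p := by linarith
      exact mul_nonneg hp0 (by linarith)
  have h := hmono (Set.left_mem_Icc.2 zero_le_one) ⟨hu, hu1⟩ hu
  simp only [add_zero, Real.one_rpow, sub_zero] at h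
  norm_num at h
  linarith

/-- scaled version -/
theorem two_point_scaled {p : ℝ} (hp : 1 < p) (hp2 : p < 2) {a b : ℝ} (hb : 0 ≤ b) (hab : b ≤ a) :
    2 * (a ^ 2 + (p - 1) * b ^ 2) ^ (p / 2) ≤ (a + b) ^ p + (a - b) ^ p := by
  have hp0 : p ≠ 0 := by linarith
  rcases (hb.trans hab).eq_or_lt with ha | ha
  · have hb0 : b = 0 := le_antisymm (by rw [ha]; exact hab) hb
    subst hb0
    rw [← ha]
    simp [Real.zero_rpow hp0, Real.zero_rpow (show p / 2 ≠ 0 by positivity)]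
  set u := b / a with hu
  have hu0 : 0 ≤ u := by positivity
  have hu1 : u ≤ 1 := by rw [hu, div_le_one ha]; exact hab
  have hbu : b = u * a := by rw [hu]; field_simp
  have h1 := two_point_aux hp hp2 hu0 hu1
  have h2 : (1 + (p - 1) * u ^ 2) ^ (p / 2) ≤ 1 + p / 2 * ((p - 1) * u ^ 2) := by
    apply rpow_one_add_le_one_add_mul_self
    · nlinarith [mul_nonneg (sub_nonneg.2 hp.le) (sq_nonneg u)]
    · linarith
    · linarith
  have e1 : a ^ 2 + (p - 1) * b ^ 2 = a ^ 2 * (1 + (p - 1) * u ^ 2) := by rw [hbu]; ring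
  have e2 : a + b = a * (1 + u) := by rw [hbu]; ring
  have e3 : a - b = a * (1 - u) := by rw [hbu]; ring
  have e4 : (a ^ 2) ^ (p / 2) = a ^ p := by
    rw [← Real.rpow_natCast, ← Real.rpow_mul ha.le]; congr 1; push_cast; ring
  rw [e1, e2, e3, Real.mul_rpow (by positivity)
      (by nlinarith [mul_nonneg (sub_nonneg.2 hp.le) (sq_nonneg u)]),
    Real.mul_rpow ha.le (by linarith), Real.mul_rpow ha.le (by linarith), e4]
  have hap : 0 < a ^ p := Real.rpow_pos_of_pos ha _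
  nlinarith

/-- the two point inequality -/
theorem two_point {p : ℝ} (hp : 1 < p) (hp2 : p < 2) (x d : ℝ) :
    2 * (x ^ 2 + (p - 1) * d ^ 2) ^ (p / 2) ≤ |x + d| ^ p + |x - d| ^ p := by
  -- symmetric in signs: reduce to x, d ≥ 0
  have hsum : |x + d| ^ p + |x - d| ^ p = (|x| + |d|) ^ p + |(|x| - |d|)| ^ p := by
    rcases le_total 0 x with hx | hx <;> rcases le_total 0 d with hd | hd
    · rw [abs_of_nonneg hx, abs_of_nonneg hd, abs_of_nonneg (by linarith : 0 ≤ x + d)]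
    · rw [abs_of_nonneg hx, abs_of_nonpos hd, abs_of_nonneg (by linarith : 0 ≤ x - d), add_comm]
      congr 2
      rw [sub_neg_eq_add]
    · rw [abs_of_nonpos hx, abs_of_nonneg hd, abs_of_nonpos (by linarith : x - d ≤ 0), add_comm]
      congr 2
      · ring
      · rw [← abs_neg]; congr 1; ring
    · rw [abs_of_nonpos hx, abs_of_nonpos hd, abs_of_nonpos (by linarith : x + d ≤ 0)]
      congr 2
      · ring
      · rw [← abs_neg]; congr 1; ring
  rw [hsum, ← sq_abs x, ← sq_abs d]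
  rcases le_total |d| |x| with h | h
  · rw [abs_of_nonneg (sub_nonneg.2 h)]
    exact two_point_scaled hp hp2 (abs_nonneg d) h
  · rw [abs_sub_comm, abs_of_nonneg (sub_nonneg.2 h), add_comm |x| |d|]
    refine le_trans ?_ (two_point_scaled hp hp2 (abs_nonneg x) h)
    apply mul_le_mul_of_nonneg_left _ zero_le_two
    apply Real.rpow_le_rpow
    · have := sq_nonneg |x|
      have := sq_nonneg |d|
      have : 0 ≤ p - 1 := by linarith
      positivity
    · have h2 : |x| ^ 2 ≤ |d| ^ 2 := pow_le_pow_left₀ (abs_nonneg x) h 2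
      nlinarith
    · linarith

/-! ### Concavity inequalities -/

theorem rpow_combo {q : ℝ} (hq0 : 0 ≤ q) (hq1 : q ≤ 1) {a b l : ℝ} (ha : 0 ≤ a) (hb : 0 ≤ b)
    (hl0 : 0 ≤ l) (hl1 : l ≤ 1) :
    l * a ^ q + (1 - l) * b ^ q ≤ (l * a + (1 - l) * b) ^ q := by
  have h := (Real.concaveOn_rpow hq0 hq1).2 (Set.mem_Ici.2 ha) (Set.mem_Ici.2 hb) hl0
    (sub_nonneg.2 hl1) (by ring)
  simpa [smul_eq_mul] using h

theorem rpow_half {q : ℝ} (hq0 : 0 ≤ q) (hq1 : q ≤ 1) {a b : ℝ} (ha : 0 ≤ a) (hb : 0 ≤ b) :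
    a ^ q + b ^ q ≤ 2 * ((a + b) / 2) ^ q := by
  have h := rpow_combo hq0 hq1 ha hb (l := 1 / 2) (by norm_num) (by norm_num)
  have e : (1 / 2 * a + (1 - 1 / 2) * b) = (a + b) / 2 := by ring
  rw [e] at h
  linarith

/-- increments are decreasing -/
theorem rpow_incr {q : ℝ} (hq0 : 0 ≤ q) (hq1 : q ≤ 1) {s t h : ℝ} (hs : 0 ≤ s) (hst : s ≤ t)
    (hh : 0 ≤ h) : (t + h) ^ q - t ^ q ≤ (s + h) ^ q - s ^ q := by
  rcases hh.eq_or_lt with h0 | hh
  · subst h0; simp
  have hden : 0 < t - s + h := by linarith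
  set l := h / (t - s + h) with hl
  have hl0 : 0 ≤ l := by positivity
  have hl1 : l ≤ 1 := by rw [hl, div_le_one hden]; linarith
  have hlm : l * (t - s + h) = h := by rw [hl]; field_simp
  have h1 := rpow_combo hq0 hq1 hs (by linarith : 0 ≤ t + h) hl0 hl1
  have h2 := rpow_combo hq0 hq1 hs (by linarith : 0 ≤ t + h) (sub_nonneg.2 hl1) (by linarith)
  have e1 : l * s + (1 - l) * (t + h) = t := by nlinarith
  have e2 : (1 - l) * s + (1 - (1 - l)) * (t + h) = s + h := by nlinarith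
  rw [e1] at h1
  rw [e2] at h2
  linarith

theorem rpow_scale {q : ℝ} (hq0 : 0 ≤ q) (hq1 : q ≤ 1) {x s r : ℝ} (hx : 0 ≤ x) (hs : 0 ≤ s)
    (hr : 1 ≤ r) : (x + r * s) ^ q - x ^ q ≤ r * ((x + s) ^ q - x ^ q) := by
  have hr0 : 0 < r := by linarith
  have hl1 : 1 / r ≤ 1 := by rw [div_le_one hr0]; exact hr
  have h1 := rpow_combo hq0 hq1 (by positivity : 0 ≤ x + r * s) hx (l := 1 / r) (by positivity) hl1
  have e1 : 1 / r * (x + r * s) + (1 - 1 / r) * x = x + s := by field_simp; ring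
  rw [e1] at h1
  have h2 := mul_le_mul_of_nonneg_left h1 hr0.le
  have e2 : r * (1 / r * (x + r * s) ^ q + (1 - 1 / r) * x ^ q) =
      (x + r * s) ^ q + (r - 1) * x ^ q := by field_simp
  rw [e2] at h2
  linarith

theorem sq_rpow_half (p x : ℝ) : (x ^ 2) ^ (p / 2) = |x| ^ p := by
  rw [← sq_abs, ← Real.rpow_natCast, ← Real.rpow_mul (abs_nonneg x)]
  congr 1; push_cast; ring

/-- upper bound of the increments of the mixed functional -/
theorem mixed_incr {p : ℝ} (hp : 1 < p) (hp2 : p < 2) (x d : ℝ) {t : ℝ} (ht : 0 ≤ t) :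
    ((x + d) ^ 2 + (t + d ^ 2)) ^ (p / 2) + ((x - d) ^ 2 + (t + d ^ 2)) ^ (p / 2) -
      2 * (x ^ 2 + t) ^ (p / 2) ≤ 2 * ((x ^ 2 + t + 2 * d ^ 2) ^ (p / 2) - (x ^ 2 + t) ^ (p / 2)) := by
  have h := rpow_half (q := p / 2) (by linarith) (by linarith)
    (by positivity : 0 ≤ (x + d) ^ 2 + (t + d ^ 2)) (by positivity : 0 ≤ (x - d) ^ 2 + (t + d ^ 2))
  have e : ((x + d) ^ 2 + (t + d ^ 2) + ((x - d) ^ 2 + (t + d ^ 2))) / 2 = x ^ 2 + t + 2 * d ^ 2 := by
    ring
  rw [e] at h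
  linarith

theorem step_one {p : ℝ} (hp : 1 < p) (hp2 : p < 2) (x d : ℝ) {t : ℝ} (ht : 0 ≤ t) :
    ((x + d) ^ 2 + (t + d ^ 2)) ^ (p / 2) + ((x - d) ^ 2 + (t + d ^ 2)) ^ (p / 2) -
      2 * (x ^ 2 + t) ^ (p / 2) ≤ 2 / (p - 1) * (|x + d| ^ p + |x - d| ^ p - 2 * |x| ^ p) := by
  have hq0 : 0 ≤ p / 2 := by linarith
  have hq1 : p / 2 ≤ 1 := by linarith
  have hp1 : 0 < p - 1 := by linarith
  refine (mixed_incr hp hp2 x d ht).trans ?_
  have h1 := rpow_incr hq0 hq1 (sq_nonneg x) (by linarith : x ^ 2 ≤ x ^ 2 + t)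
    (by positivity : 0 ≤ 2 * d ^ 2)
  have h2 := rpow_scale hq0 hq1 (sq_nonneg x) (by positivity : 0 ≤ (p - 1) * d ^ 2)
    (by rw [le_div_iff₀ hp1]; linarith : 1 ≤ 2 / (p - 1))
  have e : 2 / (p - 1) * ((p - 1) * d ^ 2) = 2 * d ^ 2 := by field_simp
  rw [e] at h2
  have h3 := two_point hp hp2 x d
  rw [sq_rpow_half] at h1 h2
  have h4 : 0 < 2 / (p - 1) := by positivity
  have h5 := mul_le_mul_of_nonneg_left h3 h4.le
  nlinarith

theorem step_two {p : ℝ} (hp : 1 < p) (hp2 : p < 2) (x d : ℝ) {t : ℝ} (ht : 0 ≤ t) :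
    ((x + d) ^ 2 + (t + d ^ 2)) ^ (p / 2) + ((x - d) ^ 2 + (t + d ^ 2)) ^ (p / 2) -
      2 * (x ^ 2 + t) ^ (p / 2) ≤
      2 * ((t + d ^ 2) ^ (p / 2) + (t + d ^ 2) ^ (p / 2) - 2 * t ^ (p / 2)) := by
  have hq0 : 0 ≤ p / 2 := by linarith
  have hq1 : p / 2 ≤ 1 := by linarith
  refine (mixed_incr hp hp2 x d ht).trans ?_
  have h1 := rpow_incr hq0 hq1 ht (by nlinarith [sq_nonneg x] : t ≤ x ^ 2 + t)
    (by positivity : 0 ≤ 2 * d ^ 2)
  have h2 := rpow_scale hq0 hq1 ht (sq_nonneg d) (by norm_num : (1 : ℝ) ≤ 2)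
  linarith

/-! ### The structure of the Haar system -/

/-- level -/
def lv (m : ℕ) : ℕ := Nat.log 2 m

/-- position -/
def ps (m : ℕ) : ℕ := m - 2 ^ Nat.log 2 m

theorem two_pow_lv_le {m : ℕ} (hm : 1 ≤ m) : 2 ^ lv m ≤ m :=
  Nat.pow_log_le_self 2 (by omega)

theorem lt_two_pow_lv {m : ℕ} : m < 2 ^ (lv m + 1) :=
  Nat.lt_pow_succ_log_self (by norm_num) m

theorem ps_add {m : ℕ} (hm : 1 ≤ m) : ps m + 2 ^ lv m = m := by
  have := two_pow_lv_le hm
  unfold ps lv at *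
  omega

theorem ps_lt {m : ℕ} (hm : 1 ≤ m) : ps m < 2 ^ lv m := by
  have h1 := ps_add hm
  have h2 := lt_two_pow_lv (m := m)
  rw [pow_succ] at h2
  omega

theorem cast_ps {m : ℕ} (hm : 1 ≤ m) : (m : ℝ) - 2 ^ Nat.log 2 m = (ps m : ℝ) := by
  have h := ps_add hm
  have : (m : ℝ) = (ps m : ℝ) + 2 ^ lv m := by exact_mod_cast h.symm
  rw [this]; unfold lv; ring

theorem mem_half_iff (k i : ℕ) (y : ℝ) :
    y ∈ Set.Ico ((i : ℝ) / 2 ^ k) (((i : ℝ) + 1 / 2) / 2 ^ k) ↔ ⌊y * 2 ^ (k + 1)⌋ = 2 * (i : ℤ) := by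
  have h2 : (0 : ℝ) < 2 ^ k := by positivity
  rw [Int.floor_eq_iff, Set.mem_Ico, div_le_iff₀ h2, lt_div_iff₀ h2, pow_succ]
  push_cast
  constructor
  · rintro ⟨h1, h2⟩; constructor <;> nlinarith
  · rintro ⟨h1, h2⟩; constructor <;> nlinarith

theorem mem_half_iff' (k i : ℕ) (y : ℝ) :
    y ∈ Set.Ico (((i : ℝ) + 1 / 2) / 2 ^ k) (((i : ℝ) + 1) / 2 ^ k) ↔
      ⌊y * 2 ^ (k + 1)⌋ = 2 * (i : ℤ) + 1 := by
  have h2 : (0 : ℝ) < 2 ^ k := by positivity
  rw [Int.floor_eq_iff, Set.mem_Ico, div_le_iff₀ h2, lt_div_iff₀ h2, pow_succ]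
  push_cast
  constructor
  · rintro ⟨h1, h2⟩; constructor <;> nlinarith
  · rintro ⟨h1, h2⟩; constructor <;> nlinarith

/-- left half of the support -/
def Lh (m : ℕ) : Set ℝ := Set.Ico ((ps m : ℝ) / 2 ^ lv m) (((ps m : ℝ) + 1 / 2) / 2 ^ lv m)

/-- right half of the support -/
def Rh (m : ℕ) : Set ℝ := Set.Ico (((ps m : ℝ) + 1 / 2) / 2 ^ lv m) (((ps m : ℝ) + 1) / 2 ^ lv m)

theorem haar_eq (p : ℝ) {m : ℕ} (hm : 1 ≤ m) (y : ℝ) :
    haar p m y = (2 : ℝ) ^ ((lv m : ℝ) / p) * ((Lh m).indicator 1 y - (Rh m).indicator 1 y) := by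
  unfold haar Lh Rh
  rw [if_neg (by omega), cast_ps hm]
  rfl

theorem haar_zero (p : ℝ) (y : ℝ) : haar p 0 y = (Set.Ico (0 : ℝ) 1).indicator 1 y := by
  simp [haar]

theorem mem_Lh {m : ℕ} {y : ℝ} : y ∈ Lh m ↔ ⌊y * 2 ^ (lv m + 1)⌋ = 2 * (ps m : ℤ) :=
  mem_half_iff _ _ _

theorem mem_Rh {m : ℕ} {y : ℝ} : y ∈ Rh m ↔ ⌊y * 2 ^ (lv m + 1)⌋ = 2 * (ps m : ℤ) + 1 :=
  mem_half_iff' _ _ _

theorem floor_coarse (y : ℝ) {j K : ℕ} (h : j ≤ K) : ⌊y * 2 ^ j⌋ = ⌊y * 2 ^ K⌋ / (2 ^ (K - j) : ℕ) := by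
  obtain ⟨r, rfl⟩ := Nat.exists_eq_add_of_le h
  rw [Nat.add_sub_cancel_left, ← Int.floor_div_natCast]
  congr 1
  push_cast
  rw [pow_add]
  field_simp

theorem haar_congr (p : ℝ) {m K : ℕ} (hm : m < 2 ^ K) {y z : ℝ}
    (h : ⌊y * 2 ^ K⌋ = ⌊z * 2 ^ K⌋) : haar p m y = haar p m z := by
  have key : ∀ j ≤ K, ⌊y * 2 ^ j⌋ = ⌊z * 2 ^ j⌋ := by
    intro j hj
    rw [floor_coarse y hj, floor_coarse z hj, h]
  rcases Nat.eq_zero_or_pos m with h0 | hpos
  · subst h0
    have h1 := key 0 (Nat.zero_le _)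
    rw [pow_zero, mul_one, mul_one] at h1
    have hy : ∀ w : ℝ, w ∈ Set.Ico (0 : ℝ) 1 ↔ ⌊w⌋ = 0 := by
      intro w
      rw [Int.floor_eq_iff, Set.mem_Ico]; simp
    rw [haar_zero, haar_zero]
    by_cases hy0 : ⌊y⌋ = 0
    · rw [Set.indicator_of_mem ((hy y).2 hy0), Set.indicator_of_mem ((hy z).2 (h1 ▸ hy0))]
      rfl
    · rw [Set.indicator_of_notMem (fun hh => hy0 ((hy y).1 hh)),
        Set.indicator_of_notMem (fun hh => hy0 (h1 ▸ (hy z).1 hh))]
  · have hk : lv m + 1 ≤ K := by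
      have h1 := two_pow_lv_le hpos
      exact (Nat.pow_lt_pow_iff_right (by norm_num : 1 < 2)).1 (lt_of_le_of_lt h1 hm)
    have h1 := key _ hk
    rw [haar_eq p hpos, haar_eq p hpos]
    have hL : (y ∈ Lh m) ↔ (z ∈ Lh m) := by rw [mem_Lh, mem_Lh, h1]
    have hR : (y ∈ Rh m) ↔ (z ∈ Rh m) := by rw [mem_Rh, mem_Rh, h1]
    have ind : ∀ A : Set ℝ, ((y ∈ A) ↔ (z ∈ A)) →
        A.indicator (1 : ℝ → ℝ) y = A.indicator (1 : ℝ → ℝ) z := by
      intro A hA
      by_cases hy : y ∈ A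
      · rw [Set.indicator_of_mem hy, Set.indicator_of_mem (hA.1 hy)]; rfl
      · rw [Set.indicator_of_notMem hy, Set.indicator_of_notMem (fun hh => hy (hA.2 hh))]
    rw [ind _ hL, ind _ hR]

theorem floor_of_mem {m : ℕ} {y : ℝ} (h : y ∈ Lh m ∨ y ∈ Rh m) :
    ⌊y * 2 ^ lv m⌋ = (ps m : ℤ) := by
  rw [floor_coarse y (Nat.le_succ (lv m))]
  have e : (2 : ℕ) ^ (lv m + 1 - lv m) = 2 := by
    rw [Nat.add_sub_cancel_left, pow_one]
  rw [Nat.succ_eq_add_one, e]
  rcases h with h | h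
  · rw [mem_Lh] at h; rw [h]; simp
  · rw [mem_Rh] at h; rw [h]; omega

/-- the earlier Haar functions are constant on the support of `haar m`. -/
theorem haar_const_on (p : ℝ) {m m' : ℕ} (hm : 1 ≤ m) (hm' : m' < m) {y z : ℝ}
    (hy : y ∈ Lh m ∨ y ∈ Rh m) (hz : z ∈ Lh m ∨ z ∈ Rh m) : haar p m' y = haar p m' z := by
  have hyf := floor_of_mem hy
  have hzf := floor_of_mem hz
  by_cases hlow : m' < 2 ^ lv m
  · exact haar_congr p hlow (hyf.trans hzf.symm)
  · -- same level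
    push Not at hlow
    have h1 : 1 ≤ m' := le_trans Nat.one_le_two_pow hlow
    have hlv : lv m' = lv m := by
      apply le_antisymm
      · exact Nat.log_mono_right hm'.le
      · have h2 := lt_two_pow_lv (m := m')
        have h3 := (Nat.pow_lt_pow_iff_right (by norm_num : 1 < 2)).1 (lt_of_le_of_lt hlow h2)
        omega
    have hps : ps m' ≠ ps m := by
      have h2 := ps_add h1
      have h3 := ps_add hm
      rw [hlv] at h2
      omega
    have key : ∀ w : ℝ, (w ∈ Lh m ∨ w ∈ Rh m) → haar p m' w = 0 := by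
      intro w hw
      have hwf := floor_of_mem hw
      have hno : ¬ (w ∈ Lh m' ∨ w ∈ Rh m') := by
        intro hc
        have := floor_of_mem hc
        rw [hlv, hwf] at this
        exact hps (by exact_mod_cast this.symm)
      push Not at hno
      rw [haar_eq p h1, Set.indicator_of_notMem hno.1, Set.indicator_of_notMem hno.2]
      simp
    rw [key y hy, key z hz]

theorem Lh_Rh_disjoint {m : ℕ} {y : ℝ} (h : y ∈ Lh m) : y ∉ Rh m := by
  rw [mem_Lh] at h
  rw [mem_Rh, h]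
  omega

theorem Lh_subset {m : ℕ} (hm : 1 ≤ m) : Lh m ⊆ Set.Ico (0 : ℝ) 1 := by
  intro y hy
  have h2 : (0 : ℝ) < 2 ^ lv m := by positivity
  have h3 : (ps m : ℝ) + 1 ≤ 2 ^ lv m := by exact_mod_cast ps_lt hm
  unfold Lh at hy
  rw [Set.mem_Ico, div_le_iff₀ h2, lt_div_iff₀ h2] at hy
  refine ⟨?_, ?_⟩
  · by_contra hc
    push Not at hc
    have : (0 : ℝ) ≤ ps m := by positivity
    nlinarith [hy.1]
  · by_contra hc
    push Not at hc
    nlinarith [hy.2]

theorem Rh_subset {m : ℕ} (hm : 1 ≤ m) : Rh m ⊆ Set.Ico (0 : ℝ) 1 := by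
  intro y hy
  have h2 : (0 : ℝ) < 2 ^ lv m := by positivity
  have h3 : (ps m : ℝ) + 1 ≤ 2 ^ lv m := by exact_mod_cast ps_lt hm
  unfold Rh at hy
  rw [Set.mem_Ico, div_le_iff₀ h2, lt_div_iff₀ h2] at hy
  refine ⟨?_, ?_⟩
  · by_contra hc
    push Not at hc
    have : (0 : ℝ) ≤ ps m := by positivity
    nlinarith [hy.1]
  · by_contra hc
    push Not at hc
    nlinarith [hy.2]

theorem volume_Lh (m : ℕ) : volume.real (Lh m) = 1 / 2 ^ (lv m + 1) := by
  unfold Lh
  rw [Real.volume_real_Ico_of_le (by gcongr; linarith)]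
  rw [pow_succ]
  field_simp
  ring

theorem volume_Rh (m : ℕ) : volume.real (Rh m) = 1 / 2 ^ (lv m + 1) := by
  unfold Rh
  rw [Real.volume_real_Ico_of_le (by gcongr; linarith)]
  rw [pow_succ]
  field_simp
  ring

/-- partial sums -/
noncomputable def fs (p : ℝ) (c : ℕ → ℝ) (n : ℕ) (y : ℝ) : ℝ := ∑ m ∈ range n, c m * haar p m y

/-- partial square sums -/
noncomputable def sq (p : ℝ) (c : ℕ → ℝ) (n : ℕ) (y : ℝ) : ℝ :=
  ∑ m ∈ range n, c m ^ 2 * haar p m y ^ 2

theorem sq_nonneg' (p : ℝ) (c : ℕ → ℝ) (n : ℕ) (y : ℝ) : 0 ≤ sq p c n y :=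
  Finset.sum_nonneg fun m _ => mul_nonneg (sq_nonneg _) (sq_nonneg _)

/-- the increment of a functional as a function of `y`. -/
theorem incr_eq (p : ℝ) (c : ℕ → ℝ) {m : ℕ} (hm : 1 ≤ m) (Ψ : ℝ → ℝ → ℝ) :
    ∀ y : ℝ, Ψ (fs p c (m + 1) y) (sq p c (m + 1) y) = Ψ (fs p c m y) (sq p c m y) +
      ((Lh m).indicator (fun _ => Ψ (fs p c m ((ps m : ℝ) / 2 ^ lv m) + c m * 2 ^ ((lv m : ℝ) / p))
          (sq p c m ((ps m : ℝ) / 2 ^ lv m) + (c m * 2 ^ ((lv m : ℝ) / p)) ^ 2) -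
          Ψ (fs p c m ((ps m : ℝ) / 2 ^ lv m)) (sq p c m ((ps m : ℝ) / 2 ^ lv m))) y +
        (Rh m).indicator (fun _ => Ψ (fs p c m ((ps m : ℝ) / 2 ^ lv m) - c m * 2 ^ ((lv m : ℝ) / p))
          (sq p c m ((ps m : ℝ) / 2 ^ lv m) + (c m * 2 ^ ((lv m : ℝ) / p)) ^ 2) -
          Ψ (fs p c m ((ps m : ℝ) / 2 ^ lv m)) (sq p c m ((ps m : ℝ) / 2 ^ lv m))) y) := by
  intro y
  set y0 : ℝ := (ps m : ℝ) / 2 ^ lv m with hy0
  have hy0mem : y0 ∈ Lh m ∨ y0 ∈ Rh m := by
    left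
    unfold Lh
    rw [← hy0]
    refine ⟨le_rfl, ?_⟩
    rw [hy0]
    gcongr
    linarith
  have hfs : fs p c (m + 1) y = fs p c m y + c m * haar p m y := by
    unfold fs; rw [sum_range_succ]
  have hsq : sq p c (m + 1) y = sq p c m y + c m ^ 2 * haar p m y ^ 2 := by
    unfold sq; rw [sum_range_succ]
  have hconst : (y ∈ Lh m ∨ y ∈ Rh m) → fs p c m y = fs p c m y0 ∧ sq p c m y = sq p c m y0 := by
    intro hy
    unfold fs sq
    constructor
    · exact sum_congr rfl fun m' hm' => by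
        rw [haar_const_on p hm (mem_range.1 hm') hy hy0mem]
    · exact sum_congr rfl fun m' hm' => by
        rw [haar_const_on p hm (mem_range.1 hm') hy hy0mem]
  by_cases hL : y ∈ Lh m
  · have hR := Lh_Rh_disjoint hL
    obtain ⟨h1, h2⟩ := hconst (Or.inl hL)
    rw [Set.indicator_of_mem hL, Set.indicator_of_notMem hR, hfs, hsq, h1, h2, haar_eq p hm,
      Set.indicator_of_mem hL, Set.indicator_of_notMem hR]
    simp only [Pi.one_apply, sub_zero, mul_one, add_zero]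
    rw [show c m ^ 2 * (2 ^ ((lv m : ℝ) / p)) ^ 2 = (c m * 2 ^ ((lv m : ℝ) / p)) ^ 2 by ring]
    ring
  · by_cases hR : y ∈ Rh m
    · obtain ⟨h1, h2⟩ := hconst (Or.inr hR)
      rw [Set.indicator_of_mem hR, Set.indicator_of_notMem hL, hfs, hsq, h1, h2, haar_eq p hm,
        Set.indicator_of_mem hR, Set.indicator_of_notMem hL]
      simp only [Pi.one_apply, zero_sub, zero_add]
      rw [show c m ^ 2 * (2 ^ ((lv m : ℝ) / p) * -1) ^ 2 = (c m * 2 ^ ((lv m : ℝ) / p)) ^ 2 by ring,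
        show c m * (2 ^ ((lv m : ℝ) / p) * -1) = - (c m * 2 ^ ((lv m : ℝ) / p)) by ring,
        ← sub_eq_add_neg]
      ring
    · rw [Set.indicator_of_notMem hR, Set.indicator_of_notMem hL, hfs, hsq, haar_eq p hm,
        Set.indicator_of_notMem hR, Set.indicator_of_notMem hL]
      simp

theorem integral_add_three {A B C : ℝ → ℝ} {s : Set ℝ} (hA : IntegrableOn A s)
    (hB : IntegrableOn B s) (hC : IntegrableOn C s) :
    ∫ y in s, (A y + (B y + C y)) = (∫ y in s, A y) + ((∫ y in s, B y) + ∫ y in s, C y) := by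
  rw [integral_add (f := A) (g := fun y => B y + C y) hA (hB.add hC), integral_add hB hC]

theorem integral_indicator_const {A : Set ℝ} (hA : MeasurableSet A) (hA1 : A ⊆ Set.Ico (0 : ℝ) 1)
    (a : ℝ) : ∫ y in Set.Ico (0 : ℝ) 1, A.indicator (fun _ => a) y = volume.real A * a := by
  rw [setIntegral_indicator hA, Set.inter_eq_right.2 hA1, setIntegral_const, smul_eq_mul]

theorem integrable_indicator_const {A : Set ℝ} (hA : MeasurableSet A) (a : ℝ) :
    IntegrableOn (A.indicator (fun _ => a)) (Set.Ico (0 : ℝ) 1) :=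
  (integrableOn_const (by simp)).indicator hA

theorem measurableSet_Lh (m : ℕ) : MeasurableSet (Lh m) := measurableSet_Ico

theorem measurableSet_Rh (m : ℕ) : MeasurableSet (Rh m) := measurableSet_Ico

theorem integrable_functional (p : ℝ) (c : ℕ → ℝ) (Ψ : ℝ → ℝ → ℝ) (n : ℕ) :
    IntegrableOn (fun y => Ψ (fs p c n y) (sq p c n y)) (Set.Ico (0 : ℝ) 1) := by
  induction n with
  | zero =>
    have : (fun y => Ψ (fs p c 0 y) (sq p c 0 y)) = fun _ => Ψ 0 0 := by
      funext y; simp [fs, sq]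
    rw [this]
    exact integrableOn_const (by simp)
  | succ m ih =>
    rcases Nat.eq_zero_or_pos m with h0 | hm
    · subst h0
      apply IntegrableOn.congr_fun (f := fun _ => Ψ (c 0) (c 0 ^ 2))
        (integrableOn_const (by simp)) _ measurableSet_Ico
      intro y hy
      simp [fs, sq, haar_zero, Set.indicator_of_mem hy]
    · have : (fun y => Ψ (fs p c (m + 1) y) (sq p c (m + 1) y)) = _ :=
        funext (incr_eq p c hm Ψ)
      rw [this]
      exact ih.add ((integrable_indicator_const (measurableSet_Lh m) _).add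
        (integrable_indicator_const (measurableSet_Rh m) _))

/-- the integrated increment -/
theorem integral_step (p : ℝ) (c : ℕ → ℝ) {m : ℕ} (hm : 1 ≤ m) :
    ∃ x t d w : ℝ, 0 ≤ t ∧ 0 ≤ w ∧ ∀ Ψ : ℝ → ℝ → ℝ,
      ∫ y in Set.Ico (0 : ℝ) 1, Ψ (fs p c (m + 1) y) (sq p c (m + 1) y) =
        (∫ y in Set.Ico (0 : ℝ) 1, Ψ (fs p c m y) (sq p c m y)) +
          w * (Ψ (x + d) (t + d ^ 2) + Ψ (x - d) (t + d ^ 2) - 2 * Ψ x t) := by
  refine ⟨fs p c m ((ps m : ℝ) / 2 ^ lv m), sq p c m ((ps m : ℝ) / 2 ^ lv m),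
    c m * 2 ^ ((lv m : ℝ) / p), 1 / 2 ^ (lv m + 1), sq_nonneg' _ _ _ _, by positivity, ?_⟩
  intro Ψ
  have : (fun y => Ψ (fs p c (m + 1) y) (sq p c (m + 1) y)) = _ :=
    funext (incr_eq p c hm Ψ)
  rw [this, integral_add_three (integrable_functional p c Ψ m)
    (integrable_indicator_const (measurableSet_Lh m) _)
    (integrable_indicator_const (measurableSet_Rh m) _),
    integral_indicator_const (measurableSet_Lh m) (Lh_subset hm),
    integral_indicator_const (measurableSet_Rh m) (Rh_subset hm), volume_Lh, volume_Rh]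
  ring

/-- MODULE HAAR, part 1. -/
theorem haar_square {p : ℝ} (hp : 1 < p) (hp2 : p < 2) : HaarSquare p := by
  have hp1 : 0 < p - 1 := by linarith
  refine ⟨2 / (p - 1), by positivity, ?_⟩
  intro n c
  set G1 : ℕ → ℝ := fun n => ∫ y in Set.Ico (0 : ℝ) 1, |fs p c n y| ^ p with hG1
  set G2 : ℕ → ℝ := fun n => ∫ y in Set.Ico (0 : ℝ) 1, (fs p c n y ^ 2 + sq p c n y) ^ (p / 2) with hG2
  set G3 : ℕ → ℝ := fun n => ∫ y in Set.Ico (0 : ℝ) 1, (sq p c n y) ^ (p / 2) with hG3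
  have i1 : ∀ n, IntegrableOn (fun y => |fs p c n y| ^ p) (Set.Ico (0 : ℝ) 1) := fun n =>
    integrable_functional p c (fun x _ => |x| ^ p) n
  have i2 : ∀ n, IntegrableOn (fun y => (fs p c n y ^ 2 + sq p c n y) ^ (p / 2))
      (Set.Ico (0 : ℝ) 1) := fun n =>
    integrable_functional p c (fun x t => (x ^ 2 + t) ^ (p / 2)) n
  have i3 : ∀ n, IntegrableOn (fun y => (sq p c n y) ^ (p / 2)) (Set.Ico (0 : ℝ) 1) := fun n =>
    integrable_functional p c (fun _ t => t ^ (p / 2)) n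
  have hq : p / 2 ≠ 0 := by positivity
  -- main induction
  have hmain : ∀ n, G2 n ≤ 2 / (p - 1) * G1 n ∧ G2 n ≤ 2 * G3 n := by
    intro n
    induction n with
    | zero =>
      simp [hG1, hG2, hG3, fs, sq, Real.zero_rpow hq, Real.zero_rpow (show p ≠ 0 by positivity)]
    | succ m ih =>
      rcases Nat.eq_zero_or_pos m with h0 | hm
      · subst h0
        have hf : ∀ y ∈ Set.Ico (0 : ℝ) 1, fs p c (0 + 1) y = c 0 := by
          intro y hy; simp [fs, haar_zero, Set.indicator_of_mem hy]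
        have hs : ∀ y ∈ Set.Ico (0 : ℝ) 1, sq p c (0 + 1) y = c 0 ^ 2 := by
          intro y hy; simp [sq, haar_zero, Set.indicator_of_mem hy]
        have e1 : G1 (0 + 1) = |c 0| ^ p := by
          rw [hG1]
          simp only
          rw [setIntegral_congr_fun measurableSet_Ico (g := fun _ => |c 0| ^ p)
            (fun y hy => by simp only; rw [hf y hy])]
          simp
        have e2 : G2 (0 + 1) = (c 0 ^ 2 + c 0 ^ 2) ^ (p / 2) := by
          rw [hG2]
          simp only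
          rw [setIntegral_congr_fun measurableSet_Ico (g := fun _ => (c 0 ^ 2 + c 0 ^ 2) ^ (p / 2))
            (fun y hy => by simp only; rw [hf y hy, hs y hy])]
          simp
        have e3 : G3 (0 + 1) = |c 0| ^ p := by
          rw [hG3]
          simp only
          rw [setIntegral_congr_fun measurableSet_Ico (g := fun _ => |c 0| ^ p)
            (fun y hy => by simp only; rw [hs y hy, sq_rpow_half])]
          simp
        have e4 : (c 0 ^ 2 + c 0 ^ 2) ^ (p / 2) ≤ 2 * |c 0| ^ p := by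
          have h := rpow_scale (q := p / 2) (by linarith) (by linarith) (le_refl (0 : ℝ))
            (sq_nonneg (c 0)) (by norm_num : (1 : ℝ) ≤ 2)
          rw [Real.zero_rpow hq, zero_add, zero_add, sub_zero, sub_zero, sq_rpow_half] at h
          rw [← two_mul]
          exact h
        rw [e1, e2, e3]
        refine ⟨e4.trans ?_, e4⟩
        have h5 : 0 ≤ |c 0| ^ p := by positivity
        have h6 : 2 ≤ 2 / (p - 1) := by
          rw [le_div_iff₀ hp1]; linarith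
        exact mul_le_mul_of_nonneg_right h6 h5
      · obtain ⟨x, t, d, w, ht, hw, hstep⟩ := integral_step p c (m := m) hm
        have s1 := hstep (fun x _ => |x| ^ p)
        have s2 := hstep (fun x t => (x ^ 2 + t) ^ (p / 2))
        have s3 := hstep (fun _ t => t ^ (p / 2))
        have k1 := mul_le_mul_of_nonneg_left (step_one hp hp2 x d ht) hw
        have k2 := mul_le_mul_of_nonneg_left (step_two hp hp2 x d ht) hw
        have g1 : G1 (m + 1) = G1 m + w * (|x + d| ^ p + |x - d| ^ p - 2 * |x| ^ p) := s1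
        have g2 : G2 (m + 1) = G2 m + w * (((x + d) ^ 2 + (t + d ^ 2)) ^ (p / 2) +
          ((x - d) ^ 2 + (t + d ^ 2)) ^ (p / 2) - 2 * (x ^ 2 + t) ^ (p / 2)) := s2
        have g3 : G3 (m + 1) = G3 m + w * ((t + d ^ 2) ^ (p / 2) + (t + d ^ 2) ^ (p / 2) -
          2 * t ^ (p / 2)) := s3
        rw [g1, g2, g3]
        refine ⟨?_, ?_⟩
        · calc _ ≤ 2 / (p - 1) * G1 m + w * (2 / (p - 1) * (|x + d| ^ p + |x - d| ^ p -
                2 * |x| ^ p)) := add_le_add ih.1 k1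
            _ = _ := by ring
        · calc _ ≤ 2 * G3 m + w * (2 * ((t + d ^ 2) ^ (p / 2) + (t + d ^ 2) ^ (p / 2) -
                2 * t ^ (p / 2))) := add_le_add ih.2 k2
            _ = _ := by ring
  obtain ⟨h1, h2⟩ := hmain n
  constructor
  · refine le_trans ?_ h1
    apply integral_mono (i3 n) (i2 n)
    intro y
    apply Real.rpow_le_rpow (sq_nonneg' _ _ _ _) _ (by linarith)
    nlinarith [sq_nonneg (fs p c n y)]
  · refine le_trans ?_ h2
    apply integral_mono (i1 n) (i2 n)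
    intro y
    simp only
    rw [← sq_rpow_half]
    apply Real.rpow_le_rpow (sq_nonneg _) _ (by linarith)
    have := sq_nonneg' p c n y
    linarith

/-! ### Density -/

/-- indicator of a dyadic cell -/
noncomputable def cellInd (N i : ℕ) : ℝ → ℝ := {y : ℝ | ⌊y * 2 ^ N⌋ = (i : ℤ)}.indicator 1

theorem cellInd_of {N i : ℕ} {y : ℝ} (h : ⌊y * 2 ^ N⌋ = (i : ℤ)) : cellInd N i y = 1 := by
  unfold cellInd
  rw [Set.indicator_of_mem (by exact h)]
  rfl

theorem cellInd_of_not {N i : ℕ} {y : ℝ} (h : ⌊y * 2 ^ N⌋ ≠ (i : ℤ)) : cellInd N i y = 0 := by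
  unfold cellInd
  rw [Set.indicator_of_notMem (by exact h)]

theorem lv_add {N i : ℕ} (hi : i < 2 ^ N) : lv (2 ^ N + i) = N := by
  unfold lv
  rw [Nat.log_eq_iff (Or.inr ⟨by norm_num, by positivity⟩)]
  constructor
  · omega
  · rw [pow_succ]; omega

theorem ps_of_add {N i : ℕ} (hi : i < 2 ^ N) : ps (2 ^ N + i) = i := by
  have h := lv_add hi
  unfold lv at h
  unfold ps
  rw [h]; omega

theorem haar_cell (p : ℝ) {N i : ℕ} (hi : i < 2 ^ N) (y : ℝ) :
    haar p (2 ^ N + i) y = 2 ^ ((N : ℝ) / p) *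
      (cellInd (N + 1) (2 * i) y - cellInd (N + 1) (2 * i + 1) y) := by
  have h1 : 1 ≤ 2 ^ N + i := le_trans Nat.one_le_two_pow (Nat.le_add_right _ _)
  rw [haar_eq p h1, lv_add hi]
  congr 2
  · by_cases h : y ∈ Lh (2 ^ N + i)
    · rw [Set.indicator_of_mem h]
      rw [mem_Lh, lv_add hi, ps_of_add hi] at h
      rw [cellInd_of (by push_cast; exact h)]
      rfl
    · rw [Set.indicator_of_notMem h]
      rw [mem_Lh, lv_add hi, ps_of_add hi] at h
      rw [cellInd_of_not (by push_cast; exact h)]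
  · by_cases h : y ∈ Rh (2 ^ N + i)
    · rw [Set.indicator_of_mem h]
      rw [mem_Rh, lv_add hi, ps_of_add hi] at h
      rw [cellInd_of (by push_cast; exact h)]
      rfl
    · rw [Set.indicator_of_notMem h]
      rw [mem_Rh, lv_add hi, ps_of_add hi] at h
      rw [cellInd_of_not (by push_cast; exact h)]

theorem cell_split {N i : ℕ} (y : ℝ) :
    cellInd N i y = cellInd (N + 1) (2 * i) y + cellInd (N + 1) (2 * i + 1) y := by
  have hf := floor_coarse y (Nat.le_succ N)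
  have e : (2 : ℕ) ^ (N + 1 - N) = 2 := by
    rw [Nat.add_sub_cancel_left, pow_one]
  rw [Nat.succ_eq_add_one, e] at hf
  by_cases h1 : ⌊y * 2 ^ (N + 1)⌋ = 2 * (i : ℤ)
  · rw [cellInd_of (N := N + 1) (i := 2 * i) (by push_cast; exact h1),
      cellInd_of_not (N := N + 1) (i := 2 * i + 1) (by push_cast; omega),
      cellInd_of (by rw [hf, h1]; simp), add_zero]
  · by_cases h2 : ⌊y * 2 ^ (N + 1)⌋ = 2 * (i : ℤ) + 1
    · rw [cellInd_of (N := N + 1) (i := 2 * i + 1) (by push_cast; exact h2),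
        cellInd_of_not (N := N + 1) (i := 2 * i) (by push_cast; omega),
        cellInd_of (by rw [hf, h2]; omega), zero_add]
    · rw [cellInd_of_not (N := N + 1) (i := 2 * i + 1) (by push_cast; exact h2),
        cellInd_of_not (N := N + 1) (i := 2 * i) (by push_cast; exact h1),
        cellInd_of_not (by rw [hf]; omega), zero_add]

theorem cellInd_mem (p : ℝ) (N : ℕ) : ∀ i < 2 ^ N,
    cellInd N i ∈ Submodule.span ℝ (Set.range (haar p)) := by
  induction N with
  | zero =>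
    intro i hi
    have hi0 : i = 0 := by simpa using hi
    subst hi0
    have : cellInd 0 0 = haar p 0 := by
      funext y
      rw [haar_zero]
      unfold cellInd
      congr 1
      ext w
      rw [Set.mem_ofPred_eq, Int.floor_eq_iff, Set.mem_Ico]
      simp
    rw [this]
    exact Submodule.subset_span ⟨0, rfl⟩
  | succ N ih =>
    intro j hj
    set i := j / 2 with hi
    have hi2 : i < 2 ^ N := by rw [pow_succ] at hj; omega
    have hA : (2 : ℝ) ^ ((N : ℝ) / p) ≠ 0 := (Real.rpow_pos_of_pos two_pos _).ne'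
    have hcell := ih i hi2
    have hhaar : haar p (2 ^ N + i) ∈ Submodule.span ℝ (Set.range (haar p)) :=
      Submodule.subset_span ⟨_, rfl⟩
    rcases Nat.mod_two_eq_zero_or_one j with h | h
    · have hj' : j = 2 * i := by omega
      have : cellInd (N + 1) j = (1 / 2 : ℝ) • cellInd N i +
          (1 / 2 * ((2 : ℝ) ^ ((N : ℝ) / p))⁻¹) • haar p (2 ^ N + i) := by
        funext y
        simp only [Pi.add_apply, Pi.smul_apply, smul_eq_mul]
        rw [haar_cell p hi2, cell_split (N := N) (i := i), hj']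
        field_simp
        ring
      rw [this]
      exact Submodule.add_mem _ (Submodule.smul_mem _ _ hcell) (Submodule.smul_mem _ _ hhaar)
    · have hj' : j = 2 * i + 1 := by omega
      have : cellInd (N + 1) j = (1 / 2 : ℝ) • cellInd N i -
          (1 / 2 * ((2 : ℝ) ^ ((N : ℝ) / p))⁻¹) • haar p (2 ^ N + i) := by
        funext y
        simp only [Pi.sub_apply, Pi.smul_apply, smul_eq_mul]
        rw [haar_cell p hi2, cell_split (N := N) (i := i), hj']
        field_simp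
        ring
      rw [this]
      exact Submodule.sub_mem _ (Submodule.smul_mem _ _ hcell) (Submodule.smul_mem _ _ hhaar)

theorem exists_sum_of_mem (p : ℝ) {h : ℝ → ℝ} (hh : h ∈ Submodule.span ℝ (Set.range (haar p))) :
    ∃ (n : ℕ) (c : ℕ → ℝ), ∀ y, h y = ∑ m ∈ range n, c m * haar p m y := by
  rw [Finsupp.mem_span_range_iff_exists_finsupp] at hh
  obtain ⟨c, hc⟩ := hh
  refine ⟨c.support.sup id + 1, c, fun y => ?_⟩
  rw [← hc, Finsupp.sum, Finset.sum_apply]
  have hsub : c.support ⊆ range (c.support.sup id + 1) := by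
    intro m hm
    rw [mem_range]
    exact Nat.lt_succ_of_le (Finset.le_sup (f := id) hm)
  rw [Finset.sum_subset hsub]
  · rfl
  · intro m _ hm
    simp [Finsupp.notMem_support_iff.1 hm]

/-- MODULE HAAR, part 2. -/
theorem haar_dense {p : ℝ} (hp : 1 ≤ p) : HaarDense p := by
  intro F hF ε hε
  set μ := volume.restrict (Set.Icc (0 : ℝ) 1) with hμ
  have hε2 : ENNReal.ofReal (ε / 2) ≠ 0 := by
    rw [Ne, ENNReal.ofReal_eq_zero]; push Not; linarith
  obtain ⟨g, hg, hgm, hgcont⟩ : ∃ g : ℝ → ℝ, eLpNorm (F - g) (ENNReal.ofReal p) μ ≤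
      ENNReal.ofReal (ε / 2) ∧ MemLp g (ENNReal.ofReal p) μ ∧ Continuous g := by
    obtain ⟨g, hg, hgm⟩ := hF.exists_boundedContinuous_eLpNorm_sub_le ENNReal.ofReal_ne_top hε2
    exact ⟨g, hg, hgm, g.continuous⟩
  have hgc : UniformContinuousOn g (Set.Icc (0 : ℝ) 1) :=
    isCompact_Icc.uniformContinuousOn_of_continuous hgcont.continuousOn
  rw [Metric.uniformContinuousOn_iff] at hgc
  obtain ⟨δ, hδ, hgδ⟩ := hgc (ε / 2) (by linarith)
  obtain ⟨N, hN⟩ := exists_pow_lt_of_lt_one hδ (by norm_num : (1 / 2 : ℝ) < 1)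
  set h : ℝ → ℝ := fun y => ∑ i ∈ range (2 ^ N), g ((i : ℝ) / 2 ^ N) * cellInd N i y with hh
  have hmem : h ∈ Submodule.span ℝ (Set.range (haar p)) := by
    have : h = ∑ i ∈ range (2 ^ N), g ((i : ℝ) / 2 ^ N) • cellInd N i := by
      funext y
      rw [Finset.sum_apply]
      rfl
    rw [this]
    exact Submodule.sum_mem _ fun i hi =>
      Submodule.smul_mem _ _ (cellInd_mem p N i (mem_range.1 hi))
  obtain ⟨n, c, hc⟩ := exists_sum_of_mem p hmem
  refine ⟨n, c, ?_⟩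
  -- uniform approximation
  have hunif : ∀ y ∈ Set.Ico (0 : ℝ) 1, ‖g y - h y‖ ≤ ε / 2 := by
    intro y hy
    have h2 : (0 : ℝ) < 2 ^ N := by positivity
    obtain ⟨i, hi⟩ : ∃ i : ℕ, ⌊y * 2 ^ N⌋ = (i : ℤ) :=
      ⟨_, (Int.toNat_of_nonneg (Int.floor_nonneg.2 (mul_nonneg hy.1 h2.le))).symm⟩
    have hfl := Int.floor_eq_iff.1 hi
    push_cast at hfl
    have hiN : i < 2 ^ N := by
      have : (i : ℝ) < 2 ^ N := by nlinarith [hfl.1, hy.2]
      exact_mod_cast this
    have hhy : h y = g ((i : ℝ) / 2 ^ N) := by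
      rw [hh]
      simp only
      rw [Finset.sum_eq_single_of_mem i (mem_range.2 hiN)]
      · rw [cellInd_of hi, mul_one]
      · intro j _ hj
        rw [cellInd_of_not (by rw [hi]; exact fun hc => hj (by exact_mod_cast hc.symm)), mul_zero]
    rw [hhy]
    have hd := hgδ y ⟨hy.1, hy.2.le⟩ ((i : ℝ) / 2 ^ N) ⟨by positivity, by
      rw [div_le_one h2]; exact_mod_cast hiN.le⟩ (by
        rw [Real.dist_eq, abs_lt]
        have hN' : 1 / 2 ^ N < δ := by rwa [one_div_pow] at hN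
        have e1 : (i : ℝ) / 2 ^ N ≤ y := by rw [div_le_iff₀ h2]; exact hfl.1
        have e2 : y < (i : ℝ) / 2 ^ N + 1 / 2 ^ N := by
          rw [← add_div, lt_div_iff₀ h2]; exact hfl.2
        constructor <;> linarith)
    rw [Real.dist_eq] at hd
    exact hd.le
  have hae : ∀ᵐ y ∂μ, ‖(g - h : ℝ → ℝ) y‖ ≤ ε / 2 := by
    have h1 : ∀ᵐ y ∂μ, y ∈ Set.Icc (0 : ℝ) 1 := ae_restrict_mem measurableSet_Icc
    have h2 : ∀ᵐ y ∂μ, y ≠ 1 := by
      rw [hμ]
      exact ae_restrict_of_ae (Measure.ae_ne volume 1)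
    filter_upwards [h1, h2] with y hy1 hy2
    exact hunif y ⟨hy1.1, lt_of_le_of_ne hy1.2 hy2⟩
  have hnorm : eLpNorm (g - h : ℝ → ℝ) (ENNReal.ofReal p) μ ≤ ENNReal.ofReal (ε / 2) := by
    refine (eLpNorm_le_of_ae_bound hae).trans ?_
    have : μ Set.univ = 1 := by rw [hμ]; simp
    rw [this, ENNReal.one_rpow, one_mul]
  have hhm : AEStronglyMeasurable h μ := by
    have : Measurable h := by
      rw [hh]
      refine Finset.measurable_sum _ fun i _ => ?_
      refine measurable_const.mul ?_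
      unfold cellInd
      refine measurable_one.indicator ?_
      exact measurableSet_eq_fun (Int.measurable_floor.comp (measurable_id.mul_const _))
        measurable_const
    exact this.aestronglyMeasurable
  have e : (fun y => F y - ∑ m ∈ range n, c m * haar p m y) = (F - g) + (g - h) := by
    funext y
    simp only [Pi.add_apply, Pi.sub_apply]
    rw [← hc y]; ring
  rw [e]
  calc eLpNorm ((F - g) + (g - h)) (ENNReal.ofReal p) μ
      ≤ eLpNorm (F - g) (ENNReal.ofReal p) μ + eLpNorm (g - h : ℝ → ℝ) (ENNReal.ofReal p) μ :=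
        eLpNorm_add_le (hF.1.sub hgm.1) (hgm.1.sub hhm) (by
          rw [← ENNReal.ofReal_one]; exact ENNReal.ofReal_le_ofReal hp)
    _ ≤ ENNReal.ofReal (ε / 2) + ENNReal.ofReal (ε / 2) := add_le_add hg hnorm
    _ = ENNReal.ofReal ε := by
        rw [← ENNReal.ofReal_add (by linarith) (by linarith)]; congr 1; ring

end Pool.Agent.Lib.MP89175a
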