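import Mathlib
import Pool.Agent.Lib.MP_89175a_an.Spec2
import Pool.Agent.Lib.MP_89175a_an.Haar

/-!
MODULE EMBED: a sequence equivalent to the Haar basis spans a copy of `L_p[0,1]`.
-/

open Finset MeasureTheory Filter Topology
open scoped ENNReal

namespace Pool.Agent.Lib.MP89175a

section
variable {P : ℝ≥0∞} [hP : Fact (1 ≤ P)]


lemma haar_measurable (p : ℝ) (m : ℕ) : Measurable (haar p m) := by
  have e : haar p m = fun y => haar p m y := rfl
  rw [e]
  unfold haar
  split_ifs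
  · exact measurable_one.indicator measurableSet_Ico
  · exact ((measurable_one.indicator measurableSet_Ico).sub
      (measurable_one.indicator measurableSet_Ico)).const_mul _

lemma haar_bdd (p : ℝ) (m : ℕ) : ∃ B : ℝ, ∀ y, ‖haar p m y‖ ≤ B := by
  by_cases hm : m = 0
  · refine ⟨1, fun y => ?_⟩
    subst hm
    unfold haar
    rw [if_pos rfl]
    by_cases hy : y ∈ Set.Ico (0 : ℝ) 1
    · simp [Set.indicator_of_mem hy]
    · simp [Set.indicator_of_notMem hy]
  · refine ⟨(2 : ℝ) ^ ((Nat.log 2 m : ℝ) / p) * 2, fun y => ?_⟩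
    unfold haar
    rw [if_neg hm, norm_mul, Real.norm_of_nonneg (by positivity)]
    apply mul_le_mul_of_nonneg_left _ (by positivity)
    refine (norm_sub_le _ _).trans ?_
    have h1 : ∀ s : Set ℝ, ‖s.indicator (1 : ℝ → ℝ) y‖ ≤ 1 := by
      intro s
      by_cases hy : y ∈ s
      · simp [Set.indicator_of_mem hy]
      · simp [Set.indicator_of_notMem hy]
    linarith [h1 (Set.Ico (((m : ℝ) - 2 ^ Nat.log 2 m) / 2 ^ Nat.log 2 m)
        (((m : ℝ) - 2 ^ Nat.log 2 m + 1 / 2) / 2 ^ Nat.log 2 m)),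
      h1 (Set.Ico (((m : ℝ) - 2 ^ Nat.log 2 m + 1 / 2) / 2 ^ Nat.log 2 m)
        (((m : ℝ) - 2 ^ Nat.log 2 m + 1) / 2 ^ Nat.log 2 m))]

omit hP in
lemma haar_memLp (p : ℝ) (m : ℕ) : MemLp (haar p m) P (volume.restrict (Set.Icc (0 : ℝ) 1)) := by
  obtain ⟨B, hB⟩ := haar_bdd p m
  exact MemLp.of_bound (haar_measurable p m).aestronglyMeasurable B (Eventually.of_forall hB)

/-- the Haar functions as elements of `L_P[0,1]` -/
noncomputable def haarLp (P : ℝ≥0∞) (m : ℕ) :
    Lp ℝ P (volume.restrict (Set.Icc (0 : ℝ) 1)) :=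
  MemLp.toLp (haar P.toReal m) (haar_memLp (P := P) P.toReal m)

omit hP in
lemma haarLp_sum (c : ℕ → ℝ) (M : ℕ) :
    ∃ hg : MemLp (fun y => ∑ m ∈ range M, c m * haar P.toReal m y) P (volume.restrict (Set.Icc (0 : ℝ) 1)),
      hg.toLp _ = ∑ m ∈ range M, c m • haarLp P m := by
  induction M with
  | zero =>
    refine ⟨by simp, ?_⟩
    simp only [Finset.range_zero, Finset.sum_empty]
    exact MemLp.toLp_zero _
  | succ M ih =>
    obtain ⟨hg, hgl⟩ := ih
    have h1 : MemLp (fun y => c M * haar P.toReal M y) P (volume.restrict (Set.Icc (0 : ℝ) 1)) :=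
      (haar_memLp (P := P) P.toReal M).const_mul (c M)
    have h2 := hg.add h1
    have e : (fun y => ∑ m ∈ range (M + 1), c m * haar P.toReal m y)
        = (fun y => ∑ m ∈ range M, c m * haar P.toReal m y) + fun y => c M * haar P.toReal M y := by
      funext y
      simp only [Pi.add_apply]
      rw [Finset.sum_range_succ]
    have h3 : MemLp (fun y => ∑ m ∈ range (M + 1), c m * haar P.toReal m y) P
        (volume.restrict (Set.Icc (0 : ℝ) 1)) := by rw [e]; exact h2
    refine ⟨h3, ?_⟩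
    have e2 : h3.toLp _ = h2.toLp _ := by
      apply MemLp.toLp_congr
      rw [e]
    have e3 : h1.toLp _ = c M • haarLp P M :=
      MemLp.toLp_const_smul (c M) (haar_memLp (P := P) P.toReal M)
    rw [e2, MemLp.toLp_add hg h1, hgl, Finset.sum_range_succ, e3]

lemma norm_haarLp_sum (hP1 : P ≠ ∞) (c : ℕ → ℝ) (M : ℕ) :
    ‖∑ m ∈ range M, c m • haarLp P m‖ ^ P.toReal =
      ∫ y in Set.Ico (0 : ℝ) 1, |∑ m ∈ range M, c m * haar P.toReal m y| ^ P.toReal := by
  obtain ⟨hg, hgl⟩ := haarLp_sum (P := P) c M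
  have hP0 : P ≠ 0 := by
    have := hP.out
    intro h
    rw [h] at this
    simp at this
  have hp : 0 < P.toReal := ENNReal.toReal_pos hP0 hP1
  rw [← hgl, Lp.norm_toLp, hg.eLpNorm_eq_integral_rpow_norm hP0 hP1]
  have hnn : 0 ≤ ∫ a in Set.Icc (0 : ℝ) 1, ‖∑ m ∈ range M, c m * haar P.toReal m a‖ ^ P.toReal := by
    apply integral_nonneg
    intro y; positivity
  rw [ENNReal.toReal_ofReal (by positivity), ← Real.rpow_mul hnn, inv_mul_cancel₀ hp.ne', Real.rpow_one]
  rw [setIntegral_congr_set (Ico_ae_eq_Icc (a := (0 : ℝ)) (b := 1)).symm]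
  rfl

lemma lincomb_eq {X : Type*} [AddCommGroup X] [Module ℝ X] (x : ℕ → X) (c : ℕ →₀ ℝ) :
    Finsupp.linearCombination ℝ x c = ∑ m ∈ range (c.support.sup id + 1), c m • x m := by
  rw [Finsupp.linearCombination_apply, Finsupp.sum]
  apply Finset.sum_subset
  · intro i hi
    have : i ≤ c.support.sup id := Finset.le_sup (f := id) hi
    exact Finset.mem_range.2 (by omega)
  · intro i _ hi
    rw [Finsupp.notMem_support_iff.1 hi, zero_smul]

lemma haarLp_dense (hP1 : P ≠ ∞) : DenseRange (Finsupp.linearCombination ℝ (haarLp P)) := by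
  have hP0 : P ≠ 0 := by
    have := hP.out
    intro h
    rw [h] at this
    simp at this
  have hp1 : 1 ≤ P.toReal := by
    have := (ENNReal.toReal_le_toReal ENNReal.one_ne_top hP1).2 hP.out
    simpa using this
  have hPe : ENNReal.ofReal P.toReal = P := ENNReal.ofReal_toReal hP1
  rw [Metric.denseRange_iff]
  intro x ε hε
  have hx : MemLp (x : ℝ → ℝ) (ENNReal.ofReal P.toReal) (volume.restrict (Set.Icc (0 : ℝ) 1)) := by
    rw [hPe]; exact Lp.memLp x
  obtain ⟨n, c, hc⟩ := haar_dense hp1 x hx (ε / 2) (by positivity)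
  rw [hPe] at hc
  obtain ⟨hg, hgl⟩ := haarLp_sum (P := P) c n
  refine ⟨∑ m ∈ range n, Finsupp.single m (c m), ?_⟩
  have e1 : Finsupp.linearCombination ℝ (haarLp P) (∑ m ∈ range n, Finsupp.single m (c m)) = hg.toLp _ := by
    rw [hgl, map_sum]
    apply Finset.sum_congr rfl
    intro m _
    rw [Finsupp.linearCombination_single]
  rw [e1, dist_eq_norm]
  have e2 : x = (Lp.memLp x).toLp _ := (Lp.toLp_coeFn x (Lp.memLp x)).symm
  have e3 : ‖x - hg.toLp _‖ = (eLpNorm (fun y => x y - ∑ m ∈ range n, c m * haar P.toReal m y) P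
      (volume.restrict (Set.Icc (0 : ℝ) 1))).toReal := by
    conv_lhs => rw [e2]
    rw [← MemLp.toLp_sub, Lp.norm_toLp]
    rfl
  rw [e3]
  have h4 : (eLpNorm (fun y => x y - ∑ m ∈ range n, c m * haar P.toReal m y) P
      (volume.restrict (Set.Icc (0 : ℝ) 1))).toReal ≤ ε / 2 := by
    have := ENNReal.toReal_mono ENNReal.ofReal_ne_top hc
    rwa [ENNReal.toReal_ofReal (by positivity)] at this
  linarith

lemma le_of_rpow_le {p C a b : ℝ} (hp : 0 < p) (hC : 0 ≤ C) (ha : 0 ≤ a) (hb : 0 ≤ b)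
    (h : a ^ p ≤ C * b ^ p) : a ≤ C ^ (1 / p) * b := by
  have h1 : a ^ p ≤ (C ^ (1 / p) * b) ^ p := by
    rw [Real.mul_rpow (by positivity) hb, ← Real.rpow_mul hC, one_div, inv_mul_cancel₀ hp.ne',
      Real.rpow_one]
    exact h
  exact (Real.rpow_le_rpow_iff ha (by positivity) hp).1 h1

theorem embed_of_haar (hP1 : P ≠ ∞) : EmbedOfHaar P := by
  intro b C hC hb
  have hP0 : P ≠ 0 := by
    have := hP.out
    intro h
    rw [h] at this
    simp at this
  have hp : 0 < P.toReal := ENNReal.toReal_pos hP0 hP1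
  set e := Finsupp.linearCombination ℝ (haarLp P) with he
  set f := Finsupp.linearCombination ℝ b with hf
  set D : ℝ := C ^ (1 / P.toReal) with hD
  have hD0 : 0 < D := Real.rpow_pos_of_pos hC _
  have hupper : ∀ c : ℕ →₀ ℝ, ‖f c‖ ≤ D * ‖e c‖ := by
    intro c
    have h := (hb (c.support.sup id + 1) c).2
    rw [← norm_haarLp_sum hP1] at h
    rw [hf, he, lincomb_eq, lincomb_eq]
    exact le_of_rpow_le hp hC.le (norm_nonneg _) (norm_nonneg _) h
  have hlower : ∀ c : ℕ →₀ ℝ, ‖e c‖ ≤ D * ‖f c‖ := by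
    intro c
    have h := (hb (c.support.sup id + 1) c).1
    rw [← norm_haarLp_sum hP1] at h
    rw [hf, he, lincomb_eq, lincomb_eq]
    exact le_of_rpow_le hp hC.le (norm_nonneg _) (norm_nonneg _) h
  have hdense : DenseRange e := haarLp_dense hP1
  refine ⟨f.extendOfNorm e, ⟨D⁻¹, by positivity, ?_⟩, ?_⟩
  · intro F
    refine hdense.induction_on (p := fun F => D⁻¹ * ‖F‖ ≤ ‖f.extendOfNorm e F‖) F ?_ ?_
    · exact isClosed_le (by fun_prop) (by fun_prop)
    · intro c
      rw [LinearMap.extendOfNorm_eq hdense ⟨D, hupper⟩]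
      rw [inv_mul_le_iff₀ hD0]
      exact hlower c
  · intro F
    refine hdense.induction_on
      (p := fun F => f.extendOfNorm e F ∈ closure (Submodule.span ℝ (Set.range b) : Set (Lp ℝ P (volume : Measure ℝ)))) F ?_ ?_
    · exact isClosed_closure.preimage (f.extendOfNorm e).continuous
    · intro c
      rw [LinearMap.extendOfNorm_eq hdense ⟨D, hupper⟩]
      apply subset_closure
      rw [hf, Finsupp.linearCombination_apply, Finsupp.sum]
      exact Submodule.sum_mem _ fun i _ => Submodule.smul_mem _ _ (Submodule.subset_span ⟨i, rfl⟩)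

end

end Pool.Agent.Lib.MP89175a
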