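import Mathlib
import Pool.Agent.Lib.MP_89175a_an.Spec2

/-!
MODULE SCHAUDER: the partial sum inequality gives a Schauder basis of the closed span.
-/

open Finset MeasureTheory Filter Topology
open scoped ENNReal

namespace Pool.Agent.Lib.MP89175a

section
variable {X : Type*} [NormedAddCommGroup X] [NormedSpace ℝ X]

lemma sch_rep (x : ℕ → X) {s : X} (hs : s ∈ Submodule.span ℝ (Set.range x)) :
    ∃ (a : ℕ → ℝ) (N : ℕ), ∀ n, N ≤ n → ∑ i ∈ range n, a i • x i = s := by
  obtain ⟨c, hc⟩ := Finsupp.mem_span_range_iff_exists_finsupp.1 hs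
  refine ⟨c, c.support.sup id + 1, ?_⟩
  intro n hn
  rw [← hc, Finsupp.sum]
  symm
  apply Finset.sum_subset
  · intro i hi
    have : i ≤ c.support.sup id := Finset.le_sup (f := id) hi
    exact Finset.mem_range.2 (by omega)
  · intro i _ hi
    rw [Finsupp.notMem_support_iff.1 hi, zero_smul]

lemma sch_coef {x : ℕ → X} {C : ℝ}
    (h : ∀ (m n : ℕ) (a : ℕ → ℝ), m ≤ n → ‖∑ i ∈ range m, a i • x i‖ ≤ C * ‖∑ i ∈ range n, a i • x i‖)
    (a : ℕ → ℝ) {i n : ℕ} (hin : i < n) : |a i| * ‖x i‖ ≤ 2 * C * ‖∑ j ∈ range n, a j • x j‖ := by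
  have h1 := h (i + 1) n a (by omega)
  have h2 := h i n a (by omega)
  have e : a i • x i = ∑ j ∈ range (i + 1), a j • x j - ∑ j ∈ range i, a j • x j := by
    rw [Finset.sum_range_succ]; abel
  calc |a i| * ‖x i‖ = ‖a i • x i‖ := by rw [norm_smul, Real.norm_eq_abs]
    _ ≤ ‖∑ j ∈ range (i + 1), a j • x j‖ + ‖∑ j ∈ range i, a j • x j‖ := by
      rw [e]; exact norm_sub_le _ _
    _ ≤ 2 * C * ‖∑ j ∈ range n, a j • x j‖ := by linarith

theorem schauder_of_prefix : SchauderOfPrefix X := by
  intro x C hx h v hv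
  have hC : 1 ≤ C := by
    have h1 := h 1 1 (fun _ => 1) le_rfl
    simp only [Finset.sum_range_one, one_smul] at h1
    have h2 : 0 < ‖x 0‖ := norm_pos_iff.2 (hx 0)
    by_contra hc
    push Not at hc
    nlinarith
  have hC0 : 0 ≤ C := by linarith
  -- approximating sequence
  obtain ⟨s, hs, hsv⟩ := mem_closure_iff_seq_limit.1 hv
  choose A N hA using fun k => sch_rep x (hs k)
  -- coefficients form Cauchy sequences
  have hcau : ∀ i, CauchySeq (fun k => A k i) := by
    intro i
    have hxi : 0 < ‖x i‖ := norm_pos_iff.2 (hx i)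
    have hsc : CauchySeq s := hsv.cauchySeq
    rw [Metric.cauchySeq_iff'] at hsc ⊢
    intro ε hε
    obtain ⟨K, hK⟩ := hsc (ε * ‖x i‖ / (2 * C)) (by positivity)
    refine ⟨K, fun k hk => ?_⟩
    have h1 := hK k hk
    rw [dist_eq_norm] at h1 ⊢
    set n := max (max (N k) (N K)) (i + 1) with hn
    have e : ∑ j ∈ range n, (A k j - A K j) • x j = s k - s K := by
      simp only [sub_smul]
      rw [Finset.sum_sub_distrib, hA k n (by omega), hA K n (by omega)]
    have h2 := sch_coef h (fun j => A k j - A K j) (i := i) (n := n) (by omega)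
    rw [e] at h2
    have h3 : |A k i - A K i| * ‖x i‖ < ε * ‖x i‖ := by
      calc |A k i - A K i| * ‖x i‖ ≤ 2 * C * ‖s k - s K‖ := h2
        _ < 2 * C * (ε * ‖x i‖ / (2 * C)) := by
          apply mul_lt_mul_of_pos_left h1 (by positivity)
        _ = ε * ‖x i‖ := by field_simp
    rw [Real.norm_eq_abs]
    exact lt_of_mul_lt_mul_right h3 hxi.le
  choose a ha using fun i => cauchySeq_tendsto_of_complete (hcau i)
  -- partial sums of the limit coefficients
  have hpart : ∀ n, Tendsto (fun k => ∑ i ∈ range n, A k i • x i) atTop (𝓝 (∑ i ∈ range n, a i • x i)) := by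
    intro n
    apply tendsto_finsetSum
    intro i _
    exact (ha i).smul_const (x i)
  have hest : ∀ n k, N k ≤ n → ‖∑ i ∈ range n, a i • x i - s k‖ ≤ C * ‖v - s k‖ := by
    intro n k hnk
    have h1 : Tendsto (fun j => ‖∑ i ∈ range n, A j i • x i - s k‖) atTop
        (𝓝 ‖∑ i ∈ range n, a i • x i - s k‖) := ((hpart n).sub_const (s k)).norm
    have h2 : Tendsto (fun j => C * ‖s j - s k‖) atTop (𝓝 (C * ‖v - s k‖)) :=
      ((hsv.sub_const (s k)).norm).const_mul C
    apply le_of_tendsto_of_tendsto' h1 h2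
    intro j
    have e1 : ∑ i ∈ range n, A j i • x i - s k = ∑ i ∈ range n, (A j i - A k i) • x i := by
      simp only [sub_smul]
      rw [Finset.sum_sub_distrib, hA k n hnk]
    have e2 : ∑ i ∈ range (max n (N j)), (A j i - A k i) • x i = s j - s k := by
      simp only [sub_smul]
      rw [Finset.sum_sub_distrib, hA j _ (by omega), hA k _ (by omega)]
    rw [e1, ← e2]
    exact h n (max n (N j)) _ (by omega)
  have hconv : Tendsto (fun n => ∑ i ∈ range n, a i • x i) atTop (𝓝 v) := by
    rw [Metric.tendsto_atTop]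
    intro ε hε
    have hsv' := Metric.tendsto_atTop.1 hsv (ε / (C + 1)) (by positivity)
    obtain ⟨k, hk⟩ := hsv'
    have hk' := hk k le_rfl
    rw [dist_eq_norm, ← norm_neg, neg_sub] at hk'
    refine ⟨N k, fun n hn => ?_⟩
    rw [dist_eq_norm]
    calc ‖∑ i ∈ range n, a i • x i - v‖ = ‖(∑ i ∈ range n, a i • x i - s k) - (v - s k)‖ := by
          congr 1; abel
      _ ≤ ‖∑ i ∈ range n, a i • x i - s k‖ + ‖v - s k‖ := norm_sub_le _ _
      _ ≤ C * ‖v - s k‖ + ‖v - s k‖ := by linarith [hest n k hn]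
      _ = (C + 1) * ‖v - s k‖ := by ring
      _ < (C + 1) * (ε / (C + 1)) := mul_lt_mul_of_pos_left hk' (by positivity)
      _ = ε := by field_simp
  refine ⟨a, hconv, ?_⟩
  intro b hb
  have hdiff : Tendsto (fun n => ∑ i ∈ range n, (b i - a i) • x i) atTop (𝓝 0) := by
    have := Tendsto.sub hb hconv
    rw [sub_self] at this
    refine this.congr ?_
    intro n
    simp only [sub_smul]
    rw [Finset.sum_sub_distrib]
  have hzero : ∀ m, ∑ i ∈ range m, (b i - a i) • x i = 0 := by
    intro m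
    have h1 : Tendsto (fun n => C * ‖∑ i ∈ range n, (b i - a i) • x i‖) atTop (𝓝 0) := by
      have := (hdiff.norm).const_mul C
      simpa using this
    have h2 : ‖∑ i ∈ range m, (b i - a i) • x i‖ ≤ 0 := by
      apply ge_of_tendsto h1
      filter_upwards [eventually_ge_atTop m] with n hn
      exact h m n _ hn
    exact norm_le_zero_iff.1 h2
  ext i
  have h1 := hzero (i + 1)
  rw [Finset.sum_range_succ, hzero i, zero_add] at h1
  rcases smul_eq_zero.1 h1 with h2 | h2
  · linarith
  · exact absurd h2 (hx i)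

end

end Pool.Agent.Lib.MP89175a
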