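import Mathlib
import Pool.Agent.Lib.MP_89175a_an.Recursion
import Pool.Agent.Lib.MP_89175a_an.Haar
import Pool.Agent.Lib.MP_89175a_an.Embed
import Pool.Agent.Lib.MP_89175a_an.Schauder

/-!
The limit object and the final theorem.
-/

open Finset MeasureTheory Complex Filter Topology
open scoped ENNReal NNReal

namespace Pool.Agent.Lib.MP89175a

variable {P : ℝ≥0∞} [hP : Fact (1 ≤ P)]

/-- the sequence of states -/
theorem exists_states (hP1 : 1 < P) (hP2 : P < 2) (ρ : ℕ → ℝ) (hρ : ∀ m, 0 < ρ m) :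
    ∃ (G : Lp ℝ P (volume : Measure ℝ)) (C : ℝ) (S : ℕ → St P), G ≠ 0 ∧ 1 ≤ C ∧ (S 0).n = 0 ∧ (S 0).β = 1 ∧
      (∀ m, VS G C m (S m)) ∧ ∀ m, RS ρ m (S m) (S (m + 1)) := by
  obtain ⟨G, C, hC, hG1, hG2, hgad⟩ := gadget hP1 hP2
  have hG : G ≠ 0 := by
    rintro rfl
    have := hG2 1 (fun _ => 1) 0 (by norm_num)
    simp at this
    linarith
  set s₀ : St P := ⟨G, 0, fun _ => 0, fun _ => 0, fun _ => 0, 1⟩ with hs₀
  have h0 : VS G C 0 s₀ := by
    refine ⟨one_pos, ⟨48 * C, le_rfl, by linarith, 0, le_rfl, by norm_num, ?_, ?_⟩,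
      ⟨0, le_rfl, by norm_num, sqInv_zero hP1 hP2 _ _ _⟩, fun i hi => by omega⟩
    · intro N a
      simp [hs₀]
    · intro m a hm
      have hm' : m = 0 := by
        have : m ≤ 0 := hm
        omega
      simp [hm', hs₀]
  obtain ⟨S, hS0, hSV, hSR⟩ := dep_seq (VS G C) (RS ρ) s₀ h0 (fun m s hs =>
    rec_step hP1 hP2 hC hG1 hG2 hgad ρ hρ m s hs)
  exact ⟨G, C, S, hG, hC, by rw [hS0], by rw [hS0], hSV, hSR⟩

/-- the limit object -/
theorem exists_limit (hP1 : 1 < P) (hP2 : P < 2) (ρ : ℕ → ℝ) (hρ : ∀ m, 0 < ρ m) :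
    ∃ (f : Lp ℝ P (volume : Measure ℝ)) (lam : ℕ → ℝ) (w : ℕ → Lp ℂ P (volume : Measure ℝ)) (K : ℕ → ℝ)
      (b : ℕ → Lp ℝ P (volume : Measure ℝ)) (U : ℕ → ℤ → ℂ),
      f ≠ 0 ∧ (∃ C : ℝ, ∀ (m n : ℕ) (a : ℕ → ℝ), m ≤ n →
        ‖∑ i ∈ range m, a i • tr (lam i) f‖ ≤ C * ‖∑ i ∈ range n, a i • tr (lam i) f‖) ∧
      (∀ m, b m ∈ Submodule.span ℝ (Set.range fun i => tr (lam i) f)) ∧
      (∀ m, ‖b m - MK (K m) (w m)‖ ≤ 2 * ρ m) ∧
      (∀ M, ∃ η : ℝ, η ≤ 1 / 2 ∧ SqInv M w K η) ∧
      (∀ m, w m =ᵐ[volume] fun y => ((|haar P.toReal m (Int.fract y)| : ℝ) : ℂ) * U m ⌊y⌋) ∧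
      (∀ m n, ‖U m n‖ ≤ 100 / (1 + |(n : ℝ)|)) ∧ (∀ m, 1 ≤ ‖U m 0‖) := by
  obtain ⟨G, C, S, hG, hC, hn0, hβ0, hV, hR⟩ := exists_states hP1 hP2 ρ hρ
  have hn_lt : ∀ m, (S m).n < (S (m + 1)).n := fun m => (hR m).2.1
  have hn_mono : StrictMono fun m => (S m).n := strictMono_nat_of_lt_succ hn_lt
  have hn_le : ∀ m, m ≤ (S m).n := fun m => hn_mono.le_apply
  -- convergence of the functions
  have hβpos : ∀ m, 0 < (S m).β := fun m => (hV m).1
  have hβ_half : ∀ m, (S (m + 1)).β ≤ (S m).β / 2 := fun m => (hR m).2.2.2.2.1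
  have hβ_pow : ∀ m k, (S (m + k)).β ≤ (S m).β / 2 ^ k := by
    intro m k
    induction k with
    | zero => simp
    | succ k ih =>
      calc (S (m + (k + 1))).β ≤ (S (m + k)).β / 2 := hβ_half (m + k)
        _ ≤ (S m).β / 2 ^ k / 2 := by gcongr
        _ = _ := by rw [pow_succ]; field_simp
  have hf_step : ∀ m, ‖(S (m + 1)).f - (S m).f‖ ≤ (S m).β / 2 := fun m => (hR m).2.2.2.1
  have hdist : ∀ m k, dist ((S (m + k)).f) ((S (m + (k + 1))).f) ≤ (S m).β / 2 / 2 ^ k := by
    intro m k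
    rw [dist_comm, dist_eq_norm]
    calc _ ≤ (S (m + k)).β / 2 := hf_step (m + k)
      _ ≤ (S m).β / 2 ^ k / 2 := by gcongr; exact hβ_pow m k
      _ = _ := by ring
  have hcauchy : CauchySeq fun m => (S m).f := by
    apply cauchySeq_of_le_geometric_two (C := 1)
    intro k
    have := hdist 0 k
    rw [hβ0, zero_add, zero_add] at this
    exact this
  obtain ⟨f, hf⟩ := cauchySeq_tendsto_of_complete hcauchy
  have hfm : ∀ m, ‖(S m).f - f‖ ≤ (S m).β := by
    intro m
    rw [← dist_eq_norm]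
    have h1 : Tendsto (fun k => (S (m + k)).f) atTop (𝓝 f) := by
      have := (tendsto_add_atTop_iff_nat (f := fun k => (S k).f) m).2 hf
      refine this.congr fun k => ?_
      rw [add_comm]
    exact dist_le_of_le_geometric_two_of_tendsto₀ (f := fun k => (S (m + k)).f) (C := (S m).β) (hdist m) h1
  -- stability
  have hlam_stab : ∀ m k i, i < (S m).n → (S (m + k)).lam i = (S m).lam i := by
    intro m k i hi
    induction k with
    | zero => rfl
    | succ k ih =>
      rw [← ih]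
      apply (hR (m + k)).1 i
      exact lt_of_lt_of_le hi (hn_mono.monotone (Nat.le_add_right m k))
  set lam : ℕ → ℝ := fun i => (S (i + 1)).lam i with hlamdef
  have hlam : ∀ m i, i < (S m).n → (S m).lam i = lam i := by
    intro m i hi
    have hi' : i < (S (i + 1)).n := lt_of_lt_of_le (Nat.lt_succ_self i) (hn_le (i + 1))
    rw [← hlam_stab m (i + 1) i hi, hlamdef]
    simp only
    rw [← hlam_stab (i + 1) m i hi', add_comm]
  have hw_stab : ∀ i k, (S (i + 1 + k)).w i = (S (i + 1)).w i ∧ (S (i + 1 + k)).K i = (S (i + 1)).K i := by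
    intro i k
    induction k with
    | zero => exact ⟨rfl, rfl⟩
    | succ k ih =>
      have := (hR (i + 1 + k)).2.2.1 i (by omega)
      exact ⟨this.1.trans ih.1, this.2.trans ih.2⟩
  set w : ℕ → Lp ℂ P (volume : Measure ℝ) := fun i => (S (i + 1)).w i with hwdef
  set K : ℕ → ℝ := fun i => (S (i + 1)).K i with hKdef
  have hwK : ∀ M i, i < M → (S M).w i = w i ∧ (S M).K i = K i := by
    intro M i hi
    obtain ⟨k, rfl⟩ := Nat.exists_eq_add_of_le (show i + 1 ≤ M from hi)
    exact hw_stab i k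
  choose κ hκ N hN hout hκβ using fun m => (hR m).2.2.2.2.2.1
  choose U hU hUb hU0 using fun m => (hR m).2.2.2.2.2.2
  set b : ℕ → Lp ℝ P (volume : Measure ℝ) := fun m => κ m • ∑ j ∈ range (N m), tr (lam ((S m).n + j)) f with hb
  refine ⟨f, lam, w, K, b, U, ?_, ⟨48 * C + 1, ?_⟩, ?_, ?_, ?_, ?_, hUb, hU0⟩
  · -- f ≠ 0
    have hG0 : 0 < ‖G‖ := norm_pos_iff.2 hG
    have h1 : ∀ m, ‖(S m).f - G‖ ≤ 1 / 2 * ‖G‖ := by
      intro m
      obtain ⟨-, ⟨Cc, -, -, δ, -, hδ, hVm⟩, -⟩ := hV m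
      have := hVm.close 1 (fun _ => 1)
      simp only [Finset.range_one, Finset.sum_singleton, Nat.cast_zero, tr_zero, one_smul] at this
      exact this.trans (by gcongr)
    have h2 : ‖f - G‖ ≤ 1 / 2 * ‖G‖ := by
      refine le_of_tendsto ((hf.sub_const G).norm) ?_
      exact Eventually.of_forall h1
    intro h
    rw [h, zero_sub, norm_neg] at h2
    linarith
  · -- prefix inequality
    intro m n a hmn
    have hlim : ∀ k : ℕ, Tendsto (fun r => ‖∑ i ∈ range k, a i • tr (lam i) (S r).f‖) atTop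
        (𝓝 ‖∑ i ∈ range k, a i • tr (lam i) f‖) := by
      intro k
      apply Tendsto.norm
      apply tendsto_finsetSum
      intro i _
      apply Tendsto.const_smul
      exact ((tr (lam i)).continuous.tendsto f).comp hf
    refine le_of_tendsto_of_tendsto (hlim m) ((hlim n).const_mul (48 * C + 1)) ?_
    filter_upwards [eventually_ge_atTop n] with r hr
    obtain ⟨-, ⟨Cc, hCc1, hCc2, δ, -, -, hVr⟩, -⟩ := hV r
    have hnr : n ≤ (S r).n := hr.trans (hn_le r)
    have h1 := hVr.pref m (cut n a) (hmn.trans hnr)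
    have e1 : ∑ i ∈ range m, cut n a i • tr ((S r).lam i) (S r).f = ∑ i ∈ range m, a i • tr (lam i) (S r).f := by
      refine Finset.sum_congr rfl fun i hi => ?_
      rw [Finset.mem_range] at hi
      rw [hlam r i (by omega)]
      unfold cut
      rw [if_pos (by omega)]
    have e2 : ∑ i ∈ range (S r).n, cut n a i • tr ((S r).lam i) (S r).f = ∑ i ∈ range n, a i • tr (lam i) (S r).f := by
      rw [← Finset.sum_subset (Finset.range_mono hnr)]
      · refine Finset.sum_congr rfl fun i hi => ?_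
        rw [Finset.mem_range] at hi
        rw [hlam r i (by omega)]
        unfold cut
        rw [if_pos hi]
      · intro i _ hi
        rw [Finset.mem_range] at hi
        unfold cut
        rw [if_neg hi, zero_smul]
    rw [e1, e2] at h1
    exact h1.trans (by gcongr)
  · -- membership
    intro m
    apply Submodule.smul_mem
    apply Submodule.sum_mem
    intro j _
    exact Submodule.subset_span ⟨(S m).n + j, rfl⟩
  · -- approximation
    intro m
    have h1 := hout m
    have h2 : ∑ j ∈ range (N m), tr ((S (m + 1)).lam ((S m).n + j)) (S (m + 1)).f =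
        ∑ j ∈ range (N m), tr (lam ((S m).n + j)) (S (m + 1)).f := by
      refine Finset.sum_congr rfl fun j hj => ?_
      rw [Finset.mem_range] at hj
      rw [hlam (m + 1) ((S m).n + j) (by rw [hN m]; omega)]
    rw [h2] at h1
    have h3 : ‖b m - κ m • ∑ j ∈ range (N m), tr (lam ((S m).n + j)) (S (m + 1)).f‖ ≤ ρ m := by
      rw [hb]
      simp only
      rw [← smul_sub, ← Finset.sum_sub_distrib, norm_smul, Real.norm_eq_abs, abs_of_pos (hκ m)]
      have h4 : ‖∑ j ∈ range (N m), (tr (lam ((S m).n + j)) f - tr (lam ((S m).n + j)) (S (m + 1)).f)‖ ≤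
          N m * (S (m + 1)).β := by
        refine (norm_sum_le _ _).trans ?_
        have h5 : ∀ j ∈ range (N m), ‖tr (lam ((S m).n + j)) f - tr (lam ((S m).n + j)) (S (m + 1)).f‖ ≤
            (S (m + 1)).β := by
          intro j _
          rw [← map_sub, norm_tr, norm_sub_rev]
          exact hfm (m + 1)
        refine (Finset.sum_le_sum h5).trans ?_
        rw [Finset.sum_const, Finset.card_range, nsmul_eq_mul]
      calc κ m * ‖∑ j ∈ range (N m), (tr (lam ((S m).n + j)) f - tr (lam ((S m).n + j)) (S (m + 1)).f)‖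
          ≤ κ m * (N m * (S (m + 1)).β) := by
            have := (hκ m).le
            gcongr
        _ = κ m * N m * (S (m + 1)).β := by ring
        _ ≤ ρ m := hκβ m
    calc ‖b m - MK (K m) (w m)‖ ≤ ‖b m - κ m • ∑ j ∈ range (N m), tr (lam ((S m).n + j)) (S (m + 1)).f‖ +
          ‖κ m • ∑ j ∈ range (N m), tr (lam ((S m).n + j)) (S (m + 1)).f - MK (K m) (w m)‖ :=
          norm_sub_le_norm_sub_add_norm_sub _ _ _
      _ ≤ ρ m + ρ m := add_le_add h3 h1
      _ = _ := by ring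
  · -- square function invariant
    intro M
    obtain ⟨-, -, ⟨η, -, hη, hSq⟩, -⟩ := hV M
    exact ⟨η, hη.le, sqInv_congr M _ w _ K η (fun i hi => (hwK M i hi).1) (fun i hi => (hwK M i hi).2) hSq⟩
  · intro m
    exact hU m

/-- main theorem, analytic form -/
theorem main_analytic (hP1 : 1 < P) (hP2 : P < 2) (hdq : DqHaar P) :
    ∃ (f : Lp ℝ P (volume : Measure ℝ)) (lam : ℕ → ℝ),
      f ≠ 0 ∧ (∃ C : ℝ, ∀ (m n : ℕ) (a : ℕ → ℝ), m ≤ n →
        ‖∑ i ∈ range m, a i • tr (lam i) f‖ ≤ C * ‖∑ i ∈ range n, a i • tr (lam i) f‖) ∧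
      ∃ T : Lp ℝ P (volume.restrict (Set.Icc (0 : ℝ) 1)) →L[ℝ] Lp ℝ P (volume : Measure ℝ),
        (∃ δ : ℝ, 0 < δ ∧ ∀ F, δ * ‖F‖ ≤ ‖T F‖) ∧
        ∀ F, T F ∈ closure (Submodule.span ℝ (Set.range fun i => tr (lam i) f) :
          Set (Lp ℝ P (volume : Measure ℝ))) := by
  have hP' : P ≠ ∞ := ne_top_of_lt hP2
  set p := P.toReal with hp
  have h1 : 1 < p := toReal_gt_one hP1 hP2
  have h2 : p < 2 := toReal_lt_two hP2
  have hp0 : 0 < p := by linarith
  have hp1 : 0 < p - 1 := by linarith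
  set r₀ : ℝ := (p - 1) / 48 with hr₀
  have hr₀0 : 0 < r₀ := by positivity
  obtain ⟨f, lam, w, K, b, U, hf, hpre, hbmem, hbg, hSq, hw, hUb, hU0⟩ := exists_limit hP1 hP2
    (fun m => r₀ * (1 / 2) ^ m) (fun m => by positivity)
  refine ⟨f, lam, hf, hpre, ?_⟩
  obtain ⟨C₁, hC₁, hdq⟩ := hdq
  obtain ⟨hw1, hdq⟩ := hdq w U hw hUb hU0
  obtain ⟨C₂, hC₂, hsq⟩ := haar_square h1 h2
  -- perturbation
  have hpert : ∀ (M : ℕ) (c : ℕ → ℝ), ‖∑ m ∈ range M, c m • b m - gsum M w K c‖ ≤ 1 / 2 * ‖gsum M w K c‖ := by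
    intro M c
    obtain ⟨η, hη, hSqM⟩ := hSq M
    have h3 := (sqInv_concl hP1 hP2 M w K η hη hSqM c).1
    have h4 : ∀ m ∈ range M, |c m| ≤ 6 / (p - 1) * ‖gsum M w K c‖ := by
      intro m hm
      have h5 := le_DQ P_ne_zero hP' M w c (Finset.mem_range.1 hm)
      have h6 : |c m| ^ p ≤ 6 / (p - 1) * ‖gsum M w K c‖ ^ p := by
        calc |c m| ^ p = |c m| ^ p * 1 := by ring
          _ ≤ |c m| ^ p * ‖w m‖ ^ p := by
              gcongr
              exact Real.one_le_rpow (hw1 m) hp0.le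
          _ ≤ DQ M w c := h5
          _ ≤ _ := h3
      have h7 : 1 ≤ 6 / (p - 1) := by
        rw [le_div_iff₀ hp1]
        linarith
      have h8 : |c m| ^ p ≤ (6 / (p - 1) * ‖gsum M w K c‖) ^ p := by
        rw [Real.mul_rpow (by positivity) (norm_nonneg _)]
        refine h6.trans ?_
        gcongr
        calc 6 / (p - 1) = (6 / (p - 1)) ^ (1 : ℝ) := (Real.rpow_one _).symm
          _ ≤ (6 / (p - 1)) ^ p := Real.rpow_le_rpow_of_exponent_le h7 h1.le
      exact (Real.rpow_le_rpow_iff (abs_nonneg _) (by positivity) hp0).1 h8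
    have e1 : ∑ m ∈ range M, c m • b m - gsum M w K c = ∑ m ∈ range M, c m • (b m - MK (K m) (w m)) := by
      unfold gsum
      rw [← Finset.sum_sub_distrib]
      refine Finset.sum_congr rfl fun m _ => ?_
      rw [smul_sub]
    rw [e1]
    refine (norm_sum_le _ _).trans ?_
    calc ∑ m ∈ range M, ‖c m • (b m - MK (K m) (w m))‖
        ≤ ∑ m ∈ range M, (6 / (p - 1) * ‖gsum M w K c‖) * (2 * (r₀ * (1 / 2) ^ m)) := by
          apply Finset.sum_le_sum
          intro m hm
          rw [norm_smul, Real.norm_eq_abs]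
          exact mul_le_mul (h4 m hm) (hbg m) (norm_nonneg _) (by positivity)
      _ = (6 / (p - 1) * ‖gsum M w K c‖ * 2 * r₀) * ∑ m ∈ range M, (1 / 2 : ℝ) ^ m := by
          rw [Finset.mul_sum]
          refine Finset.sum_congr rfl fun m _ => ?_
          ring
      _ ≤ (6 / (p - 1) * ‖gsum M w K c‖ * 2 * r₀) * 2 := by
          gcongr
          exact sum_geometric_two_le M
      _ = _ := by
          rw [hr₀]
          field_simp
          ring
  obtain ⟨T, hT1, hT2⟩ := embed_of_haar hP' b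
    (2 ^ p * (2 * (6 / (p - 1))) + (3 / 2) ^ p * (3 * (C₁ * C₂))) (by positivity) (by
      intro M c
      obtain ⟨η, hη, hSqM⟩ := hSq M
      obtain ⟨h3, h4⟩ := sqInv_concl hP1 hP2 M w K η hη hSqM c
      obtain ⟨h5, h6⟩ := hdq M c
      obtain ⟨h7, h8⟩ := hsq M c
      have h9 := hpert M c
      set g := ‖gsum M w K c‖ with hg
      set B := ‖∑ m ∈ range M, c m • b m‖ with hB
      have hg0 : 0 ≤ g := norm_nonneg _
      have hB0 : 0 ≤ B := norm_nonneg _
      set I1 := ∫ y in Set.Ico (0 : ℝ) 1, |∑ m ∈ range M, c m * haar P.toReal m y| ^ P.toReal with hI1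
      set I2 := ∫ y in Set.Ico (0 : ℝ) 1, (∑ m ∈ range M, c m ^ 2 * haar P.toReal m y ^ 2) ^ (P.toReal / 2) with hI2
      have hI10 : 0 ≤ I1 := by
        rw [hI1]
        apply integral_nonneg
        intro y
        positivity
      have hgB : g ≤ 2 * B := by
        have : g ≤ B + ‖∑ m ∈ range M, c m • b m - gsum M w K c‖ := by
          calc g = ‖∑ m ∈ range M, c m • b m - (∑ m ∈ range M, c m • b m - gsum M w K c)‖ := by
                rw [sub_sub_cancel]
            _ ≤ _ := norm_sub_le _ _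
        linarith
      have hBg : B ≤ 3 / 2 * g := by
        have : B ≤ g + ‖∑ m ∈ range M, c m • b m - gsum M w K c‖ := by
          calc B = ‖gsum M w K c + (∑ m ∈ range M, c m • b m - gsum M w K c)‖ := by
                rw [add_sub_cancel]
            _ ≤ _ := norm_add_le _ _
        linarith
      have hgBp : g ^ p ≤ 2 ^ p * B ^ p := by
        rw [← Real.mul_rpow (by norm_num) hB0]
        exact Real.rpow_le_rpow hg0 hgB hp0.le
      have hBgp : B ^ p ≤ (3 / 2) ^ p * g ^ p := by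
        rw [← Real.mul_rpow (by norm_num) hg0]
        exact Real.rpow_le_rpow hB0 hBg hp0.le
      constructor
      · calc I1 ≤ 2 * I2 := h8
          _ ≤ 2 * (6 / (p - 1) * g ^ p) := by
              gcongr
              exact h5.trans h3
          _ ≤ 2 * (6 / (p - 1) * (2 ^ p * B ^ p)) := by gcongr
          _ = 2 ^ p * (2 * (6 / (p - 1))) * B ^ p := by ring
          _ ≤ _ := by
              gcongr
              have : 0 ≤ (3 / 2 : ℝ) ^ p * (3 * (C₁ * C₂)) := by positivity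
              linarith
      · calc B ^ p ≤ (3 / 2) ^ p * g ^ p := hBgp
          _ ≤ (3 / 2) ^ p * (3 * (C₁ * (C₂ * I1))) := by
              gcongr
              refine h4.trans ?_
              gcongr
              exact h6.trans (by gcongr)
          _ = (3 / 2) ^ p * (3 * (C₁ * C₂)) * I1 := by ring
          _ ≤ _ := by
              gcongr
              have : 0 ≤ (2 : ℝ) ^ p * (2 * (6 / (p - 1))) := by positivity
              linarith)
  refine ⟨T, hT1, fun F => ?_⟩
  refine closure_mono ?_ (hT2 F)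
  have : Submodule.span ℝ (Set.range b) ≤ Submodule.span ℝ (Set.range fun i => tr (lam i) f) := by
    rw [Submodule.span_le]
    rintro _ ⟨m, rfl⟩
    exact hbmem m
  exact this

end Pool.Agent.Lib.MP89175a
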